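import Mathlib

/-!
Definitions for MP_c53f59_gt (isospectral spherical space forms): everything which the statement
of the hand-in uses.
-/

namespace MPc53f59

open MvPolynomial

section general

set_option linter.unusedSectionVars false

variable {ι : Type} [Fintype ι] [DecidableEq ι]

/-- the polynomial x -> p (A x) -/
noncomputable def subst (A : Matrix ι ι ℝ) (p : MvPolynomial ι ℂ) : MvPolynomial ι ℂ :=
  bind₁ (fun i => ∑ j, C ((A i j : ℝ) : ℂ) * X j) p

/-- the Laplace operator of Euclidean space on polynomials -/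
noncomputable def laplacian (p : MvPolynomial ι ℂ) : MvPolynomial ι ℂ :=
  ∑ i, pderiv i (pderiv i p)

theorem subst_add (A : Matrix ι ι ℝ) (p q : MvPolynomial ι ℂ) :
    subst A (p + q) = subst A p + subst A q := by
  simp [subst]

theorem subst_smul (A : Matrix ι ι ℝ) (c : ℂ) (p : MvPolynomial ι ℂ) :
    subst A (c • p) = c • subst A p := by
  simp [subst]

theorem laplacian_add (p q : MvPolynomial ι ℂ) :
    laplacian (p + q) = laplacian p + laplacian q := by
  simp [laplacian, Finset.sum_add_distrib]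

theorem laplacian_smul (c : ℂ) (p : MvPolynomial ι ℂ) :
    laplacian (c • p) = c • laplacian p := by
  simp [laplacian, Finset.smul_sum]

/-- harmonic homogeneous polynomials of degree k (complex coefficients) which are invariant
under the group: the eigenspace of the eigenvalue k (k + N - 2) of the Laplacian of the
quotient of the unit sphere of R^N by the group -/
noncomputable def harm (G : Subgroup (Matrix.orthogonalGroup ι ℝ)) (k : ℕ) :
    Submodule ℂ (MvPolynomial ι ℂ) where
  carrier := {p | p.IsHomogeneous k ∧ laplacian p = 0 ∧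
    ∀ g ∈ G, subst (g : Matrix ι ι ℝ) p = p}
  add_mem' := by
    rintro p q ⟨hp1, hp2, hp3⟩ ⟨hq1, hq2, hq3⟩
    refine ⟨hp1.add hq1, by rw [laplacian_add, hp2, hq2, add_zero], fun g hg => ?_⟩
    rw [subst_add, hp3 g hg, hq3 g hg]
  zero_mem' := ⟨isHomogeneous_zero _ _ _, by simp [laplacian], fun g _ => by simp [subst]⟩
  smul_mem' := by
    rintro c p ⟨hp1, hp2, hp3⟩
    refine ⟨?_, by rw [laplacian_smul, hp2, smul_zero], fun g hg => ?_⟩
    · exact (homogeneousSubmodule ι ℂ k).smul_mem c hp1
    · rw [subst_smul, hp3 g hg]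

/-- homogeneous invariant polynomials of degree k -/
noncomputable def polyInv (G : Subgroup (Matrix.orthogonalGroup ι ℝ)) (k : ℕ) :
    Submodule ℂ (MvPolynomial ι ℂ) where
  carrier := {p | p.IsHomogeneous k ∧ ∀ g ∈ G, subst (g : Matrix ι ι ℝ) p = p}
  add_mem' := by
    rintro p q ⟨hp1, hp3⟩ ⟨hq1, hq3⟩
    refine ⟨hp1.add hq1, fun g hg => ?_⟩
    rw [subst_add, hp3 g hg, hq3 g hg]
  zero_mem' := ⟨isHomogeneous_zero _ _ _, fun g _ => by simp [subst]⟩
  smul_mem' := by
    rintro c p ⟨hp1, hp3⟩
    refine ⟨?_, fun g hg => ?_⟩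
    · exact (homogeneousSubmodule ι ℂ k).smul_mem c hp1
    · rw [subst_smul, hp3 g hg]

/-- the group acts freely on the unit sphere: no element other than 1 fixes a nonzero vector -/
def ActsFreely (G : Subgroup (Matrix.orthogonalGroup ι ℝ)) : Prop :=
  ∀ g ∈ G, g ≠ 1 → ∀ x : ι → ℝ, (g : Matrix ι ι ℝ).mulVec x = x → x = 0

/-- equal spectra of the two quotients of the unit sphere -/
def Isospectral (G₁ G₂ : Subgroup (Matrix.orthogonalGroup ι ℝ)) : Prop :=
  ∀ k : ℕ, Module.finrank ℂ (harm G₁ k) = Module.finrank ℂ (harm G₂ k)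

/-- the two quotients are isometric: the groups are conjugate in the orthogonal group -/
def Isometric (G₁ G₂ : Subgroup (Matrix.orthogonalGroup ι ℝ)) : Prop :=
  ∃ h : Matrix.orthogonalGroup ι ℝ, ∀ g, g ∈ G₁ ↔ h * g * h⁻¹ ∈ G₂

end general

/-- orders of groups G₁ which occur in a pair of isospectral non-isometric spherical space forms
of dimension 2 n - 1 -/
def pairOrders (n : ℕ) : Set ℕ :=
  {m | ∃ G₁ G₂ : Subgroup (Matrix.orthogonalGroup (Fin (2 * n)) ℝ),
    Finite G₁ ∧ Finite G₂ ∧ ActsFreely G₁ ∧ ActsFreely G₂ ∧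
    Isospectral G₁ G₂ ∧ ¬ Isometric G₁ G₂ ∧ Nat.card G₁ = m}

end MPc53f59
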