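import Mathlib
import Pool.Agent.Lib.MP_c53f59_gt.Defs0

/-!
Standard rotations (the definitions of the statement are in Defs0).
-/

namespace MPc53f59

/-- block diagonal matrix with rotations by the angles θ i -/
noncomputable def rotMat {n : ℕ} (θ : Fin n → ℝ) : Matrix (Fin (2 * n)) (Fin (2 * n)) ℝ :=
  Matrix.reindex finProdFinEquiv finProdFinEquiv
    (Matrix.blockDiagonal fun i : Fin n =>
      !![Real.cos (θ i), -Real.sin (θ i); Real.sin (θ i), Real.cos (θ i)])

theorem rotMat_mem {n : ℕ} (θ : Fin n → ℝ) :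
    rotMat θ ∈ Matrix.orthogonalGroup (Fin (2 * n)) ℝ := by
  rw [Matrix.mem_orthogonalGroup_iff]
  have h1 : (rotMat θ) * (rotMat θ).transpose =
      Matrix.reindex finProdFinEquiv finProdFinEquiv
      ((Matrix.blockDiagonal fun i : Fin n =>
        !![Real.cos (θ i), -Real.sin (θ i); Real.sin (θ i), Real.cos (θ i)]) *
      (Matrix.blockDiagonal fun i : Fin n =>
        !![Real.cos (θ i), -Real.sin (θ i); Real.sin (θ i), Real.cos (θ i)]).transpose) := by
    simp [rotMat]
  rw [h1, Matrix.blockDiagonal_transpose, ← Matrix.blockDiagonal_mul]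
  have h2 : (fun k : Fin n => !![Real.cos (θ k), -Real.sin (θ k); Real.sin (θ k),
      Real.cos (θ k)] * (!![Real.cos (θ k), -Real.sin (θ k); Real.sin (θ k),
      Real.cos (θ k)]).transpose) = fun _ => (1 : Matrix (Fin 2) (Fin 2) ℝ) := by
    funext k
    have := Real.cos_sq_add_sin_sq (θ k)
    ext i j
    fin_cases i <;> fin_cases j <;> simp [Matrix.mul_apply, Fin.sum_univ_two] <;> nlinarith
  rw [h2]
  have h3 : (Matrix.blockDiagonal fun _ : Fin n => (1 : Matrix (Fin 2) (Fin 2) ℝ)) = 1 :=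
    Matrix.blockDiagonal_one
  rw [h3]
  simp

/-- the standard rotation with angles θ i -/
noncomputable def rot {n : ℕ} (θ : Fin n → ℝ) : Matrix.orthogonalGroup (Fin (2 * n)) ℝ :=
  ⟨rotMat θ, rotMat_mem θ⟩

end MPc53f59
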