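import Mathlib
import Pool.Agent.Lib.MP_c53f59_gt.Defs

/-!
Further definitions for MP_c53f59_gt (word for word from the statement file of helper1).
-/

namespace MPc53f59

open MvPolynomial

section general
variable {ι : Type} [Fintype ι] [DecidableEq ι]

/-- the complexified matrix -/
noncomputable def toC (g : Matrix.orthogonalGroup ι ℝ) : Matrix ι ι ℂ :=
  (g : Matrix ι ι ℝ).map Complex.ofRealHom

end general

section lens
variable {n : ℕ}

/-- the lens group of order q with parameters s -/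
noncomputable def lens (q : ℕ) (s : Fin n → ℕ) :
    Subgroup (Matrix.orthogonalGroup (Fin (2 * n)) ℝ) :=
  Subgroup.zpowers (rot (fun i => 2 * Real.pi * (s i : ℝ) / (q : ℝ)))

end lens

section rigid

/-- the values w which are no poles -/
def Good (q : ℕ) (w : ℝ) : Prop := ∀ j : ℕ, w ≠ 2 * Real.cos (2 * Real.pi * (j : ℝ) / (q : ℝ))

/-- the function of w = z + 1/z attached to a lens space -/
noncomputable def phi {n : ℕ} (q : ℕ) (s : Fin n → ℕ) (w : ℝ) : ℝ :=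
  ∑ j ∈ Finset.range q,
    ∏ i, (w - 2 * Real.cos (2 * Real.pi * ((j * s i : ℕ) : ℝ) / (q : ℝ)))⁻¹

/-- two parameter vectors give isometric lens spaces -/
def Same {n : ℕ} (q : ℕ) (s s' : Fin n → ℕ) : Prop :=
  ∃ u : ℕ, Nat.Coprime u q ∧ ∃ τ : Equiv.Perm (Fin n), ∀ i,
    Real.cos (2 * Real.pi * (s' i : ℝ) / (q : ℝ)) =
      Real.cos (2 * Real.pi * ((u * s (τ i) : ℕ) : ℝ) / (q : ℝ))

def Rigid (q n : ℕ) : Prop :=
  ∀ s s' : Fin n → ℕ, (∀ i, 0 < s i ∧ 2 * s i < q ∧ Nat.Coprime (s i) q) →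
    (∀ i, 0 < s' i ∧ 2 * s' i < q ∧ Nat.Coprime (s' i) q) →
    (∀ w : ℝ, Good q w → phi q s w = phi q s' w) → Same q s s'

/-- core32 in the form of helper32; c x = 2 cos (2 pi 2^x / 11) -/
noncomputable def th (i : ZMod 5) : ℝ := 2 * Real.cos (2 * Real.pi * (2 : ℝ) ^ i.val / 11)

noncomputable def T11 (a : ZMod 5 → ℕ) : Polynomial ℝ :=
  ∑ j : ZMod 5, ∏ x : ZMod 5, (Polynomial.X - Polynomial.C (th (x + j))) ^ a x

end rigid

section groups
variable {n : ℕ}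

def IsQ8 (G : Subgroup (Matrix.orthogonalGroup (Fin (2 * n)) ℝ)) : Prop :=
  ∃ I J : Matrix.orthogonalGroup (Fin (2 * n)) ℝ, I * I = -1 ∧ J * J = -1 ∧ I * J = -(J * I) ∧
    ∀ g, g ∈ G ↔ g = 1 ∨ g = -1 ∨ g = I ∨ g = -I ∨ g = J ∨ g = -J ∨ g = I * J ∨ g = -(I * J)

def IsDic (G : Subgroup (Matrix.orthogonalGroup (Fin (2 * n)) ℝ)) : Prop :=
  ∃ a b : Matrix.orthogonalGroup (Fin (2 * n)) ℝ, a ^ 3 = -1 ∧ a ^ 2 ≠ 1 ∧ b * b = -1 ∧
    b * a = a⁻¹ * b ∧ ∀ g, g ∈ G ↔ ∃ i : Fin 6, g = a ^ (i : ℕ) ∨ g = a ^ (i : ℕ) * b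

end groups

end MPc53f59
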