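import Mathlib

/-!
The numbers cz u = 2 cos (2 pi u / q) for u : ZMod q.
-/

namespace MPc53f59

variable {q : ℕ} [NeZero q]

/-- 2 cos (2 pi u / q) -/
noncomputable def cz (u : ZMod q) : ℝ := 2 * Real.cos (2 * Real.pi * (u.val : ℝ) / (q : ℝ))

theorem cz_natCast (a : ℕ) :
    cz (a : ZMod q) = 2 * Real.cos (2 * Real.pi * (a : ℝ) / (q : ℝ)) := by
  have hq : (q : ℝ) ≠ 0 := Nat.cast_ne_zero.mpr (NeZero.ne q)
  unfold cz
  rw [ZMod.val_natCast]
  have h1 : (a : ℝ) = ((a % q : ℕ) : ℝ) + (q : ℝ) * ((a / q : ℕ) : ℝ) := by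
    exact_mod_cast (Nat.mod_add_div a q).symm
  have h2 : 2 * Real.pi * (a : ℝ) / (q : ℝ) =
      2 * Real.pi * ((a % q : ℕ) : ℝ) / (q : ℝ) + ((a / q : ℕ) : ℝ) * (2 * Real.pi) := by
    rw [h1]; field_simp
  rw [h2, Real.cos_add_nat_mul_two_pi]

theorem cz_neg (u : ZMod q) : cz (-u) = cz u := by
  have hq : (q : ℝ) ≠ 0 := Nat.cast_ne_zero.mpr (NeZero.ne q)
  by_cases hu : u = 0
  · simp [hu]
  · have h1 : (-u : ZMod q) = ((q - u.val : ℕ) : ZMod q) := by
      rw [Nat.cast_sub (ZMod.val_le u)]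
      simp
    rw [h1, cz_natCast, cz]
    rw [Nat.cast_sub (ZMod.val_le u)]
    have : 2 * Real.pi * ((q : ℝ) - (u.val : ℝ)) / (q : ℝ) =
        2 * Real.pi - 2 * Real.pi * (u.val : ℝ) / (q : ℝ) := by
      field_simp
    rw [this, Real.cos_two_pi_sub]

theorem cz_eq_iff (u v : ZMod q) : cz u = cz v ↔ u = v ∨ u = -v := by
  have hq : (q : ℝ) ≠ 0 := Nat.cast_ne_zero.mpr (NeZero.ne q)
  constructor
  · intro h
    unfold cz at h
    have h1 : Real.cos (2 * Real.pi * (u.val : ℝ) / (q : ℝ)) =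
        Real.cos (2 * Real.pi * (v.val : ℝ) / (q : ℝ)) := by linarith
    rw [Real.cos_eq_cos_iff] at h1
    obtain ⟨k, hk⟩ := h1
    have hpi := Real.pi_pos.ne'
    rcases hk with hk | hk
    · left
      have h2 : (v.val : ℝ) = (k : ℝ) * (q : ℝ) + (u.val : ℝ) := by
        field_simp at hk
        linarith
      have h3 : (v.val : ℤ) = k * (q : ℤ) + (u.val : ℤ) := by exact_mod_cast h2
      have h4 : ((v.val : ℤ) : ZMod q) = ((k * (q : ℤ) + (u.val : ℤ) : ℤ) : ZMod q) := by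
        rw [h3]
      push_cast at h4
      simp at h4
      exact h4.symm
    · right
      have h2 : (v.val : ℝ) = (k : ℝ) * (q : ℝ) - (u.val : ℝ) := by
        field_simp at hk
        linarith
      have h3 : (v.val : ℤ) = k * (q : ℤ) - (u.val : ℤ) := by exact_mod_cast h2
      have h4 : ((v.val : ℤ) : ZMod q) = ((k * (q : ℤ) - (u.val : ℤ) : ℤ) : ZMod q) := by
        rw [h3]
      push_cast at h4
      simp at h4
      rw [h4]; ring
  · rintro (h | h)
    · rw [h]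
    · rw [h, cz_neg]

/-- the largest value apart from 2 is cz 1 -/
theorem cz_lt_one (u : ZMod q) (h0 : u ≠ 0) (h1 : u ≠ 1) (h2 : u ≠ -1) : cz u < cz (1 : ZMod q) := by
  have hq : (q : ℝ) ≠ 0 := Nat.cast_ne_zero.mpr (NeZero.ne q)
  have hq0 : 0 < q := Nat.pos_of_ne_zero (NeZero.ne q)
  have hqr : (0 : ℝ) < (q : ℝ) := by exact_mod_cast hq0
  have main : ∀ u : ZMod q, u ≠ 0 → u ≠ 1 → 2 * u.val ≤ q → cz u < cz (1 : ZMod q) := by
    intro u h0 h1 hu
    have hv0 : 0 < u.val := by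
      rcases Nat.eq_zero_or_pos u.val with h | h
      · exact absurd ((ZMod.val_eq_zero u).mp h) h0
      · exact h
    have hv1 : u.val ≠ 1 := by
      intro h
      apply h1
      have : ((u.val : ℕ) : ZMod q) = ((1 : ℕ) : ZMod q) := by rw [h]
      simpa using this
    have hv2 : 2 ≤ u.val := by omega
    have e1 : cz (1 : ZMod q) = 2 * Real.cos (2 * Real.pi * ((1 : ℕ) : ℝ) / (q : ℝ)) := by
      have := cz_natCast (q := q) 1
      simpa using this
    rw [e1]
    unfold cz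
    have hlt : Real.cos (2 * Real.pi * (u.val : ℝ) / (q : ℝ)) <
        Real.cos (2 * Real.pi * ((1 : ℕ) : ℝ) / (q : ℝ)) := by
      apply Real.cos_lt_cos_of_nonneg_of_le_pi
      · positivity
      · rw [div_le_iff₀ hqr]
        have : (2 * u.val : ℝ) ≤ (q : ℝ) := by exact_mod_cast hu
        nlinarith [Real.pi_pos]
      · have : (1 : ℝ) < (u.val : ℝ) := by exact_mod_cast (by omega : 1 < u.val)
        apply div_lt_div_of_pos_right _ hqr
        push_cast
        nlinarith [Real.pi_pos]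
    linarith
  by_cases hu : 2 * u.val ≤ q
  · exact main u h0 h1 hu
  · rw [← cz_neg u]
    apply main (-u) (by simpa using h0) (fun h => h2 (by rw [← h]; simp))
    rw [ZMod.neg_val]
    split_ifs <;> omega

theorem cos_mul_eq {x y : ℝ} (h : Real.cos x = Real.cos y) (j : ℕ) :
    Real.cos ((j : ℝ) * x) = Real.cos ((j : ℝ) * y) := by
  rw [Real.cos_eq_cos_iff] at h ⊢
  obtain ⟨k, hk | hk⟩ := h
  · exact ⟨(j : ℤ) * k, Or.inl (by rw [hk]; push_cast; ring)⟩
  · exact ⟨(j : ℤ) * k, Or.inr (by rw [hk]; push_cast; ring)⟩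

end MPc53f59
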