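import Mathlib
import Pool.Agent.Lib.MP_c53f59_gt.Defs2
import Pool.Agent.Lib.MP_c53f59_gt.Cz1

/-!
From the function phi to the polynomials T.
-/

namespace MPc53f59

open Filter Topology

/-- units of Z/q modulo sign: h classes, represented by the powers of r -/
structure Dat (q h r : ℕ) [NeZero h] : Prop where
  cover : ∀ u : ZMod q, IsUnit u → ∃ x : ZMod h, u = (r : ZMod q) ^ x.val ∨
    u = -(r : ZMod q) ^ x.val
  inj : ∀ x y : ZMod h, ((r : ZMod q) ^ x.val = (r : ZMod q) ^ y.val ∨
    (r : ZMod q) ^ x.val = -(r : ZMod q) ^ y.val) → x = y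
  shift : ∀ x y : ZMod h, (r : ZMod q) ^ x.val * (r : ZMod q) ^ y.val =
    (r : ZMod q) ^ (x + y).val ∨ (r : ZMod q) ^ x.val * (r : ZMod q) ^ y.val =
    -(r : ZMod q) ^ (x + y).val
  unit : IsUnit (r : ZMod q)
  ne : ∀ x : ZMod h, (r : ZMod q) ^ x.val ≠ -(r : ZMod q) ^ x.val

theorem dat_3 : Dat 3 1 1 := by
  constructor <;> decide
theorem dat_4 : Dat 4 1 1 := by
  constructor <;> decide
theorem dat_6 : Dat 6 1 1 := by
  constructor <;> decide
theorem dat_5 : Dat 5 2 2 := by
  constructor <;> decide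
theorem dat_8 : Dat 8 2 3 := by
  constructor <;> decide
theorem dat_10 : Dat 10 2 3 := by
  constructor <;> decide
theorem dat_12 : Dat 12 2 5 := by
  constructor <;> decide
theorem dat_7 : Dat 7 3 2 := by
  constructor <;> decide
theorem dat_9 : Dat 9 3 2 := by
  constructor <;> decide
theorem dat_11 : Dat 11 5 2 := by
  constructor <;> decide

end MPc53f59
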