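import Mathlib
import Pool.Agent.Lib.MP_c53f59_gt.Pole1

/-!
From the function phi to the polynomials T : the pole lemma.
-/

namespace MPc53f59

open Filter Topology

set_option linter.unusedSectionVars false

variable {q h r : ℕ} [NeZero q] [NeZero h]

/-- the representatives C x = 2 cos (2 pi r^x / q) -/
noncomputable def Cx (q r : ℕ) [NeZero q] {h : ℕ} (x : ZMod h) : ℝ := cz ((r : ZMod q) ^ x.val)

noncomputable def TT (q r : ℕ) [NeZero q] {h : ℕ} [NeZero h] (e : ZMod h → ℕ) (w : ℝ) : ℝ :=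
  ∑ j : ZMod h, ∏ x : ZMod h, (w - Cx q r (x + j)) ^ e x

theorem Cx_inj (d : Dat q h r) (x y : ZMod h) (e : Cx q r x = Cx q r y) : x = y :=
  d.inj x y ((cz_eq_iff _ _).mp e)

theorem phi_eq {n : ℕ} (s : Fin n → ℕ) (w : ℝ) :
    phi q s w = ∑ j : ZMod q, ∏ i, (w - cz (j * (s i : ZMod q)))⁻¹ := by
  unfold phi
  have h1 : ∀ j ∈ Finset.range q, (∏ i, (w - 2 * Real.cos (2 * Real.pi * ((j * s i : ℕ) : ℝ) /
      (q : ℝ)))⁻¹) = ∏ i, (w - cz ((j : ZMod q) * (s i : ZMod q)))⁻¹ := by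
    intro j _
    refine Finset.prod_congr rfl fun i _ => ?_
    rw [← Nat.cast_mul, cz_natCast]
  rw [Finset.sum_congr rfl h1]
  refine Finset.sum_bij (fun j _ => (j : ZMod q)) (fun _ _ => Finset.mem_univ _) ?_ ?_ ?_
  · intro a ha b hb hab
    rw [Finset.mem_range] at ha hb
    have := congrArg ZMod.val hab
    simpa [ZMod.val_natCast, Nat.mod_eq_of_lt ha, Nat.mod_eq_of_lt hb] using this
  · intro b _
    exact ⟨b.val, Finset.mem_range.mpr (ZMod.val_lt b), by simp⟩
  · intro a _; rfl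

/-- the terms without poles at the numbers C x -/
noncomputable def Rr {n : ℕ} (q : ℕ) [NeZero q] (s : Fin n → ℕ) (w : ℝ) : ℝ := by
  classical
  exact ∑ j ∈ Finset.univ.filter (fun j : ZMod q => ¬ IsUnit j),
    ∏ i, (w - cz (j * (s i : ZMod q)))⁻¹

theorem sum_units (d : Dat q h r) (F : ZMod q → ℝ) (hF : ∀ j, F (-j) = F j) [DecidablePred
    (fun j : ZMod q => IsUnit j)] :
    ∑ j ∈ Finset.univ.filter (fun j : ZMod q => IsUnit j), F j =
      2 * ∑ y : ZMod h, F ((r : ZMod q) ^ y.val) := by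
  classical
  have hb : Finset.univ.filter (fun j : ZMod q => IsUnit j) =
      Finset.univ.biUnion (fun y : ZMod h =>
        ({(r : ZMod q) ^ y.val, -(r : ZMod q) ^ y.val} : Finset (ZMod q))) := by
    ext j
    simp only [Finset.mem_filter, Finset.mem_univ, true_and, Finset.mem_biUnion,
      Finset.mem_insert, Finset.mem_singleton]
    constructor
    · exact d.cover j
    · rintro ⟨y, hy | hy⟩
      · rw [hy]; exact d.unit.pow _
      · rw [hy]; exact (d.unit.pow _).neg
  rw [hb, Finset.sum_biUnion, Finset.mul_sum]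
  · refine Finset.sum_congr rfl fun y _ => ?_
    rw [Finset.sum_pair (d.ne y), hF]; ring
  · intro y _ y' _ hyy
    rw [Function.onFun, Finset.disjoint_left]
    intro a ha hb
    simp only [Finset.mem_insert, Finset.mem_singleton] at ha hb
    apply hyy
    rcases ha with ha | ha <;> rcases hb with hb | hb
    · exact d.inj y y' (Or.inl (by rw [← ha, hb]))
    · exact d.inj y y' (Or.inr (by rw [← ha, hb]))
    · exact d.inj y y' (Or.inr (by
        have : -(-(r : ZMod q) ^ y.val) = -(r : ZMod q) ^ y'.val := by rw [← ha, hb]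
        simpa using this))
    · exact d.inj y y' (Or.inl (by
        have : -(r : ZMod q) ^ y.val = -(r : ZMod q) ^ y'.val := by rw [← ha, hb]
        exact neg_injective this))

/-- number of i in the class x -/
def cnt {n : ℕ} {h : ℕ} (κ : Fin n → ZMod h) (x : ZMod h) : ℕ :=
  (Finset.univ.filter fun i => κ i = x).card

theorem prod_cnt {n : ℕ} (κ : Fin n → ZMod h) (f : ZMod h → ℝ) :
    ∏ i, f (κ i) = ∏ x, f x ^ cnt κ x := by
  classical
  rw [← Finset.prod_fiberwise_of_maps_to (s := Finset.univ) (t := Finset.univ) (g := κ)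
    (fun _ _ => Finset.mem_univ _)]
  refine Finset.prod_congr rfl fun x _ => ?_
  rw [Finset.prod_congr rfl (g := fun _ => f x)]
  · simp [cnt]
  · intro i hi
    rw [Finset.mem_filter] at hi
    rw [hi.2]

/-- classes of the parameters -/
def Cls {n : ℕ} (q r : ℕ) {h : ℕ} (s : Fin n → ℕ) (κ : Fin n → ZMod h) : Prop :=
  ∀ i, (s i : ZMod q) = (r : ZMod q) ^ (κ i).val ∨ (s i : ZMod q) = -(r : ZMod q) ^ (κ i).val

theorem exists_cls (d : Dat q h r) {n : ℕ} (s : Fin n → ℕ) (hs : ∀ i, Nat.Coprime (s i) q) :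
    ∃ κ : Fin n → ZMod h, Cls q r s κ := by
  have : ∀ i, ∃ x : ZMod h, (s i : ZMod q) = (r : ZMod q) ^ x.val ∨
      (s i : ZMod q) = -(r : ZMod q) ^ x.val := fun i =>
    d.cover _ ((ZMod.isUnit_iff_coprime _ _).mpr (hs i))
  choose κ hκ using this
  exact ⟨κ, hκ⟩

theorem cz_mul_cls (d : Dat q h r) {n : ℕ} (s : Fin n → ℕ) (κ : Fin n → ZMod h)
    (hκ : Cls q r s κ) (i : Fin n) (y : ZMod h) :
    cz ((r : ZMod q) ^ y.val * (s i : ZMod q)) = Cx q r (κ i + y) := by
  have hh : cz ((r : ZMod q) ^ (κ i).val * (r : ZMod q) ^ y.val) = Cx q r (κ i + y) := by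
    rcases d.shift (κ i) y with h | h
    · rw [h]; rfl
    · rw [h, cz_neg]; rfl
  rcases hκ i with h | h
  · rw [h, mul_comm, hh]
  · rw [h, mul_neg, cz_neg, mul_comm, hh]

theorem phi_split (d : Dat q h r) {n : ℕ} (s : Fin n → ℕ) (κ : Fin n → ZMod h)
    (hκ : Cls q r s κ) (w : ℝ) :
    phi q s w = 2 * ∑ y : ZMod h, ∏ x : ZMod h, ((w - Cx q r (x + y))⁻¹) ^ cnt κ x +
      Rr q s w := by
  classical
  rw [phi_eq, ← Finset.sum_filter_add_sum_filter_not Finset.univ (fun j : ZMod q => IsUnit j)]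
  congr 1
  · rw [sum_units d]
    · congr 1
      refine Finset.sum_congr rfl fun y _ => ?_
      rw [← prod_cnt κ (fun x => (w - Cx q r (x + y))⁻¹)]
      refine Finset.prod_congr rfl fun i _ => ?_
      rw [cz_mul_cls d s κ hκ]
    · intro j
      refine Finset.prod_congr rfl fun i _ => ?_
      rw [neg_mul, cz_neg]

theorem Rr_cont (d : Dat q h r) {n : ℕ} (s : Fin n → ℕ) (y : ZMod h) :
    ContinuousAt (Rr q s) (Cx q r y) := by
  classical
  unfold Rr
  refine tendsto_finsetSum _ fun j hj => ?_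
  refine tendsto_finsetProd _ fun i _ => ?_
  rw [Finset.mem_filter] at hj
  apply ContinuousAt.inv₀ (by fun_prop)
  intro h0
  have h1 : cz ((r : ZMod q) ^ y.val) = cz (j * (s i : ZMod q)) := by
    have : Cx q r y = cz (j * (s i : ZMod q)) := by linarith
    exact this
  rw [cz_eq_iff] at h1
  apply hj.2
  have hu : IsUnit ((r : ZMod q) ^ y.val) := d.unit.pow _
  rcases h1 with h1 | h1
  · rw [h1] at hu
    exact isUnit_of_mul_isUnit_left hu
  · rw [h1] at hu
    have : IsUnit (j * (s i : ZMod q)) := by simpa using hu.neg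
    exact isUnit_of_mul_isUnit_left this

noncomputable def DD (q r h : ℕ) [NeZero q] [NeZero h] (M : ℕ) (w : ℝ) : ℝ :=
  ∏ x : ZMod h, (w - Cx q r x) ^ M

theorem mul_term (a : ZMod h → ℕ) (M : ℕ) (hM : ∀ x, a x ≤ M) (w : ℝ)
    (hw : ∀ x : ZMod h, w ≠ Cx q r x) (y : ZMod h) :
    DD q r h M w * ∏ x : ZMod h, ((w - Cx q r (x + y))⁻¹) ^ a x =
      ∏ x : ZMod h, (w - Cx q r (x + y)) ^ (M - a x) := by
  have h1 : DD q r h M w = ∏ x : ZMod h, (w - Cx q r (x + y)) ^ M := by
    unfold DD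
    exact (Fintype.prod_equiv (Equiv.addRight y) _ _ (fun x => rfl)).symm
  rw [h1, ← Finset.prod_mul_distrib]
  refine Finset.prod_congr rfl fun x _ => ?_
  have h2 : w - Cx q r (x + y) ≠ 0 := sub_ne_zero.mpr (hw _)
  rw [inv_pow, pow_sub₀ _ h2 (hM x)]

theorem good_ne (w : ℝ) (hw : Good q w) (u : ZMod q) : w ≠ cz u := hw u.val

theorem DD_phi (d : Dat q h r) {n : ℕ} (s : Fin n → ℕ) (κ : Fin n → ZMod h)
    (hκ : Cls q r s κ) (M : ℕ) (hM : ∀ x, cnt κ x ≤ M) (w : ℝ) (hw : Good q w) :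
    DD q r h M w * phi q s w = 2 * TT q r (fun x => M - cnt κ x) w + DD q r h M w * Rr q s w := by
  rw [phi_split d s κ hκ, mul_add]
  congr 1
  rw [mul_left_comm, Finset.mul_sum]
  congr 1
  unfold TT
  refine Finset.sum_congr rfl fun y _ => ?_
  exact mul_term _ M hM w (fun x => good_ne w hw _) y

theorem good_eventually (q : ℕ) [NeZero q] (c : ℝ) : ∀ᶠ w in 𝓝[≠] c, Good q w := by
  have hfin : (Set.range (fun u : ZMod q => cz u)).Finite := Set.finite_range _
  have h1 : ∀ᶠ w in 𝓝[≠] c, w ∉ (Set.range (fun u : ZMod q => cz u)) := by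
    have h2 : ∀ᶠ w in 𝓝[≠] c, w ∉ (Set.range (fun u : ZMod q => cz u)) \ {c} := by
      have h3 : IsClosed ((Set.range (fun u : ZMod q => cz u)) \ {c}) :=
        (hfin.subset Set.sdiff_subset).isClosed
      have h4 : ((Set.range (fun u : ZMod q => cz u)) \ {c})ᶜ ∈ 𝓝 c := by
        apply h3.isOpen_compl.mem_nhds
        simp
      exact mem_nhdsWithin_of_mem_nhds h4
    filter_upwards [h2, self_mem_nhdsWithin] with w hw hw2 hw3
    exact hw ⟨hw3, hw2⟩
  filter_upwards [h1] with w hw j hj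
  apply hw
  exact ⟨(j : ZMod q), by rw [hj]; exact cz_natCast j⟩

theorem TT_cont (e : ZMod h → ℕ) : Continuous (TT q r e) := by
  unfold TT
  fun_prop

/-- POLE LEMMA -/
theorem pole (d : Dat q h r) {n : ℕ} (s s' : Fin n → ℕ) (κ κ' : Fin n → ZMod h)
    (hκ : Cls q r s κ) (hκ' : Cls q r s' κ') (M : ℕ) (hM0 : 0 < M)
    (hM : ∀ x, cnt κ x ≤ M) (hM' : ∀ x, cnt κ' x ≤ M)
    (hphi : ∀ w : ℝ, Good q w → phi q s w = phi q s' w) (y : ZMod h) :
    TT q r (fun x => M - cnt κ x) (Cx q r y) = TT q r (fun x => M - cnt κ' x) (Cx q r y) := by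
  set c := Cx q r y
  have hD : DD q r h M c = 0 := by
    unfold DD
    refine Finset.prod_eq_zero (Finset.mem_univ y) ?_
    simp [c, hM0.ne']
  have hDc : Continuous (DD q r h M) := by unfold DD; fun_prop
  have t1 : Tendsto (fun w => 2 * TT q r (fun x => M - cnt κ x) w + DD q r h M w * Rr q s w)
      (𝓝[≠] c) (𝓝 (2 * TT q r (fun x => M - cnt κ x) c + DD q r h M c * Rr q s c)) := by
    have : ContinuousAt (fun w => 2 * TT q r (fun x => M - cnt κ x) w + DD q r h M w * Rr q s w) c :=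
      ((continuous_const.mul (TT_cont _)).continuousAt).add (hDc.continuousAt.mul (Rr_cont d s y))
    exact this.tendsto.mono_left nhdsWithin_le_nhds
  have t2 : Tendsto (fun w => 2 * TT q r (fun x => M - cnt κ' x) w + DD q r h M w * Rr q s' w)
      (𝓝[≠] c) (𝓝 (2 * TT q r (fun x => M - cnt κ' x) c + DD q r h M c * Rr q s' c)) := by
    have : ContinuousAt (fun w => 2 * TT q r (fun x => M - cnt κ' x) w +
        DD q r h M w * Rr q s' w) c :=
      ((continuous_const.mul (TT_cont _)).continuousAt).add (hDc.continuousAt.mul (Rr_cont d s' y))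
    exact this.tendsto.mono_left nhdsWithin_le_nhds
  have t3 : (fun w => 2 * TT q r (fun x => M - cnt κ x) w + DD q r h M w * Rr q s w) =ᶠ[𝓝[≠] c]
      (fun w => 2 * TT q r (fun x => M - cnt κ' x) w + DD q r h M w * Rr q s' w) := by
    filter_upwards [good_eventually q c] with w hw
    rw [← DD_phi d s κ hκ M hM w hw, ← DD_phi d s' κ' hκ' M hM' w hw, hphi w hw]
  have t4 := tendsto_nhds_unique (t1.congr' t3) t2
  rw [hD] at t4
  linarith

end MPc53f59
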