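import Mathlib
import Pool.Agent.Lib.MP_c53f59_gt.Pole2

/-!
Rigidity of the lens spaces of order at most 12 (order 11 excluded).
-/

namespace MPc53f59

set_option linter.unusedSectionVars false

variable {q h r : ℕ} [NeZero q] [NeZero h]

theorem exists_perm_of_card {n : ℕ} {α : Type} [DecidableEq α] (f g : Fin n → α)
    (hfg : ∀ y, (Finset.univ.filter fun i => f i = y).card =
      (Finset.univ.filter fun i => g i = y).card) :
    ∃ τ : Equiv.Perm (Fin n), ∀ i, f i = g (τ i) := by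
  classical
  have h1 : ∀ y : α, Nonempty ({ i // f i = y } ≃ { i // g i = y }) := by
    intro y
    apply Nonempty.intro
    apply Fintype.equivOfCardEq
    rw [Fintype.card_subtype, Fintype.card_subtype]
    exact hfg y
  let e : ∀ y : α, { i // f i = y } ≃ { i // g i = y } := fun y => (h1 y).some
  refine ⟨Equiv.ofFiberEquiv e, fun i => ?_⟩
  exact (Equiv.ofFiberEquiv_map e i).symm

theorem same_of_rot (d : Dat q h r) {n : ℕ} (s s' : Fin n → ℕ) (κ κ' : Fin n → ZMod h)
    (hκ : Cls q r s κ) (hκ' : Cls q r s' κ') (s0 : ZMod h)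
    (hc : ∀ x, cnt κ' x = cnt κ (x + s0)) : Same q s s' := by
  have hcop : Nat.Coprime r q := (ZMod.isUnit_iff_coprime _ _).mp d.unit
  obtain ⟨τ, hτ⟩ := exists_perm_of_card (fun i => κ' i + s0) κ (by
    intro y
    have h1 := hc (y - s0)
    rw [sub_add_cancel] at h1
    unfold cnt at h1
    rw [← h1]
    congr 1
    ext i
    simp only [Finset.mem_filter, Finset.mem_univ, true_and]
    constructor
    · intro h2; rw [← h2]; ring
    · intro h2; rw [h2]; ring)
  refine ⟨r ^ (-s0).val, hcop.pow_left _, τ, fun i => ?_⟩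
  have e1 : cz ((s' i : ℕ) : ZMod q) = Cx q r (κ' i) := by
    rcases hκ' i with h1 | h1
    · rw [h1]; rfl
    · rw [h1, cz_neg]; rfl
  have e2 : cz (((r ^ (-s0).val * s (τ i) : ℕ)) : ZMod q) = Cx q r (κ' i) := by
    rw [Nat.cast_mul, Nat.cast_pow, cz_mul_cls d s κ hκ (τ i) (-s0)]
    have : κ (τ i) = κ' i + s0 := (hτ i).symm
    rw [this]
    congr 1
    ring
  rw [cz_natCast] at e1 e2
  linarith

theorem Cx_lt (d : Dat q h r) (h1q : 1 < q) (x : ZMod h) (hx : x ≠ 0) :
    Cx q r x < Cx q r (0 : ZMod h) := by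
  have : Fact (1 < q) := ⟨h1q⟩
  have e0 : Cx q r (0 : ZMod h) = cz (1 : ZMod q) := by
    unfold Cx; simp
  rw [e0]
  apply cz_lt_one
  · exact (d.unit.pow _).ne_zero
  · intro h1
    apply hx
    apply d.inj x 0
    left
    rw [h1]; simp
  · intro h1
    apply hx
    apply d.inj x 0
    right
    rw [h1]; simp

theorem TT_nonneg_term (d : Dat q h r) (h1q : 1 < q) (e : ZMod h → ℕ) (j : ZMod h) :
    0 ≤ ∏ x : ZMod h, (Cx q r (0 : ZMod h) - Cx q r (x + j)) ^ e x := by
  refine Finset.prod_nonneg fun x _ => pow_nonneg ?_ _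
  by_cases hx : x + j = 0
  · rw [hx]; simp
  · exact (sub_pos.mpr (Cx_lt d h1q _ hx)).le

theorem TT_pos_iff (d : Dat q h r) (h1q : 1 < q) (e : ZMod h → ℕ) :
    0 < TT q r e (Cx q r (0 : ZMod h)) ↔ ∃ x, e x = 0 := by
  constructor
  · intro hpos
    by_contra hne
    push Not at hne
    apply hpos.ne'
    unfold TT
    refine Finset.sum_eq_zero fun j _ => ?_
    refine Finset.prod_eq_zero (Finset.mem_univ (-j)) ?_
    rw [neg_add_cancel, sub_self, zero_pow (hne _)]
  · rintro ⟨x0, hx0⟩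
    unfold TT
    apply Finset.sum_pos' (fun j _ => TT_nonneg_term d h1q e j)
    refine ⟨-x0, Finset.mem_univ _, ?_⟩
    refine Finset.prod_pos fun x _ => ?_
    by_cases hx : x = x0
    · rw [hx, hx0]; simp
    · apply pow_pos
      apply sub_pos.mpr
      apply Cx_lt d h1q
      intro h2
      apply hx
      have : x = x0 + (x + -x0) := by ring
      rw [this, h2, add_zero]

theorem TT_shift (e : ZMod h → ℕ) (s0 : ZMod h) (w : ℝ) :
    TT q r (fun x => e (x + s0)) w = TT q r e w := by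
  unfold TT
  refine Fintype.sum_equiv (Equiv.subRight s0) _ _ fun j => ?_
  refine Fintype.prod_equiv (Equiv.addRight s0) _ _ fun x => ?_
  simp only [Equiv.coe_addRight, Equiv.subRight_apply]
  congr 3
  ring

/-- the exponents e = M - a with M the maximum over both vectors -/
theorem reduce (d : Dat q h r) (h1q : 1 < q) {n : ℕ} (hn : 0 < n) (s s' : Fin n → ℕ)
    (κ κ' : Fin n → ZMod h) (hκ : Cls q r s κ) (hκ' : Cls q r s' κ')
    (hphi : ∀ w : ℝ, Good q w → phi q s w = phi q s' w)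
    (main : ∀ M : ℕ, 0 < M → (∀ x, cnt κ x ≤ M) → (∀ x, cnt κ' x ≤ M) →
      (∃ x, cnt κ x = M) → (∃ x, cnt κ' x = M) →
      ∃ s0 : ZMod h, ∀ x, (M - cnt κ' x) = M - cnt κ (x + s0)) : Same q s s' := by
  classical
  set M : ℕ := Finset.univ.sup (fun x : ZMod h => max (cnt κ x) (cnt κ' x)) with hMdef
  have hM : ∀ x, cnt κ x ≤ M := fun x =>
    le_trans (le_max_left _ _)
      (Finset.le_sup (f := fun x : ZMod h => max (cnt κ x) (cnt κ' x)) (Finset.mem_univ x))
  have hM' : ∀ x, cnt κ' x ≤ M := fun x =>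
    le_trans (le_max_right _ _)
      (Finset.le_sup (f := fun x : ZMod h => max (cnt κ x) (cnt κ' x)) (Finset.mem_univ x))
  have hM0 : 0 < M := by
    have h2 : 0 < cnt κ (κ ⟨0, hn⟩) := by
      unfold cnt
      exact Finset.card_pos.mpr ⟨⟨0, hn⟩, by simp⟩
    exact lt_of_lt_of_le h2 (hM _)
  obtain ⟨x0, -, hx0⟩ := Finset.exists_mem_eq_sup Finset.univ Finset.univ_nonempty
    (fun x : ZMod h => max (cnt κ x) (cnt κ' x))
  have hp := pole d s s' κ κ' hκ hκ' M hM0 hM hM' hphi 0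
  have hz : (∃ x, M - cnt κ x = 0) ∧ (∃ x, M - cnt κ' x = 0) := by
    have hx1 : M = max (cnt κ x0) (cnt κ' x0) := hx0
    rcases max_cases (cnt κ x0) (cnt κ' x0) with ⟨hh, _⟩ | ⟨hh, _⟩
    · have h3 : ∃ x, M - cnt κ x = 0 := ⟨x0, by omega⟩
      refine ⟨h3, ?_⟩
      rw [← TT_pos_iff d h1q] at h3 ⊢
      rw [← hp]; exact h3
    · have h3 : ∃ x, M - cnt κ' x = 0 := ⟨x0, by omega⟩
      refine ⟨?_, h3⟩
      rw [← TT_pos_iff d h1q] at h3 ⊢
      rw [hp]; exact h3
  obtain ⟨⟨x1, hx1⟩, ⟨x2, hx2⟩⟩ := hz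
  obtain ⟨s0, hs0⟩ := main M hM0 hM hM' ⟨x1, by have := hM x1; omega⟩
    ⟨x2, by have := hM' x2; omega⟩
  refine same_of_rot d s s' κ κ' hκ hκ' s0 fun x => ?_
  have := hs0 x
  have := hM' x
  have := hM (x + s0)
  omega

theorem sum_cnt {n : ℕ} (κ : Fin n → ZMod h) : ∑ x, cnt κ x = n := by
  classical
  unfold cnt
  rw [← Finset.card_eq_sum_card_fiberwise (f := κ) (s := Finset.univ) (t := Finset.univ)
    (fun _ _ => Finset.mem_univ _)]
  simp

theorem rigid_one (d : Dat q 1 r) (n : ℕ) : Rigid q n := by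
  intro s s' hs hs' hphi
  obtain ⟨κ, hκ⟩ := exists_cls d s (fun i => (hs i).2.2)
  obtain ⟨κ', hκ'⟩ := exists_cls d s' (fun i => (hs' i).2.2)
  refine same_of_rot d s s' κ κ' hκ hκ' 0 fun x => ?_
  have h1 : ∀ κ : Fin n → ZMod 1, cnt κ x = n := by
    intro κ
    unfold cnt
    rw [Finset.filter_true_of_mem]
    · simp
    · intro i _; exact Subsingleton.elim _ _
  rw [h1, add_zero, h1]

theorem rigid_two (d : Dat q 2 r) (h1q : 1 < q) (n : ℕ) (hn : 0 < n) : Rigid q n := by
  intro s s' hs hs' hphi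
  obtain ⟨κ, hκ⟩ := exists_cls d s (fun i => (hs i).2.2)
  obtain ⟨κ', hκ'⟩ := exists_cls d s' (fun i => (hs' i).2.2)
  refine reduce d h1q hn s s' κ κ' hκ hκ' hphi ?_
  rintro M hM0 hM hM' ⟨x1, hx1⟩ ⟨x2, hx2⟩
  have hs1 : cnt κ 0 + cnt κ 1 = n := by
    have := sum_cnt κ
    rw [show (Finset.univ : Finset (ZMod 2)) = {0, 1} from rfl,
      Finset.sum_pair (by decide)] at this
    exact this
  have hs2 : cnt κ' 0 + cnt κ' 1 = n := by
    have := sum_cnt κ'
    rw [show (Finset.univ : Finset (ZMod 2)) = {0, 1} from rfl,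
      Finset.sum_pair (by decide)] at this
    exact this
  have e11 : (1 : ZMod 2) + 1 = 0 := by decide
  have e01 : (0 : ZMod 2) + 1 = 1 := by decide
  have key : ∀ x : ZMod 2, x = 0 ∨ x = 1 := by decide
  rcases key x1 with h1 | h1 <;> rcases key x2 with h2 | h2 <;> subst h1 <;> subst h2
  · refine ⟨0, fun x => ?_⟩
    rcases key x with h | h <;> subst h <;> simp <;> omega
  · refine ⟨1, fun x => ?_⟩
    rcases key x with h | h <;> subst h
    · rw [e01]; omega
    · rw [e11]; omega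
  · refine ⟨1, fun x => ?_⟩
    rcases key x with h | h <;> subst h
    · rw [e01]; omega
    · rw [e11]; omega
  · refine ⟨0, fun x => ?_⟩
    rcases key x with h | h <;> subst h <;> simp <;> omega

end MPc53f59
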