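import Mathlib
import Pool.Agent.Lib.MP_c53f59_gt.Rigid1

/-!
Rigidity for three classes (orders 7 and 9) and the row rigid_small.
-/

namespace MPc53f59

set_option linter.unusedSectionVars false

variable {q h r : ℕ} [NeZero q] [NeZero h]

theorem three_aux {α β : ℝ} (ha : 0 < α) (hb : 0 < β) (a b k : ℕ)
    (hab : a + b = k) : α ^ a * β ^ b < α ^ k + β ^ k := by
  rcases le_total α β with h | h
  · have h1 : α ^ a * β ^ b ≤ β ^ k := by
      rw [← hab, pow_add]
      exact mul_le_mul_of_nonneg_right (pow_le_pow_left₀ ha.le h a) (by positivity)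
    have h2 : 0 < α ^ k := by positivity
    linarith
  · have h1 : α ^ a * β ^ b ≤ α ^ k := by
      rw [← hab, pow_add]
      exact mul_le_mul_of_nonneg_left (pow_le_pow_left₀ hb.le h b) (by positivity)
    have h2 : 0 < β ^ k := by positivity
    linarith

theorem three_inj {α β : ℝ} (ha : 0 < α) (hb : 0 < β) (hne : α ≠ β) (a b a' b' : ℕ)
    (hab : a + b = a' + b') (h : α ^ a * β ^ b = α ^ a' * β ^ b') : a ≤ a' := by
  by_contra hlt
  push Not at hlt
  obtain ⟨d, hd⟩ := Nat.exists_eq_add_of_lt hlt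
  have hb' : b' = b + (d + 1) := by omega
  have ha' : a = a' + (d + 1) := by omega
  rw [hb', ha', pow_add α a' (d + 1), pow_add β b (d + 1)] at h
  have h2 : α ^ (d + 1) = β ^ (d + 1) := by
    have h3 : 0 < α ^ a' * β ^ b := by positivity
    have h4 : (α ^ a' * β ^ b) * α ^ (d + 1) = (α ^ a' * β ^ b) * β ^ (d + 1) := by
      linarith
    exact mul_left_cancel₀ h3.ne' h4
  exact hne ((pow_left_inj₀ ha.le hb.le (Nat.succ_ne_zero d)).mp h2)

theorem three_main {α β : ℝ} (ha : 0 < α) (hb : 0 < β) (hne : α ≠ β) (a b a' b' : ℕ)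
    (hab : a + b = a' + b')
    (h : α ^ a * β ^ b + β ^ a * 0 ^ b + 0 ^ a * α ^ b =
      α ^ a' * β ^ b' + β ^ a' * 0 ^ b' + 0 ^ a' * α ^ b') :
    (a = a' ∧ b = b') ∨ (a = 0 ∧ b' = 0) ∨ (b = 0 ∧ a' = 0) := by
  rcases Nat.eq_zero_or_pos a with h1 | h1 <;> rcases Nat.eq_zero_or_pos b with h2 | h2 <;>
  rcases Nat.eq_zero_or_pos a' with h3 | h3 <;> rcases Nat.eq_zero_or_pos b' with h4 | h4
  all_goals try omega
  · -- a = 0, b > 0, a' > 0, b' > 0
    exfalso
    subst h1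
    rw [zero_pow h2.ne', zero_pow h3.ne', zero_pow h4.ne'] at h
    have := three_aux ha hb a' b' b (by omega)
    simp at h
    linarith
  · exfalso
    subst h2
    rw [zero_pow h1.ne', zero_pow h3.ne', zero_pow h4.ne'] at h
    have := three_aux ha hb a' b' a (by omega)
    simp at h
    linarith
  · exfalso
    subst h3
    rw [zero_pow h1.ne', zero_pow h2.ne', zero_pow h4.ne'] at h
    have := three_aux ha hb a b b' (by omega)
    simp at h
    linarith
  · exfalso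
    subst h4
    rw [zero_pow h1.ne', zero_pow h2.ne', zero_pow h3.ne'] at h
    have := three_aux ha hb a b a' (by omega)
    simp at h
    linarith
  · rw [zero_pow h1.ne', zero_pow h2.ne', zero_pow h3.ne', zero_pow h4.ne'] at h
    simp at h
    left
    have e1 := three_inj ha hb hne a b a' b' hab h
    have e2 := three_inj ha hb hne a' b' a b hab.symm h.symm
    omega

theorem TT_three (e : ZMod 3 → ℕ) (he : e 0 = 0) :
    TT q r e (Cx q r (0 : ZMod 3)) =
      (Cx q r (0 : ZMod 3) - Cx q r (1 : ZMod 3)) ^ e 1 *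
        (Cx q r (0 : ZMod 3) - Cx q r (2 : ZMod 3)) ^ e 2 +
      (Cx q r (0 : ZMod 3) - Cx q r (2 : ZMod 3)) ^ e 1 * 0 ^ e 2 +
      0 ^ e 1 * (Cx q r (0 : ZMod 3) - Cx q r (1 : ZMod 3)) ^ e 2 := by
  unfold TT
  have hu : (Finset.univ : Finset (ZMod 3)) = {0, 1, 2} := rfl
  have s3 : ∀ f : ZMod 3 → ℝ, ∑ j : ZMod 3, f j = f 0 + f 1 + f 2 := fun f =>
    Fin.sum_univ_three f
  have p3 : ∀ f : ZMod 3 → ℝ, ∏ j : ZMod 3, f j = f 0 * f 1 * f 2 := fun f =>
    Fin.prod_univ_three f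
  rw [s3]
  rw [p3, p3, p3]
  have a1 : (0 : ZMod 3) + 0 = 0 := by decide
  have a2 : (1 : ZMod 3) + 0 = 1 := by decide
  have a3 : (2 : ZMod 3) + 0 = 2 := by decide
  have a4 : (0 : ZMod 3) + 1 = 1 := by decide
  have a5 : (1 : ZMod 3) + 1 = 2 := by decide
  have a6 : (2 : ZMod 3) + 1 = 0 := by decide
  have a7 : (0 : ZMod 3) + 2 = 2 := by decide
  have a8 : (1 : ZMod 3) + 2 = 0 := by decide
  have a9 : (2 : ZMod 3) + 2 = 1 := by decide
  rw [a1, a2, a3, a4, a5, a6, a7, a8, a9, he]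
  simp

theorem rigid_three (d : Dat q 3 r) (h1q : 1 < q) (n : ℕ) (hn : 0 < n) : Rigid q n := by
  intro s s' hs hs' hphi
  obtain ⟨κ, hκ⟩ := exists_cls d s (fun i => (hs i).2.2)
  obtain ⟨κ', hκ'⟩ := exists_cls d s' (fun i => (hs' i).2.2)
  refine reduce d h1q hn s s' κ κ' hκ hκ' hphi ?_
  rintro M hM0 hM hM' ⟨x1, hx1⟩ ⟨x2, hx2⟩
  have hp := pole d s s' κ κ' hκ hκ' M hM0 hM hM' hphi 0
  set e : ZMod 3 → ℕ := fun x => M - cnt κ x with hedef
  set e' : ZMod 3 → ℕ := fun x => M - cnt κ' x with hedef'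
  have s3 : ∀ f : ZMod 3 → ℕ, ∑ j : ZMod 3, f j = f 0 + f 1 + f 2 := fun f =>
    Fin.sum_univ_three f
  have hsum : ∀ (κ : Fin n → ZMod 3) (hM : ∀ x, cnt κ x ≤ M) (y : ZMod 3),
      (M - cnt κ (0 + y)) + (M - cnt κ (1 + y)) + (M - cnt κ (2 + y)) = 3 * M - n := by
    intro κ hM y
    have h1 := sum_cnt κ
    have h2 : ∑ x : ZMod 3, cnt κ (x + y) = ∑ x, cnt κ x :=
      Fintype.sum_equiv (Equiv.addRight y) _ _ (fun _ => rfl)
    rw [h1, s3] at h2
    have := hM (0 + y)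
    have := hM (1 + y)
    have := hM (2 + y)
    omega
  have f0 : e (0 + x1) = 0 := by simp only [hedef, zero_add]; omega
  have f0' : e' (0 + x2) = 0 := by simp only [hedef', zero_add]; omega
  have hT : TT q r (fun x => e (x + x1)) (Cx q r (0 : ZMod 3)) =
      TT q r (fun x => e' (x + x2)) (Cx q r (0 : ZMod 3)) := by
    rw [TT_shift, TT_shift]; exact hp
  rw [TT_three _ f0, TT_three _ f0'] at hT
  have hα : 0 < Cx q r (0 : ZMod 3) - Cx q r (1 : ZMod 3) := sub_pos.mpr (Cx_lt d h1q _ (by decide))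
  have hβ : 0 < Cx q r (0 : ZMod 3) - Cx q r (2 : ZMod 3) := sub_pos.mpr (Cx_lt d h1q _ (by decide))
  have hαβ : Cx q r (0 : ZMod 3) - Cx q r (1 : ZMod 3) ≠
      Cx q r (0 : ZMod 3) - Cx q r (2 : ZMod 3) := by
    intro h
    have h2 : Cx q r (1 : ZMod 3) = Cx q r (2 : ZMod 3) := by linarith
    exact absurd (Cx_inj d _ _ h2) (by decide)
  have hab : e (1 + x1) + e (2 + x1) = e' (1 + x2) + e' (2 + x2) := by
    have h1 := hsum κ hM x1
    have h2 := hsum κ' hM' x2
    simp only [hedef, hedef'] at f0 f0' ⊢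
    omega
  have key : ∀ x : ZMod 3, x = 0 ∨ x = 1 ∨ x = 2 := by decide
  have concl : ∃ c : ZMod 3, ∀ x, e' (x + x2) = e (x + c + x1) := by
    rcases three_main hα hβ hαβ _ _ _ _ hab hT with ⟨g1, g2⟩ | ⟨g1, g2⟩ | ⟨g1, g2⟩
    · refine ⟨0, fun x => ?_⟩
      rcases key x with h | h | h <;> subst h
      · rw [f0', show (0 : ZMod 3) + 0 = 0 by decide, f0]
      · rw [show (1 : ZMod 3) + 0 = 1 by decide, g1]
      · rw [show (2 : ZMod 3) + 0 = 2 by decide, g2]
    · refine ⟨1, fun x => ?_⟩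
      rcases key x with h | h | h <;> subst h
      · rw [f0', show (0 : ZMod 3) + 1 = 1 by decide, g1]
      · rw [show (1 : ZMod 3) + 1 = 2 by decide]; omega
      · rw [show (2 : ZMod 3) + 1 = 0 by decide, f0, g2]
    · refine ⟨2, fun x => ?_⟩
      rcases key x with h | h | h <;> subst h
      · rw [f0', show (0 : ZMod 3) + 2 = 2 by decide, g1]
      · rw [show (1 : ZMod 3) + 2 = 0 by decide, f0, g2]
      · rw [show (2 : ZMod 3) + 2 = 1 by decide]; omega
  obtain ⟨c, hc⟩ := concl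
  refine ⟨-x2 + c + x1, fun x => ?_⟩
  have h1 := hc (x - x2)
  rw [sub_add_cancel] at h1
  have h2 : x - x2 + c + x1 = x + (-x2 + c + x1) := by ring
  rw [h2] at h1
  exact h1

theorem rigid_small1 (q n : ℕ) (hn : 0 < n)
    (hq : q = 3 ∨ q = 4 ∨ q = 5 ∨ q = 6 ∨ q = 7 ∨ q = 8 ∨ q = 9 ∨ q = 10 ∨ q = 12) :
    Rigid q n := by
  rcases hq with h | h | h | h | h | h | h | h | h <;> subst h
  · exact rigid_one dat_3 n
  · exact rigid_one dat_4 n
  · exact rigid_two dat_5 (by norm_num) n hn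
  · exact rigid_one dat_6 n
  · exact rigid_three dat_7 (by norm_num) n hn
  · exact rigid_two dat_8 (by norm_num) n hn
  · exact rigid_three dat_9 (by norm_num) n hn
  · exact rigid_two dat_10 (by norm_num) n hn
  · exact rigid_two dat_12 (by norm_num) n hn

end MPc53f59
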