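import Mathlib
import Pool.Agent.Lib.MP_c53f59_gt.Defs2
import Pool.Agent.Lib.MP_c53f59_gt.Rigid2

/-!
The assembly over the rows.
-/

namespace MPc53f59

theorem upper_of {n : ℕ} (hn : 0 < n)
    (card_eq : ∀ (G₁ G₂ : Subgroup (Matrix.orthogonalGroup (Fin (2 * n)) ℝ))
      (_ : Finite G₁) (_ : Finite G₂) (_ : ActsFreely G₁) (_ : ActsFreely G₂)
      (_ : Isospectral G₁ G₂), Nat.card G₁ = Nat.card G₂)
    (small_groups : ∀ (G : Subgroup (Matrix.orthogonalGroup (Fin (2 * n)) ℝ))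
      (_ : Finite G) (_ : ActsFreely G) (_ : Nat.card G ≤ 12),
      IsCyclic G ∨ (Nat.card G = 8 ∧ IsQ8 G) ∨ (Nat.card G = 12 ∧ IsDic G))
    (q8_isometric : ∀ (G G' : Subgroup (Matrix.orthogonalGroup (Fin (2 * n)) ℝ))
      (_ : IsQ8 G) (_ : IsQ8 G'), Isometric G G')
    (dic_isometric : ∀ (G G' : Subgroup (Matrix.orthogonalGroup (Fin (2 * n)) ℝ))
      (_ : ActsFreely G) (_ : ActsFreely G') (_ : IsDic G) (_ : IsDic G'), Isometric G G')
    (cyclic_lens : ∀ (G : Subgroup (Matrix.orthogonalGroup (Fin (2 * n)) ℝ))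
      (_ : Finite G) (_ : ActsFreely G) (_ : IsCyclic G) (_ : 3 ≤ Nat.card G),
      ∃ s : Fin n → ℕ, (∀ i, 0 < s i ∧ 2 * s i < Nat.card G ∧ Nat.Coprime (s i) (Nat.card G)) ∧
        Isometric G (lens (Nat.card G) s))
    (tiny_isometric : ∀ (G G' : Subgroup (Matrix.orthogonalGroup (Fin (2 * n)) ℝ))
      (_ : ActsFreely G) (_ : ActsFreely G') (_ : Nat.card G = Nat.card G')
      (_ : Nat.card G = 1 ∨ Nat.card G = 2), Isometric G G')
    (noncyclic_ne : ∀ (G G' : Subgroup (Matrix.orthogonalGroup (Fin (2 * n)) ℝ))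
      (_ : ActsFreely G) (_ : ActsFreely G') (q : ℕ) (_ : q = 8 ∨ q = 12)
      (_ : Nat.card G = q) (_ : IsQ8 G ∨ IsDic G) (s : Fin n → ℕ)
      (_ : ∀ i, 0 < s i ∧ 2 * s i < q ∧ Nat.Coprime (s i) q)
      (_ : Isometric G' (lens q s)), ¬ Isospectral G G')
    (isometric_symm : ∀ (G₁ G₂ : Subgroup (Matrix.orthogonalGroup (Fin (2 * n)) ℝ))
      (_ : Isometric G₁ G₂), Isometric G₂ G₁)
    (isometric_trans : ∀ (G₁ G₂ G₃ : Subgroup (Matrix.orthogonalGroup (Fin (2 * n)) ℝ))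
      (_ : Isometric G₁ G₂) (_ : Isometric G₂ G₃), Isometric G₁ G₃)
    (isometric_isospectral : ∀ (G₁ G₂ : Subgroup (Matrix.orthogonalGroup (Fin (2 * n)) ℝ))
      (_ : Isometric G₁ G₂), Isospectral G₁ G₂)
    (lens_isometric : ∀ (q : ℕ) (_ : 0 < q) (s s' : Fin n → ℕ) (_ : Same q s s'),
      Isometric (lens q s) (lens q s'))
    (lens_w : ∀ (q : ℕ) (_ : 3 ≤ q) (s s' : Fin n → ℕ)
      (_ : ∀ i, Nat.Coprime (s i) q) (_ : ∀ i, Nat.Coprime (s' i) q)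
      (_ : Isospectral (lens q s) (lens q s')) (w : ℝ) (_ : Good q w), phi q s w = phi q s' w)
    (rigid11 : (n % 5 = 0 ∨ n % 5 = 4 ∨ n = 6) → Rigid 11 n)
    (G₁ G₂ : Subgroup (Matrix.orthogonalGroup (Fin (2 * n)) ℝ))
    (f1 : Finite G₁) (f2 : Finite G₂) (a1 : ActsFreely G₁) (a2 : ActsFreely G₂)
    (hI : Isospectral G₁ G₂) (h12 : Nat.card G₁ ≤ 12)
    (h11 : Nat.card G₁ = 11 → (n % 5 = 0 ∨ n % 5 = 4 ∨ n = 6)) : Isometric G₁ G₂ := by
  have hc := card_eq G₁ G₂ f1 f2 a1 a2 hI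
  have hpos : 0 < Nat.card G₁ := Nat.card_pos
  by_cases htiny : Nat.card G₁ = 1 ∨ Nat.card G₁ = 2
  · exact tiny_isometric G₁ G₂ a1 a2 hc htiny
  have h3 : 3 ≤ Nat.card G₁ := by omega
  have Isymm : ∀ G G' : Subgroup (Matrix.orthogonalGroup (Fin (2 * n)) ℝ),
      Isospectral G G' → Isospectral G' G := fun G G' h k => (h k).symm
  have Itrans : ∀ G G' G'' : Subgroup (Matrix.orthogonalGroup (Fin (2 * n)) ℝ),
      Isospectral G G' → Isospectral G' G'' → Isospectral G G'' :=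
    fun G G' G'' h h' k => (h k).trans (h' k)
  rcases small_groups G₁ f1 a1 h12 with hg | ⟨hg8, hg⟩ | ⟨hg12, hg⟩
  · rcases small_groups G₂ f2 a2 (by omega) with hg' | ⟨hg8', hg'⟩ | ⟨hg12', hg'⟩
    · obtain ⟨s, hs, hs1⟩ := cyclic_lens G₁ f1 a1 hg h3
      obtain ⟨s', hs', hs1'⟩ := cyclic_lens G₂ f2 a2 hg' (by omega)
      rw [← hc] at hs' hs1'
      have hL : Isospectral (lens (Nat.card G₁) s) (lens (Nat.card G₁) s') :=
        Itrans _ _ _ (Isymm _ _ (isometric_isospectral _ _ hs1))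
          (Itrans _ _ _ hI (isometric_isospectral _ _ hs1'))
      have hphi := lens_w (Nat.card G₁) h3 s s' (fun i => (hs i).2.2) (fun i => (hs' i).2.2) hL
      have hR : Rigid (Nat.card G₁) n := by
        by_cases h : Nat.card G₁ = 11
        · rw [h]; exact rigid11 (h11 h)
        · exact rigid_small1 _ n hn (by omega)
      have hS := hR s s' hs hs' hphi
      exact isometric_trans _ _ _ hs1 (isometric_trans _ _ _
        (lens_isometric _ hpos s s' hS) (isometric_symm _ _ hs1'))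
    · obtain ⟨s, hs, hs1⟩ := cyclic_lens G₁ f1 a1 hg h3
      rw [hc, hg8'] at hs hs1
      exact absurd (Isymm _ _ hI)
        (noncyclic_ne G₂ G₁ a2 a1 8 (Or.inl rfl) hg8' (Or.inl hg') s hs hs1)
    · obtain ⟨s, hs, hs1⟩ := cyclic_lens G₁ f1 a1 hg h3
      rw [hc, hg12'] at hs hs1
      exact absurd (Isymm _ _ hI)
        (noncyclic_ne G₂ G₁ a2 a1 12 (Or.inr rfl) hg12' (Or.inr hg') s hs hs1)
  · rcases small_groups G₂ f2 a2 (by omega) with hg' | ⟨hg8', hg'⟩ | ⟨hg12', hg'⟩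
    · obtain ⟨s, hs, hs1⟩ := cyclic_lens G₂ f2 a2 hg' (by omega)
      rw [← hc, hg8] at hs hs1
      exact absurd hI (noncyclic_ne G₁ G₂ a1 a2 8 (Or.inl rfl) hg8 (Or.inl hg) s hs hs1)
    · exact q8_isometric G₁ G₂ hg hg'
    · omega
  · rcases small_groups G₂ f2 a2 (by omega) with hg' | ⟨hg8', hg'⟩ | ⟨hg12', hg'⟩
    · obtain ⟨s, hs, hs1⟩ := cyclic_lens G₂ f2 a2 hg' (by omega)
      rw [← hc, hg12] at hs hs1
      exact absurd hI (noncyclic_ne G₁ G₂ a1 a2 12 (Or.inr rfl) hg12 (Or.inr hg) s hs hs1)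
    · omega
    · exact dic_isometric G₁ G₂ a1 a2 hg hg'

/-- the final statement over the upper part and the existence part -/
theorem result_of (n : ℕ) (hn : 3 ≤ n)
    (upper : ∀ (G₁ G₂ : Subgroup (Matrix.orthogonalGroup (Fin (2 * n)) ℝ))
      (_ : Finite G₁) (_ : Finite G₂) (_ : ActsFreely G₁) (_ : ActsFreely G₂)
      (_ : Isospectral G₁ G₂) (_ : Nat.card G₁ ≤ 12)
      (_ : Nat.card G₁ = 11 → (n % 5 = 0 ∨ n % 5 = 4 ∨ n = 6)), Isometric G₁ G₂)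
    (lens_free : ∀ (q : ℕ) (_ : 0 < q) (s : Fin n → ℕ) (_ : ∀ i, Nat.Coprime (s i) q),
      ActsFreely (lens q s) ∧ Nat.card (lens q s) = q)
    (exist13 : (n % 6 = 1 ∨ n % 6 = 2 ∨ n % 6 = 3 ∨ n % 6 = 4) →
      ∃ s s' : Fin n → ℕ, (∀ i, 0 < s i ∧ s i ≤ 6) ∧ (∀ i, 0 < s' i ∧ s' i ≤ 6) ∧
      Isospectral (lens 13 s) (lens 13 s') ∧ ¬ Isometric (lens 13 s) (lens 13 s'))
    (exist11 : (n % 5 = 1 ∨ n % 5 = 2 ∨ n % 5 = 3) → n ≠ 6 →
      ∃ s s' : Fin n → ℕ, (∀ i, 0 < s i ∧ s i ≤ 5) ∧ (∀ i, 0 < s' i ∧ s' i ≤ 5) ∧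
      Isospectral (lens 11 s) (lens 11 s') ∧ ¬ Isometric (lens 11 s) (lens 11 s')) :
    ((n % 5 = 1 ∨ n % 5 = 2 ∨ n % 5 = 3) → n ≠ 6 → IsLeast (pairOrders n) 11) ∧
    ((n % 5 = 0 ∨ n % 5 = 4 ∨ n = 6) → ∀ m ∈ pairOrders n, 13 ≤ m) ∧
    ((n % 5 = 0 ∨ n % 5 = 4) → (n % 6 = 1 ∨ n % 6 = 2 ∨ n % 6 = 3 ∨ n % 6 = 4) →
      IsLeast (pairOrders n) 13) := by
  have cop : ∀ (p b : ℕ) (_ : p.Prime) (_ : b < p) (s : Fin n → ℕ)
      (_ : ∀ i, 0 < s i ∧ s i ≤ b), ∀ i, Nat.Coprime (s i) p := by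
    intro p b hp hb s hs i
    exact (Nat.coprime_comm.mp ((Nat.Prime.coprime_iff_not_dvd hp).mpr
      (Nat.not_dvd_of_pos_of_lt (hs i).1 (lt_of_le_of_lt (hs i).2 hb))))
  have fin : ∀ (q : ℕ) (_ : 0 < q) (s : Fin n → ℕ) (_ : ∀ i, Nat.Coprime (s i) q),
      Finite (lens q s) := by
    intro q hq s hs
    apply Nat.finite_of_card_ne_zero
    rw [(lens_free q hq s hs).2]; omega
  have mem : ∀ (q : ℕ) (_ : 0 < q) (s s' : Fin n → ℕ) (_ : ∀ i, Nat.Coprime (s i) q)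
      (_ : ∀ i, Nat.Coprime (s' i) q) (_ : Isospectral (lens q s) (lens q s'))
      (_ : ¬ Isometric (lens q s) (lens q s')), q ∈ pairOrders n := by
    intro q hq s s' hs hs' h1 h2
    exact ⟨lens q s, lens q s', fin q hq s hs, fin q hq s' hs', (lens_free q hq s hs).1,
      (lens_free q hq s' hs').1, h1, h2, (lens_free q hq s hs).2⟩
  have low : ∀ m ∈ pairOrders n, m ≤ 12 → m = 11 ∧ ¬ (n % 5 = 0 ∨ n % 5 = 4 ∨ n = 6) := by
    rintro m ⟨G₁, G₂, g1, g2, a1, a2, hI, hno, hm⟩ h12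
    by_contra hcon
    exact hno (upper G₁ G₂ g1 g2 a1 a2 hI (by omega) (by omega))
  refine ⟨fun h5 h6 => ⟨?_, fun m hm => ?_⟩, fun h m hm => ?_, fun h5 h6 => ⟨?_, fun m hm => ?_⟩⟩
  · obtain ⟨s, s', hs, hs', h1, h2⟩ := exist11 h5 h6
    exact mem 11 (by norm_num) s s' (cop 11 5 (by norm_num) (by norm_num) s hs)
      (cop 11 5 (by norm_num) (by norm_num) s' hs') h1 h2
  · by_contra hlt
    have := low m hm (by omega)
    omega
  · by_contra hlt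
    have := low m hm (by omega)
    omega
  · obtain ⟨s, s', hs, hs', h1, h2⟩ := exist13 h6
    exact mem 13 (by norm_num) s s' (cop 13 6 (by norm_num) (by norm_num) s hs)
      (cop 13 6 (by norm_num) (by norm_num) s' hs') h1 h2
  · by_contra hlt
    have := low m hm (by omega)
    omega

end MPc53f59
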