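import Pool.Agent.Lib.MP_c53f59_gt.K60.Fin5

/-! The finite check modulo 529. -/

namespace Pool.Agent.Lib.MP_c53f59_gt.K60

/-- both vectors with two zero entries, at 0 and one of 1, 2 -/
theorem two_two' (F G : ZMod 5 → ℕ) (hT : ∀ w : ZMod 529, T60 c529 F w = T60 c529 G w)
    (hsum : ∑ x, F x = ∑ x, G x) (hle : ∑ x, F x ≤ 108)
    (hF : ∃ x y, x ≠ y ∧ F x = 0 ∧ F y = 0) (hG : ∃ x y, x ≠ y ∧ G x = 0 ∧ G y = 0)
    (F0 : F 0 = 0) (G0 : G 0 = 0) (F1 : F 1 = 0 ∨ F 2 = 0) (G1 : G 1 = 0 ∨ G 2 = 0) :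
    Concl F G := by
  have h8 := at8_of F G (to23 F G hT)
  have m : ∀ n : ℕ, n % 22 < 22 := fun n => Nat.mod_lt _ (by norm_num)
  have mz : ∀ n : ℕ, n = 0 → n % 22 = 0 := fun n hn => by rw [hn]
  have hsame : Same (F 1 % 22) (F 2 % 22) (F 3 % 22) (F 4 % 22) (G 1 % 22) (G 2 % 22) (G 3 % 22)
      (G 4 % 22) := by
    have key : ∀ d0 d1 d2 d3 d4 : ℕ, (d0 : ZMod 23) ^ 22 = 1 → (d1 : ZMod 23) ^ 22 = 1 →
        (d2 : ZMod 23) ^ 22 = 1 → (d3 : ZMod 23) ^ 22 = 1 → (d4 : ZMod 23) ^ 22 = 1 →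
        T5 (d0 : ZMod 23) d1 d2 d3 d4 (F 0) (F 1) (F 2) (F 3) (F 4) =
          T5 (d0 : ZMod 23) d1 d2 d3 d4 (G 0) (G 1) (G 2) (G 3) (G 4) →
        nT d0 d1 d2 d3 d4 (F 1 % 22) (F 2 % 22) (F 3 % 22) (F 4 % 22) =
          nT d0 d1 d2 d3 d4 (G 1 % 22) (G 2 % 22) (G 3 % 22) (G 4 % 22) := by
      intro d0 d1 d2 d3 d4 h0 h1 h2 h3 h4 h
      apply cast_inj23 _ _ (nT_lt _ _ _ _ _ _ _ _ _) (nT_lt _ _ _ _ _ _ _ _ _)
      rw [cast_nT, cast_nT]
      rw [T5_mod _ _ _ _ _ h0 h1 h2 h3 h4, T5_mod _ _ _ _ _ h0 h1 h2 h3 h4 (G 0), F0, G0,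
        Nat.zero_mod] at h
      exact h
    obtain ⟨k0, k1, k2, k3, k4, k5, k6, k7⟩ := h8
    exact ⟨key _ _ _ _ _ (by decide) (by decide) (by decide) (by decide) (by decide) k0,
      key _ _ _ _ _ (by decide) (by decide) (by decide) (by decide) (by decide) k1,
      key _ _ _ _ _ (by decide) (by decide) (by decide) (by decide) (by decide) k2,
      key _ _ _ _ _ (by decide) (by decide) (by decide) (by decide) (by decide) k3,
      key _ _ _ _ _ (by decide) (by decide) (by decide) (by decide) (by decide) k4,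
      key _ _ _ _ _ (by decide) (by decide) (by decide) (by decide) (by decide) k5,
      key _ _ _ _ _ (by decide) (by decide) (by decide) (by decide) (by decide) k6,
      key _ _ _ _ _ (by decide) (by decide) (by decide) (by decide) (by decide) k7⟩
  rcases sieve2 _ _ _ _ _ _ _ _ (m _) (m _) (m _) (m _) (F1.imp (mz _) (mz _)) (m _) (m _) (m _)
    (m _) (G1.imp (mz _) (mz _)) hsame with h | h
  · exact good_case F G hT hsum hle hF hG (mz _ F0) (mz _ G0) (G1.imp (mz _) (mz _)) h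
  · apply concl_symm F G hsum
    exact good_case G F (fun w => (hT w).symm) hsum.symm (by rw [← hsum]; exact hle) hG hF
      (mz _ G0) (mz _ F0) (F1.imp (mz _) (mz _)) h

/-- both vectors with two zero entries -/
theorem two_two (e g : ZMod 5 → ℕ) (hT : ∀ w : ZMod 529, T60 c529 e w = T60 c529 g w)
    (hsum : ∑ x, e x = ∑ x, g x) (hle : ∑ x, e x ≤ 108)
    (he : ∃ x y, x ≠ y ∧ e x = 0 ∧ e y = 0) (hg : ∃ x y, x ≠ y ∧ g x = 0 ∧ g y = 0) :
    Concl e g := by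
  obtain ⟨s, hs0, hs1⟩ := two_zeros e he
  obtain ⟨t, ht0, ht1⟩ := two_zeros g hg
  apply concl_rot e g s t
  refine two_two' (fun x => e (x + s)) (fun x => g (x + t)) ?_ ?_ ?_ (zero_rot e s he)
    (zero_rot g t hg) hs0 ht0 hs1 ht1
  · intro w
    rw [T60_rot, T60_rot]
    exact hT w
  · rw [sum_rot, sum_rot]
    exact hsum
  · rw [sum_rot]
    exact hle

/-- the finite check -/
theorem check60 (e e' : ZMod 5 → ℕ) (hs : ∑ x, e x = ∑ x, e' x) (hk : ∑ x, e x ≤ 108)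
    (h2 : ∃ x y, x ≠ y ∧ e x = 0 ∧ e y = 0) (h1 : ∃ x, e' x = 0)
    (hT : ∀ w : ZMod 529, T60 c529 e w = T60 c529 e' w) :
    (∃ s, ∀ x, e' x = e (x + s)) ∨ (∑ x, e x = 2 ∨ ∑ x, e x = 3 ∨ ∑ x, e x = 4) := by
  by_cases h2' : ∃ x y, x ≠ y ∧ e' x = 0 ∧ e' y = 0
  · exact two_two e e' hT hs hk h2 h2'
  · exfalso
    obtain ⟨t, ht⟩ := h1
    have hne : ∀ y, y ≠ t → e' y ≠ 0 := fun y hy h0 => h2' ⟨y, t, hy, h0, ht⟩
    obtain ⟨s, hs0, hs1⟩ := canon e h2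
    have hTs : ∀ w : ZMod 529, T60 c529 (fun x => e (x + s)) w =
        T60 c529 (fun x => e' (x + t)) w := by
      intro w
      rw [T60_rot, T60_rot]
      exact hT w
    have h8 := at8_of _ _ (to23 _ _ hTs)
    have h5 := at5_of _ _ (to23 _ _ hTs)
    have dd : ∀ t : ZMod 5, 1 + t ≠ t ∧ 2 + t ≠ t ∧ 3 + t ≠ t ∧ 4 + t ≠ t := by decide
    have n1 : e' (1 + t) ≠ 0 := hne _ (dd t).1
    have n2 : e' (2 + t) ≠ 0 := hne _ (dd t).2.1
    have n3 : e' (3 + t) ≠ 0 := hne _ (dd t).2.2.1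
    have n4 : e' (4 + t) ≠ 0 := hne _ (dd t).2.2.2
    have z0 : e' (0 + t) = 0 := by rw [zero_add]; exact ht
    simp only [hs0, z0] at h8 h5
    rcases hs1 with h | h | h | h | h | h
    · exact A_false _ _ _ _ _ _ _ _ n1 n2 n3 n4 (Or.inl h) h5 h8
    · exact A_false _ _ _ _ _ _ _ _ n1 n2 n3 n4 (Or.inr (Or.inl h)) h5 h8
    · exact A_false _ _ _ _ _ _ _ _ n1 n2 n3 n4 (Or.inr (Or.inr (Or.inl h))) h5 h8
    · exact A_false _ _ _ _ _ _ _ _ n1 n2 n3 n4 (Or.inr (Or.inr (Or.inr (Or.inl h)))) h5 h8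
    · exact A_false _ _ _ _ _ _ _ _ n1 n2 n3 n4 (Or.inr (Or.inr (Or.inr (Or.inr h)))) h5 h8
    · obtain ⟨a1, a2, a3, a4⟩ := h
      have q1 := sum_rot e s
      have q2 := sum_rot e' t
      rw [sum5] at q1 q2
      rw [hs0, a1, a2, a3, a4] at q1
      have : e' (1 + t) = 0 := by omega
      exact n1 this

end Pool.Agent.Lib.MP_c53f59_gt.K60
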