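import Mathlib

namespace Pool.Agent.Lib.MP_c53f59_gt

open Polynomial

section
variable {K : Type*} [Field K]

/-- The Wronskian of a family of polynomials. -/
noncomputable def wr {m : ℕ} (v : Fin m → K[X]) : K[X] :=
  (Matrix.of fun i l : Fin m => derivative^[(l : ℕ)] (v i)).det

theorem sum_fin_val (m : ℕ) : ∑ i : Fin m, (i : ℕ) = m * (m - 1) / 2 := by
  rw [Fin.sum_univ_eq_sum_range (fun i => i) m, Finset.sum_range_id]

theorem wr_order {m : ℕ} (v : Fin m → K[X]) (t : K) (e : Fin m → ℕ)
    (he : ∀ i, (X - C t) ^ e i ∣ v i) :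
    (X - C t) ^ (∑ i, e i - m * (m - 1) / 2) ∣ wr v := by
  unfold wr
  rw [Matrix.det_apply]
  apply Finset.dvd_sum
  intro σ _
  have h1 : (X - C t) ^ (∑ i, e i - m * (m - 1) / 2) ∣
      ∏ i : Fin m, (Matrix.of fun i l : Fin m => derivative^[(l : ℕ)] (v i)) (σ i) i := by
    have h2 : ∏ i : Fin m, (X - C t) ^ (e (σ i) - (i : ℕ)) ∣
        ∏ i : Fin m, (Matrix.of fun i l : Fin m => derivative^[(l : ℕ)] (v i)) (σ i) i := by
      apply Finset.prod_dvd_prod_of_dvd
      intro i _
      exact pow_sub_dvd_iterate_derivative_of_pow_dvd (i : ℕ) (he (σ i))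
    refine dvd_trans ?_ h2
    rw [Finset.prod_pow_eq_pow_sum]
    apply pow_dvd_pow
    have h3 : ∑ i, e i = ∑ i, e (σ i) := (Equiv.sum_comp σ e).symm
    have h4 : ∑ i, e (σ i) ≤ ∑ i : Fin m, (e (σ i) - (i : ℕ)) + ∑ i : Fin m, (i : ℕ) := by
      rw [← Finset.sum_add_distrib]
      apply Finset.sum_le_sum
      intro i _
      omega
    rw [sum_fin_val] at h4
    omega
  rcases Int.units_eq_one_or (Equiv.Perm.sign σ) with h | h
  · rw [h, one_smul]; exact h1
  · rw [h, Units.neg_smul, one_smul]; exact (dvd_neg).mpr h1

theorem wr_lin {m : ℕ} (v u : Fin m → K[X]) (A : Matrix (Fin m) (Fin m) K)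
    (h : ∀ i, u i = ∑ j, A i j • v j) : wr u = C A.det * wr v := by
  unfold wr
  have h1 : (Matrix.of fun i l : Fin m => derivative^[(l : ℕ)] (u i)) =
      (A.map C) * (Matrix.of fun i l : Fin m => derivative^[(l : ℕ)] (v i)) := by
    ext1 i l
    rw [Matrix.mul_apply]
    simp only [Matrix.of_apply, Matrix.map_apply]
    rw [h i, iterate_derivative_sum]
    apply Finset.sum_congr rfl
    intro j _
    rw [iterate_derivative_smul, smul_eq_C_mul]
  rw [h1, Matrix.det_mul]
  congr 1
  rw [← RingHom.mapMatrix_apply, ← RingHom.map_det]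

theorem coeff_prod_var {ι : Type*} (s : Finset ι) (p : ι → K[X]) (d : ι → ℕ)
    (h : ∀ i ∈ s, (p i).natDegree ≤ d i) :
    (∏ i ∈ s, p i).natDegree ≤ ∑ i ∈ s, d i ∧
    (∏ i ∈ s, p i).coeff (∑ i ∈ s, d i) = ∏ i ∈ s, (p i).coeff (d i) := by
  classical
  induction s using Finset.induction_on with
  | empty => simp
  | insert a s ha ih =>
    have h1 := ih (fun i hi => h i (Finset.mem_insert_of_mem hi))
    have h2 := h a (Finset.mem_insert_self a s)
    rw [Finset.prod_insert ha, Finset.sum_insert ha, Finset.prod_insert ha]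
    constructor
    · exact le_trans natDegree_mul_le (Nat.add_le_add h2 h1.1)
    · rw [coeff_mul_add_eq_of_natDegree_le h2 h1.1, h1.2]

theorem wr_deg [CharZero K] {m : ℕ} (v : Fin m → K[X]) (hv : ∀ i, v i ≠ 0)
    (hd : Function.Injective fun i => (v i).natDegree) :
    wr v ≠ 0 ∧ (wr v).natDegree + m * (m - 1) / 2 ≤ ∑ i, (v i).natDegree := by
  set M : Matrix (Fin m) (Fin m) K[X] :=
    Matrix.of fun i l : Fin m => X ^ (l : ℕ) * derivative^[(l : ℕ)] (v i) with hM
  have hdet : M.det = X ^ (m * (m - 1) / 2) * wr v := by
    unfold wr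
    rw [Matrix.det_apply, Matrix.det_apply, Finset.mul_sum]
    apply Finset.sum_congr rfl
    intro σ _
    rw [mul_smul_comm]
    congr 1
    simp only [hM, Matrix.of_apply]
    rw [Finset.prod_mul_distrib, Finset.prod_pow_eq_pow_sum, sum_fin_val]
  have hb : ∀ i l : Fin m, (M i l).natDegree ≤ (v i).natDegree ∧
      (M i l).coeff (v i).natDegree =
        (v i).leadingCoeff * (descPochhammer K (l : ℕ)).eval ((v i).natDegree : K) := by
    intro i l
    simp only [hM, Matrix.of_apply]
    rw [descPochhammer_eval_eq_descFactorial]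
    by_cases hl : (l : ℕ) ≤ (v i).natDegree
    · constructor
      · refine le_trans natDegree_mul_le ?_
        rw [natDegree_X_pow]
        have := natDegree_iterate_derivative (v i) (l : ℕ)
        omega
      · have h1 : (v i).natDegree = ((v i).natDegree - l) + l := by omega
        rw [h1, coeff_X_pow_mul, coeff_iterate_derivative, ← h1]
        rw [nsmul_eq_mul, leadingCoeff]
        ring
    · have h1 : derivative^[(l : ℕ)] (v i) = 0 := by
        apply iterate_derivative_eq_zero
        omega
      rw [h1, mul_zero]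
      constructor
      · simp
      · rw [Nat.descFactorial_of_lt (by omega)]
        simp
  have hcoef : M.det.natDegree ≤ ∑ i, (v i).natDegree ∧
      M.det.coeff (∑ i, (v i).natDegree) = (∏ i, (v i).leadingCoeff) *
        (Matrix.vandermonde fun i : Fin m => ((v i).natDegree : K)).det := by
    rw [Matrix.det_eval_matrixOfPolynomials_eq_det_vandermonde
      (fun i : Fin m => ((v i).natDegree : K)) (fun l => descPochhammer K (l : ℕ))
      (fun i => descPochhammer_natDegree K _) (fun i => monic_descPochhammer K _)]
    rw [Matrix.det_apply, Matrix.det_apply]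
    constructor
    · apply natDegree_sum_le_of_forall_le
      intro σ _
      have h1 := (coeff_prod_var Finset.univ (fun i => M (σ i) i)
        (fun i => (v (σ i)).natDegree) (fun i _ => (hb (σ i) i).1)).1
      rw [Equiv.sum_comp σ (fun i => (v i).natDegree)] at h1
      refine le_trans ?_ h1
      rcases Int.units_eq_one_or (Equiv.Perm.sign σ) with h | h
      · rw [h, one_smul]
      · rw [h, Units.neg_smul, one_smul, natDegree_neg]
    · rw [finsetSum_coeff, Finset.mul_sum]
      apply Finset.sum_congr rfl
      intro σ _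
      have h1 := (coeff_prod_var Finset.univ (fun i => M (σ i) i)
        (fun i => (v (σ i)).natDegree) (fun i _ => (hb (σ i) i).1)).2
      rw [Equiv.sum_comp σ (fun i => (v i).natDegree)] at h1
      have h2 : ∏ i, (M (σ i) i).coeff (v (σ i)).natDegree = (∏ i, (v i).leadingCoeff) *
          ∏ i, (Matrix.of fun i j : Fin m => (descPochhammer K (j : ℕ)).eval
            ((v i).natDegree : K)) (σ i) i := by
        rw [← Equiv.prod_comp σ (fun i => (v i).leadingCoeff), ← Finset.prod_mul_distrib]
        apply Finset.prod_congr rfl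
        intro i _
        rw [(hb (σ i) i).2, Matrix.of_apply]
      rw [h2] at h1
      rcases Int.units_eq_one_or (Equiv.Perm.sign σ) with h | h
      · rw [h, one_smul, one_smul]; exact h1
      · rw [h, Units.neg_smul, one_smul, Units.neg_smul, one_smul, coeff_neg, h1]; ring
  have hne : M.det.coeff (∑ i, (v i).natDegree) ≠ 0 := by
    rw [hcoef.2]
    apply mul_ne_zero
    · rw [Finset.prod_ne_zero_iff]
      intro i _
      exact leadingCoeff_ne_zero.mpr (hv i)
    · rw [Matrix.det_vandermonde_ne_zero_iff]
      intro i j hij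
      apply hd
      simp only at hij ⊢
      exact_mod_cast hij
  have h0 : wr v ≠ 0 := by
    intro h
    rw [hdet, h, mul_zero, coeff_zero] at hne
    exact hne rfl
  refine ⟨h0, ?_⟩
  have h5 : M.det.natDegree = m * (m - 1) / 2 + (wr v).natDegree := by
    rw [hdet, natDegree_mul (pow_ne_zero _ X_ne_zero) h0, natDegree_X_pow]
  have := hcoef.1
  omega

theorem sum_inj_ge {m : ℕ} (e : Fin m → ℕ) (he : Function.Injective e) :
    m * (m - 1) / 2 ≤ ∑ i, e i := by
  classical
  set s : Finset ℕ := Finset.univ.image e with hs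
  have hc : s.card = m := by
    rw [hs, Finset.card_image_of_injective _ he, Finset.card_univ, Fintype.card_fin]
  have h1 : ∑ i, e i = ∑ x ∈ s, x := by
    rw [hs, Finset.sum_image (fun a _ b _ h => he h)]
  have h2 : ∑ x ∈ s, x = ∑ i : Fin m, (s.orderEmbOfFin hc i) := by
    have h3 : Finset.univ.image (s.orderEmbOfFin hc) = s := Finset.image_orderEmbOfFin_univ s hc
    conv_lhs => rw [← h3]
    rw [Finset.sum_image (fun a _ b _ h => (s.orderEmbOfFin hc).injective h)]
  rw [h1, h2, ← sum_fin_val]
  apply Finset.sum_le_sum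
  intro i _
  have : ∀ (j : ℕ) (hj : j < m), j ≤ s.orderEmbOfFin hc ⟨j, hj⟩ := by
    intro j
    induction j with
    | zero => intro hj; exact Nat.zero_le _
    | succ j ih =>
      intro hj
      have h4 := ih (by omega)
      have h5 : s.orderEmbOfFin hc ⟨j, by omega⟩ < s.orderEmbOfFin hc ⟨j + 1, hj⟩ := by
        apply (s.orderEmbOfFin hc).strictMono
        simp [Fin.lt_def]
      omega
  exact this i i.2

theorem wr_indep [CharZero K] {m k : ℕ} (n : ℕ) : ∀ (v : Fin m → K[X]),
    (∑ i, (v i).natDegree = n) → LinearIndependent K v → (∀ i, (v i).natDegree ≤ k) →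
    wr v ≠ 0 ∧ (wr v).natDegree + m * (m - 1) ≤ m * k := by
  induction n using Nat.strong_induction_on with
  | _ n ih =>
  intro v hn hv hk
  by_cases hd : Function.Injective fun i => (v i).natDegree
  · have h1 := wr_deg v (fun i => hv.ne_zero i) hd
    refine ⟨h1.1, ?_⟩
    have h2 : m * (m - 1) / 2 ≤ ∑ i : Fin m, (k - (v i).natDegree) := by
      apply sum_inj_ge
      intro i j hij
      apply hd
      have a1 := hk i
      have a2 := hk j
      simp only at hij ⊢
      omega
    have h3 : ∑ i : Fin m, (k - (v i).natDegree) + ∑ i : Fin m, (v i).natDegree = m * k := by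
      rw [← Finset.sum_add_distrib]
      rw [Finset.sum_congr rfl (fun i _ => Nat.sub_add_cancel (hk i))]
      simp
    have h4 : m * (m - 1) / 2 * 2 = m * (m - 1) := by
      have := Nat.even_mul_pred_self m
      exact Nat.div_mul_cancel this.two_dvd
    have := h1.2
    omega
  · rw [Function.Injective] at hd
    push Not at hd
    obtain ⟨i, j, hij, hne⟩ := hd
    set c : K := (v i).leadingCoeff / (v j).leadingCoeff with hc
    have hj0 : v j ≠ 0 := hv.ne_zero j
    have hi0 : v i ≠ 0 := hv.ne_zero i
    set w : K[X] := v i - C c * v j with hw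
    set u : Fin m → K[X] := Function.update v i w with hu
    have hui : u i = w := by rw [hu, Function.update_self]
    have huj : ∀ l, l ≠ i → u l = v l := fun l hl => by rw [hu, Function.update_of_ne hl]
    have hlin : LinearIndependent K u := by
      rw [Fintype.linearIndependent_iff]
      intro g hg
      rw [Fintype.linearIndependent_iff] at hv
      have h1 : ∑ l, (g l - if l = j then g i * c else 0) • v l = 0 := by
        have : ∀ l, (g l - if l = j then g i * c else 0) • v l =
            g l • u l + (if l = i then g i • (C c * v j) else 0)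
              - (if l = j then (g i * c) • v l else 0) := by
          intro l
          by_cases hli : l = i
          · subst hli
            rw [if_neg hne, if_neg hne, if_pos rfl, hui, hw, smul_sub, sub_zero, sub_zero]
            abel
          · rw [huj l hli, if_neg hli]
            by_cases hlj : l = j
            · rw [if_pos hlj, if_pos hlj, sub_smul]; abel
            · rw [if_neg hlj, if_neg hlj]; simp
        rw [Finset.sum_congr rfl (fun l _ => this l), Finset.sum_sub_distrib,
          Finset.sum_add_distrib, hg]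
        simp only [Finset.sum_ite_eq', Finset.mem_univ, if_true]
        rw [smul_eq_C_mul, smul_eq_C_mul, map_mul]
        ring
      have h2 := hv _ h1
      have h3 : g i = 0 := by
        have := h2 i
        rw [if_neg hne] at this
        simpa using this
      intro l
      have := h2 l
      rw [h3] at this
      simpa using this
    have hw0 : w ≠ 0 := by rw [← hui]; exact hlin.ne_zero i
    have hdeg : w.natDegree < (v i).natDegree := by
      have hdw : w.degree < (v i).degree := by
        apply degree_sub_lt_left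
        · rw [degree_mul, degree_C, zero_add, degree_eq_natDegree hi0, degree_eq_natDegree hj0, hij]
          rw [hc]
          exact div_ne_zero (leadingCoeff_ne_zero.mpr hi0) (leadingCoeff_ne_zero.mpr hj0)
        · exact hi0
        · rw [leadingCoeff_mul, leadingCoeff_C, hc,
            div_mul_cancel₀ _ (leadingCoeff_ne_zero.mpr hj0)]
      exact natDegree_lt_natDegree hw0 hdw
    have hsum : ∑ l, (u l).natDegree < n := by
      rw [← hn]
      apply Finset.sum_lt_sum
      · intro l _
        by_cases hl : l = i
        · rw [hl, hui]; exact hdeg.le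
        · rw [huj l hl]
      · exact ⟨i, Finset.mem_univ _, by rw [hui]; exact hdeg⟩
    have hk' : ∀ l, (u l).natDegree ≤ k := by
      intro l
      by_cases hl : l = i
      · rw [hl, hui]; exact hdeg.le.trans (hk i)
      · rw [huj l hl]; exact hk l
    have h1 := ih _ hsum u rfl hlin hk'
    have h2 : wr u = wr v := by
      have h3 := wr_lin v u (Matrix.updateRow 1 i ((Pi.single i 1 : Fin m → K) - c • Pi.single j 1))
        (by
          intro l
          by_cases hl : l = i
          · subst hl
            rw [hui, hw]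
            simp only [Matrix.updateRow_self, Pi.sub_apply, Pi.smul_apply, smul_eq_mul, sub_smul]
            rw [Finset.sum_sub_distrib]
            simp [Pi.single_apply, smul_eq_C_mul]
          · rw [huj l hl]
            simp only [Matrix.updateRow_ne hl, Matrix.one_apply]
            simp)
      rw [h3]
      have h4 : (Matrix.updateRow (1 : Matrix (Fin m) (Fin m) K) i
          ((Pi.single i 1 : Fin m → K) - c • Pi.single j 1)).det = 1 := by
        have h5 : ((Pi.single i 1 : Fin m → K) - c • Pi.single j 1) =
            (1 : Matrix (Fin m) (Fin m) K) i + (-c) • (1 : Matrix (Fin m) (Fin m) K) j := by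
          ext l
          simp only [Pi.sub_apply, Pi.add_apply, Pi.smul_apply, Pi.single_apply, Matrix.one_apply,
            smul_eq_mul]
          have e1 : (l = i) = (i = l) := propext eq_comm
          have e2 : (l = j) = (j = l) := propext eq_comm
          simp only [e1, e2]
          by_cases h1 : i = l <;> by_cases h2 : j = l
          · exact absurd (h1.trans h2.symm) hne
          · rw [if_pos h1, if_neg h2]; ring
          · rw [if_neg h1, if_pos h2]; ring
          · rw [if_neg h1, if_neg h2]; ring
        rw [h5, Matrix.det_updateRow_add_smul_self _ hne, Matrix.det_one]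
      rw [h4, map_one, one_mul]
    rw [← h2]
    exact h1

/-- Change of basis: two independent families in the same span of the same size. -/
theorem wr_change {m : ℕ} (v u : Fin m → K[X])
    (hu : LinearIndependent K u) (h : ∀ i, u i ∈ Submodule.span K (Set.range v)) :
    ∃ a : K, a ≠ 0 ∧ wr u = C a * wr v := by
  have h1 : ∀ i, ∃ c : Fin m → K, ∑ j, c j • v j = u i := by
    intro i
    exact (Submodule.mem_span_range_iff_exists_fun K).mp (h i)
  choose A hA using h1
  refine ⟨(Matrix.of A).det, ?_, wr_lin v u (Matrix.of A) (fun i => (hA i).symm)⟩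
  intro h0
  obtain ⟨g, hg0, hg⟩ := Matrix.exists_vecMul_eq_zero_iff.mpr h0
  rw [Fintype.linearIndependent_iff] at hu
  have h2 : ∑ i, g i • u i = 0 := by
    have h3 : ∀ i, g i • u i = ∑ j, (g i * A i j) • v j := by
      intro i
      rw [← hA i, Finset.smul_sum]
      apply Finset.sum_congr rfl
      intro j _
      rw [mul_smul]
    rw [Finset.sum_congr rfl (fun i _ => h3 i), Finset.sum_comm]
    apply Finset.sum_eq_zero
    intro j _
    rw [← Finset.sum_smul]
    have h4 : ∑ i, g i * A i j = 0 := by
      have := congrFun hg j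
      simpa [Matrix.vecMul, dotProduct] using this
    rw [h4, zero_smul]
  exact hg0 (funext (hu g h2))

/-- The Wronskian inequality. -/
theorem wr_main [CharZero K] {m k : ℕ} (v : Fin m → K[X]) (hv : LinearIndependent K v)
    (hk : ∀ i, (v i).natDegree ≤ k) (S : Finset K) (u : K → Fin m → K[X])
    (hu : ∀ t ∈ S, LinearIndependent K (u t) ∧
      ∀ i, u t i ∈ Submodule.span K (Set.range v))
    (e : K → Fin m → ℕ) (he : ∀ t ∈ S, ∀ i, (X - C t) ^ e t i ∣ u t i) :
    (∑ t ∈ S, ∑ i, e t i) + m * (m - 1) ≤ m * k + S.card * (m * (m - 1) / 2) := by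
  have h1 := wr_indep (m := m) (k := k) _ v rfl hv hk
  have h2 : ∏ t ∈ S, (X - C t) ^ (∑ i, e t i - m * (m - 1) / 2) ∣ wr v := by
    apply Finset.prod_dvd_of_coprime
    · intro a _ b _ hab
      apply IsCoprime.pow
      exact isCoprime_X_sub_C_of_isUnit_sub (sub_ne_zero.mpr hab).isUnit
    · intro t ht
      obtain ⟨a, ha, hw⟩ := wr_change v (u t) (hu t ht).1 (hu t ht).2
      have h3 := wr_order (u t) t (e t) (he t ht)
      rw [hw] at h3
      exact (IsUnit.dvd_mul_left (isUnit_C.mpr ha.isUnit)).mp h3
  have h3 := natDegree_le_of_dvd h2 h1.1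
  rw [natDegree_prod_of_monic _ _ (fun t _ => (monic_X_sub_C t).pow _)] at h3
  have h4 : ∑ t ∈ S, ∑ i, e t i ≤
      ∑ t ∈ S, ((X - C t) ^ (∑ i, e t i - m * (m - 1) / 2)).natDegree +
        S.card * (m * (m - 1) / 2) := by
    rw [← smul_eq_mul (a := S.card), ← Finset.sum_const, ← Finset.sum_add_distrib]
    apply Finset.sum_le_sum
    intro t _
    rw [natDegree_pow, natDegree_X_sub_C, mul_one]
    omega
  have := h1.2
  omega

/-- The form asked for in the blueprint: one polynomial `w` for a finite dimensional space `V`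
of polynomials of degree at most `k`. -/
theorem wr_space [CharZero K] (V : Submodule K K[X]) [FiniteDimensional K V] (k : ℕ)
    (hk : ∀ p ∈ V, p.natDegree ≤ k) :
    ∃ w : K[X], w ≠ 0 ∧
      w.natDegree + Module.finrank K V * (Module.finrank K V - 1) ≤ Module.finrank K V * k ∧
      (∀ f : Fin (Module.finrank K V) → K[X], (∀ i, f i ∈ V) → LinearIndependent K f →
        ∃ a : K, a ≠ 0 ∧
          (Matrix.of fun i l : Fin (Module.finrank K V) =>
            derivative^[(l : ℕ)] (f i)).det = C a * w) ∧
      (∀ f : Fin (Module.finrank K V) → K[X], (∀ i, f i ∈ V) → LinearIndependent K f →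
        ∀ (t : K) (o : Fin (Module.finrank K V) → ℕ), (∀ i, (X - C t) ^ o i ∣ f i) →
          (X - C t) ^ (∑ i, o i - Module.finrank K V * (Module.finrank K V - 1) / 2) ∣ w) := by
  set b := Module.finBasis K V with hb
  set v : Fin (Module.finrank K V) → K[X] := fun i => (b i : K[X]) with hv
  have hli : LinearIndependent K v := by
    have := b.linearIndependent.map' V.subtype (Submodule.ker_subtype V)
    exact this
  have hspan : ∀ p ∈ V, p ∈ Submodule.span K (Set.range v) := by
    intro p hp
    have h1 := b.sum_repr ⟨p, hp⟩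
    rw [Submodule.mem_span_range_iff_exists_fun]
    refine ⟨fun i => b.repr ⟨p, hp⟩ i, ?_⟩
    have h2 : ((∑ i, b.repr ⟨p, hp⟩ i • b i : V) : K[X]) = p := by rw [h1]
    rw [Submodule.coe_sum] at h2
    exact h2
  have h1 := wr_indep (k := k) _ v rfl hli (fun i => hk _ (b i).2)
  have hch : ∀ f : Fin (Module.finrank K V) → K[X], (∀ i, f i ∈ V) → LinearIndependent K f →
      ∃ a : K, a ≠ 0 ∧ wr f = C a * wr v :=
    fun f hf hfl => wr_change v f hfl (fun i => hspan _ (hf i))
  refine ⟨wr v, h1.1, h1.2, hch, ?_⟩
  intro f hf hfl t o ho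
  obtain ⟨a, ha, hw⟩ := hch f hf hfl
  have h3 := wr_order f t o ho
  rw [hw] at h3
  exact (IsUnit.dvd_mul_left (isUnit_C.mpr ha.isUnit)).mp h3

end

end Pool.Agent.Lib.MP_c53f59_gt
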