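import Mathlib
import Pool.Agent.Lib.MP_c53f59_gt.Wr32

namespace Pool.Agent.Lib.MP_c53f59_gt

open Polynomial

namespace C32

/-- indexed form of the Wronskian inequality -/
theorem wr_idx {ι : Type*} [Fintype ι] [DecidableEq ι] {K : Type*} [Field K] [CharZero K]
    {m k : ℕ} (v : Fin m → K[X]) (hv : LinearIndependent K v)
    (hk : ∀ i, (v i).natDegree ≤ k) (t : ι → K) (ht : Function.Injective t)
    (u : ι → Fin m → K[X])
    (hu : ∀ i, LinearIndependent K (u i) ∧ ∀ l, u i l ∈ Submodule.span K (Set.range v))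
    (e : ι → Fin m → ℕ) (he : ∀ i l, (X - C (t i)) ^ e i l ∣ u i l) :
    (∑ i, ∑ l, e i l) + m * (m - 1) ≤ m * k + Fintype.card ι * (m * (m - 1) / 2) := by
  classical
  by_cases hne : Nonempty ι
  · have h := wr_main v hv hk (Finset.univ.image t) (fun s => u (Function.invFun t s))
      (fun s _ => hu _) (fun s => e (Function.invFun t s))
      (by
        intro s hs i
        obtain ⟨j, _, rfl⟩ := Finset.mem_image.mp hs
        rw [Function.leftInverse_invFun ht j]
        exact he j i)
    rw [Finset.sum_image (fun a _ b _ h => ht h), Finset.card_image_of_injective _ ht,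
      Finset.card_univ] at h
    have h2 : ∀ i, e (Function.invFun t (t i)) = e i := by
      intro i
      rw [Function.leftInverse_invFun ht i]
    simp only [h2] at h
    exact h
  · have h0 := wr_main v hv hk ∅ (fun _ => v) (by simp) (fun _ _ => 0) (by simp)
    have : IsEmpty ι := not_nonempty_iff.mp hne
    simpa using h0

section
variable (th : ZMod 5 → ℝ) (m : Bool → ZMod 5 → ℕ)

noncomputable def F (u : Bool × ZMod 5) : ℝ[X] := ∏ x, (X - C (th (x + u.2))) ^ (m u.1 x)

theorem F_monic (u : Bool × ZMod 5) : (F th m u).Monic := by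
  unfold F
  exact monic_prod_of_monic _ _ (fun x _ => (monic_X_sub_C _).pow _)

theorem F_deg (u : Bool × ZMod 5) : (F th m u).natDegree = ∑ x, m u.1 x := by
  unfold F
  rw [natDegree_prod_of_monic _ _ (fun x _ => (monic_X_sub_C _).pow _)]
  apply Finset.sum_congr rfl
  intro x _
  rw [natDegree_pow, natDegree_X_sub_C, mul_one]

theorem F_dvd (u : Bool × ZMod 5) (i : ZMod 5) :
    (X - C (th i)) ^ (m u.1 (i - u.2)) ∣ F th m u := by
  unfold F
  have h := Finset.dvd_prod_of_mem (fun x => (X - C (th (x + u.2))) ^ (m u.1 x))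
    (Finset.mem_univ (i - u.2))
  simp only [sub_add_cancel] at h
  exact h

theorem ord_sum (u : Bool × ZMod 5) : ∑ i, m u.1 (i - u.2) = ∑ x, m u.1 x :=
  Equiv.sum_comp (Equiv.subRight u.2) (m u.1)

/-- minimal dependent subsets -/
def Circ (S : Finset (Bool × ZMod 5)) : Prop :=
  ¬ LinearIndepOn ℝ (F th m) (S : Set (Bool × ZMod 5)) ∧
    ∀ T : Finset (Bool × ZMod 5), T ⊂ S → LinearIndepOn ℝ (F th m) (T : Set (Bool × ZMod 5))

theorem circ_exists (h : ¬ LinearIndependent ℝ (F th m)) : ∃ S, Circ th m S := by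
  classical
  have h1 : ∃ n, ∃ S : Finset (Bool × ZMod 5), S.card = n ∧
      ¬ LinearIndepOn ℝ (F th m) (S : Set (Bool × ZMod 5)) := by
    refine ⟨_, Finset.univ, rfl, ?_⟩
    rw [Finset.coe_univ, linearIndepOn_univ_iff]
    exact h
  obtain ⟨S, hS, hS2⟩ := Nat.find_spec h1
  refine ⟨S, hS2, ?_⟩
  intro T hT
  by_contra hcon
  exact Nat.find_min h1 (by rw [← hS]; exact Finset.card_lt_card hT) ⟨T, rfl, hcon⟩

variable {th m}

theorem circ_rel {S : Finset (Bool × ZMod 5)} (hS : Circ th m S) :
    ∃ g : Bool × ZMod 5 → ℝ, (∑ u ∈ S, g u • F th m u = 0) ∧ ∀ u ∈ S, g u ≠ 0 := by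
  classical
  have h1 := hS.1
  rw [linearIndepOn_finset_iff] at h1
  push Not at h1
  obtain ⟨g, hg, u0, hu0, hne⟩ := h1
  refine ⟨g, hg, ?_⟩
  intro u hu hgu
  have hT := hS.2 (S.erase u) (Finset.erase_ssubset hu)
  rw [linearIndepOn_finset_iff] at hT
  have h2 : ∑ x ∈ S.erase u, g x • F th m x = 0 := by
    rw [← Finset.add_sum_erase S _ hu, hgu, zero_smul, zero_add] at hg
    exact hg
  have h3 := hT g h2 u0
  by_cases h4 : u0 = u
  · exact hne (h4 ▸ hgu)
  · exact hne (h3 (Finset.mem_erase.mpr ⟨h4, hu0⟩))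

theorem circ_span {S : Finset (Bool × ZMod 5)} (hS : Circ th m S) {u w : Bool × ZMod 5}
    (hu : u ∈ S) (hw : w ∈ S) :
    F th m w ∈ Submodule.span ℝ (F th m '' ((S.erase u : Finset _) : Set (Bool × ZMod 5))) := by
  classical
  by_cases h : w = u
  · subst h
    obtain ⟨g, hg, hne⟩ := circ_rel hS
    rw [← Finset.add_sum_erase S _ hw] at hg
    have h1 : F th m w = (-(g w)⁻¹) • ∑ x ∈ S.erase w, g x • F th m x := by
      have h2 : ∑ x ∈ S.erase w, g x • F th m x = -(g w • F th m w) := by
        rw [eq_neg_iff_add_eq_zero, add_comm]; exact hg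
      rw [h2, smul_neg, neg_smul, neg_neg, smul_smul, inv_mul_cancel₀ (hne w hw), one_smul]
    rw [h1]
    apply Submodule.smul_mem
    apply Submodule.sum_mem
    intro x hx
    apply Submodule.smul_mem
    apply Submodule.subset_span
    exact ⟨x, by exact_mod_cast hx, rfl⟩
  · apply Submodule.subset_span
    exact ⟨w, Finset.mem_coe.mpr (Finset.mem_erase.mpr ⟨h, hw⟩), rfl⟩

theorem circ_ineq (hth : Function.Injective th) {k : ℕ} (hk : ∀ c, ∑ x, m c x = k)
    {S : Finset (Bool × ZMod 5)} (hS : Circ th m S) {s : ℕ} (hs : S.card = s + 1)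
    (w : ZMod 5 → Bool × ZMod 5) (hw : ∀ i, w i ∈ S) :
    k + s * (s - 1) ≤ ∑ i, m (w i).1 (i - (w i).2) + 5 * (s * (s - 1) / 2) := by
  classical
  have hcard : ∀ u ∈ S, (S.erase u).card = s := by
    intro u hu
    rw [Finset.card_erase_of_mem hu, hs]
    rfl
  have henum : ∀ u, u ∈ S → ∃ f : Fin s → Bool × ZMod 5, Function.Injective f ∧
      Finset.univ.image f = S.erase u := by
    intro u hu
    refine ⟨fun l => (((S.erase u).equivFinOfCardEq (hcard u hu)).symm l : Bool × ZMod 5), ?_, ?_⟩
    · intro a b hab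
      exact ((S.erase u).equivFinOfCardEq (hcard u hu)).symm.injective (Subtype.ext hab)
    · ext y
      simp only [Finset.mem_image, Finset.mem_univ, true_and]
      constructor
      · rintro ⟨l, rfl⟩
        exact (((S.erase u).equivFinOfCardEq (hcard u hu)).symm l).2
      · intro hy
        exact ⟨(S.erase u).equivFinOfCardEq (hcard u hu) ⟨y, hy⟩, by simp⟩
  have hli : ∀ u ∈ S, ∀ f : Fin s → Bool × ZMod 5, Function.Injective f →
      Finset.univ.image f = S.erase u → LinearIndependent ℝ (fun l => F th m (f l)) := by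
    intro u hu f hf himg
    have h1 := hS.2 (S.erase u) (Finset.erase_ssubset hu)
    have h2 : ∀ l, f l ∈ ((S.erase u : Finset _) : Set (Bool × ZMod 5)) := by
      intro l
      rw [← himg]
      simp
    exact LinearIndependent.comp h1 (fun l => ⟨f l, h2 l⟩)
      (fun a b hab => hf (congrArg Subtype.val hab))
  obtain ⟨f0, hf0, hi0⟩ := henum (w 0) (hw 0)
  choose f hf hi using fun i => henum (w i) (hw i)
  have hrange : Set.range (fun l => F th m (f0 l)) =
      F th m '' ((S.erase (w 0) : Finset _) : Set (Bool × ZMod 5)) := by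
    rw [← hi0, Finset.coe_image, Finset.coe_univ, Set.image_univ, ← Set.range_comp]
    rfl
  have hmain := wr_idx (ι := ZMod 5) (k := k) (fun l => F th m (f0 l)) (hli _ (hw 0) f0 hf0 hi0)
    (fun l => by rw [F_deg, hk]) th hth (fun i l => F th m (f i l))
    (fun i => ⟨hli _ (hw i) (f i) (hf i) (hi i), fun l => by
      rw [hrange]
      apply circ_span hS (hw 0)
      have : f i l ∈ S.erase (w i) := by
        rw [← hi i]
        simp
      exact Finset.mem_of_mem_erase this⟩)
    (fun i l => m (f i l).1 (i - (f i l).2)) (fun i l => F_dvd th m (f i l) i)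
  have hsum : ∀ i, ∑ l, m (f i l).1 (i - (f i l).2) + m (w i).1 (i - (w i).2) =
      ∑ u ∈ S, m u.1 (i - u.2) := by
    intro i
    rw [← Finset.add_sum_erase S (fun u => m u.1 (i - u.2)) (hw i), ← hi i,
      Finset.sum_image (fun a _ b _ h => hf i h), add_comm]
  have htot : ∑ i, ∑ u ∈ S, m u.1 (i - u.2) = (s + 1) * k := by
    rw [Finset.sum_comm]
    rw [Finset.sum_congr rfl (fun u _ => (ord_sum m u).trans (hk u.1))]
    rw [Finset.sum_const, hs, smul_eq_mul]
  have h5 : ∑ i, ∑ l, m (f i l).1 (i - (f i l).2) + ∑ i, m (w i).1 (i - (w i).2) =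
      (s + 1) * k := by
    rw [← htot, ← Finset.sum_add_distrib]
    exact Finset.sum_congr rfl (fun i _ => hsum i)
  rw [ZMod.card] at hmain
  have h6 : (s + 1) * k = s * k + k := by ring
  rw [h6] at h5
  omega

end

/-- cyclic differences -/
theorem cyc (a : ZMod 5 → ℕ) (z y d : ZMod 5) (hz : a z = 0) (hd : d ≠ 0) :
    ∑ x, min (a x) (a (x + d)) + a y ≤ ∑ x, a x := by
  have h : ∀ f : ZMod 5 → ℕ, ∑ x, f x = f 0 + f 1 + f 2 + f 3 + f 4 := by
    intro f
    exact Fin.sum_univ_five f
  have hd' : d = 1 ∨ d = 2 ∨ d = 3 ∨ d = 4 := by revert hd; revert d; decide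
  have hall : ∀ w : ZMod 5, w = 0 ∨ w = 1 ∨ w = 2 ∨ w = 3 ∨ w = 4 := by decide
  have hz' := hall z
  have hy' := hall y
  have e01 : (0 : ZMod 5) + 1 = 1 := by decide
  have e11 : (1 : ZMod 5) + 1 = 2 := by decide
  have e21 : (2 : ZMod 5) + 1 = 3 := by decide
  have e31 : (3 : ZMod 5) + 1 = 4 := by decide
  have e41 : (4 : ZMod 5) + 1 = 0 := by decide
  have e02 : (0 : ZMod 5) + 2 = 2 := by decide
  have e12 : (1 : ZMod 5) + 2 = 3 := by decide
  have e22 : (2 : ZMod 5) + 2 = 4 := by decide
  have e32 : (3 : ZMod 5) + 2 = 0 := by decide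
  have e42 : (4 : ZMod 5) + 2 = 1 := by decide
  have e03 : (0 : ZMod 5) + 3 = 3 := by decide
  have e13 : (1 : ZMod 5) + 3 = 4 := by decide
  have e23 : (2 : ZMod 5) + 3 = 0 := by decide
  have e33 : (3 : ZMod 5) + 3 = 1 := by decide
  have e43 : (4 : ZMod 5) + 3 = 2 := by decide
  have e04 : (0 : ZMod 5) + 4 = 4 := by decide
  have e14 : (1 : ZMod 5) + 4 = 0 := by decide
  have e24 : (2 : ZMod 5) + 4 = 1 := by decide
  have e34 : (3 : ZMod 5) + 4 = 2 := by decide
  have e44 : (4 : ZMod 5) + 4 = 3 := by decide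
  rw [h, h]
  rcases hd' with rfl | rfl | rfl | rfl
  · rw [e01, e11, e21, e31, e41]
    rcases hz' with rfl | rfl | rfl | rfl | rfl <;>
      rcases hy' with rfl | rfl | rfl | rfl | rfl <;> omega
  · rw [e02, e12, e22, e32, e42]
    rcases hz' with rfl | rfl | rfl | rfl | rfl <;>
      rcases hy' with rfl | rfl | rfl | rfl | rfl <;> omega
  · rw [e03, e13, e23, e33, e43]
    rcases hz' with rfl | rfl | rfl | rfl | rfl <;>
      rcases hy' with rfl | rfl | rfl | rfl | rfl <;> omega
  · rw [e04, e14, e24, e34, e44]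
    rcases hz' with rfl | rfl | rfl | rfl | rfl <;>
      rcases hy' with rfl | rfl | rfl | rfl | rfl <;> omega

section bound
variable {th : ZMod 5 → ℝ} {m : Bool → ZMod 5 → ℕ}

theorem circ_card_ge (hth : Function.Injective th) {k : ℕ} (hk : ∀ c, ∑ x, m c x = k)
    (hk0 : k ≠ 0) (hz : ∀ c, ∃ x, m c x = 0)
    (hns : ¬ ∃ s, ∀ x, m true x = m false (x + s))
    {S : Finset (Bool × ZMod 5)} (hS : Circ th m S) : 3 ≤ S.card := by
  by_contra hcon
  have hcases : S.card = 0 ∨ S.card = 1 ∨ S.card = 2 := by omega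
  rcases hcases with h | h | h
  · rw [Finset.card_eq_zero] at h
    apply hS.1
    rw [h]
    simp
  · obtain ⟨u, rfl⟩ := Finset.card_eq_one.mp h
    apply hS.1
    rw [Finset.coe_singleton, linearIndepOn_singleton_iff]
    exact (F_monic th m u).ne_zero
  · obtain ⟨u, v, huv, rfl⟩ := Finset.card_eq_two.mp h
    have hmin : ∀ i, m u.1 (i - u.2) = m v.1 (i - v.2) := by
      have h1 := circ_ineq (s := 1) hth hk hS (by rw [h])
        (fun i => if m u.1 (i - u.2) ≤ m v.1 (i - v.2) then u else v)
        (fun i => by split_ifs <;> simp)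
      have h2 : ∀ i : ZMod 5, m (if m u.1 (i - u.2) ≤ m v.1 (i - v.2) then u else v).1
          (i - (if m u.1 (i - u.2) ≤ m v.1 (i - v.2) then u else v).2) =
          min (m u.1 (i - u.2)) (m v.1 (i - v.2)) := by
        intro i
        split_ifs with h3
        · rw [min_eq_left h3]
        · rw [min_eq_right (by omega)]
      rw [Finset.sum_congr rfl (fun i _ => h2 i)] at h1
      have h3 := (ord_sum m u).trans (hk u.1)
      have h4 := (ord_sum m v).trans (hk v.1)
      have h5 : ∀ i ∈ Finset.univ, min (m u.1 (i - u.2)) (m v.1 (i - v.2)) = m u.1 (i - u.2) := by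
        apply (Finset.sum_eq_sum_iff_of_le (fun i _ => min_le_left _ _)).mp
        apply le_antisymm
        · exact Finset.sum_le_sum (fun i _ => min_le_left _ _)
        · rw [h3]; simpa using h1
      have h6 : ∀ i ∈ Finset.univ, min (m u.1 (i - u.2)) (m v.1 (i - v.2)) = m v.1 (i - v.2) := by
        apply (Finset.sum_eq_sum_iff_of_le (fun i _ => min_le_right _ _)).mp
        apply le_antisymm
        · exact Finset.sum_le_sum (fun i _ => min_le_right _ _)
        · rw [h4]; simpa using h1
      intro i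
      rw [← h5 i (Finset.mem_univ i), h6 i (Finset.mem_univ i)]
    obtain ⟨c, p⟩ := u
    obtain ⟨c', p'⟩ := v
    simp only at hmin
    by_cases hc : c = c'
    · subst hc
      have hpp : p ≠ p' := fun h => huv (by rw [h])
      obtain ⟨z, hz0⟩ := hz c
      have h1 := fun y => cyc (m c) z y (p - p') hz0 (sub_ne_zero.mpr hpp)
      have h2 : ∀ x, m c (x + (p - p')) = m c x := by
        intro x
        have := hmin (x + p)
        rw [add_sub_cancel_right] at this
        rw [this]
        congr 1
        ring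
      have h3 : ∀ y, m c y = 0 := by
        intro y
        have := h1 y
        simp only [h2, min_self] at this
        omega
      apply hk0
      rw [← hk c]
      exact Finset.sum_eq_zero (fun x _ => h3 x)
    · apply hns
      cases c
      · cases c'
        · exact absurd rfl hc
        · refine ⟨p' - p, fun x => ?_⟩
          have := hmin (x + p')
          rw [add_sub_cancel_right] at this
          rw [← this]
          congr 1
          ring
      · cases c'
        · refine ⟨p - p', fun x => ?_⟩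
          have := hmin (x + p)
          rw [add_sub_cancel_right] at this
          rw [this]
          congr 1
          ring
        · exact absurd rfl hc

/-- two elements of the same kind in a small circuit -/
theorem same_kind (hth : Function.Injective th) {k : ℕ} (hk : ∀ c, ∑ x, m c x = k)
    (hz : ∀ c, ∃ x, m c x = 0) {S : Finset (Bool × ZMod 5)} (hS : Circ th m S)
    (hs : S.card ≤ 5) {c : Bool} {p p' : ZMod 5} (hp : (c, p) ∈ S) (hp' : (c, p') ∈ S)
    (hne : p ≠ p') : k ≤ 72 := by
  obtain ⟨s, hs1⟩ : ∃ s, S.card = s + 1 := ⟨S.card - 1, by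
    have := Finset.card_pos.mpr ⟨_, hp⟩
    omega⟩
  have h1 := circ_ineq hth hk hS hs1
    (fun i => if m c (i - p) ≤ m c (i - p') then (c, p) else (c, p'))
    (fun i => by split_ifs <;> assumption)
  have h2 : ∀ i : ZMod 5, m (if m c (i - p) ≤ m c (i - p') then (c, p) else (c, p')).1
      (i - (if m c (i - p) ≤ m c (i - p') then (c, p) else (c, p')).2) =
      min (m c (i - p)) (m c (i - p')) := by
    intro i
    split_ifs with h3
    · rw [min_eq_left h3]
    · rw [min_eq_right (by omega)]
  rw [Finset.sum_congr rfl (fun i _ => h2 i)] at h1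
  obtain ⟨z, hz0⟩ := hz c
  have h3 : ∑ i, min (m c (i - p)) (m c (i - p')) =
      ∑ x, min (m c x) (m c (x + (p - p'))) := by
    rw [← Equiv.sum_comp (Equiv.subRight p) (fun x => min (m c x) (m c (x + (p - p'))))]
    apply Finset.sum_congr rfl
    intro i _
    simp only [Equiv.subRight_apply]
    congr 2
    ring
  rw [h3] at h1
  have h4 : ∀ y, m c y ≤ 18 := by
    intro y
    have h5 := cyc (m c) z y (p - p') hz0 (sub_ne_zero.mpr hne)
    rw [hk c] at h5
    have h6 : s = 0 ∨ s = 1 ∨ s = 2 ∨ s = 3 ∨ s = 4 := by omega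
    rcases h6 with rfl | rfl | rfl | rfl | rfl <;> omega
  have h5 : ∑ x, m c x ≤ 72 := by
    rw [← Finset.add_sum_erase Finset.univ (m c) (Finset.mem_univ z), hz0, zero_add]
    have h6 : ∑ x ∈ Finset.univ.erase z, m c x ≤ ∑ _x ∈ Finset.univ.erase z, 18 :=
      Finset.sum_le_sum (fun x _ => h4 x)
    rw [Finset.sum_const, Finset.card_erase_of_mem (Finset.mem_univ z), Finset.card_univ,
      ZMod.card] at h6
    simpa using h6
  rw [hk c] at h5
  exact h5

/-- in a set with at least six elements one finds at every point an element of order `<= k/3` -/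
theorem low_elt {k : ℕ} (hk : ∀ c, ∑ x, m c x = k) {S : Finset (Bool × ZMod 5)}
    (hs : 6 ≤ S.card) (i : ZMod 5) : ∃ u ∈ S, 3 * m u.1 (i - u.2) ≤ k := by
  classical
  by_contra hcon
  push Not at hcon
  have h1 : ∃ c : Bool, 3 ≤ (S.filter fun u => u.1 = c).card := by
    by_contra h
    push Not at h
    have h2 := h true
    have h3 := h false
    have h4 : S.card = (S.filter fun u => u.1 = true).card + (S.filter fun u => u.1 = false).card := by
      rw [← Finset.card_union_of_disjoint]
      · congr 1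
        ext u
        simp only [Finset.mem_union, Finset.mem_filter]
        constructor
        · intro hu
          cases h5 : u.1
          · exact Or.inr ⟨hu, rfl⟩
          · exact Or.inl ⟨hu, rfl⟩
        · rintro (h | h) <;> exact h.1
      · rw [Finset.disjoint_filter]
        intro u _ h5 h6
        rw [h5] at h6
        exact absurd h6 (by decide)
    omega
  obtain ⟨c, hc⟩ := h1
  set R := S.filter fun u => u.1 = c with hR
  have h2 : ∑ u ∈ R, m u.1 (i - u.2) ≤ k := by
    have h3 : ∑ u ∈ R, m u.1 (i - u.2) = ∑ x ∈ R.image (fun u => i - u.2), m c x := by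
      rw [Finset.sum_image]
      · apply Finset.sum_congr rfl
        intro u hu
        rw [(Finset.mem_filter.mp hu).2]
      · intro u hu v hv huv
        have h4 := (Finset.mem_filter.mp hu).2
        have h5 := (Finset.mem_filter.mp hv).2
        simp only at huv
        exact Prod.ext (h4.trans h5.symm) (sub_right_injective huv)
    rw [h3, ← hk c]
    exact Finset.sum_le_sum_of_subset (Finset.subset_univ _)
  have h3 : ∑ u ∈ R, (k + 1) ≤ ∑ u ∈ R, 3 * m u.1 (i - u.2) := by
    apply Finset.sum_le_sum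
    intro u hu
    exact hcon u (Finset.mem_filter.mp hu).1
  rw [Finset.sum_const, smul_eq_mul, ← Finset.mul_sum] at h3
  have h4 : 3 * (k + 1) ≤ R.card * (k + 1) := Nat.mul_le_mul_right _ hc
  omega

theorem bad_card {S : Finset (Bool × ZMod 5)} {c : Bool} {y y' : ZMod 5} (hyy : y ≠ y')
    (hy : m c y = 0) (hy' : m c y' = 0) {x : ZMod 5} (hx : m (!c) x = 0)
    (B : Finset (ZMod 5)) (hB : ∀ i ∈ B, ∀ u ∈ S, m u.1 (i - u.2) ≠ 0) (hne : B.Nonempty) :
    B.card + S.card ≤ 8 := by
  classical
  obtain ⟨i0, hi0⟩ := hne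
  set M1 : Finset (Bool × ZMod 5) := B.image (fun i => (!c, i - x)) with hM1
  set M2 : Finset (Bool × ZMod 5) := {(c, i0 - y), (c, i0 - y')} with hM2
  have c1 : M1.card = B.card := by
    apply Finset.card_image_of_injective
    intro a b hab
    have := (Prod.ext_iff.mp hab).2
    exact sub_left_injective this
  have c2 : M2.card = 2 := by
    apply Finset.card_pair
    intro h
    exact hyy (sub_right_injective (Prod.ext_iff.mp h).2)
  have d12 : Disjoint M1 M2 := by
    rw [Finset.disjoint_left]
    intro u h1 h2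
    obtain ⟨i, _, rfl⟩ := Finset.mem_image.mp h1
    simp only [hM2, Finset.mem_insert, Finset.mem_singleton, Prod.mk.injEq] at h2
    rcases h2 with h2 | h2 <;>
      · have := h2.1
        cases c <;> simp at this
  have dS : Disjoint (M1 ∪ M2) S := by
    rw [Finset.disjoint_left]
    intro u h1 hu
    rcases Finset.mem_union.mp h1 with h1 | h1
    · obtain ⟨i, hi, rfl⟩ := Finset.mem_image.mp h1
      apply hB i hi _ hu
      simp only [sub_sub_cancel]
      exact hx
    · simp only [hM2, Finset.mem_insert, Finset.mem_singleton] at h1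
      rcases h1 with rfl | rfl
      · apply hB i0 hi0 _ hu
        simp only [sub_sub_cancel]
        exact hy
      · apply hB i0 hi0 _ hu
        simp only [sub_sub_cancel]
        exact hy'
  have h1 : ((M1 ∪ M2) ∪ S).card ≤ 10 := by
    have := Finset.card_le_univ ((M1 ∪ M2) ∪ S)
    rw [Fintype.card_prod, Fintype.card_bool, ZMod.card] at this
    exact this
  rw [Finset.card_union_of_disjoint dS, Finset.card_union_of_disjoint d12, c1, c2] at h1
  omega

theorem circuit108 (hth : Function.Injective th) {k : ℕ} (hk : ∀ c, ∑ x, m c x = k)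
    (hz : ∀ c, ∃ x, m c x = 0) {c : Bool} {y y' : ZMod 5} (hyy : y ≠ y')
    (hy : m c y = 0) (hy' : m c y' = 0)
    (hns : ¬ ∃ s, ∀ x, m true x = m false (x + s))
    (hdep : ¬ LinearIndependent ℝ (F th m)) : k ≤ 108 := by
  classical
  by_cases hk0 : k = 0
  · omega
  obtain ⟨S, hS⟩ := circ_exists th m hdep
  have h3 := circ_card_ge hth hk hk0 hz hns hS
  by_cases h5 : S.card ≤ 5
  · obtain ⟨u, v, w, hu, hv, hw, huv, huw, hvw⟩ := Finset.two_lt_card_iff.mp h3
    have key : ∀ u v : Bool × ZMod 5, u ∈ S → v ∈ S → u ≠ v → u.1 = v.1 → k ≤ 72 := by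
      rintro ⟨c1, p1⟩ ⟨c2, p2⟩ h1 h2 h3 h4
      simp only at h4
      subst h4
      exact same_kind hth hk hz hS h5 h1 h2 (fun h => h3 (by rw [h]))
    by_cases e1 : u.1 = v.1
    · have := key u v hu hv huv e1
      omega
    · by_cases e2 : u.1 = w.1
      · have := key u w hu hw huw e2
        omega
      · have e3 : v.1 = w.1 := by
          cases h1 : u.1 <;> cases h2 : v.1 <;> cases h3 : w.1 <;> simp_all
        have := key v w hv hw hvw e3
        omega
  · obtain ⟨x, hx⟩ := hz (!c)
    set B : Finset (ZMod 5) := Finset.univ.filter fun i => ∀ u ∈ S, m u.1 (i - u.2) ≠ 0 with hB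
    have hlow := fun i => low_elt hk (S := S) (by omega) i
    choose f hfS hf using hlow
    have hgood : ∀ i, i ∉ B → ∃ u ∈ S, m u.1 (i - u.2) = 0 := by
      intro i hi
      by_contra hcon
      push Not at hcon
      exact hi (Finset.mem_filter.mpr ⟨Finset.mem_univ i, hcon⟩)
    have hsel : ∀ i, ∃ u ∈ S, 3 * m u.1 (i - u.2) ≤ if i ∈ B then k else 0 := by
      intro i
      by_cases hi : i ∈ B
      · rw [if_pos hi]
        exact ⟨f i, hfS i, hf i⟩
      · rw [if_neg hi]
        obtain ⟨u, hu, hu0⟩ := hgood i hi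
        exact ⟨u, hu, by rw [hu0]⟩
    choose w hwS hw using hsel
    obtain ⟨s, hs1⟩ : ∃ s, S.card = s + 1 := ⟨S.card - 1, by omega⟩
    have h1 := circ_ineq hth hk hS hs1 w hwS
    have h2 : 3 * ∑ i, m (w i).1 (i - (w i).2) ≤ B.card * k := by
      rw [Finset.mul_sum]
      refine (Finset.sum_le_sum (fun i _ => hw i)).trans ?_
      rw [Finset.sum_ite_mem, Finset.univ_inter, Finset.sum_const, smul_eq_mul]
    have hb : B.card = 0 ∨ B.card + S.card ≤ 8 := by
      rcases B.eq_empty_or_nonempty with h | h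
      · left
        rw [h, Finset.card_empty]
      · right
        exact bad_card hyy hy hy' hx B (fun i hi => (Finset.mem_filter.mp hi).2) h
    have hS10 : S.card ≤ 10 := by
      have := Finset.card_le_univ S
      rw [Fintype.card_prod, Fintype.card_bool, ZMod.card] at this
      exact this
    have h6 : s = 5 ∨ s = 6 ∨ s = 7 ∨ s = 8 ∨ s = 9 := by omega
    have hb2 : B.card = 0 ∨ (B.card = 1 ∧ s ≤ 6) ∨ (B.card = 2 ∧ s = 5) := by omega
    rcases hb2 with h | ⟨h, h'⟩ | ⟨h, h'⟩
    · rw [h] at h2
      rcases h6 with rfl | rfl | rfl | rfl | rfl <;> omega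
    · rw [h] at h2
      rcases h6 with rfl | rfl | rfl | rfl | rfl <;> omega
    · rw [h] at h2
      rcases h6 with rfl | rfl | rfl | rfl | rfl <;> omega

end bound

end C32

end Pool.Agent.Lib.MP_c53f59_gt
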