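import Mathlib

/-!
Counting zero sum subsets: the sum over all powers of a root of unity of a product of linear
factors (row EX, helper66).
-/

set_option autoImplicit false

namespace MPc53f59.EX66

open Finset

/-- signed number of the subsets with `m` elements and sum `r` modulo `q` of a list -/
def cI (q : ℕ) : List ℕ → ℕ → ℕ → ℤ
  | [], r, m => if r = 0 ∧ m = 0 then 1 else 0
  | _ :: L, r, 0 => cI q L r 0
  | t :: L, r, m + 1 => cI q L r (m + 1) - cI q L ((r + (q - t)) % q) m

theorem cI_zero (q : ℕ) : ∀ (L : List ℕ) (r m : ℕ), L.length < m → cI q L r m = 0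
  | [], r, m, h => by
    simp only [List.length_nil] at h
    simp [cI, h.ne']
  | t :: L, r, 0, h => by simp at h
  | t :: L, r, m + 1, h => by
    simp only [List.length_cons] at h
    rw [cI, cI_zero q L r (m + 1) (by omega), cI_zero q L _ m (by omega), sub_zero]

/-- the generating series -/
noncomputable def gI (q : ℕ) (L : List ℕ) (r : ℕ) : PowerSeries ℂ :=
  PowerSeries.mk fun m => ((cI q L r m : ℤ) : ℂ)

theorem gI_nil (q r : ℕ) : gI q [] r = if r = 0 then 1 else 0 := by
  ext m
  rw [gI, PowerSeries.coeff_mk]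
  split_ifs with h
  · rw [PowerSeries.coeff_one]
    by_cases hm : m = 0 <;> simp [cI, h, hm]
  · simp [cI, h]

theorem gI_cons (q t : ℕ) (L : List ℕ) (r : ℕ) :
    gI q (t :: L) r = gI q L r - PowerSeries.X * gI q L ((r + (q - t)) % q) := by
  ext m
  rcases m with _ | m
  · simp [gI, cI, PowerSeries.coeff_zero_X_mul]
  · rw [map_sub, PowerSeries.coeff_succ_X_mul]
    simp [gI, cI]

/-- one linear factor -/
noncomputable def lin (z : ℂ) : PowerSeries ℂ := 1 - PowerSeries.C z * PowerSeries.X

theorem prod_lin (q : ℕ) (hq : 0 < q) (w : ℂ) (hw : w ^ q = 1) :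
    ∀ L : List ℕ, (∀ t ∈ L, t ≤ q) →
    (L.map fun t => lin (w ^ t)).prod = ∑ r ∈ range q, PowerSeries.C (w ^ r) * gI q L r
  | [], _ => by
    rw [List.map_nil, List.prod_nil]
    rw [sum_eq_single_of_mem 0 (mem_range.2 hq) (fun b _ hb => by simp [gI_nil, hb])]
    simp [gI_nil]
  | t :: L, hL => by
    have ht : t ≤ q := hL t (by simp)
    rw [List.map_cons, List.prod_cons, prod_lin q hq w hw L (fun x hx => hL x (by simp [hx]))]
    have e1 : ∑ r ∈ range q, PowerSeries.C (w ^ r) * gI q (t :: L) r =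
        ∑ r ∈ range q, PowerSeries.C (w ^ r) * gI q L r -
        PowerSeries.X * ∑ r ∈ range q, PowerSeries.C (w ^ r) * gI q L ((r + (q - t)) % q) := by
      rw [mul_sum, ← sum_sub_distrib]
      refine sum_congr rfl fun r _ => ?_
      rw [gI_cons]
      ring
    have e2 : ∑ r ∈ range q, PowerSeries.C (w ^ r) * gI q L ((r + (q - t)) % q) =
        ∑ r ∈ range q, PowerSeries.C (w ^ (r + t)) * gI q L r := by
      refine sum_bij' (fun r _ => (r + (q - t)) % q) (fun r _ => (r + t) % q)
        (fun r _ => mem_range.2 (Nat.mod_lt _ hq)) (fun r _ => mem_range.2 (Nat.mod_lt _ hq))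
        ?_ ?_ ?_
      · intro r hr
        have hr := mem_range.1 hr
        show ((r + (q - t)) % q + t) % q = r
        rw [Nat.mod_add_mod, show r + (q - t) + t = r + q by omega, Nat.add_mod_right,
          Nat.mod_eq_of_lt hr]
      · intro r hr
        have hr := mem_range.1 hr
        show ((r + t) % q + (q - t)) % q = r
        rw [Nat.mod_add_mod, show r + t + (q - t) = r + q by omega, Nat.add_mod_right,
          Nat.mod_eq_of_lt hr]
      · intro r hr
        show PowerSeries.C (w ^ r) * _ = PowerSeries.C (w ^ ((r + (q - t)) % q + t)) * _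
        congr 2
        have h1 : ∀ a : ℕ, w ^ (a % q) = w ^ a := fun a => by
          conv_rhs => rw [← Nat.mod_add_div a q, pow_add, pow_mul, hw, one_pow, mul_one]
        rw [pow_add, h1, ← pow_add, show r + (q - t) + t = r + q by omega, pow_add, hw, mul_one]
    rw [e1, e2, lin, sub_mul, one_mul]
    congr 1
    rw [mul_sum, mul_sum]
    refine sum_congr rfl fun r _ => ?_
    rw [pow_add, map_mul]
    ring

/-- the sum over all powers of a primitive root -/
theorem sum_prod_lin (q : ℕ) (hq : 0 < q) (z : ℂ) (hz : IsPrimitiveRoot z q)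
    (L : List ℕ) (hL : ∀ t ∈ L, t ≤ q) :
    ∑ j ∈ range q, (L.map fun t => lin ((z ^ j) ^ t)).prod = PowerSeries.C (q : ℂ) * gI q L 0 := by
  have h1 : ∀ j ∈ range q, (L.map fun t => lin ((z ^ j) ^ t)).prod =
      ∑ r ∈ range q, PowerSeries.C ((z ^ j) ^ r) * gI q L r := fun j _ =>
    prod_lin q hq (z ^ j) (by rw [← pow_mul, mul_comm, pow_mul, hz.pow_eq_one, one_pow]) L hL
  rw [sum_congr rfl h1, sum_comm]
  have h2 : ∀ r ∈ range q, ∑ j ∈ range q, PowerSeries.C ((z ^ j) ^ r) * gI q L r =
      if r = 0 then PowerSeries.C (q : ℂ) * gI q L 0 else 0 := by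
    intro r hr
    have hr := mem_range.1 hr
    rw [← sum_mul, ← map_sum]
    split_ifs with h0
    · subst h0
      simp
    · have h3 : ∑ j ∈ range q, (z ^ j) ^ r = 0 := by
        have h4 : ∑ j ∈ range q, (z ^ j) ^ r = ∑ j ∈ range q, (z ^ r) ^ j :=
          sum_congr rfl fun j _ => by rw [← pow_mul, ← pow_mul, mul_comm]
        rw [h4]
        have h5 : z ^ r ≠ 1 := hz.pow_ne_one_of_pos_of_lt h0 hr
        have h6 := geom_sum_mul (z ^ r) q
        rw [← pow_mul, mul_comm r q, pow_mul, hz.pow_eq_one, one_pow, sub_self] at h6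
        exact (mul_eq_zero.1 h6).resolve_right (sub_ne_zero.2 h5)
      rw [h3, map_zero, zero_mul]
  rw [sum_congr rfl h2, sum_ite_eq' (range q) 0, if_pos (mem_range.2 hq)]

/-- equal counts give equal series -/
theorem gI_eq (q : ℕ) (L L' : List ℕ) (N : ℕ) (h1 : L.length < N) (h2 : L'.length < N)
    (h : ∀ m < N, cI q L 0 m = cI q L' 0 m) : gI q L 0 = gI q L' 0 := by
  ext m
  simp only [gI, PowerSeries.coeff_mk]
  by_cases hm : m < N
  · rw [h m hm]
  · rw [cI_zero q L 0 m (by omega), cI_zero q L' 0 m (by omega)]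

end MPc53f59.EX66
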