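import Mathlib

namespace Pool.Agent.Lib.MP_c53f59_gt

open Polynomial

namespace S32

/-- `cc n = 2 cos (2 pi n / 11)`. -/
noncomputable def cc (n : ℕ) : ℝ := 2 * Real.cos (2 * Real.pi * n / 11)

noncomputable def ze : ℂ := Complex.exp (2 * Real.pi * Complex.I / (11 : ℕ))

theorem ze_prim : IsPrimitiveRoot ze 11 := Complex.isPrimitiveRoot_exp 11 (by norm_num)

theorem ze_pow (n : ℕ) : ze ^ n = Complex.exp (((2 * Real.pi * n / 11 : ℝ) : ℂ) * Complex.I) := by
  unfold ze
  rw [← Complex.exp_nat_mul]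
  congr 1
  push_cast
  ring

theorem cc_eq (n : ℕ) : ((cc n : ℝ) : ℂ) = ze ^ n + ze ^ (10 * n) := by
  have h1 : ze ^ n * ze ^ (10 * n) = 1 := by
    rw [← pow_add, show n + 10 * n = 11 * n by ring, pow_mul, ze_prim.pow_eq_one, one_pow]
  have h2 : ze ^ (10 * n) = (ze ^ n)⁻¹ := by
    have h0 : ze ^ n ≠ 0 := left_ne_zero_of_mul_eq_one h1
    exact eq_inv_of_mul_eq_one_right h1
  rw [h2, ze_pow, ← Complex.exp_neg]
  unfold cc
  push_cast
  rw [Complex.cos]
  ring_nf

/-- integral relations at `ze` hold at `ze ^ m`. -/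
theorem galois (P : ℤ[X]) (m : ℕ) (hm : Nat.Coprime m 11) (h : aeval ze P = 0) :
    aeval (ze ^ m) P = 0 := by
  have h1 : minpoly ℤ ze ∣ P :=
    minpoly.isIntegrallyClosed_dvd (ze_prim.isIntegral (by norm_num)) h
  rw [IsPrimitiveRoot.minpoly_eq_pow_coprime ze_prim hm] at h1
  obtain ⟨q, rfl⟩ := h1
  rw [map_mul, minpoly.aeval, zero_mul]

noncomputable def DD (e : ℕ) : ℤ[X] := (X + X ^ 10) - (X ^ e + X ^ (10 * e))

theorem DD_eval (e m : ℕ) : aeval (ze ^ m) (DD e) = ((cc m - cc (m * e) : ℝ) : ℂ) := by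
  unfold DD
  push_cast
  rw [cc_eq, cc_eq]
  simp only [map_sub, map_add, aeval_X, map_pow]
  rw [← pow_mul, ← pow_mul, ← pow_mul]
  ring_nf

theorem cc_anti {p q : ℕ} (h : p < q) (hq : 2 * q ≤ 11) : cc q < cc p := by
  unfold cc
  have hpi := Real.pi_pos
  have hq' : (2 * q : ℝ) ≤ 11 := by exact_mod_cast hq
  have hpq : (p : ℝ) < q := by exact_mod_cast h
  have h1 : Real.cos (2 * Real.pi * q / 11) < Real.cos (2 * Real.pi * p / 11) := by
    apply Real.cos_lt_cos_of_nonneg_of_le_pi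
    · positivity
    · rw [div_le_iff₀ (by norm_num)]
      nlinarith
    · apply div_lt_div_of_pos_right _ (by norm_num)
      nlinarith
  linarith

theorem cc_red (n : ℕ) : cc (n + 11) = cc n := by
  have h : ((cc (n + 11) : ℝ) : ℂ) = ((cc n : ℝ) : ℂ) := by
    rw [cc_eq, cc_eq]
    have h11 := ze_prim.pow_eq_one
    have e1 : ze ^ (n + 11) = ze ^ n := by rw [pow_add, h11, mul_one]
    have e2 : ze ^ (10 * (n + 11)) = ze ^ (10 * n) := by
      rw [show 10 * (n + 11) = 10 * n + 11 * 10 by ring, pow_add, pow_mul ze 11 10, h11, one_pow,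
        mul_one]
    rw [e1, e2]
  exact_mod_cast h

theorem cc_neg (n : ℕ) : cc (10 * n) = cc n := by
  have h : ((cc (10 * n) : ℝ) : ℂ) = ((cc n : ℝ) : ℂ) := by
    rw [cc_eq, cc_eq]
    have h11 := ze_prim.pow_eq_one
    have e2 : ze ^ (10 * (10 * n)) = ze ^ n := by
      rw [show 10 * (10 * n) = 11 * (9 * n) + n by ring, pow_add, pow_mul ze 11 (9 * n), h11,
        one_pow, one_mul]
    rw [e2]
    ring
  exact_mod_cast h

theorem cc_mod (n : ℕ) : cc n = cc (n % 11) := by
  have h : ∀ k r : ℕ, cc (r + 11 * k) = cc r := by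
    intro k
    induction k with
    | zero => intro r; simp
    | succ k ih =>
      intro r
      rw [show r + 11 * (k + 1) = (r + 11 * k) + 11 by ring, cc_red, ih]
  conv_lhs => rw [← Nat.mod_add_div n 11]
  exact h _ _

theorem c8 : cc 8 = cc 3 := by rw [← cc_neg 3, cc_mod 8, cc_mod (10 * 3)]
theorem c16 : cc 16 = cc 5 := by rw [cc_mod 16]
theorem c32 : cc 32 = cc 1 := by rw [← cc_neg 1, cc_mod 32, cc_mod (10 * 1)]
theorem c64 : cc 64 = cc 2 := by rw [← cc_neg 2, cc_mod 64, cc_mod (10 * 2)]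
theorem c128 : cc 128 = cc 4 := by rw [← cc_neg 4, cc_mod 128, cc_mod (10 * 4)]
theorem c256 : cc 256 = cc 3 := by rw [cc_mod 256]

theorem o12 : cc 2 < cc 1 := cc_anti (by norm_num) (by norm_num)
theorem o23 : cc 3 < cc 2 := cc_anti (by norm_num) (by norm_num)
theorem o34 : cc 4 < cc 3 := cc_anti (by norm_num) (by norm_num)
theorem o45 : cc 5 < cc 4 := cc_anti (by norm_num) (by norm_num)

theorem par4 (d : Fin 4 → ℝ) (n : Fin 4 → ℕ) (hn : ∀ x, 0 < (-1 : ℝ) ^ (n x) * d x)
    (a b : Fin 4 → ℕ) (h : ∏ x, d x ^ a x = ∏ x, d x ^ b x) :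
    (∑ x, n x * (a x + b x)) % 2 = 0 := by
  have hd : ∀ x, d x = (-1 : ℝ) ^ (n x) * ((-1 : ℝ) ^ (n x) * d x) := by
    intro x
    rw [← mul_assoc, ← pow_add, ← two_mul, pow_mul]
    norm_num
  have key : ∀ c : Fin 4 → ℕ, ∏ x, d x ^ c x =
      (-1 : ℝ) ^ (∑ x, n x * c x) * ∏ x, ((-1 : ℝ) ^ (n x) * d x) ^ c x := by
    intro c
    rw [← Finset.prod_pow_eq_pow_sum, ← Finset.prod_mul_distrib]
    apply Finset.prod_congr rfl
    intro x _
    conv_lhs => rw [hd x]
    rw [mul_pow, ← pow_mul]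
  rw [key a, key b] at h
  have hP : 0 < ∏ x, ((-1 : ℝ) ^ (n x) * d x) ^ a x :=
    Finset.prod_pos fun x _ => pow_pos (hn x) _
  have hQ : 0 < ∏ x, ((-1 : ℝ) ^ (n x) * d x) ^ b x :=
    Finset.prod_pos fun x _ => pow_pos (hn x) _
  have hs : ∑ x, n x * (a x + b x) = ∑ x, n x * a x + ∑ x, n x * b x := by
    rw [← Finset.sum_add_distrib]
    apply Finset.sum_congr rfl
    intro x _
    ring
  rw [hs]
  rcases Nat.even_or_odd (∑ x, n x * a x) with ha | ha <;>
    rcases Nat.even_or_odd (∑ x, n x * b x) with hb | hb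
  · have := ha.add hb
    exact Nat.even_iff.mp this
  · rw [ha.neg_one_pow, hb.neg_one_pow] at h
    linarith
  · rw [ha.neg_one_pow, hb.neg_one_pow] at h
    linarith
  · have := ha.add_odd hb
    exact Nat.even_iff.mp this

/-- exponents of 2 -/
def ee (x : Fin 4) : ℕ := 2 ^ ((x : ℕ) + 1)

/-- the differences in the `i`-th embedding -/
noncomputable def dd (i : ℕ) (x : Fin 4) : ℝ := cc (2 ^ i) - cc (2 ^ i * ee x)

theorem dd_ne (x : Fin 4) : dd 0 x ≠ 0 := by
  have h1 := o12
  have h2 := o23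
  have h3 := o34
  have h4 := o45
  unfold dd ee
  fin_cases x
  · norm_num
    linarith
  · norm_num
    linarith
  · norm_num
    rw [c8]
    linarith
  · norm_num
    rw [c16]
    linarith

theorem conj (s : ℤ) (a b : Fin 4 → ℕ)
    (h : ∏ x, dd 0 x ^ a x = s * ∏ x, dd 0 x ^ b x) (i : ℕ) :
    ∏ x, dd i x ^ a x = s * ∏ x, dd i x ^ b x := by
  have e1 : ∀ (j : ℕ) (c : Fin 4 → ℕ), aeval (ze ^ (2 ^ j)) (∏ x, DD (ee x) ^ c x) =
      ((∏ x, dd j x ^ c x : ℝ) : ℂ) := by
    intro j c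
    rw [map_prod]
    push_cast
    apply Finset.prod_congr rfl
    intro x _
    rw [map_pow, DD_eval]
    rfl
  have h0 : aeval ze ((∏ x, DD (ee x) ^ a x) - C s * ∏ x, DD (ee x) ^ b x) = 0 := by
    rw [map_sub, map_mul, aeval_C]
    have h1 := e1 0 a
    have h2 := e1 0 b
    rw [pow_zero, pow_one] at h1 h2
    rw [h1, h2, h]
    push_cast
    simp
  have h3 := galois _ (2 ^ i) (Nat.Coprime.pow_left i (by norm_num)) h0
  rw [map_sub, map_mul, aeval_C, e1, e1, sub_eq_zero] at h3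
  have h4 : ((∏ x, dd i x ^ a x : ℝ) : ℂ) = ((s * ∏ x, dd i x ^ b x : ℝ) : ℂ) := by
    rw [h3]
    push_cast
    simp
  exact_mod_cast h4

theorem parity (a b : Fin 4 → ℕ) (h : ∏ x, dd 0 x ^ a x = ∏ x, dd 0 x ^ b x) :
    ∀ x, (a x + b x) % 2 = 0 := by
  have h1 := o12
  have h2 := o23
  have h3 := o34
  have h4 := o45
  have hc : ∀ i, ∏ x, dd i x ^ a x = ∏ x, dd i x ^ b x := by
    intro i
    have := conj 1 a b (by push_cast; rw [one_mul]; exact h) i
    push_cast at this
    rwa [one_mul] at this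
  have p1 := par4 (dd 1) ![0, 0, 0, 1] (by
    intro x
    unfold dd ee
    fin_cases x
    · norm_num; linarith
    · norm_num; rw [c8]; linarith
    · norm_num; rw [c16]; linarith
    · norm_num; rw [c32]; linarith) a b (hc 1)
  have p2 := par4 (dd 2) ![1, 0, 1, 1] (by
    intro x
    unfold dd ee
    fin_cases x
    · norm_num; rw [c8]; linarith
    · norm_num; rw [c16]; linarith
    · norm_num; rw [c32]; linarith
    · norm_num; rw [c64]; linarith) a b (hc 2)
  have p3 := par4 (dd 3) ![0, 1, 1, 0] (by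
    intro x
    unfold dd ee
    fin_cases x
    · norm_num; rw [c8, c16]; linarith
    · norm_num; rw [c8, c32]; linarith
    · norm_num; rw [c8, c64]; linarith
    · norm_num; rw [c8, c128]; linarith) a b (hc 3)
  have p4 := par4 (dd 4) ![1, 1, 1, 1] (by
    intro x
    unfold dd ee
    fin_cases x
    · norm_num; rw [c16, c32]; linarith
    · norm_num; rw [c16, c64]; linarith
    · norm_num; rw [c16, c128]; linarith
    · norm_num; rw [c16, c256]; linarith) a b (hc 4)
  simp only [Fin.sum_univ_four, Matrix.cons_val_zero, Matrix.cons_val_one, Matrix.cons_val] at p1 p2 p3 p4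
  intro x
  fin_cases x
  · show (a 0 + b 0) % 2 = 0
    omega
  · show (a 1 + b 1) % 2 = 0
    omega
  · show (a 2 + b 2) % 2 = 0
    omega
  · show (a 3 + b 3) % 2 = 0
    omega

theorem no_minus (a b : Fin 4 → ℕ) (h : ∏ x, dd 0 x ^ a x = -∏ x, dd 0 x ^ b x) : False := by
  have h1 := o12
  have h2 := o23
  have h3 := o34
  have h4 := o45
  have hp : ∀ x, 0 < dd 0 x := by
    intro x
    unfold dd ee
    fin_cases x
    · norm_num; linarith
    · norm_num; linarith
    · norm_num; rw [c8]; linarith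
    · norm_num; rw [c16]; linarith
  have hP : 0 < ∏ x, dd 0 x ^ a x := Finset.prod_pos fun x _ => pow_pos (hp x) _
  have hQ : 0 < ∏ x, dd 0 x ^ b x := Finset.prod_pos fun x _ => pow_pos (hp x) _
  linarith

/-- multiplicative independence of the four differences. -/
theorem indep (n : ℕ) : ∀ (a b : Fin 4 → ℕ), ∑ x, (a x + b x) = n →
    ∏ x, dd 0 x ^ a x = ∏ x, dd 0 x ^ b x → a = b := by
  induction n using Nat.strong_induction_on with
  | _ n ih =>
  intro a b hn h
  have hpar := parity a b h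
  by_cases hn0 : n = 0
  · rw [hn0, Finset.sum_eq_zero_iff] at hn
    funext x
    have := hn x (Finset.mem_univ x)
    omega
  set a' : Fin 4 → ℕ := fun x => a x / 2 with ha'
  set b' : Fin 4 → ℕ := fun x => b x / 2 with hb'
  have hr : ∀ x, a x % 2 = b x % 2 := fun x => by have := hpar x; omega
  have ea : ∏ x, dd 0 x ^ a x = (∏ x, dd 0 x ^ (a x % 2)) * (∏ x, dd 0 x ^ a' x) ^ 2 := by
    rw [← Finset.prod_pow, ← Finset.prod_mul_distrib]
    apply Finset.prod_congr rfl
    intro x _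
    rw [← pow_mul, ← pow_add]
    congr 1
    simp only [ha']
    omega
  have eb : ∏ x, dd 0 x ^ b x = (∏ x, dd 0 x ^ (a x % 2)) * (∏ x, dd 0 x ^ b' x) ^ 2 := by
    rw [← Finset.prod_pow, ← Finset.prod_mul_distrib]
    apply Finset.prod_congr rfl
    intro x _
    rw [← pow_mul, ← pow_add]
    congr 1
    simp only [hb']
    have := hr x
    omega
  rw [ea, eb] at h
  have h0 : (∏ x, dd 0 x ^ (a x % 2)) ≠ 0 :=
    Finset.prod_ne_zero_iff.mpr fun x _ => pow_ne_zero _ (dd_ne x)
  have h2 := mul_left_cancel₀ h0 h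
  have h3 : a' = b' := by
    rcases sq_eq_sq_iff_eq_or_eq_neg.mp h2 with h4 | h4
    · refine ih _ ?_ a' b' rfl h4
      rw [← hn]
      apply Finset.sum_lt_sum
      · intro x _
        simp only [ha', hb']
        omega
      · by_contra hcon
        push Not at hcon
        apply hn0
        rw [← hn]
        apply Finset.sum_eq_zero
        intro x hx
        have := hcon x hx
        simp only [ha', hb'] at this
        omega
    · exact absurd h4 (fun h => no_minus a' b' h)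
  funext x
  have h5 := congrFun h3 x
  have h6 := hr x
  simp only [ha', hb'] at h5
  omega

end S32

end Pool.Agent.Lib.MP_c53f59_gt
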