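import Mathlib
import Pool.Agent.Lib.MP_c53f59_gt.Cir32
import Pool.Agent.Lib.MP_c53f59_gt.Sgn32

namespace Pool.Agent.Lib.MP_c53f59_gt

open Polynomial

namespace K32

noncomputable def th (i : ZMod 5) : ℝ := 2 * Real.cos (2 * Real.pi * (2 : ℝ) ^ i.val / 11)

noncomputable def T11 (a : ZMod 5 → ℕ) : Polynomial ℝ :=
  ∑ j : ZMod 5, ∏ x : ZMod 5, (Polynomial.X - Polynomial.C (th (x + j))) ^ a x

theorem th_cc (i : ZMod 5) : th i = S32.cc (2 ^ i.val) := by
  unfold th S32.cc
  push_cast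
  rfl

theorem th0 : th 0 = S32.cc 1 := by rw [th_cc]; rfl
theorem th1 : th 1 = S32.cc 2 := by rw [th_cc]; rfl
theorem th2 : th 2 = S32.cc 4 := by rw [th_cc]; rfl
theorem th3 : th 3 = S32.cc 3 := by rw [th_cc, ← S32.c8]; rfl
theorem th4 : th 4 = S32.cc 5 := by rw [th_cc, ← S32.c16]; rfl

theorem th_inj : Function.Injective th := by
  have h1 := S32.o12
  have h2 := S32.o23
  have h3 := S32.o34
  have h4 := S32.o45
  intro i j hij
  have hall : ∀ w : ZMod 5, w = 0 ∨ w = 1 ∨ w = 2 ∨ w = 3 ∨ w = 4 := by decide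
  rcases hall i with rfl | rfl | rfl | rfl | rfl <;>
    rcases hall j with rfl | rfl | rfl | rfl | rfl <;>
    first
      | rfl
      | (exfalso; simp only [th0, th1, th2, th3, th4] at hij; linarith)

/-- a linear relation -/
theorem dep (a b : ZMod 5 → ℕ) (h : T11 a = T11 b) :
    ¬ LinearIndependent ℝ (C32.F th (fun c => if c then b else a)) := by
  intro hli
  rw [Fintype.linearIndependent_iff] at hli
  have h1 : ∑ u : Bool × ZMod 5, (if u.1 then (-1 : ℝ) else 1) •
      C32.F th (fun c => if c then b else a) u = 0 := by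
    rw [Fintype.sum_prod_type, Fintype.sum_bool]
    simp only [if_true, Bool.false_eq_true, if_false, neg_smul, one_smul, Finset.sum_neg_distrib]
    have ha : ∑ j : ZMod 5, C32.F th (fun c => if c then b else a) (false, j) = T11 a := by
      unfold T11 C32.F
      simp
    have hb : ∑ j : ZMod 5, C32.F th (fun c => if c then b else a) (true, j) = T11 b := by
      unfold T11 C32.F
      simp
    rw [ha, hb, h]
    ring
  have := hli _ h1 (false, 0)
  simp at this

/-- the value at `th 0` when there is exactly one zero -/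
theorem eval0 (a : ZMod 5 → ℕ) (x0 : ZMod 5) (h1 : ∀ x, x ≠ x0 → a x ≠ 0) :
    (T11 a).eval (th 0) = ∏ y : ZMod 5, (th 0 - th y) ^ a (y + x0) := by
  unfold T11
  rw [eval_finsetSum]
  rw [Finset.sum_eq_single (-x0)]
  · rw [eval_prod, ← Equiv.prod_comp (Equiv.addRight x0)]
    apply Finset.prod_congr rfl
    intro y _
    simp only [Equiv.coe_addRight, eval_pow, eval_sub, eval_X, eval_C]
    rw [add_neg_cancel_right]
  · intro j _ hj
    rw [eval_prod]
    apply Finset.prod_eq_zero (Finset.mem_univ (-j))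
    rw [eval_pow, eval_sub, eval_X, eval_C, neg_add_cancel, sub_self]
    apply zero_pow
    apply h1
    intro h
    exact hj (by rw [← h, neg_neg])
  · intro h
    exact absurd (Finset.mem_univ _) h

theorem prod0 (c : ZMod 5 → ℕ) (h : c 0 = 0) :
    ∏ y : ZMod 5, (th 0 - th y) ^ c y =
      ∏ x : Fin 4, S32.dd 0 x ^ (![c 1, c 2, c 3, c 4] x) := by
  have h5 : ∀ f : ZMod 5 → ℝ, ∏ x, f x = f 0 * f 1 * f 2 * f 3 * f 4 := by
    intro f
    exact Fin.prod_univ_five f
  rw [h5, Fin.prod_univ_four, h, pow_zero, one_mul]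
  have e0 : S32.dd 0 0 = th 0 - th 1 := by
    rw [th0, th1]; unfold S32.dd S32.ee; norm_num
  have e1 : S32.dd 0 1 = th 0 - th 2 := by
    rw [th0, th2]; unfold S32.dd S32.ee; norm_num
  have e2 : S32.dd 0 2 = th 0 - th 3 := by
    rw [th0, th3, ← S32.c8]; unfold S32.dd S32.ee; norm_num
  have e3 : S32.dd 0 3 = th 0 - th 4 := by
    rw [th0, th4, ← S32.c16]; unfold S32.dd S32.ee; norm_num
  rw [e0, e1, e2, e3]
  rfl

theorem one_zero (a b : ZMod 5 → ℕ) (x0 y0 : ZMod 5) (ha0 : a x0 = 0)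
    (ha : ∀ x, x ≠ x0 → a x ≠ 0) (hb0 : b y0 = 0) (hb : ∀ x, x ≠ y0 → b x ≠ 0)
    (h : T11 a = T11 b) : ∃ s : ZMod 5, ∀ x, b x = a (x + s) := by
  have h1 := eval0 a x0 ha
  have h2 := eval0 b y0 hb
  rw [h, h2] at h1
  rw [prod0 (fun y => a (y + x0)) (by simp only [zero_add]; exact ha0),
    prod0 (fun y => b (y + y0)) (by simp only [zero_add]; exact hb0)] at h1
  have h3 := S32.indep _ _ _ rfl h1
  have k0 := congrFun h3 0
  have k1 := congrFun h3 1
  have k2 := congrFun h3 2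
  have k3 := congrFun h3 3
  have hall : ∀ w : ZMod 5, w = 0 ∨ w = 1 ∨ w = 2 ∨ w = 3 ∨ w = 4 := by decide
  have key : ∀ y : ZMod 5, b (y + y0) = a (y + x0) := by
    intro y
    rcases hall y with rfl | rfl | rfl | rfl | rfl
    · rw [zero_add, zero_add, ha0, hb0]
    · exact k0
    · exact k1
    · exact k2
    · exact k3
  refine ⟨x0 - y0, fun x => ?_⟩
  have := key (x - y0)
  rw [sub_add_cancel] at this
  rw [this]
  congr 1
  ring

/-- from the bound: when one of the two has two zeros the sum is at most 108 -/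
theorem bound108 (a b : ZMod 5 → ℕ) (k : ℕ) (ha : ∑ x, a x = k) (hb : ∑ x, b x = k)
    (za : ∃ x, a x = 0) (zb : ∃ x, b x = 0) (h : T11 a = T11 b)
    (h2 : (∃ x y, x ≠ y ∧ a x = 0 ∧ a y = 0) ∨ (∃ x y, x ≠ y ∧ b x = 0 ∧ b y = 0))
    (hns : ¬ ∃ s : ZMod 5, ∀ x, b x = a (x + s)) : k ≤ 108 := by
  have hk : ∀ c : Bool, ∑ x, (fun c : Bool => if c then b else a) c x = k := by
    intro c
    cases c
    · simpa using ha
    · simpa using hb
  have hz : ∀ c : Bool, ∃ x, (fun c : Bool => if c then b else a) c x = 0 := by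
    intro c
    cases c
    · simpa using za
    · simpa using zb
  rcases h2 with ⟨x, y, hxy, hx, hy⟩ | ⟨x, y, hxy, hx, hy⟩
  · exact C32.circuit108 th_inj hk hz (c := false) hxy (by simpa using hx) (by simpa using hy)
      (by simpa using hns) (dep a b h)
  · exact C32.circuit108 th_inj hk hz (c := true) hxy (by simpa using hx) (by simpa using hy)
      (by simpa using hns) (dep a b h)

/-- the value of the sum over a commutative ring -/
def T60 {R : Type*} [CommRing R] (c : ZMod 5 → R) (e : ZMod 5 → ℕ) (w : R) : R :=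
  ∑ j, ∏ x, (w - c (x + j)) ^ e x

/-- core32 from transfer and the finite check -/
theorem core_of {R : Type*} [CommRing R] (c : ZMod 5 → R)
    (htr : ∀ a b : ZMod 5 → ℕ, T11 a = T11 b → ∀ w : R, T60 c a w = T60 c b w)
    (hchk : ∀ e e' : ZMod 5 → ℕ, ∑ x, e x = ∑ x, e' x → ∑ x, e x ≤ 108 →
      (∃ x y, x ≠ y ∧ e x = 0 ∧ e y = 0) → (∃ x, e' x = 0) →
      (∀ w : R, T60 c e w = T60 c e' w) →
      (∃ s, ∀ x, e' x = e (x + s)) ∨ (∑ x, e x = 2 ∨ ∑ x, e x = 3 ∨ ∑ x, e x = 4))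
    (a b : ZMod 5 → ℕ) (k : ℕ) (ha : ∑ x, a x = k) (hb : ∑ x, b x = k)
    (hk : k ≠ 2 ∧ k ≠ 3 ∧ k ≠ 4)
    (za : ∃ x, a x = 0) (zb : ∃ x, b x = 0) (h : T11 a = T11 b) :
    ∃ s : ZMod 5, ∀ x, b x = a (x + s) := by
  by_cases h2a : ∃ x y, x ≠ y ∧ a x = 0 ∧ a y = 0
  · by_contra hns
    have h108 := bound108 a b k ha hb za zb h (Or.inl h2a) hns
    rcases hchk a b (ha.trans hb.symm) (by rw [ha]; exact h108) h2a zb (htr a b h) with h1 | h1
    · exact hns h1
    · rw [ha] at h1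
      omega
  · by_cases h2b : ∃ x y, x ≠ y ∧ b x = 0 ∧ b y = 0
    · by_contra hns
      have h108 := bound108 a b k ha hb za zb h (Or.inr h2b) hns
      rcases hchk b a (hb.trans ha.symm) (by rw [hb]; exact h108) h2b za (htr b a h.symm)
        with ⟨s, hs⟩ | h1
      · apply hns
        refine ⟨-s, fun x => ?_⟩
        rw [hs, neg_add_cancel_right]
      · rw [hb] at h1
        omega
    · obtain ⟨x0, hx0⟩ := za
      obtain ⟨y0, hy0⟩ := zb
      refine one_zero a b x0 y0 hx0 ?_ hy0 ?_ h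
      · intro x hx hx'
        exact h2a ⟨x, x0, hx, hx', hx0⟩
      · intro x hx hx'
        exact h2b ⟨x, y0, hx, hx', hy0⟩

end K32

end Pool.Agent.Lib.MP_c53f59_gt
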