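import Pool.Agent.Lib.MP_c53f59_gt.Cnt66

/-!
Row EX (helper66), part A: parameter vectors with prescribed multiplicities, the sum over the
powers of the generator, and the comparison of cosines.
-/

set_option autoImplicit false

namespace MPc53f59.EX66

open Finset

/-- a parameter vector with the multiplicities `M - count` -/
theorem exS (h M n : ℕ) (E : Multiset ℕ) (hE : E ≤ M • (Icc 1 h).val)
    (hn : n + Multiset.card E = M * h) :
    ∃ s : Fin n → ℕ, (univ : Finset (Fin n)).val.map s + E = M • (Icc 1 h).val := by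
  set m : Multiset ℕ := M • (Icc 1 h).val - E with hm
  have h1 : m + E = M • (Icc 1 h).val := Multiset.sub_add_cancel hE
  have h2 : Multiset.card m = n := by
    have h3 := congrArg Multiset.card h1
    rw [Multiset.card_add, Multiset.card_nsmul] at h3
    have h4 : Multiset.card (Icc 1 h).val = h := by
      rw [Finset.card_val, Nat.card_Icc]
      omega
    rw [h4] at h3
    omega
  have h5 : m.toList.length = n := by rw [Multiset.length_toList, h2]
  refine ⟨fun i => m.toList.get (i.cast h5.symm), ?_⟩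
  rw [← h1]
  congr 1
  rw [Fin.univ_val_map]
  have h6 : List.ofFn (fun i : Fin n => m.toList.get (i.cast h5.symm)) = m.toList := by
    subst h5
    exact List.ofFn_get _
  rw [h6]
  exact Multiset.coe_toList m

section data

variable {h M n : ℕ} {E : Multiset ℕ} {s : Fin n → ℕ}

theorem smem (hs : (univ : Finset (Fin n)).val.map s + E = M • (Icc 1 h).val) (i : Fin n) :
    1 ≤ s i ∧ s i ≤ h := by
  have h1 : s i ∈ M • (Icc 1 h).val := by
    rw [← hs]
    exact Multiset.mem_add.2 (Or.inl (Multiset.mem_map_of_mem s (Finset.mem_univ i)))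
  have h2 : s i ∈ (Icc 1 h).val := Multiset.mem_of_mem_nsmul h1
  exact Finset.mem_Icc.1 h2

theorem sprod {R : Type} [CommMonoid R]
    (hs : (univ : Finset (Fin n)).val.map s + E = M • (Icc 1 h).val) (f : ℕ → R) :
    (∏ i, f (s i)) * (E.map f).prod = (∏ a ∈ Icc 1 h, f a) ^ M := by
  have h1 : (((univ : Finset (Fin n)).val.map s + E).map f).prod =
      ((M • (Icc 1 h).val).map f).prod := by rw [hs]
  rw [Multiset.map_add, Multiset.prod_add, Multiset.map_map, Multiset.map_nsmul,
    Multiset.prod_nsmul] at h1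
  exact h1

theorem scount (hs : (univ : Finset (Fin n)).val.map s + E = M • (Icc 1 h).val) {a : ℕ}
    (ha : a ∈ Icc 1 h) : (univ.filter fun i => s i = a).card + E.count a = M := by
  have h1 : (((univ : Finset (Fin n)).val.map s + E).count a) =
      (M • (Icc 1 h).val).count a := by rw [hs]
  rw [Multiset.count_add, Multiset.count_nsmul, Multiset.count_eq_one_of_mem (Icc 1 h).nodup ha,
    mul_one, Multiset.count_map] at h1
  rw [← h1]
  congr 1
  rw [Finset.card_def, Finset.filter_val]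
  congr 1
  exact Multiset.filter_congr fun i _ => eq_comm

end data

/-- the root of unity -/
noncomputable def zt (q : ℕ) : ℂ := Complex.exp (2 * Real.pi * Complex.I / q)

theorem zt_prim (q : ℕ) (hq : q ≠ 0) : IsPrimitiveRoot (zt q) q :=
  Complex.isPrimitiveRoot_exp q hq

/-- one quadratic factor -/
noncomputable def fac (q j a : ℕ) : PowerSeries ℂ :=
  lin ((zt q ^ j) ^ a) * lin ((zt q ^ j) ^ (q - a))

theorem quad (q j a : ℕ) (hq : 0 < q) (ha : a ≤ q) :
    (((1 - Polynomial.C (2 * ((Real.cos ((j : ℝ) * (2 * Real.pi * (a : ℝ) / (q : ℝ))) : ℝ) : ℂ)) *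
      Polynomial.X + Polynomial.X ^ 2 : Polynomial ℂ)) : PowerSeries ℂ) = fac q j a := by
  set u := (zt q ^ j) ^ a with hu
  set v := (zt q ^ j) ^ (q - a) with hv
  have h1 : v * u = 1 := by
    rw [hu, hv, ← pow_add, Nat.sub_add_cancel ha, ← pow_mul, mul_comm, pow_mul,
      (zt_prim q hq.ne').pow_eq_one, one_pow]
  set θ : ℝ := (j : ℝ) * (2 * Real.pi * (a : ℝ) / (q : ℝ)) with hθ
  have h2 : u = Complex.exp ((θ : ℂ) * Complex.I) := by
    rw [hu, zt, ← Complex.exp_nat_mul, ← Complex.exp_nat_mul]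
    congr 1
    rw [hθ]
    push_cast
    ring
  have h3 : v = Complex.exp (-(θ : ℂ) * Complex.I) := by
    have h4 : v = u⁻¹ := eq_inv_of_mul_eq_one_left h1
    rw [h4, h2, ← Complex.exp_neg, neg_mul]
  have h5 : 2 * ((Real.cos θ : ℝ) : ℂ) = u + v := by
    rw [h2, h3, Complex.ofReal_cos, Complex.two_cos]
  rw [h5, fac, ← hu, ← hv, lin, lin]
  have h6 : (1 - PowerSeries.C u * PowerSeries.X) * (1 - PowerSeries.C v * PowerSeries.X) =
      (1 - PowerSeries.C (u + v) * PowerSeries.X + PowerSeries.C (v * u) * PowerSeries.X ^ 2 :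
        PowerSeries ℂ) := by
    rw [map_add, map_mul]
    ring
  rw [h6, h1, map_one, one_mul]
  simp

theorem lin_const (z : ℂ) : PowerSeries.constantCoeff (lin z) = 1 := by
  simp [lin]

theorem fac_const (q j a : ℕ) : PowerSeries.constantCoeff (fac q j a) = 1 := by
  rw [fac, map_mul, lin_const, lin_const, one_mul]

/-- all residues -/
theorem prod_all (q j : ℕ) (hq : 0 < q) (hj : Nat.Coprime j q) (F : ℂ → PowerSeries ℂ) :
    ∏ t ∈ range q, F ((zt q ^ j) ^ t) = ∏ t ∈ range q, F (zt q ^ t) := by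
  have h1 : ∀ t : ℕ, (zt q ^ j) ^ t = zt q ^ ((j * t) % q) := fun t => by
    rw [← pow_mul]
    conv_lhs => rw [← Nat.mod_add_div (j * t) q, pow_add, pow_mul, (zt_prim q hq.ne').pow_eq_one,
      one_pow, mul_one]
  have hm : Set.MapsTo (fun t => (j * t) % q) (range q) (range q) := fun t _ => by
    simpa using Nat.mod_lt _ hq
  have hi : Set.InjOn (fun t => (j * t) % q) (range q) := by
    intro a ha b hb hab
    have ha := mem_range.1 (Finset.mem_coe.1 ha)
    have hb := mem_range.1 (Finset.mem_coe.1 hb)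
    have h2 : j * a ≡ j * b [MOD q] := hab
    have h3 : a ≡ b [MOD q] := Nat.ModEq.cancel_left_of_coprime
      (by rw [Nat.Coprime, Nat.gcd_comm] at hj; exact hj) h2
    exact Nat.ModEq.eq_of_lt_of_lt h3 ha hb
  refine prod_nbij (fun t => (j * t) % q) hm hi
    (Finset.surjOn_of_injOn_of_card_le _ hm hi le_rfl) fun t _ => by rw [h1]

/-- pairs of residues -/
def ps (q : ℕ) : List ℕ → List ℕ
  | [] => []
  | a :: E => a :: (q - a) :: ps q E

theorem ps_prod (q j : ℕ) : ∀ E : List ℕ,
    (E.map (fac q j)).prod = ((ps q E).map fun t => lin ((zt q ^ j) ^ t)).prod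
  | [] => rfl
  | a :: E => by
    rw [List.map_cons, List.prod_cons, ps_prod q j E, ps, List.map_cons, List.map_cons,
      List.prod_cons, List.prod_cons, fac, mul_assoc]

theorem ps_le (q : ℕ) : ∀ E : List ℕ, (∀ a ∈ E, a ≤ q) → ∀ t ∈ ps q E, t ≤ q
  | [], _, t, ht => by simp [ps] at ht
  | a :: E, hE, t, ht => by
    rw [ps, List.mem_cons, List.mem_cons] at ht
    rcases ht with rfl | rfl | ht
    · exact hE _ (by simp)
    · omega
    · exact ps_le q E (fun x hx => hE x (by simp [hx])) t ht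

/-- the sum over the group -/
theorem sum_inv (q h M n : ℕ) (hq : 0 < q) (hp : ∀ j, 0 < j → j < q → Nat.Coprime j q)
    (hU : ∀ F : ℕ → PowerSeries ℂ, (∏ a ∈ Icc 1 h, (F a * F (q - a))) * F 0 = ∏ t ∈ range q, F t)
    (E E' : List ℕ) (hE : ∀ a ∈ E, a ≤ q) (hE' : ∀ a ∈ E', a ≤ q) (hl : E.length = E'.length)
    (hc : gI q (ps q E) 0 = gI q (ps q E') 0) {s s' : Fin n → ℕ}
    (hs : (univ : Finset (Fin n)).val.map s + (E : Multiset ℕ) = M • (Icc 1 h).val)
    (hs' : (univ : Finset (Fin n)).val.map s' + (E' : Multiset ℕ) = M • (Icc 1 h).val) :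
    ∑ j ∈ range q, (∏ i, fac q j (s i))⁻¹ = ∑ j ∈ range q, (∏ i, fac q j (s' i))⁻¹ := by
  -- the inverse of one product
  have key : ∀ (E : List ℕ) (s : Fin n → ℕ),
      (univ : Finset (Fin n)).val.map s + (E : Multiset ℕ) = M • (Icc 1 h).val → ∀ j,
      (∏ i, fac q j (s i))⁻¹ =
        (E.map (fac q j)).prod * ((∏ a ∈ Icc 1 h, fac q j a) ^ M)⁻¹ := by
    intro E s hs j
    have h1 := sprod hs (fac q j)
    rw [Multiset.map_coe, Multiset.prod_coe] at h1
    have h2 : PowerSeries.constantCoeff (∏ i, fac q j (s i)) ≠ 0 := by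
      rw [map_prod]
      simp [fac_const]
    have h3 : PowerSeries.constantCoeff ((∏ a ∈ Icc 1 h, fac q j a) ^ M) ≠ 0 := by
      rw [map_pow, map_prod]
      simp [fac_const]
    rw [PowerSeries.inv_eq_iff_mul_eq_one h2, mul_right_comm, mul_comm _ (∏ i, fac q j (s i)), h1,
      PowerSeries.mul_inv_cancel _ h3]
  -- the denominator does not depend on j
  have hlin : lin 1 ≠ 0 := fun h => by
    have := lin_const 1
    rw [h, map_zero] at this
    exact zero_ne_one this
  have den : ∀ j, 0 < j → j < q →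
      ∏ a ∈ Icc 1 h, fac q j a = ∏ a ∈ Icc 1 h, fac q 1 a := by
    intro j h0 hj
    have h1 : ∀ i, (∏ a ∈ Icc 1 h, fac q i a) * lin 1 =
        ∏ t ∈ range q, lin ((zt q ^ i) ^ t) := fun i => by
      rw [← hU (fun t => lin ((zt q ^ i) ^ t)), pow_zero]
      rfl
    refine mul_right_cancel₀ hlin ?_
    rw [h1 j, h1 1, prod_all q j hq (hp j h0 hj) lin]
    simp
  have zero : ∀ s : Fin n → ℕ, ∏ i, fac q 0 (s i) = (lin 1 * lin 1) ^ n := by
    intro s
    have h1 : ∀ a, fac q 0 a = lin 1 * lin 1 := fun a => by simp [fac]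
    simp [h1]
  have zeroE : ∀ E : List ℕ, (E.map (fac q 0)).prod = (lin 1 * lin 1) ^ E.length := by
    intro E
    have h1 : E.map (fac q 0) = E.map (fun _ => lin 1 * lin 1) :=
      List.map_congr_left fun a _ => by simp [fac]
    rw [h1]
    simp
  have tot : ∀ E : List ℕ, (∀ a ∈ E, a ≤ q) →
      ∑ j ∈ range q, (E.map (fac q j)).prod = PowerSeries.C (q : ℂ) * gI q (ps q E) 0 := by
    intro E hE
    rw [← sum_prod_lin q hq (zt q) (zt_prim q hq.ne') (ps q E) (ps_le q E hE)]
    exact sum_congr rfl fun j _ => ps_prod q j E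
  have main : ∀ (E : List ℕ) (s : Fin n → ℕ), (∀ a ∈ E, a ≤ q) →
      (univ : Finset (Fin n)).val.map s + (E : Multiset ℕ) = M • (Icc 1 h).val →
      ∑ j ∈ range q, (∏ i, fac q j (s i))⁻¹ = ((lin 1 * lin 1) ^ n)⁻¹ +
        (PowerSeries.C (q : ℂ) * gI q (ps q E) 0 - (lin 1 * lin 1) ^ E.length) *
          ((∏ a ∈ Icc 1 h, fac q 1 a) ^ M)⁻¹ := by
    intro E s hE hs
    obtain ⟨r, rfl⟩ : ∃ r, q = r + 1 := ⟨q - 1, by omega⟩
    rw [sum_range_succ', zero, add_comm]
    congr 1
    have h1 : ∀ j ∈ range r, (∏ i, fac (r + 1) (j + 1) (s i))⁻¹ =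
        (E.map (fac (r + 1) (j + 1))).prod * ((∏ a ∈ Icc 1 h, fac (r + 1) 1 a) ^ M)⁻¹ := by
      intro j hj
      rw [key E s hs (j + 1), den (j + 1) (by omega) (by have := mem_range.1 hj; omega)]
    rw [sum_congr rfl h1, ← sum_mul]
    congr 1
    have h2 := tot E hE
    rw [sum_range_succ', zeroE] at h2
    rw [← h2]
    ring
  rw [main E s hE hs, main E' s' hE' hs', hc, hl]

/-- equality of cosines -/
theorem cos_iff (q x y : ℕ) (hq : 0 < q) :
    Real.cos (2 * Real.pi * (x : ℝ) / (q : ℝ)) = Real.cos (2 * Real.pi * (y : ℝ) / (q : ℝ)) ↔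
      (q : ℤ) ∣ (x : ℤ) - y ∨ (q : ℤ) ∣ (x : ℤ) + y := by
  have hq' : (q : ℝ) ≠ 0 := by exact_mod_cast hq.ne'
  have hpi := Real.pi_ne_zero
  rw [Real.cos_eq_cos_iff]
  constructor
  · rintro ⟨k, h | h⟩
    · left
      refine ⟨-k, ?_⟩
      have h1 : (y : ℝ) = k * q + x := by
        field_simp at h
        linarith
      have h2 : (y : ℤ) = k * q + x := by exact_mod_cast h1
      rw [h2]
      ring
    · right
      refine ⟨k, ?_⟩
      have h1 : (y : ℝ) = k * q - x := by
        field_simp at h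
        linarith
      have h2 : (y : ℤ) = k * q - x := by exact_mod_cast h1
      rw [h2]
      ring
  · rintro (⟨k, h⟩ | ⟨k, h⟩)
    · refine ⟨-k, Or.inl ?_⟩
      have h1 : (x : ℝ) - y = q * k := by exact_mod_cast h
      have h2 : (y : ℝ) = x - q * k := by linarith
      rw [h2]
      push_cast
      field_simp
      ring
    · refine ⟨k, Or.inr ?_⟩
      have h1 : (x : ℝ) + y = q * k := by exact_mod_cast h
      have h2 : (y : ℝ) = q * k - x := by linarith
      rw [h2]
      field_simp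

end MPc53f59.EX66
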