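import Pool.Agent.Lib.MP_c53f59_gt.Defs2
import Pool.Agent.Lib.MP_c53f59_gt.ExA66

/-!
Row EX (helper66): isospectral non isometric lens spaces of order 11 and of order 13. The rows
SPEC2, L4, L5, L6, L8 are hypotheses.
-/

set_option autoImplicit false

namespace MPc53f59.EX66

open Finset MPc53f59

/-- row SPEC2 -/
def StSpec2 : Prop := ∀ (ι : Type) [Fintype ι] [DecidableEq ι] [Nonempty ι]
  (G₁ G₂ : Subgroup (Matrix.orthogonalGroup ι ℝ)) [Fintype G₁] [Fintype G₂],
  Fintype.card G₁ = Fintype.card G₂ →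
  ∑ g : G₁, ((((toC (g : Matrix.orthogonalGroup ι ℝ)).charpolyRev : Polynomial ℂ) :
      PowerSeries ℂ))⁻¹ =
    ∑ g : G₂, ((((toC (g : Matrix.orthogonalGroup ι ℝ)).charpolyRev : Polynomial ℂ) :
      PowerSeries ℂ))⁻¹ → Isospectral G₁ G₂

/-- row L4 -/
def StRev : Prop := ∀ (n : ℕ) (θ : Fin n → ℝ), (toC (rot θ)).charpolyRev =
  ∏ i, (1 - Polynomial.C (2 * ((Real.cos (θ i) : ℝ) : ℂ)) * Polynomial.X + Polynomial.X ^ 2)

/-- row L5 -/
def StCard : Prop := ∀ (n q : ℕ), 0 < n → 0 < q → ∀ s : Fin n → ℕ,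
  (∀ i, Nat.Coprime (s i) q) → Nat.card (lens q s) = q

/-- row L6 -/
def StSum : Prop := ∀ (n q : ℕ), 0 < n → 0 < q → ∀ s : Fin n → ℕ,
  (∀ i, Nat.Coprime (s i) q) → ∀ [Fintype (lens q s)]
  (f : Matrix.orthogonalGroup (Fin (2 * n)) ℝ → PowerSeries ℂ),
    ∑ g : lens q s, f g =
      ∑ j ∈ Finset.range q, f (rot (fun i => (j : ℝ) * (2 * Real.pi * (s i : ℝ) / (q : ℝ))))

/-- row L8 -/
def StNot : Prop := ∀ (n q : ℕ), 0 < n → 0 < q → ∀ s s' : Fin n → ℕ,
  (∀ i, Nat.Coprime (s i) q) → (∀ i, Nat.Coprime (s' i) q) →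
  Isometric (lens q s) (lens q s') →
  ∃ u : ℕ, Nat.Coprime u q ∧ ∀ x : ℝ,
    (Finset.univ.filter fun i => Real.cos (2 * Real.pi * (s' i : ℝ) / (q : ℝ)) = x).card =
    (Finset.univ.filter fun i =>
      Real.cos (2 * Real.pi * ((u * s i : ℕ) : ℝ) / (q : ℝ)) = x).card

section core

variable {q h M n : ℕ}

theorem sum_lens (hs4 : StRev) (hs6 : StSum) (hn : 0 < n) (hq : 0 < q) (s : Fin n → ℕ)
    (hs : ∀ i, Nat.Coprime (s i) q) (hle : ∀ i, s i ≤ q) [Fintype (lens q s)] :
    ∑ g : lens q s, ((((toC (g : Matrix.orthogonalGroup (Fin (2 * n)) ℝ)).charpolyRev :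
      Polynomial ℂ) : PowerSeries ℂ))⁻¹ = ∑ j ∈ range q, (∏ i, fac q j (s i))⁻¹ := by
  have h1 := hs6 n q hn hq s hs (fun g => ((((toC g).charpolyRev : Polynomial ℂ) :
    PowerSeries ℂ))⁻¹)
  refine h1.trans (sum_congr rfl fun j _ => ?_)
  rw [hs4]
  congr 1
  rw [← Polynomial.coeToPowerSeries.ringHom_apply, map_prod]
  refine prod_congr rfl fun i _ => ?_
  rw [Polynomial.coeToPowerSeries.ringHom_apply, quad q j (s i) hq (hle i)]

/-- both statements, from the finite data -/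
theorem exist (h2 : StSpec2) (h4 : StRev) (h5 : StCard) (h6 : StSum) (h8 : StNot)
    (hn : 0 < n) (hq : q = 2 * h + 1) (hpr : q.Prime)
    (hU : ∀ F : ℕ → PowerSeries ℂ, (∏ a ∈ Icc 1 h, (F a * F (q - a))) * F 0 = ∏ t ∈ range q, F t)
    (E E' : List ℕ) (M0 : ℕ) (hM : M0 ≤ M)
    (hE : (E : Multiset ℕ) ≤ M0 • (Icc 1 h).val) (hE' : (E' : Multiset ℕ) ≤ M0 • (Icc 1 h).val)
    (hl : E.length = E'.length) (hlen : n + E.length = M * h)
    (hc : gI q (ps q E) 0 = gI q (ps q E') 0)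
    (hd : ∀ v < q, v ≠ 0 → ∃ a ∈ Icc 1 h, ∃ b ∈ Icc 1 h,
      (q ∣ v * b + a ∨ (v * b) % q = a) ∧ E'.count a ≠ E.count b) :
    ∃ s s' : Fin n → ℕ, (∀ i, 0 < s i ∧ s i ≤ h) ∧ (∀ i, 0 < s' i ∧ s' i ≤ h) ∧
      Isospectral (lens q s) (lens q s') ∧ ¬ Isometric (lens q s) (lens q s') := by
  have hq0 : 0 < q := hpr.pos
  have hmono : M0 • (Icc 1 h).val ≤ M • (Icc 1 h).val := nsmul_le_nsmul_left zero_le hM
  obtain ⟨s, hs⟩ := exS h M n E (hE.trans hmono) (by simpa using hlen)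
  obtain ⟨s', hs'⟩ := exS h M n E' (hE'.trans hmono) (by simpa [← hl] using hlen)
  have cop : ∀ x, 1 ≤ x ∧ x ≤ h → Nat.Coprime x q := fun x hx =>
    ((Nat.Prime.coprime_iff_not_dvd hpr).2 fun hd => by
      have := Nat.le_of_dvd (by omega) hd
      omega).symm
  have c1 : ∀ i, Nat.Coprime (s i) q := fun i => cop _ (smem hs i)
  have c2 : ∀ i, Nat.Coprime (s' i) q := fun i => cop _ (smem hs' i)
  refine ⟨s, s', fun i => smem hs i, fun i => smem hs' i, ?_, ?_⟩
  · -- isospectral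
    have n1 : Nat.card (lens q s) = q := h5 n q hn hq0 s c1
    have n2 : Nat.card (lens q s') = q := h5 n q hn hq0 s' c2
    have f1 : Finite (lens q s) := Nat.finite_of_card_ne_zero (by rw [n1]; exact hq0.ne')
    have f2 : Finite (lens q s') := Nat.finite_of_card_ne_zero (by rw [n2]; exact hq0.ne')
    have := Fintype.ofFinite (lens q s)
    have := Fintype.ofFinite (lens q s')
    have : Nonempty (Fin (2 * n)) := ⟨⟨0, by omega⟩⟩
    refine h2 (Fin (2 * n)) _ _ ?_ ?_
    · rw [← Nat.card_eq_fintype_card, ← Nat.card_eq_fintype_card, n1, n2]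
    · rw [sum_lens h4 h6 hn hq0 s c1 (fun i => by have := smem hs i; omega),
        sum_lens h4 h6 hn hq0 s' c2 (fun i => by have := smem hs' i; omega)]
      have inI : ∀ E : List ℕ, (E : Multiset ℕ) ≤ M0 • (Icc 1 h).val → ∀ a ∈ E, a ≤ q := by
        intro E hE a ha
        have h1 : a ∈ M0 • (Icc 1 h).val := Multiset.mem_of_le hE (by simpa using ha)
        have h3 : a ∈ (Icc 1 h).val := Multiset.mem_of_mem_nsmul h1
        have := Finset.mem_Icc.1 (show a ∈ Icc 1 h from h3)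
        omega
      exact sum_inv q h M n hq0 (fun j hj1 hj2 =>
        ((Nat.Prime.coprime_iff_not_dvd hpr).2 fun hd => by
          have := Nat.le_of_dvd hj1 hd
          omega).symm) hU
        E E' (inI E hE) (inI E' hE') hl hc hs hs'
  · -- not isometric
    intro hiso
    obtain ⟨u, hu, hx⟩ := h8 n q hn hq0 s s' c1 c2 hiso
    have hu0 : u % q ≠ 0 := fun h0 => by
      have h1 : q ∣ u := Nat.dvd_of_mod_eq_zero h0
      exact (Nat.Prime.coprime_iff_not_dvd hpr).1 hu.symm h1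
    obtain ⟨a, ha, b, hb, hab, hne⟩ := hd (u % q) (Nat.mod_lt _ hq0) hu0
    have ha' := Finset.mem_Icc.1 ha
    have hb' := Finset.mem_Icc.1 hb
    -- u b = +- a modulo q
    have hz : (q : ℤ) ∣ (u : ℤ) * b - a ∨ (q : ℤ) ∣ (u : ℤ) * b + a := by
      have e1 : (u : ℤ) = (u % q : ℕ) + q * (u / q : ℕ) := by exact_mod_cast (Nat.mod_add_div u q).symm
      rcases hab with h1 | h1
      · right
        have h3 : (q : ℤ) ∣ ((u % q : ℕ) : ℤ) * b + a := by exact_mod_cast h1
        obtain ⟨k, hk⟩ := h3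
        exact ⟨k + (u / q : ℕ) * b, by rw [e1]; linear_combination hk⟩
      · left
        have h3 : ((u % q : ℕ) : ℤ) * b = a + q * ((u % q * b / q : ℕ) : ℤ) := by
          have := Nat.mod_add_div (u % q * b) q
          rw [h1] at this
          exact_mod_cast this.symm
        exact ⟨(u % q * b / q : ℕ) + (u / q : ℕ) * b, by rw [e1]; linear_combination h3⟩
    have hqz : Prime (q : ℤ) := Nat.prime_iff_prime_int.1 hpr
    have huz : ¬ (q : ℤ) ∣ (u : ℤ) := fun hd => by
      have h1 : q ∣ u := by exact_mod_cast hd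
      exact hu0 (Nat.mod_eq_zero_of_dvd h1)
    have small : ∀ x y : ℕ, (1 ≤ x ∧ x ≤ h) → (1 ≤ y ∧ y ≤ h) →
        ((q : ℤ) ∣ (x : ℤ) - y ∨ (q : ℤ) ∣ (x : ℤ) + y) → x = y := by
      rintro x y hx hy (hd | hd)
      · have h1 : (x : ℤ) - y = 0 := Int.eq_zero_of_abs_lt_dvd hd (by
          rw [abs_lt]
          constructor <;> omega)
        omega
      · have h1 : (x : ℤ) + y = 0 := Int.eq_zero_of_abs_lt_dvd hd (by
          rw [abs_lt]
          constructor <;> omega)
        omega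
    have hxa := hx (Real.cos (2 * Real.pi * (a : ℝ) / (q : ℝ)))
    have l1 : (univ.filter fun i => Real.cos (2 * Real.pi * (s' i : ℝ) / (q : ℝ)) =
        Real.cos (2 * Real.pi * (a : ℝ) / (q : ℝ))) = univ.filter fun i => s' i = a := by
      refine filter_congr fun i _ => ?_
      rw [cos_iff q _ _ hq0]
      exact ⟨fun hh => small _ _ (smem hs' i) ha' hh, fun hh => Or.inl (by rw [hh]; simp)⟩
    have l2 : (univ.filter fun i => Real.cos (2 * Real.pi * ((u * s i : ℕ) : ℝ) / (q : ℝ)) =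
        Real.cos (2 * Real.pi * (a : ℝ) / (q : ℝ))) = univ.filter fun i => s i = b := by
      refine filter_congr fun i _ => ?_
      rw [cos_iff q _ _ hq0]
      push_cast
      constructor
      · intro hh
        refine small _ _ (smem hs i) hb' ?_
        have h9 : (q : ℤ) ∣ (u : ℤ) * ((s i : ℤ) - b) ∨ (q : ℤ) ∣ (u : ℤ) * ((s i : ℤ) + b) := by
          rcases hh with ⟨k, hk⟩ | ⟨k, hk⟩ <;> rcases hz with ⟨m, hm⟩ | ⟨m, hm⟩
          · exact Or.inl ⟨k - m, by linear_combination hk - hm⟩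
          · exact Or.inr ⟨k + m, by linear_combination hk + hm⟩
          · exact Or.inr ⟨k + m, by linear_combination hk + hm⟩
          · exact Or.inl ⟨k - m, by linear_combination hk - hm⟩
        rcases h9 with h9 | h9
        · exact Or.inl ((hqz.dvd_or_dvd h9).resolve_left huz)
        · exact Or.inr ((hqz.dvd_or_dvd h9).resolve_left huz)
      · intro hh
        rw [hh]
        exact hz
    rw [l1, l2] at hxa
    have k1 := scount hs' ha
    have k2 := scount hs hb
    rw [Multiset.coe_count] at k1 k2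
    omega

end core

theorem all13 (F : ℕ → PowerSeries ℂ) :
    (∏ a ∈ Icc 1 6, (F a * F (13 - a))) * F 0 = ∏ t ∈ range 13, F t := by
  rw [show Icc 1 6 = {1, 2, 3, 4, 5, 6} from rfl]
  simp [Finset.prod_range_succ]
  ring

theorem all11 (F : ℕ → PowerSeries ℂ) :
    (∏ a ∈ Icc 1 5, (F a * F (11 - a))) * F 0 = ∏ t ∈ range 11, F t := by
  rw [show Icc 1 5 = {1, 2, 3, 4, 5} from rfl]
  simp [Finset.prod_range_succ]
  ring

/-- EX13 -/
theorem exist13 (h2 : StSpec2) (h4 : StRev) (h5 : StCard) (h6 : StSum) (h8 : StNot)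
    (n : ℕ) (hn : 3 ≤ n) (h : n % 6 = 1 ∨ n % 6 = 2 ∨ n % 6 = 3 ∨ n % 6 = 4) :
    ∃ s s' : Fin n → ℕ, (∀ i, 0 < s i ∧ s i ≤ 6) ∧ (∀ i, 0 < s' i ∧ s' i ≤ 6) ∧
      Isospectral (lens 13 s) (lens 13 s') ∧ ¬ Isometric (lens 13 s) (lens 13 s') := by
  have hp : Nat.Prime 13 := by norm_num
  rcases h with h | h | h | h
  · refine exist h2 h4 h5 h6 h8 (M := n / 6 + 1) (by omega) (by norm_num) hp all13
      [1, 1, 2, 5, 5] [1, 1, 2, 4, 4] 2 (by omega) (by decide) (by decide) rfl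
      (by simp only [List.length_cons, List.length_nil]; omega)
      (gI_eq 13 _ _ 11 (by decide) (by decide) (by decide)) (by decide)
  · refine exist h2 h4 h5 h6 h8 (M := n / 6 + 1) (by omega) (by norm_num) hp all13
      [1, 1, 3, 3] [1, 1, 5, 5] 2 (by omega) (by decide) (by decide) rfl
      (by simp only [List.length_cons, List.length_nil]; omega)
      (gI_eq 13 _ _ 9 (by decide) (by decide) (by decide)) (by decide)
  · refine exist h2 h4 h5 h6 h8 (M := n / 6 + 1) (by omega) (by norm_num) hp all13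
      [1, 2, 3] [1, 3, 4] 1 (by omega) (by decide) (by decide) rfl
      (by simp only [List.length_cons, List.length_nil]; omega)
      (gI_eq 13 _ _ 7 (by decide) (by decide) (by decide)) (by decide)
  · refine exist h2 h4 h5 h6 h8 (M := n / 6 + 1) (by omega) (by norm_num) hp all13
      [1, 2] [1, 3] 1 (by omega) (by decide) (by decide) rfl
      (by simp only [List.length_cons, List.length_nil]; omega)
      (gI_eq 13 _ _ 5 (by decide) (by decide) (by decide)) (by decide)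

/-- EX11 -/
theorem exist11 (h2 : StSpec2) (h4 : StRev) (h5 : StCard) (h6 : StSum) (h8 : StNot)
    (n : ℕ) (hn : 3 ≤ n) (h : n % 5 = 1 ∨ n % 5 = 2 ∨ n % 5 = 3) (h6' : n ≠ 6) :
    ∃ s s' : Fin n → ℕ, (∀ i, 0 < s i ∧ s i ≤ 5) ∧ (∀ i, 0 < s' i ∧ s' i ≤ 5) ∧
      Isospectral (lens 11 s) (lens 11 s') ∧ ¬ Isometric (lens 11 s) (lens 11 s') := by
  have hp : Nat.Prime 11 := by norm_num
  rcases h with h | h | h
  · refine exist h2 h4 h5 h6 h8 (M := n / 5 + 1) (by omega) (by norm_num) hp all11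
      [1, 1, 1, 5] [1, 1, 1, 4] 3 (by omega) (by decide) (by decide) rfl
      (by simp only [List.length_cons, List.length_nil]; omega)
      (gI_eq 11 _ _ 9 (by decide) (by decide) (by decide)) (by decide)
  · refine exist h2 h4 h5 h6 h8 (M := n / 5 + 1) (by omega) (by norm_num) hp all11
      [1, 1, 5] [1, 1, 3] 2 (by omega) (by decide) (by decide) rfl
      (by simp only [List.length_cons, List.length_nil]; omega)
      (gI_eq 11 _ _ 7 (by decide) (by decide) (by decide)) (by decide)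
  · refine exist h2 h4 h5 h6 h8 (M := n / 5 + 1) (by omega) (by norm_num) hp all11
      [1, 2] [1, 3] 1 (by omega) (by decide) (by decide) rfl
      (by simp only [List.length_cons, List.length_nil]; omega)
      (gI_eq 11 _ _ 5 (by decide) (by decide) (by decide)) (by decide)

end MPc53f59.EX66
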