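import Mathlib
import Pool.Agent.Lib.MP_c53f59_gt.Core32

namespace Pool.Agent.Lib.MP_c53f59_gt

namespace F32

open K32

/-- the values `2 cos (2 pi 2^x / 11)` modulo 529 (text of helper60) -/
def c529 : ZMod 5 → ZMod 529 := ![60, 424, 443, 517, 142]

/-- the representative of the class with a given value at `w = 2` -/
def rep (k : ZMod 529) : ZMod 5 → ℕ :=
  if k = 154 then ![0, 0, 0, 2, 2] else
  if k = 143 then ![0, 0, 1, 1, 2] else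
  if k = 110 then ![0, 0, 1, 2, 1] else
  if k = 198 then ![0, 0, 2, 0, 2] else
  if k = 121 then ![0, 0, 2, 1, 1] else
  if k = 99 then ![0, 1, 0, 1, 2] else
  if k = 66 then ![0, 1, 0, 2, 1] else
  if k = 88 then ![0, 1, 1, 0, 2] else ![0, 1, 1, 1, 1]

def ok (e : ZMod 5 → ℕ) : Prop :=
  ∃ s : ZMod 5, ∀ x : ZMod 5, e x = rep (T60 c529 e 2) (x + s)

instance (e : ZMod 5 → ℕ) : Decidable (ok e) := by
  unfold ok
  infer_instance

def v5 (a0 a1 a2 a3 a4 : ℕ) : ZMod 5 → ℕ := ![a0, a1, a2, a3, a4]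

theorem fact : ∀ a0 a1 a2 a3 a4 : Fin 3, a0.val + a1.val + a2.val + a3.val + a4.val = 4 →
    ok (v5 a0.val a1.val a2.val a3.val a4.val) := by
  decide +kernel

theorem fact' (a : ZMod 5 → ℕ) (ha : ∑ x, a x = 4) (ha2 : ∀ x, a x ≤ 2) :
    ∃ s : ZMod 5, ∀ x, a x = rep (T60 c529 a 2) (x + s) := by
  have h1 : ∀ x, a x < 3 := fun x => by have := ha2 x; omega
  have h2 := fact ⟨a 0, h1 0⟩ ⟨a 1, h1 1⟩ ⟨a 2, h1 2⟩ ⟨a 3, h1 3⟩ ⟨a 4, h1 4⟩ (by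
    have h3 : ∑ x, a x = a 0 + a 1 + a 2 + a 3 + a 4 := Fin.sum_univ_five a
    rw [← ha, h3])
  have h3 : v5 (a 0) (a 1) (a 2) (a 3) (a 4) = a := by
    funext x
    have hall : ∀ w : ZMod 5, w = 0 ∨ w = 1 ∨ w = 2 ∨ w = 3 ∨ w = 4 := by decide
    rcases hall x with rfl | rfl | rfl | rfl | rfl <;> rfl
  simp only at h2
  rw [h3] at h2
  exact h2

/-- core_four from the transfer -/
theorem core_four_of
    (htr : ∀ a b : ZMod 5 → ℕ, T11 a = T11 b → ∀ w : ZMod 529, T60 c529 a w = T60 c529 b w)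
    (a b : ZMod 5 → ℕ) (ha : ∑ x, a x = 4) (hb : ∑ x, b x = 4)
    (ha2 : ∀ x, a x ≤ 2) (hb2 : ∀ x, b x ≤ 2) (h : T11 a = T11 b) :
    ∃ s : ZMod 5, ∀ x, b x = a (x + s) := by
  obtain ⟨s, hs⟩ := fact' a ha ha2
  obtain ⟨t, ht⟩ := fact' b hb hb2
  rw [← htr a b h 2] at ht
  refine ⟨t - s, fun x => ?_⟩
  rw [ht, hs]
  congr 1
  ring

end F32

end Pool.Agent.Lib.MP_c53f59_gt
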