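import Mathlib
import Pool.Agent.Lib.MP_c53f59_gt.Defs2

/-!
MP_c53f59_gt, row GR: finite groups of order at most 12 which act freely; cyclic groups are lens
groups; isometric groups.
-/

set_option autoImplicit false

namespace MPc53f59.Gr26

/-! ### abstract part -/

section abs

set_option linter.unusedSectionVars false

variable {O : Type*} [Group O] [HasDistribNeg O]

/-- an element of order 2 is `-1` -/
def Two (G : Subgroup O) : Prop := ∀ g ∈ G, g * g = 1 → g = 1 ∨ g = -1

theorem two_order {G : Subgroup O} (h2 : Two G) {g : O} (hg : g ∈ G) (h : orderOf g = 2) :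
    g = -1 := by
  have h3 : g * g = 1 := by rw [← pow_two, ← h, pow_orderOf_eq_one]
  rcases h2 g hg h3 with h4 | h4
  · rw [h4, orderOf_one] at h; omega
  · exact h4

theorem exists_order {G : Subgroup O} [Finite G] {p : ℕ} (hp : p.Prime) (hd : p ∣ Nat.card G) :
    ∃ g ∈ G, orderOf g = p := by
  have := Fact.mk hp
  obtain ⟨x, hx⟩ := exists_prime_orderOf_dvd_card' p hd
  exact ⟨x, x.2, by rw [Subgroup.orderOf_coe, hx]⟩

theorem neg_mem {G : Subgroup O} [Finite G] (h2 : Two G) (hd : 2 ∣ Nat.card G) :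
    (-1 : O) ∈ G := by
  obtain ⟨g, hg, h⟩ := exists_order Nat.prime_two hd
  rwa [← two_order h2 hg h]

theorem cyclic_of_order {G : Subgroup O} [Finite G] {g : O} (hg : g ∈ G)
    (h : orderOf g = Nat.card G) : IsCyclic G :=
  isCyclic_of_orderOf_eq_card (⟨g, hg⟩ : G) (by rw [← h, ← Subgroup.orderOf_coe])

theorem order_neg (h1 : (1 : O) ≠ -1) : orderOf (-1 : O) = 2 := by
  rw [orderOf_eq_prime_iff]
  exact ⟨by simp, fun h => h1 h.symm⟩

/-- `-c` for `c` of odd order -/
theorem order_neg_mul (h1 : (1 : O) ≠ -1) {c : O} (hc : Nat.Coprime 2 (orderOf c)) :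
    orderOf (-c) = 2 * orderOf c := by
  have h3 : Commute (-1 : O) c := Commute.neg_one_left c
  have h4 := h3.orderOf_mul_eq_mul_orderOf_of_coprime (by rw [order_neg h1]; exact hc)
  rw [order_neg h1, neg_one_mul] at h4
  exact h4

theorem ord_dvd {G : Subgroup O} [Finite G] {g : O} (hg : g ∈ G) : orderOf g ∣ Nat.card G := by
  have := orderOf_dvd_natCard (⟨g, hg⟩ : G)
  rwa [← Subgroup.orderOf_coe] at this

/-- orders `2 p`, `p` odd -/
theorem card_two_mul {G : Subgroup O} [Finite G] (h1 : (1 : O) ≠ -1) (h2 : Two G) {p : ℕ}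
    (hp : p.Prime) (hp2 : Nat.Coprime 2 p) (hc : Nat.card G = 2 * p) : IsCyclic G := by
  obtain ⟨c, hcG, h⟩ := exists_order (G := G) hp (by rw [hc]; exact Dvd.intro_left 2 rfl)
  have h3 := neg_mem h2 (by rw [hc]; exact Dvd.intro p rfl)
  have h4 : -c ∈ G := by rw [← neg_one_mul]; exact G.mul_mem h3 hcG
  exact cyclic_of_order h4 (by rw [order_neg_mul h1 (by rw [h]; exact hp2), h, hc])

/-- a group of order `4` -/
theorem card_four {G : Subgroup O} [Finite G] (h1 : (1 : O) ≠ -1) (h2 : Two G)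
    (hc : Nat.card G = 4) : IsCyclic G := by
  by_contra hn
  have h3 : ∀ g ∈ G, g = 1 ∨ g = -1 := by
    intro g hg
    refine h2 g hg ?_
    have h4 := ord_dvd hg
    rw [hc] at h4
    have h5 : orderOf g ≠ 4 := fun h => hn (cyclic_of_order hg (by rw [h, hc]))
    have h6 : orderOf g ∣ 2 := by
      have h7 : orderOf g ≤ 4 := Nat.le_of_dvd (by norm_num) h4
      interval_cases h8 : orderOf g <;> simp_all
    rw [← pow_two]
    exact orderOf_dvd_iff_pow_eq_one.1 h6
  have h4 : Nat.card G ≤ 2 := by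
    have h5 : (G : Set O) ⊆ {1, -1} := fun g hg => h3 g hg
    have h6 := Set.ncard_le_ncard h5 (by simp)
    rw [Set.ncard_pair h1] at h6
    rwa [← Nat.card_coe_set_eq] at h6
  omega

/-- the quaternion group -/
theorem card_eight {G : Subgroup O} [Finite G] (h1 : (1 : O) ≠ -1) (h2 : Two G)
    (hc : Nat.card G = 8) : IsCyclic G ∨
      ∃ I J : O, I * I = -1 ∧ J * J = -1 ∧ I * J = -(J * I) ∧
    ∀ g, g ∈ G ↔ g = 1 ∨ g = -1 ∨ g = I ∨ g = -I ∨ g = J ∨ g = -J ∨ g = I * J ∨ g = -(I * J) := by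
  by_cases hn : IsCyclic G
  · exact Or.inl hn
  right
  have hm1 : (-1 : O) ∈ G := neg_mem h2 (by rw [hc]; norm_num)
  have hneg : ∀ g ∈ G, -g ∈ G := fun g hg => by
    rw [← neg_one_mul]; exact G.mul_mem hm1 hg
  have h3 : ∀ g ∈ G, g ≠ 1 → g ≠ -1 → g * g = -1 := by
    intro g hg g1 g2
    have h4 := ord_dvd hg
    rw [hc] at h4
    have h5 : orderOf g ≠ 8 := fun h => hn (cyclic_of_order hg (by rw [h, hc]))
    have h6 : orderOf g ∣ 4 := by
      have h7 : orderOf g ≤ 8 := Nat.le_of_dvd (by norm_num) h4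
      interval_cases h8 : orderOf g <;> simp_all
    have h7 : g ^ 4 = 1 := orderOf_dvd_iff_pow_eq_one.1 h6
    have h8 : (g * g) * (g * g) = 1 := by rw [← h7]; simp [pow_succ, mul_assoc]
    rcases h2 (g * g) (G.mul_mem hg hg) h8 with h9 | h9
    · rcases h2 g hg h9 with h10 | h10
      · exact absurd h10 g1
      · exact absurd h10 g2
    · exact h9
  -- the set {1, -1} is too small
  obtain ⟨I, hI, hI1⟩ : ∃ I ∈ G, I ∉ ({1, -1} : Set O) := by
    by_contra hcon
    push Not at hcon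
    have h6 := Set.ncard_le_ncard (show (G : Set O) ⊆ {1, -1} from hcon) (by simp)
    rw [Set.ncard_pair h1, ← Nat.card_coe_set_eq] at h6
    have : Nat.card G ≤ 2 := h6
    omega
  have hI2 : I ≠ 1 ∧ I ≠ -1 := by simpa [not_or] using hI1
  have II := h3 I hI hI2.1 hI2.2
  obtain ⟨J, hJ, hJ1⟩ : ∃ J ∈ G, J ∉ ({1, -1, I, -I} : Set O) := by
    by_contra hcon
    push Not at hcon
    have h6 := Set.ncard_le_ncard (show (G : Set O) ⊆ {1, -1, I, -I} from hcon) (by simp)
    have h7 : ({1, -1, I, -I} : Set O).ncard ≤ 4 := by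
      refine (Set.ncard_insert_le _ _).trans ?_
      have := Set.ncard_insert_le (-1 : O) {I, -I}
      have := Set.ncard_insert_le I {-I}
      have := Set.ncard_singleton (-I)
      omega
    have : Nat.card G ≤ 4 := by
      have h8 := h6.trans h7
      rwa [← Nat.card_coe_set_eq] at h8
    omega
  have hJ2 : J ≠ 1 ∧ J ≠ -1 ∧ J ≠ I ∧ J ≠ -I := by simpa [not_or] using hJ1
  have JJ := h3 J hJ hJ2.1 hJ2.2.1
  have hIinv : I⁻¹ = -I := by
    rw [inv_eq_iff_mul_eq_one, mul_neg, II, neg_neg]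
  have hJinv : J⁻¹ = -J := by
    rw [inv_eq_iff_mul_eq_one, mul_neg, JJ, neg_neg]
  have hIJ : I * J ∈ G := G.mul_mem hI hJ
  have n1 : I * J ≠ 1 := fun h => hJ2.2.2.2 (by rw [← hIinv]; exact (eq_inv_of_mul_eq_one_right h))
  have n2 : I * J ≠ -1 := fun h => hJ2.2.2.1 (by
    have h9 : I⁻¹ * (I * J) = I⁻¹ * -1 := by rw [h]
    rw [inv_mul_cancel_left, hIinv] at h9
    simpa using h9)
  have K := h3 _ hIJ n1 n2
  have hanti : I * J = -(J * I) := by
    have h9 : (I * J) = -(I * J)⁻¹ := by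
      rw [eq_comm, neg_eq_iff_eq_neg, inv_eq_iff_mul_eq_one, mul_neg, K, neg_neg]
    rw [h9, mul_inv_rev, hIinv, hJinv]
    simp
  refine ⟨I, J, II, JJ, hanti, ?_⟩
  -- eight different elements
  have nx : ∀ x : O, x ≠ -x := by
    intro x h
    apply h1
    have : x⁻¹ * x = x⁻¹ * -x := by rw [← h]
    simpa using this
  set T : Set O := {1, -1, I, -I, J, -J, I * J, -(I * J)} with hT
  have hsub : T ⊆ (G : Set O) := by
    intro g hg
    simp only [hT, Set.mem_insert_iff, Set.mem_singleton_iff] at hg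
    rcases hg with h | h | h | h | h | h | h | h <;> subst h
    · exact G.one_mem
    · exact hm1
    · exact hI
    · exact hneg _ hI
    · exact hJ
    · exact hneg _ hJ
    · exact hIJ
    · exact hneg _ hIJ
  have hIne : I ≠ -1 := hI2.2
  -- J, IJ and the others are different
  have e1 : I * J ≠ I := fun h => hJ2.1 (by simpa using h)
  have e2 : I * J ≠ -I := fun h => hJ2.2.1 (by
    have h9 : I⁻¹ * (I * J) = I⁻¹ * -I := by rw [h]
    simpa using h9)
  have e3 : I * J ≠ J := fun h => hI2.1 (by simpa using h)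
  have e4 : I * J ≠ -J := fun h => hI2.2 (by
    have h9 : (I * J) * J⁻¹ = -J * J⁻¹ := by rw [h]
    simpa using h9)
  have hcard : T.ncard = 8 := by
    have a1 : J ≠ 1 := hJ2.1
    have a2 : J ≠ -1 := hJ2.2.1
    have a3 : J ≠ I := hJ2.2.2.1
    have a4 : J ≠ -I := hJ2.2.2.2
    have a5 : I ≠ 1 := hI2.1
    have ng : ∀ x y : O, x ≠ -y → -x ≠ y := fun x y h h' => h (by rw [← h', neg_neg])
    have nn : ∀ x y : O, x ≠ y → -x ≠ -y := fun x y h h' => h (neg_injective h')
    have sw : ∀ x y : O, x = -y → y = -x := fun x y h => (neg_eq_iff_eq_neg.1 h.symm)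
    rw [hT]
    rw [Set.ncard_insert_of_notMem, Set.ncard_insert_of_notMem, Set.ncard_insert_of_notMem,
      Set.ncard_insert_of_notMem, Set.ncard_insert_of_notMem, Set.ncard_insert_of_notMem,
      Set.ncard_pair (nx _)]
    · simp only [Set.mem_insert_iff, Set.mem_singleton_iff, not_or]
      exact ⟨fun h => e4 h.symm, fun h' => e3 (neg_injective h').symm⟩
    · simp only [Set.mem_insert_iff, Set.mem_singleton_iff, not_or]
      exact ⟨nx _, fun h => e3 h.symm, fun h => e4 (sw _ _ h)⟩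
    · simp only [Set.mem_insert_iff, Set.mem_singleton_iff, not_or]
      refine ⟨ng _ _ (fun h => a4 (sw _ _ h)), nn _ _ a3.symm,
        ng _ _ (fun h => e2 (sw _ _ h)), nn _ _ e1.symm⟩
    · simp only [Set.mem_insert_iff, Set.mem_singleton_iff, not_or]
      exact ⟨nx _, a3.symm, fun h => a4 (sw _ _ h), e1.symm, fun h => e2 (sw _ _ h)⟩
    · simp only [Set.mem_insert_iff, Set.mem_singleton_iff, not_or]
      refine ⟨hI2.2.symm, nn _ _ a5.symm, a2.symm, nn _ _ a1.symm, n2.symm, nn _ _ n1.symm⟩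
    · simp only [Set.mem_insert_iff, Set.mem_singleton_iff, not_or]
      refine ⟨h1, a5.symm, fun h => hI2.2 (sw _ _ h), a1.symm,
        fun h => a2 (sw _ _ h), n1.symm, fun h => n2 (sw _ _ h)⟩
  have heq : T = (G : Set O) := by
    refine Set.eq_of_subset_of_ncard_le hsub ?_ (Set.toFinite _)
    rw [hcard, ← Nat.card_coe_set_eq]
    exact hc.le
  intro g
  have : g ∈ G ↔ g ∈ T := by rw [heq]; rfl
  rw [this]
  simp only [hT, Set.mem_insert_iff, Set.mem_singleton_iff]

/-- the dicyclic group of order `12` -/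
theorem card_twelve {G : Subgroup O} [Finite G] (h1 : (1 : O) ≠ -1) (h2 : Two G)
    (hc : Nat.card G = 12) : IsCyclic G ∨
      ∃ a b : O, a ^ 3 = -1 ∧ a ^ 2 ≠ 1 ∧ b * b = -1 ∧ b * a = a⁻¹ * b ∧
        ∀ g, g ∈ G ↔ ∃ i : Fin 6, g = a ^ (i : ℕ) ∨ g = a ^ (i : ℕ) * b := by
  by_cases hn : IsCyclic G
  · exact Or.inl hn
  right
  have hm1 : (-1 : O) ∈ G := neg_mem h2 (by rw [hc]; norm_num)
  obtain ⟨c, hcG, hco⟩ := exists_order (G := G) Nat.prime_three (by rw [hc]; norm_num)
  have hc3 : c ^ 3 = 1 := by rw [← hco, pow_orderOf_eq_one]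
  set a : O := -c with ha
  have haG : a ∈ G := by rw [ha, ← neg_one_mul]; exact G.mul_mem hm1 hcG
  have hao : orderOf a = 6 := by rw [ha, order_neg_mul h1 (by rw [hco]; norm_num), hco]
  have ha3 : a ^ 3 = -1 := by rw [ha, Odd.neg_pow (by decide), hc3]
  have ha6 : a ^ 6 = 1 := by rw [← hao, pow_orderOf_eq_one]
  have ha2 : a ^ 2 ≠ 1 := by
    intro h
    have := orderOf_dvd_of_pow_eq_one h
    rw [hao] at this
    omega
  -- the cyclic subgroup of order 6
  let H : Subgroup G := Subgroup.zpowers ⟨a, haG⟩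
  have hH : Nat.card H = 6 := by
    rw [Nat.card_zpowers, ← Subgroup.orderOf_coe, hao]
  have hidx : H.index = 2 := by
    have := H.card_mul_index
    rw [hH, hc] at this
    omega
  have hHn : H.Normal := Subgroup.normal_of_index_eq_two hidx
  -- membership
  have hmem : ∀ g : G, g ∈ H ↔ ∃ i : Fin 6, (g : O) = a ^ (i : ℕ) := by
    intro g
    constructor
    · intro hg
      have h3 : (g : G) ∈ Submonoid.powers (⟨a, haG⟩ : G) := by
        rw [mem_powers_iff_mem_zpowers]; exact hg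
      obtain ⟨k, hk⟩ := h3
      refine ⟨⟨k % 6, Nat.mod_lt _ (by norm_num)⟩, ?_⟩
      have h4 : (g : O) = a ^ k := by rw [← hk]; rfl
      rw [h4]
      show a ^ k = a ^ (k % 6)
      rw [← hao, pow_mod_orderOf]
    · rintro ⟨i, hi⟩
      have h5 : g = (⟨a, haG⟩ : G) ^ (i : ℕ) := Subtype.ext (by rw [hi]; rfl)
      rw [h5]
      exact Subgroup.npow_mem_zpowers _ _
  obtain ⟨b, hb⟩ : ∃ b : G, b ∉ H := by
    by_contra hcon
    push Not at hcon
    have : H = ⊤ := by rw [Subgroup.eq_top_iff']; exact hcon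
    rw [this, Subgroup.index_top] at hidx
    omega
  have hneg1 : (⟨-1, hm1⟩ : G) ∈ H := (hmem _).2 ⟨3, ha3.symm⟩
  have hbb : ∃ i : Fin 6, (b : O) * b = a ^ (i : ℕ) := by
    have h3 : b * b ∈ H := (Subgroup.mul_mem_iff_of_index_two hidx).2 Iff.rfl
    exact (hmem _).1 h3
  have hpm : ∀ g : G, g ∉ H → (g : O) * g ≠ 1 := by
    intro g hg h3
    rcases h2 g g.2 h3 with h4 | h4
    · exact hg (by
        have : g = 1 := Subtype.ext h4
        rw [this]; exact H.one_mem)
    · exact hg (by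
        have : g = ⟨-1, hm1⟩ := Subtype.ext h4
        rw [this]; exact hneg1)
  have hconj : ∃ i : Fin 6, (b : O) * a * (b : O)⁻¹ = a ^ (i : ℕ) := by
    have h3 := hHn.conj_mem ⟨a, haG⟩ (Subgroup.mem_zpowers _) b
    exact (hmem _).1 h3
  obtain ⟨i, hi⟩ := hconj
  have hord : orderOf (a ^ (i : ℕ)) = 6 := by
    rw [← hi, ← hao]
    exact MulEquiv.orderOf_eq (MulAut.conj (b : O)) a
  have hi15 : i = 1 ∨ i = 5 := by
    have h3 : orderOf (a ^ (i : ℕ)) = 6 / Nat.gcd 6 i := by
      rw [IsOfFinOrder.orderOf_pow _ _ (isOfFinOrder_iff_pow_eq_one.2 ⟨6, by norm_num, ha6⟩),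
        hao]
    rw [hord] at h3
    clear hord hi
    revert h3
    revert i
    decide
  rcases hi15 with h5 | h5
  · -- the commuting case: cyclic
    exfalso
    subst h5
    have hcomm : Commute a (b : O) := by
      have h6 : (b : O) * a = a ^ ((1 : Fin 6) : ℕ) * b := by rw [← hi]; group
      have h7 : ((1 : Fin 6) : ℕ) = 1 := rfl
      rw [h7, pow_one] at h6
      exact h6.symm
    obtain ⟨k, hk⟩ := hbb
    have hsq : ∀ j : ℕ, (((b : O) * a ^ j) * (b * a ^ j)) = a ^ ((k : ℕ) + 2 * j) := by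
      intro j
      have h8 : Commute (a ^ j) (b : O) := hcomm.pow_left j
      calc ((b : O) * a ^ j) * (b * a ^ j) = b * (a ^ j * b) * a ^ j := by group
        _ = b * (b * a ^ j) * a ^ j := by rw [h8.eq]
        _ = (b * b) * (a ^ j * a ^ j) := by group
        _ = a ^ ((k : ℕ) + 2 * j) := by rw [hk, ← pow_add, ← pow_add]; congr 1; omega
    have hout : ∀ j : ℕ, b * (⟨a, haG⟩ : G) ^ j ∉ H := by
      intro j h9
      have h10 := (Subgroup.mul_mem_iff_of_index_two hidx).1 h9
      exact hb (h10.2 (Subgroup.npow_mem_zpowers _ _))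
    have hne : ∀ j : ℕ, a ^ ((k : ℕ) + 2 * j) ≠ 1 := by
      intro j h9
      rw [← hsq j] at h9
      exact hpm (b * (⟨a, haG⟩ : G) ^ j) (hout j) h9
    have hodd : ∃ j : ℕ, a ^ ((k : ℕ) + 2 * j) = -1 := by
      have e9 : a ^ 9 = -1 := by
        rw [show 9 = 6 + 3 from rfl, pow_add, ha6, ha3, one_mul]
      fin_cases k
      · exact absurd (by simp) (hne 0)
      · exact ⟨1, ha3⟩
      · exact absurd (by simpa using ha6) (hne 2)
      · exact ⟨0, ha3⟩
      · exact absurd (by simpa using ha6) (hne 1)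
      · exact ⟨2, e9⟩
    obtain ⟨j, hj⟩ := hodd
    set d : O := (b : O) * a ^ j with hd
    have hdd : d * d = -1 := by rw [hd, hsq j, hj]
    have hdo : orderOf d = 4 := by
      have h11 : d ^ 2 = -1 := by rw [pow_two, hdd]
      have h12 : ¬ d ^ 2 ^ 1 = 1 := by rw [pow_one, h11]; exact fun h => h1 h.symm
      have h13 : d ^ 2 ^ (1 + 1) = 1 := by
        have : d ^ 4 = (d ^ 2) ^ 2 := by rw [← pow_mul]
        rw [show 2 ^ (1 + 1) = 4 from rfl, this, h11]; simp
      exact orderOf_eq_prime_pow h12 h13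
    have hdc : Commute d c := by
      have h14 : c = -a := by rw [ha, neg_neg]
      have h15 : Commute d a := by
        rw [hd]
        exact (hcomm.symm).mul_left ((Commute.refl a).pow_left j)
      rw [h14]
      exact h15.neg_right
    have hdG : d ∈ G := G.mul_mem b.2 (G.pow_mem haG j)
    have hdo12 : orderOf (d * c) = 12 := by
      rw [hdc.orderOf_mul_eq_mul_orderOf_of_coprime (by rw [hdo, hco]; norm_num), hdo, hco]
    exact hn (cyclic_of_order (G.mul_mem hdG hcG) (by rw [hdo12, hc]))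
  · subst h5
    have h6 : (b : O) * a = a⁻¹ * b := by
      have h7 : a ^ ((5 : Fin 6) : ℕ) = a⁻¹ := by
        rw [eq_inv_iff_mul_eq_one, ← pow_succ]; exact ha6
      rw [h7] at hi
      rw [← hi]; group
    refine ⟨a, b, ha3, ha2, ?_, h6, ?_⟩
    · obtain ⟨k, hk⟩ := hbb
      -- b commutes with b * b
      have h8 : (b : O) * a ^ (k : ℕ) * (b : O)⁻¹ = (a ^ (k : ℕ))⁻¹ := by
        rw [← conj_pow, show (b : O) * a * (b : O)⁻¹ = a⁻¹ by rw [h6]; group, inv_pow]
      have h9 : (b : O) * a ^ (k : ℕ) * (b : O)⁻¹ = a ^ (k : ℕ) := by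
        rw [← hk]; group
      have h10 : a ^ (k : ℕ) * a ^ (k : ℕ) = 1 := by
        rw [← eq_inv_iff_mul_eq_one, ← h8, h9]
      rcases h2 _ (G.pow_mem haG k) h10 with h11 | h11
      · rw [← hk] at h11
        exact absurd h11 (hpm b hb)
      · rw [hk, h11]
    · intro g
      constructor
      · intro hg
        by_cases h7 : (⟨g, hg⟩ : G) ∈ H
        · obtain ⟨i, hi⟩ := (hmem _).1 h7
          exact ⟨i, Or.inl hi⟩
        · have h8 : (⟨g, hg⟩ : G) * b⁻¹ ∈ H := by
            rw [Subgroup.mul_mem_iff_of_index_two hidx]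
            constructor
            · intro h9; exact absurd h9 h7
            · intro h9; exact absurd ((Subgroup.inv_mem_iff H).1 h9) hb
          obtain ⟨i, hi⟩ := (hmem _).1 h8
          refine ⟨i, Or.inr ?_⟩
          rw [← hi]
          show g = g * (b : O)⁻¹ * b
          group
      · rintro ⟨i, h | h⟩
        · rw [h]; exact G.pow_mem haG _
        · rw [h]; exact G.mul_mem (G.pow_mem haG _) b.2

end abs

section mat

set_option linter.unusedSectionVars false

variable {ι : Type} [Fintype ι] [DecidableEq ι]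

theorem one_ne_neg [Nonempty ι] : (1 : Matrix.orthogonalGroup ι ℝ) ≠ -1 := by
  intro h
  have h1 : (1 : Matrix ι ι ℝ) = -1 :=
    congrArg (fun x : Matrix.orthogonalGroup ι ℝ => (x : Matrix ι ι ℝ)) h
  have i : ι := Classical.arbitrary ι
  have h2 := congrFun (congrFun h1 i) i
  rw [Matrix.neg_apply, Matrix.one_apply_eq] at h2
  norm_num at h2

/-- a matrix which is fixed by left multiplication with an element of a free group is 0 -/
theorem fixed_zero {G : Subgroup (Matrix.orthogonalGroup ι ℝ)} (fr : ActsFreely G)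
    {g : Matrix.orthogonalGroup ι ℝ} (hg : g ∈ G) (h1 : g ≠ 1) {S : Matrix ι ι ℝ}
    (hS : (g : Matrix ι ι ℝ) * S = S) : S = 0 := by
  have h2 : ∀ v : ι → ℝ, S.mulVec v = 0 := fun v =>
    fr g hg h1 _ (by rw [Matrix.mulVec_mulVec, hS])
  exact Matrix.ext_of_mulVec_single fun i => by rw [h2, Matrix.zero_mulVec]

theorem sum_pow_zero {G : Subgroup (Matrix.orthogonalGroup ι ℝ)} (fr : ActsFreely G)
    {g : Matrix.orthogonalGroup ι ℝ} (hg : g ∈ G) (h1 : g ≠ 1) {m : ℕ} (hm : g ^ m = 1) :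
    ∑ i ∈ Finset.range m, (g : Matrix ι ι ℝ) ^ i = 0 := by
  refine fixed_zero fr hg h1 ?_
  have h3 : (g : Matrix ι ι ℝ) ^ m = 1 := by
    have := congrArg (fun x : Matrix.orthogonalGroup ι ℝ => (x : Matrix ι ι ℝ)) hm
    simpa using this
  have h4 := Finset.sum_range_succ (fun i => (g : Matrix ι ι ℝ) ^ i) m
  have h5 := Finset.sum_range_succ' (fun i => (g : Matrix ι ι ℝ) ^ i) m
  rw [h4, h3, pow_zero] at h5
  have h6 := add_right_cancel h5
  rw [Finset.mul_sum, h6]
  exact Finset.sum_congr rfl fun i _ => by rw [pow_succ']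

theorem two_of_free {G : Subgroup (Matrix.orthogonalGroup ι ℝ)} (fr : ActsFreely G) :
    Two G := by
  intro g hg hgg
  by_cases h1 : g = 1
  · exact Or.inl h1
  · right
    have h2 := sum_pow_zero fr hg h1 (m := 2) (by rw [pow_two, hgg])
    rw [Finset.sum_range_succ, Finset.sum_range_one, pow_zero, pow_one] at h2
    apply Subtype.ext
    have h3 : (g : Matrix ι ι ℝ) = -1 := (eq_neg_of_add_eq_zero_right h2)
    rw [h3]; rfl

theorem sum_group_zero {G : Subgroup (Matrix.orthogonalGroup ι ℝ)} [Fintype G]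
    (fr : ActsFreely G) {g : Matrix.orthogonalGroup ι ℝ} (hg : g ∈ G) (h1 : g ≠ 1) :
    ∑ x : G, ((x : Matrix.orthogonalGroup ι ℝ) : Matrix ι ι ℝ) = 0 := by
  refine fixed_zero fr hg h1 ?_
  rw [Finset.mul_sum]
  exact Fintype.sum_equiv (Equiv.mulLeft (⟨g, hg⟩ : G)) _ _ fun x => rfl

/-- order 9 -/
theorem card_nine [Nonempty ι] {G : Subgroup (Matrix.orthogonalGroup ι ℝ)} [Finite G]
    (fr : ActsFreely G) (hc : Nat.card G = 9) : IsCyclic G := by
  by_contra hn
  have := Fintype.ofFinite G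
  have hc' : Fintype.card G = 9 := by rw [← Nat.card_eq_fintype_card, hc]
  have h3 : ∀ x : G, x ^ 3 = 1 := by
    intro x
    have h4 : orderOf x ∣ 9 := by rw [← hc]; exact orderOf_dvd_natCard x
    have h5 : orderOf x ≠ 9 := fun h => hn (isCyclic_of_orderOf_eq_card x (by rw [h, hc]))
    have h6 : orderOf x ∣ 3 := by
      have h7 : orderOf x ≤ 9 := Nat.le_of_dvd (by norm_num) h4
      interval_cases h8 : orderOf x <;> simp_all
    exact orderOf_dvd_iff_pow_eq_one.1 h6
  obtain ⟨g, hg⟩ : ∃ g : G, g ≠ 1 := by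
    have : Nontrivial G := Fintype.one_lt_card_iff_nontrivial.1 (by rw [hc']; norm_num)
    exact exists_ne 1
  have hz := sum_group_zero fr g.2 (fun h => hg (Subtype.ext h))
  have hinv : ∑ x : G, (((x⁻¹ : G) : Matrix.orthogonalGroup ι ℝ) : Matrix ι ι ℝ) = 0 := by
    rw [← hz]
    exact Fintype.sum_equiv (Equiv.inv G) _ _ fun x => rfl
  have key : ∀ x : G, (1 : Matrix ι ι ℝ) + ((x : Matrix.orthogonalGroup ι ℝ) : Matrix ι ι ℝ) +
      (((x⁻¹ : G) : Matrix.orthogonalGroup ι ℝ) : Matrix ι ι ℝ) = if x = 1 then 3 else 0 := by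
    intro x
    by_cases hx : x = 1
    · rw [if_pos hx, hx]
      simp
      norm_num
    · rw [if_neg hx]
      have h4 := sum_pow_zero fr x.2 (fun h => hx (Subtype.ext h)) (m := 3)
        (by have := congrArg (Subtype.val) (h3 x); simpa using this)
      rw [Finset.sum_range_succ, Finset.sum_range_succ, Finset.sum_range_one, pow_zero,
        pow_one] at h4
      have h5 : x⁻¹ = x ^ 2 := by
        rw [inv_eq_iff_mul_eq_one, ← pow_succ']; exact h3 x
      rw [h5]
      exact h4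
  have h10 : ∑ x : G, ((1 : Matrix ι ι ℝ) + ((x : Matrix.orthogonalGroup ι ℝ) : Matrix ι ι ℝ) +
      (((x⁻¹ : G) : Matrix.orthogonalGroup ι ℝ) : Matrix ι ι ℝ)) = 3 := by
    rw [Finset.sum_congr rfl fun x _ => key x]
    simp
  rw [Finset.sum_add_distrib, Finset.sum_add_distrib, hz, hinv] at h10
  simp only [Finset.sum_const, Finset.card_univ, hc', add_zero] at h10
  have i : ι := Classical.arbitrary ι
  have h11 := congrFun (congrFun h10 i) i
  have h12 : (3 : Matrix ι ι ℝ) i i = 3 := by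
    have : (3 : Matrix ι ι ℝ) = ((3 : ℕ) : Matrix ι ι ℝ) := rfl
    rw [this, Matrix.natCast_apply]; simp
  rw [h12] at h11
  simp at h11

end mat

section subst

open MvPolynomial

set_option linter.unusedSectionVars false

variable {ι : Type} [Fintype ι] [DecidableEq ι]

theorem subst_mul (A B : Matrix ι ι ℝ) (p : MvPolynomial ι ℂ) :
    subst (A * B) p = subst B (subst A p) := by
  unfold subst
  rw [bind₁_bind₁]
  congr 1
  apply congrArg
  funext i
  simp only [map_sum, map_mul, bind₁_C_right, bind₁_X_right, Matrix.mul_apply, Finset.sum_mul,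
    Finset.mul_sum, Complex.ofReal_sum, Complex.ofReal_mul]
  rw [Finset.sum_comm]
  exact Finset.sum_congr rfl fun _ _ => Finset.sum_congr rfl fun _ _ => by ring

theorem subst_one (p : MvPolynomial ι ℂ) : subst (1 : Matrix ι ι ℝ) p = p := by
  unfold subst
  have : (fun i : ι => ∑ j, C (((1 : Matrix ι ι ℝ) i j : ℝ) : ℂ) * X j) =
      (X : ι → MvPolynomial ι ℂ) := by
    funext i
    rw [Finset.sum_eq_single i]
    · simp
    · intro j _ hj
      rw [Matrix.one_apply_ne hj.symm]; simp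
    · intro h; exact absurd (Finset.mem_univ i) h
  rw [this, bind₁_X_left]
  rfl

theorem subst_homogeneous (A : Matrix ι ι ℝ) {p : MvPolynomial ι ℂ} {k : ℕ}
    (hp : p.IsHomogeneous k) : (subst A p).IsHomogeneous k := by
  have h1 := hp.aeval (R := ℂ) (fun i => ∑ j, C ((A i j : ℝ) : ℂ) * X j) (n := 1)
    (fun i => IsHomogeneous.sum _ _ _ fun j _ => by
      have := (isHomogeneous_C ι ((A i j : ℝ) : ℂ)).mul (isHomogeneous_X ℂ j)
      rwa [zero_add] at this)
  rw [one_mul] at h1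
  exact h1

theorem pderiv_subst (A : Matrix ι ι ℝ) (j : ι) (p : MvPolynomial ι ℂ) :
    pderiv j (subst A p) = ∑ i, C ((A i j : ℝ) : ℂ) * subst A (pderiv i p) := by
  induction p using MvPolynomial.induction_on with
  | C a => simp [subst]
  | add p q hp hq =>
    rw [subst_add, map_add, hp, hq, ← Finset.sum_add_distrib]
    exact Finset.sum_congr rfl fun i _ => by rw [map_add, subst_add, mul_add]
  | mul_X p i₀ hp =>
    have hm : ∀ u v : MvPolynomial ι ℂ, subst A (u * v) = subst A u * subst A v := fun u v => by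
      simp [subst]
    have hX : subst A (X i₀ : MvPolynomial ι ℂ) = ∑ j, C ((A i₀ j : ℝ) : ℂ) * X j := by
      simp [subst]
    have hd : pderiv j (subst A (X i₀ : MvPolynomial ι ℂ)) = C ((A i₀ j : ℝ) : ℂ) := by
      rw [hX, map_sum, Finset.sum_eq_single j]
      · simp
      · intro l _ hl
        simp [pderiv_X_of_ne hl]
      · intro h; exact absurd (Finset.mem_univ j) h
    rw [hm, Derivation.leibniz, hp, hd]
    have hR : ∀ i, pderiv i (p * X i₀ : MvPolynomial ι ℂ) =
        (if i = i₀ then p else 0) + X i₀ * pderiv i p := by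
      intro i
      rw [Derivation.leibniz]
      by_cases h : i = i₀
      · subst h
        simp
      · rw [if_neg h, pderiv_X_of_ne (Ne.symm h)]
        simp
    simp only [hR, subst_add, hm, mul_add, Finset.sum_add_distrib]
    have h5 : ∑ i, C ((A i j : ℝ) : ℂ) * subst A (if i = i₀ then p else 0) =
        C ((A i₀ j : ℝ) : ℂ) * subst A p := by
      rw [Finset.sum_eq_single i₀]
      · simp
      · intro i _ hi
        rw [if_neg hi]
        simp [subst]
      · intro h; exact absurd (Finset.mem_univ i₀) h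
    have h6 : ∑ i, C ((A i j : ℝ) : ℂ) * (subst A (X i₀) * subst A (pderiv i p)) =
        subst A (X i₀) * ∑ i, C ((A i j : ℝ) : ℂ) * subst A (pderiv i p) := by
      rw [Finset.mul_sum]
      exact Finset.sum_congr rfl fun i _ => by ring
    rw [h5, h6, smul_eq_mul, smul_eq_mul, mul_comm (subst A p)]

theorem subst_sum (A : Matrix ι ι ℝ) {κ : Type} (s : Finset κ) (f : κ → MvPolynomial ι ℂ) :
    subst A (∑ i ∈ s, f i) = ∑ i ∈ s, subst A (f i) := by
  simp [subst]

theorem laplacian_subst (A : Matrix ι ι ℝ) (hA : A * A.transpose = 1) (p : MvPolynomial ι ℂ) :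
    laplacian (subst A p) = subst A (laplacian p) := by
  unfold laplacian
  rw [subst_sum]
  have h1 : ∀ j : ι, pderiv j (pderiv j (subst A p)) =
      ∑ i, ∑ l, (C ((A i j : ℝ) : ℂ) * C ((A l j : ℝ) : ℂ)) *
        subst A (pderiv l (pderiv i p)) := by
    intro j
    rw [pderiv_subst, map_sum]
    refine Finset.sum_congr rfl fun i _ => ?_
    rw [pderiv_C_mul, pderiv_subst, Finset.mul_sum]
    exact Finset.sum_congr rfl fun l _ => by ring
  simp only [h1]
  rw [Finset.sum_comm]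
  refine Finset.sum_congr rfl fun i _ => ?_
  rw [Finset.sum_comm]
  have h2 : ∀ l : ι, ∑ j, (C ((A i j : ℝ) : ℂ) * C ((A l j : ℝ) : ℂ)) *
      subst A (pderiv l (pderiv i p)) = if l = i then subst A (pderiv l (pderiv i p)) else 0 := by
    intro l
    rw [← Finset.sum_mul]
    have h3 : ∑ j, (C ((A i j : ℝ) : ℂ) * C ((A l j : ℝ) : ℂ) : MvPolynomial ι ℂ) =
        C (((A * A.transpose) i l : ℝ) : ℂ) := by
      rw [Matrix.mul_apply, Complex.ofReal_sum, map_sum]
      refine Finset.sum_congr rfl fun j _ => ?_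
      rw [Matrix.transpose_apply, Complex.ofReal_mul, map_mul]
    rw [h3, hA]
    by_cases h : l = i
    · subst h; simp
    · rw [Matrix.one_apply_ne (Ne.symm h), if_neg h]; simp
  simp only [h2]
  simp

theorem orth_mul_transpose (h : Matrix.orthogonalGroup ι ℝ) :
    (h : Matrix ι ι ℝ) * (h : Matrix ι ι ℝ).transpose = 1 :=
  (Matrix.mem_orthogonalGroup_iff ι ℝ).1 h.2

theorem subst_harm (G₁ G₂ : Subgroup (Matrix.orthogonalGroup ι ℝ))
    (h : Matrix.orthogonalGroup ι ℝ) (hh : ∀ g, g ∈ G₁ → h * g * h⁻¹ ∈ G₂) (k : ℕ)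
    {p : MvPolynomial ι ℂ} (hp : p ∈ harm G₂ k) : subst (h : Matrix ι ι ℝ) p ∈ harm G₁ k := by
  obtain ⟨p1, p2, p3⟩ := hp
  refine ⟨subst_homogeneous _ p1, ?_, ?_⟩
  · rw [laplacian_subst _ (orth_mul_transpose h), p2]
    simp [subst]
  · intro g hg
    have h5 : h * g = (h * g * h⁻¹) * h := by group
    have h6 : (h : Matrix ι ι ℝ) * (g : Matrix ι ι ℝ) =
        ((h * g * h⁻¹ : Matrix.orthogonalGroup ι ℝ) : Matrix ι ι ℝ) * (h : Matrix ι ι ℝ) :=
      congrArg (fun x : Matrix.orthogonalGroup ι ℝ => (x : Matrix ι ι ℝ)) h5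
    rw [← subst_mul, h6, subst_mul, p3 _ (hh g hg)]

/-- the substitution as a linear equivalence -/
noncomputable def substEquiv (h : Matrix.orthogonalGroup ι ℝ) :
    MvPolynomial ι ℂ ≃ₗ[ℂ] MvPolynomial ι ℂ where
  toFun := subst (h : Matrix ι ι ℝ)
  invFun := subst ((h⁻¹ : Matrix.orthogonalGroup ι ℝ) : Matrix ι ι ℝ)
  map_add' := subst_add _
  map_smul' := subst_smul _
  left_inv p := by
    rw [← subst_mul]
    have h6 : (h : Matrix ι ι ℝ) * ((h⁻¹ : Matrix.orthogonalGroup ι ℝ) : Matrix ι ι ℝ) = 1 :=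
      congrArg (fun x : Matrix.orthogonalGroup ι ℝ => (x : Matrix ι ι ℝ)) (mul_inv_cancel h)
    rw [h6, subst_one]
  right_inv p := by
    rw [← subst_mul]
    have h6 : ((h⁻¹ : Matrix.orthogonalGroup ι ℝ) : Matrix ι ι ℝ) * (h : Matrix ι ι ℝ) = 1 :=
      congrArg (fun x : Matrix.orthogonalGroup ι ℝ => (x : Matrix ι ι ℝ)) (inv_mul_cancel h)
    rw [h6, subst_one]

end subst

end MPc53f59.Gr26

namespace MPc53f59

open MPc53f59.Gr26

section iso

variable {ι : Type} [Fintype ι] [DecidableEq ι]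

open MvPolynomial

theorem isometric_symm26
    (G₁ G₂ : Subgroup (Matrix.orthogonalGroup ι ℝ)) (h : Isometric G₁ G₂) :
    Isometric G₂ G₁ := by
  obtain ⟨h, hh⟩ := h
  refine ⟨h⁻¹, fun g => ?_⟩
  rw [hh]
  have : h * (h⁻¹ * g * h⁻¹⁻¹) * h⁻¹ = g := by group
  rw [this]

theorem isometric_trans26
    (G₁ G₂ G₃ : Subgroup (Matrix.orthogonalGroup ι ℝ)) (h : Isometric G₁ G₂)
    (h' : Isometric G₂ G₃) : Isometric G₁ G₃ := by
  obtain ⟨h, hh⟩ := h
  obtain ⟨h', hh'⟩ := h'
  refine ⟨h' * h, fun g => ?_⟩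
  rw [hh, hh']
  have : h' * h * g * (h' * h)⁻¹ = h' * (h * g * h⁻¹) * h'⁻¹ := by group
  rw [this]

theorem isometric_isospectral26
    (G₁ G₂ : Subgroup (Matrix.orthogonalGroup ι ℝ)) (h : Isometric G₁ G₂) :
    Isospectral G₁ G₂ := by
  intro k
  obtain ⟨h, hh⟩ := h
  have h1 : (harm G₂ k).map (substEquiv h : MvPolynomial ι ℂ →ₗ[ℂ] MvPolynomial ι ℂ) =
      harm G₁ k := by
    ext p
    rw [Submodule.mem_map]
    constructor
    · rintro ⟨q, hq, rfl⟩
      exact subst_harm G₁ G₂ h (fun g hg => (hh g).1 hg) k hq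
    · intro hp
      refine ⟨(substEquiv h).symm p, ?_, (substEquiv h).apply_symm_apply p⟩
      refine subst_harm G₂ G₁ h⁻¹ (fun g hg => ?_) k hp
      rw [hh]
      have : h * (h⁻¹ * g * h⁻¹⁻¹) * h⁻¹ = g := by group
      rwa [this]
  rw [← h1]
  exact LinearEquiv.finrank_map_eq _ _

end iso

section groups

variable {n : ℕ}

/-- GR1 -/
theorem small_groups26 (hn : 0 < n) (G : Subgroup (Matrix.orthogonalGroup (Fin (2 * n)) ℝ))
    (hf : Finite G) (fr : ActsFreely G) (hc : Nat.card G ≤ 12) :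
    IsCyclic G ∨ (Nat.card G = 8 ∧ IsQ8 G) ∨ (Nat.card G = 12 ∧ IsDic G) := by
  have : Nonempty (Fin (2 * n)) := ⟨⟨0, by omega⟩⟩
  have h1 : (1 : Matrix.orthogonalGroup (Fin (2 * n)) ℝ) ≠ -1 := one_ne_neg
  have h2 : Two G := two_of_free fr
  have hpos : 0 < Nat.card G := Nat.card_pos
  obtain ⟨m, hm⟩ : ∃ m, Nat.card G = m := ⟨_, rfl⟩
  have hprime : ∀ p : ℕ, p.Prime → m = p → IsCyclic G := by
    intro p hp h
    have := Fact.mk hp
    exact isCyclic_of_prime_card (hm.trans h)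
  rw [hm] at hc hpos
  interval_cases m
  · left
    have : Subsingleton G := (Nat.card_eq_one_iff_unique.1 hm).1
    exact isCyclic_of_subsingleton
  · exact Or.inl (hprime 2 Nat.prime_two rfl)
  · exact Or.inl (hprime 3 Nat.prime_three rfl)
  · exact Or.inl (card_four h1 h2 hm)
  · exact Or.inl (hprime 5 Nat.prime_five rfl)
  · exact Or.inl (card_two_mul (p := 3) h1 h2 Nat.prime_three (by norm_num) hm)
  · exact Or.inl (hprime 7 (by norm_num) rfl)
  · rcases card_eight h1 h2 hm with h | h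
    · exact Or.inl h
    · exact Or.inr (Or.inl ⟨hm, h⟩)
  · exact Or.inl (card_nine fr hm)
  · exact Or.inl (card_two_mul (p := 5) h1 h2 Nat.prime_five (by norm_num) hm)
  · exact Or.inl (hprime 11 (by norm_num) rfl)
  · rcases card_twelve h1 h2 hm with h | h
    · exact Or.inl h
    · exact Or.inr (Or.inr ⟨hm, h⟩)

/-- GR4, from L1 -/
theorem cyclic_lens_of26
    (L1 : ∀ (q : ℕ) (_ : 3 ≤ q) (g : Matrix.orthogonalGroup (Fin (2 * n)) ℝ) (_ : g ^ q = 1)
      (_ : ∀ j : ℕ, 0 < j → j < q → ∀ x : Fin (2 * n) → ℝ,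
        ((g ^ j : Matrix.orthogonalGroup (Fin (2 * n)) ℝ) : Matrix _ _ ℝ).mulVec x = x → x = 0),
      ∃ s : Fin n → ℕ, (∀ i, 0 < s i ∧ 2 * s i < q ∧ Nat.Coprime (s i) q) ∧
        ∃ h : Matrix.orthogonalGroup (Fin (2 * n)) ℝ,
          h * g * h⁻¹ = rot (fun i => 2 * Real.pi * (s i : ℝ) / (q : ℝ)))
    (G : Subgroup (Matrix.orthogonalGroup (Fin (2 * n)) ℝ))
    (hf : Finite G) (fr : ActsFreely G) (hc : IsCyclic G) (h3 : 3 ≤ Nat.card G) :
    ∃ s : Fin n → ℕ, (∀ i, 0 < s i ∧ 2 * s i < Nat.card G ∧ Nat.Coprime (s i) (Nat.card G)) ∧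
      Isometric G (lens (Nat.card G) s) := by
  obtain ⟨g, hg⟩ := hc.exists_generator
  have ho : orderOf g = Nat.card G := orderOf_eq_card_of_forall_mem_zpowers hg
  obtain ⟨s, hs, h, hh⟩ := L1 (Nat.card G) h3 (g : Matrix.orthogonalGroup (Fin (2 * n)) ℝ)
    (by
      have h8 : g ^ Nat.card G = 1 := by rw [← ho]; exact pow_orderOf_eq_one g
      have h9 := congrArg Subtype.val h8
      rw [SubmonoidClass.coe_pow] at h9
      exact h9)
    (by
      intro j hj hjq x hx
      refine fr _ (G.pow_mem g.2 j) ?_ x hx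
      intro h4
      have h5 : g ^ j = 1 := Subtype.ext (by simpa using h4)
      have h6 := Nat.le_of_dvd hj (orderOf_dvd_of_pow_eq_one h5)
      omega)
  refine ⟨s, hs, h, fun x => ?_⟩
  unfold lens
  rw [← hh]
  constructor
  · intro hx
    obtain ⟨k, hk⟩ := Subgroup.mem_zpowers_iff.1 (hg ⟨x, hx⟩)
    rw [Subgroup.mem_zpowers_iff]
    refine ⟨k, ?_⟩
    rw [conj_zpow]
    have h7 : (g : Matrix.orthogonalGroup (Fin (2 * n)) ℝ) ^ k = x := by
      have := congrArg Subtype.val hk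
      simpa using this
    rw [h7]
  · intro hx
    obtain ⟨k, hk⟩ := Subgroup.mem_zpowers_iff.1 hx
    rw [conj_zpow] at hk
    have h7 : (g : Matrix.orthogonalGroup (Fin (2 * n)) ℝ) ^ k = x :=
      mul_left_cancel (mul_right_cancel hk)
    rw [← h7]
    exact G.zpow_mem g.2 k

theorem eq_of_card_two (hn : 0 < n) {G : Subgroup (Matrix.orthogonalGroup (Fin (2 * n)) ℝ)}
    (fr : ActsFreely G) (h : Nat.card G = 2) :
    (G : Set (Matrix.orthogonalGroup (Fin (2 * n)) ℝ)) = {1, -1} := by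
  have : Nonempty (Fin (2 * n)) := ⟨⟨0, by omega⟩⟩
  have h1 : (1 : Matrix.orthogonalGroup (Fin (2 * n)) ℝ) ≠ -1 := one_ne_neg
  have hf : Finite G := Nat.finite_of_card_ne_zero (by omega)
  have hm1 := neg_mem (two_of_free fr) (show 2 ∣ Nat.card G by rw [h])
  symm
  refine Set.eq_of_subset_of_ncard_le ?_ ?_ (Set.toFinite _)
  · intro g hg
    rcases hg with h | h
    · rw [h]; exact G.one_mem
    · rw [Set.mem_singleton_iff.1 h]; exact hm1
  · rw [Set.ncard_pair h1, ← Nat.card_coe_set_eq]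
    exact h.le

/-- GR5 : card 1, 2 -/
theorem tiny_isometric26 (hn : 0 < n) (G G' : Subgroup (Matrix.orthogonalGroup (Fin (2 * n)) ℝ))
    (fr : ActsFreely G) (fr' : ActsFreely G') (hc : Nat.card G = Nat.card G')
    (h : Nat.card G = 1 ∨ Nat.card G = 2) : Isometric G G' := by
  have hGG : G = G' := by
    rcases h with h | h
    · rw [Subgroup.card_eq_one.1 h, Subgroup.card_eq_one.1 (hc.symm.trans h)]
    · apply SetLike.coe_injective
      rw [eq_of_card_two hn fr h, eq_of_card_two hn fr' (hc.symm.trans h)]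
  subst hGG
  exact ⟨1, fun g => by simp⟩

end groups

end MPc53f59
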