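import Mathlib
import Pool.Agent.Lib.MP_c53f59_gt.Defs

/-!
MP_c53f59_gt, row HARM (helper27): the spectrum of the quotient determines the dimensions of the
spaces of invariant homogeneous polynomials and conversely:
dim polyInv G (k+2) = dim harm G (k+2) + dim polyInv G k.
-/

namespace MPc53f59

open MvPolynomial

section general

variable {ι : Type} [Fintype ι] [DecidableEq ι]

/-- the square of the norm as a polynomial -/
noncomputable def rr27 : MvPolynomial ι ℂ := ∑ i, X i * X i

theorem subst_mul27 (A : Matrix ι ι ℝ) (p q : MvPolynomial ι ℂ) :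
    subst A (p * q) = subst A p * subst A q := by
  simp [subst]

theorem subst_X27 (A : Matrix ι ι ℝ) (i : ι) :
    subst A (X i : MvPolynomial ι ℂ) = ∑ j, C ((A i j : ℝ) : ℂ) * X j := by
  simp [subst]

theorem subst_C27 (A : Matrix ι ι ℝ) (c : ℂ) :
    subst A (C c : MvPolynomial ι ℂ) = C c := by
  simp [subst]

theorem subst_sum27 {α : Type*} (A : Matrix ι ι ℝ) (s : Finset α) (f : α → MvPolynomial ι ℂ) :
    subst A (∑ a ∈ s, f a) = ∑ a ∈ s, subst A (f a) := by
  simp [subst]

theorem pderiv_lin27 (A : Matrix ι ι ℝ) (i j : ι) :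
    pderiv i (∑ l, C ((A j l : ℝ) : ℂ) * X l : MvPolynomial ι ℂ) = C ((A j i : ℝ) : ℂ) := by
  rw [map_sum, Finset.sum_eq_single i]
  · simp [Derivation.leibniz]
  · intro l _ hl
    simp [Derivation.leibniz, pderiv_X_of_ne hl]
  · intro h
    exact absurd (Finset.mem_univ i) h

/-- chain rule -/
theorem pderiv_subst27 (A : Matrix ι ι ℝ) (i : ι) (p : MvPolynomial ι ℂ) :
    pderiv i (subst A p) = ∑ j, C ((A j i : ℝ) : ℂ) * subst A (pderiv j p) := by
  induction p using MvPolynomial.induction_on with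
  | C a =>
    rw [subst_C27, pderiv_C]
    symm
    apply Finset.sum_eq_zero
    intro j _
    rw [pderiv_C]
    simp [subst]
  | add p q hp hq =>
    rw [subst_add, map_add, hp, hq, ← Finset.sum_add_distrib]
    apply Finset.sum_congr rfl
    intro j _
    rw [map_add, subst_add, mul_add]
  | mul_X p m hp =>
    rw [subst_mul27, Derivation.leibniz, hp, subst_X27, pderiv_lin27, smul_eq_mul, smul_eq_mul]
    have h1 : ∀ j, C ((A j i : ℝ) : ℂ) * subst A (pderiv j (p * X m)) =
        (∑ l, C ((A m l : ℝ) : ℂ) * X l) * (C ((A j i : ℝ) : ℂ) * subst A (pderiv j p)) +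
        (if j = m then C ((A j i : ℝ) : ℂ) * subst A p else 0) := by
      intro j
      rw [Derivation.leibniz, smul_eq_mul, smul_eq_mul, subst_add, subst_mul27, subst_mul27,
        subst_X27, mul_add, add_comm]
      congr 1
      · ring
      · by_cases hj : j = m
        · subst hj
          rw [if_pos rfl, pderiv_X_self]
          have : subst A (1 : MvPolynomial ι ℂ) = 1 := by simp [subst]
          rw [this, mul_one]
        · rw [if_neg hj, pderiv_X_of_ne (fun h => hj h.symm)]
          have : subst A (0 : MvPolynomial ι ℂ) = 0 := by simp [subst]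
          rw [this]
          simp
    rw [Finset.sum_congr rfl fun j _ => h1 j, Finset.sum_add_distrib, ← Finset.mul_sum,
      Finset.sum_ite_eq' Finset.univ m, if_pos (Finset.mem_univ m)]
    ring

theorem orth_col27 (g : Matrix.orthogonalGroup ι ℝ) (j l : ι) :
    ∑ i, ((g : Matrix ι ι ℝ) i j) * ((g : Matrix ι ι ℝ) i l) = if j = l then 1 else 0 := by
  have h := (Matrix.mem_orthogonalGroup_iff' ι ℝ).1 g.2
  have h2 := congrFun (congrFun h j) l
  rw [Matrix.mul_apply, Matrix.one_apply] at h2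
  rw [← h2]
  apply Finset.sum_congr rfl
  intro i _
  rfl

theorem orth_row27 (g : Matrix.orthogonalGroup ι ℝ) (j l : ι) :
    ∑ i, ((g : Matrix ι ι ℝ) j i) * ((g : Matrix ι ι ℝ) l i) = if j = l then 1 else 0 := by
  have h := (Matrix.mem_orthogonalGroup_iff ι ℝ).1 g.2
  have h2 := congrFun (congrFun h j) l
  rw [Matrix.mul_apply, Matrix.one_apply] at h2
  rw [← h2]
  apply Finset.sum_congr rfl
  intro i _
  rfl

/-- the Laplace operator commutes with orthogonal substitutions -/
theorem laplacian_subst27 (g : Matrix.orthogonalGroup ι ℝ) (p : MvPolynomial ι ℂ) :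
    laplacian (subst (g : Matrix ι ι ℝ) p) = subst (g : Matrix ι ι ℝ) (laplacian p) := by
  set A : Matrix ι ι ℝ := (g : Matrix ι ι ℝ) with hA
  have h1 : ∀ i, pderiv i (pderiv i (subst A p)) =
      ∑ j, ∑ l, C (((A j i * A l i : ℝ)) : ℂ) * subst A (pderiv l (pderiv j p)) := by
    intro i
    rw [pderiv_subst27, map_sum]
    apply Finset.sum_congr rfl
    intro j _
    rw [Derivation.leibniz, pderiv_C, smul_zero, add_zero, smul_eq_mul, pderiv_subst27,
      Finset.mul_sum]
    apply Finset.sum_congr rfl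
    intro l _
    rw [← mul_assoc, ← C_mul]
    push_cast
    rfl
  unfold laplacian
  rw [Finset.sum_congr rfl fun i _ => h1 i, Finset.sum_comm, subst_sum27]
  apply Finset.sum_congr rfl
  intro j _
  rw [Finset.sum_comm]
  have h2 : ∀ l, ∑ i, C (((A j i * A l i : ℝ)) : ℂ) * subst A (pderiv l (pderiv j p)) =
      if j = l then subst A (pderiv l (pderiv j p)) else 0 := by
    intro l
    rw [← Finset.sum_mul, ← map_sum]
    have h3 : (∑ i, ((A j i * A l i : ℝ) : ℂ)) = ((if j = l then (1 : ℝ) else 0 : ℝ) : ℂ) := by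
      rw [← orth_row27 g j l]
      push_cast
      rfl
    rw [h3]
    split_ifs <;> simp
  rw [Finset.sum_congr rfl fun l _ => h2 l, Finset.sum_ite_eq Finset.univ j,
    if_pos (Finset.mem_univ j)]

theorem subst_rr27 (g : Matrix.orthogonalGroup ι ℝ) :
    subst (g : Matrix ι ι ℝ) (rr27 : MvPolynomial ι ℂ) = rr27 := by
  set A : Matrix ι ι ℝ := (g : Matrix ι ι ℝ) with hA
  unfold rr27
  rw [subst_sum27]
  have h1 : ∀ i, subst A (X i * X i : MvPolynomial ι ℂ) =
      ∑ j, ∑ l, C (((A i j * A i l : ℝ)) : ℂ) * (X j * X l) := by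
    intro i
    rw [subst_mul27, subst_X27, Finset.sum_mul_sum]
    apply Finset.sum_congr rfl
    intro j _
    apply Finset.sum_congr rfl
    intro l _
    push_cast
    rw [C_mul]
    ring
  rw [Finset.sum_congr rfl fun i _ => h1 i, Finset.sum_comm]
  apply Finset.sum_congr rfl
  intro j _
  rw [Finset.sum_comm]
  have h2 : ∀ l, ∑ i, C (((A i j * A i l : ℝ)) : ℂ) * (X j * X l : MvPolynomial ι ℂ) =
      if j = l then X j * X l else 0 := by
    intro l
    rw [← Finset.sum_mul, ← map_sum]
    have h3 : (∑ i, ((A i j * A i l : ℝ) : ℂ)) = ((if j = l then (1 : ℝ) else 0 : ℝ) : ℂ) := by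
      rw [← orth_col27 g j l]
      push_cast
      rfl
    rw [h3]
    split_ifs <;> simp
  rw [Finset.sum_congr rfl fun l _ => h2 l, Finset.sum_ite_eq Finset.univ j,
    if_pos (Finset.mem_univ j)]

theorem rr_homogeneous27 : (rr27 : MvPolynomial ι ℂ).IsHomogeneous 2 := by
  unfold rr27
  apply IsHomogeneous.sum
  intro i _
  exact (isHomogeneous_X ℂ i).mul (isHomogeneous_X ℂ i)

theorem laplacian_homogeneous27 {k : ℕ} {p : MvPolynomial ι ℂ} (h : p.IsHomogeneous (k + 2)) :
    (laplacian p).IsHomogeneous k := by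
  unfold laplacian
  apply IsHomogeneous.sum
  intro i _
  exact IsHomogeneous.pderiv (IsHomogeneous.pderiv h)

theorem laplacian_low27 {k : ℕ} (hk : k ≤ 1) {p : MvPolynomial ι ℂ} (h : p.IsHomogeneous k) :
    laplacian p = 0 := by
  unfold laplacian
  apply Finset.sum_eq_zero
  intro i _
  have h1 : (pderiv i p).IsHomogeneous (k - 1) := IsHomogeneous.pderiv h
  have h2 : k - 1 = 0 := by omega
  rw [h2, ← totalDegree_zero_iff_isHomogeneous, totalDegree_eq_zero_iff_eq_C] at h1
  rw [h1, pderiv_C]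

/-- the commutator of the Laplace operator and the multiplication by the square of the norm -/
theorem laplacian_rr27 {k : ℕ} {p : MvPolynomial ι ℂ} (h : p.IsHomogeneous k) :
    laplacian (rr27 * p) = rr27 * laplacian p +
      C ((2 * Fintype.card ι + 4 * k : ℕ) : ℂ) * p := by
  have h0 : ∀ i, pderiv i (rr27 : MvPolynomial ι ℂ) = 2 * X i := by
    intro i
    unfold rr27
    rw [map_sum, Finset.sum_eq_single i]
    · rw [Derivation.leibniz, pderiv_X_self, smul_eq_mul]
      ring
    · intro j _ hj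
      rw [Derivation.leibniz, pderiv_X_of_ne hj]
      simp
    · intro h
      exact absurd (Finset.mem_univ i) h
  have h1 : ∀ i, pderiv i (pderiv i (rr27 * p)) =
      rr27 * pderiv i (pderiv i p) + (4 * (X i * pderiv i p) + 2 * p) := by
    intro i
    rw [Derivation.leibniz, map_add, smul_eq_mul, smul_eq_mul, Derivation.leibniz,
      Derivation.leibniz, h0, smul_eq_mul, smul_eq_mul, smul_eq_mul, smul_eq_mul,
      Derivation.leibniz, pderiv_X_self, smul_eq_mul, smul_eq_mul]
    have h2 : pderiv i (2 : MvPolynomial ι ℂ) = 0 := by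
      have : (2 : MvPolynomial ι ℂ) = C 2 := (map_ofNat C 2).symm
      rw [this, pderiv_C]
    rw [h2]
    ring
  unfold laplacian
  rw [Finset.sum_congr rfl fun i _ => h1 i, Finset.sum_add_distrib, ← Finset.mul_sum,
    Finset.sum_add_distrib, ← Finset.mul_sum, h.sum_X_mul_pderiv, Finset.sum_const,
    Finset.card_univ]
  congr 1
  rw [nsmul_eq_mul, nsmul_eq_mul]
  push_cast
  rw [map_add, map_mul, map_mul, map_natCast, map_natCast, map_ofNat, map_ofNat]
  ring

/-- if p = - c r^2 (Laplacian of p) with c > 0 then p = 0 -/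
theorem neg_eq27 : ∀ (k : ℕ) (p : MvPolynomial ι ℂ) (c : ℝ), 0 ≤ c → p.IsHomogeneous k →
    (0 < Fintype.card ι) → p = C ((-c : ℝ) : ℂ) * (rr27 * laplacian p) → p = 0 := by
  intro k
  induction k using Nat.strong_induction_on with
  | _ k ih =>
    intro p c hc hp hN h
    by_cases hk : k ≤ 1
    · rw [laplacian_low27 hk hp] at h
      rw [h]
      simp
    · obtain ⟨m, rfl⟩ : ∃ m, k = m + 2 := ⟨k - 2, by omega⟩
      have hq : (laplacian p).IsHomogeneous m := laplacian_homogeneous27 hp
      have h1 : laplacian p = C ((-c : ℝ) : ℂ) * (rr27 * laplacian (laplacian p) +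
          C ((2 * Fintype.card ι + 4 * m : ℕ) : ℂ) * laplacian p) := by
        rw [← laplacian_rr27 hq]
        have h2 : laplacian p = laplacian (C ((-c : ℝ) : ℂ) * (rr27 * laplacian p)) :=
          congrArg _ h
        rw [C_mul', laplacian_smul, ← C_mul'] at h2
        exact h2
      generalize laplacian p = q at h hq h1
      set a : ℝ := 1 + c * ((2 * Fintype.card ι + 4 * m : ℕ) : ℝ) with ha
      have ha0 : 0 < a := by positivity
      have h3 : C ((a : ℝ) : ℂ) * q = C ((-c : ℝ) : ℂ) * (rr27 * laplacian q) := by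
        have h4 : C ((a : ℝ) : ℂ) * q = q - C ((-c : ℝ) : ℂ) *
            (C ((2 * Fintype.card ι + 4 * m : ℕ) : ℂ) * q) := by
          rw [ha]
          push_cast
          simp only [map_add, map_mul, map_neg, map_one]
          ring
        rw [h4]
        nth_rewrite 1 [h1]
        ring
      have h5 : q = C ((-(c / a) : ℝ) : ℂ) * (rr27 * laplacian q) := by
        have h6 : (C ((a⁻¹ : ℝ) : ℂ) * C ((a : ℝ) : ℂ) : MvPolynomial ι ℂ) = 1 := by
          rw [← C_mul, ← Complex.ofReal_mul, inv_mul_cancel₀ ha0.ne']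
          simp
        calc q = (C ((a⁻¹ : ℝ) : ℂ) * C ((a : ℝ) : ℂ)) * q := by rw [h6, one_mul]
          _ = C ((a⁻¹ : ℝ) : ℂ) * (C ((-c : ℝ) : ℂ) * (rr27 * laplacian q)) := by
            rw [mul_assoc, h3]
          _ = (C ((a⁻¹ : ℝ) : ℂ) * C ((-c : ℝ) : ℂ)) * (rr27 * laplacian q) := by ring
          _ = C ((-(c / a) : ℝ) : ℂ) * (rr27 * laplacian q) := by
            rw [← C_mul, ← Complex.ofReal_mul]
            congr 3
            field_simp
      have h7 : q = 0 := ih m (by omega) q (c / a) (by positivity) hq hN h5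
      rw [h7] at h
      rw [h]
      simp

theorem mem_polyInv27 {G : Subgroup (Matrix.orthogonalGroup ι ℝ)} {k : ℕ}
    {p : MvPolynomial ι ℂ} : p ∈ polyInv G k ↔
      p.IsHomogeneous k ∧ ∀ g ∈ G, subst (g : Matrix ι ι ℝ) p = p := Iff.rfl

theorem mem_harm27 {G : Subgroup (Matrix.orthogonalGroup ι ℝ)} {k : ℕ}
    {p : MvPolynomial ι ℂ} : p ∈ harm G k ↔
      p.IsHomogeneous k ∧ laplacian p = 0 ∧ ∀ g ∈ G, subst (g : Matrix ι ι ℝ) p = p := Iff.rfl

theorem harm_iff27 {G : Subgroup (Matrix.orthogonalGroup ι ℝ)} {k : ℕ}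
    {p : MvPolynomial ι ℂ} : p ∈ harm G k ↔ p ∈ polyInv G k ∧ laplacian p = 0 := by
  rw [mem_harm27, mem_polyInv27]
  tauto

theorem lap_mem27 {G : Subgroup (Matrix.orthogonalGroup ι ℝ)} {k : ℕ}
    {p : MvPolynomial ι ℂ} (hp : p ∈ polyInv G (k + 2)) : laplacian p ∈ polyInv G k := by
  rw [mem_polyInv27] at hp ⊢
  refine ⟨laplacian_homogeneous27 hp.1, fun g hg => ?_⟩
  rw [← laplacian_subst27, hp.2 g hg]

theorem rr_mem27 {G : Subgroup (Matrix.orthogonalGroup ι ℝ)} {k : ℕ}
    {p : MvPolynomial ι ℂ} (hp : p ∈ polyInv G k) : rr27 * p ∈ polyInv G (k + 2) := by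
  rw [mem_polyInv27] at hp ⊢
  refine ⟨?_, fun g hg => ?_⟩
  · have := rr_homogeneous27.mul hp.1
    rwa [add_comm] at this
  · rw [subst_mul27, subst_rr27, hp.2 g hg]

/-- the Laplace operator as a linear map -/
noncomputable def lap27 : MvPolynomial ι ℂ →ₗ[ℂ] MvPolynomial ι ℂ where
  toFun := laplacian
  map_add' := laplacian_add
  map_smul' := laplacian_smul

instance fin27 (G : Subgroup (Matrix.orthogonalGroup ι ℝ)) (k : ℕ) :
    FiniteDimensional ℂ (polyInv G k) := by
  have h1 : (homogeneousSubmodule ι ℂ k).FG := homogeneousSubmodule_fg ι ℂ k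
  have : FiniteDimensional ℂ (homogeneousSubmodule ι ℂ k) :=
    (Submodule.fg_iff_finiteDimensional _).1 h1
  refine Submodule.finiteDimensional_of_le (S₂ := homogeneousSubmodule ι ℂ k) fun p hp => ?_
  rw [mem_homogeneousSubmodule]
  exact (mem_polyInv27.1 hp).1

/-- p -> Laplacian of (r^2 p) on the invariants of degree k -/
noncomputable def endo27 (G : Subgroup (Matrix.orthogonalGroup ι ℝ)) (k : ℕ) :
    polyInv G k →ₗ[ℂ] polyInv G k where
  toFun p := ⟨laplacian (rr27 * p.1), lap_mem27 (rr_mem27 p.2)⟩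
  map_add' p q := by
    apply Subtype.ext
    simp only [Submodule.coe_add, mul_add, laplacian_add]
  map_smul' c p := by
    apply Subtype.ext
    simp only [Submodule.coe_smul, mul_smul_comm, laplacian_smul, RingHom.id_apply]

theorem endo_injective27 [Nonempty ι] (G : Subgroup (Matrix.orthogonalGroup ι ℝ)) (k : ℕ) :
    Function.Injective (endo27 G k) := by
  rw [← LinearMap.ker_eq_bot, LinearMap.ker_eq_bot']
  intro p hp
  have h1 : laplacian (rr27 * p.1) = 0 := congrArg Subtype.val hp
  have hp1 : p.1.IsHomogeneous k := (mem_polyInv27.1 p.2).1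
  rw [laplacian_rr27 hp1] at h1
  have hN : 0 < Fintype.card ι := Fintype.card_pos
  set a : ℝ := ((2 * Fintype.card ι + 4 * k : ℕ) : ℝ) with ha
  have ha0 : 0 < a := by
    rw [ha]
    have : 0 < 2 * Fintype.card ι + 4 * k := by omega
    exact_mod_cast this
  have h2 : C ((a : ℝ) : ℂ) * p.1 = - (rr27 * laplacian p.1) := by
    rw [ha]
    rw [Complex.ofReal_natCast]
    linear_combination h1
  have h3 : p.1 = C ((-(a⁻¹) : ℝ) : ℂ) * (rr27 * laplacian p.1) := by
    have h6 : (C ((a⁻¹ : ℝ) : ℂ) * C ((a : ℝ) : ℂ) : MvPolynomial ι ℂ) = 1 := by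
      rw [← C_mul, ← Complex.ofReal_mul, inv_mul_cancel₀ ha0.ne']
      simp
    calc p.1 = (C ((a⁻¹ : ℝ) : ℂ) * C ((a : ℝ) : ℂ)) * p.1 := by rw [h6, one_mul]
      _ = C ((a⁻¹ : ℝ) : ℂ) * (- (rr27 * laplacian p.1)) := by rw [mul_assoc, h2]
      _ = C ((-(a⁻¹) : ℝ) : ℂ) * (rr27 * laplacian p.1) := by
        push_cast
        simp only [map_neg]
        ring
  have h4 : p.1 = 0 := neg_eq27 k p.1 a⁻¹ (by positivity) hp1 hN h3
  exact Subtype.ext h4

theorem endo_surjective27 [Nonempty ι] (G : Subgroup (Matrix.orthogonalGroup ι ℝ)) (k : ℕ) :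
    Function.Surjective (endo27 G k) :=
  LinearMap.surjective_of_injective (endo_injective27 G k)

/-- dim of invariants of degree k + 2 -/
theorem dim_step27 [Nonempty ι] (G : Subgroup (Matrix.orthogonalGroup ι ℝ)) (k : ℕ) :
    Module.finrank ℂ (polyInv G (k + 2)) =
      Module.finrank ℂ (harm G (k + 2)) + Module.finrank ℂ (polyInv G k) := by
  set f : polyInv G (k + 2) →ₗ[ℂ] MvPolynomial ι ℂ := lap27.comp (polyInv G (k + 2)).subtype
    with hf
  have h1 : LinearMap.range f = polyInv G k := by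
    apply le_antisymm
    · rintro _ ⟨p, rfl⟩
      exact lap_mem27 p.2
    · intro q hq
      obtain ⟨p, hp⟩ := endo_surjective27 G k ⟨q, hq⟩
      have h2 : laplacian (rr27 * p.1) = q := congrArg Subtype.val hp
      exact ⟨⟨rr27 * p.1, rr_mem27 p.2⟩, h2⟩
  have hle : harm G (k + 2) ≤ polyInv G (k + 2) := fun p hp => (harm_iff27.1 hp).1
  have h3 : LinearMap.ker f = (harm G (k + 2)).comap (polyInv G (k + 2)).subtype := by
    ext p
    rw [LinearMap.mem_ker, Submodule.mem_comap, Submodule.subtype_apply, harm_iff27]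
    exact ⟨fun h => ⟨p.2, h⟩, fun h => h.2⟩
  have h4 := LinearMap.finrank_range_add_finrank_ker f
  rw [h1, h3, LinearEquiv.finrank_eq (Submodule.comapSubtypeEquivOfLe hle)] at h4
  omega

theorem dim_low27 (G : Subgroup (Matrix.orthogonalGroup ι ℝ)) (k : ℕ) (hk : k ≤ 1) :
    Module.finrank ℂ (polyInv G k) = Module.finrank ℂ (harm G k) := by
  have h : harm G k = polyInv G k := by
    ext p
    rw [harm_iff27]
    exact ⟨fun h => h.1, fun h => ⟨h, laplacian_low27 hk (mem_polyInv27.1 h).1⟩⟩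
  rw [h]

/-- HARM -/
theorem isospectral_iff27 [Nonempty ι] (G₁ G₂ : Subgroup (Matrix.orthogonalGroup ι ℝ))
    (_h1 : Finite G₁) (_h2 : Finite G₂) :
    Isospectral G₁ G₂ ↔
      ∀ k : ℕ, Module.finrank ℂ (polyInv G₁ k) = Module.finrank ℂ (polyInv G₂ k) := by
  constructor
  · intro h k
    induction k using Nat.strong_induction_on with
    | _ k ih =>
      by_cases hk : k ≤ 1
      · rw [dim_low27 G₁ k hk, dim_low27 G₂ k hk, h k]
      · obtain ⟨m, rfl⟩ : ∃ m, k = m + 2 := ⟨k - 2, by omega⟩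
        rw [dim_step27, dim_step27, h (m + 2), ih m (by omega)]
  · intro h k
    by_cases hk : k ≤ 1
    · rw [← dim_low27 G₁ k hk, ← dim_low27 G₂ k hk, h k]
    · obtain ⟨m, rfl⟩ : ∃ m, k = m + 2 := ⟨k - 2, by omega⟩
      have h1 := dim_step27 G₁ m
      have h2 := dim_step27 G₂ m
      have h3 := h (m + 2)
      have h4 := h m
      omega

end general

end MPc53f59
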