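import Mathlib
import Pool.Agent.Lib.MP_c53f59_gt.Defs
import Pool.Agent.Lib.MP_c53f59_gt.Defs2

/-!
Rows L2, L3, L4, L5, L6 of MP_c53f59_gt: standard rotations and lens groups.
-/

namespace MPc53f59

open Real

section lens44

variable {n : ℕ}

/-- the 2 x 2 rotation matrix -/
noncomputable def R44 (t : ℝ) : Matrix (Fin 2) (Fin 2) ℝ := !![cos t, -sin t; sin t, cos t]

theorem R44_mul (a b : ℝ) : R44 a * R44 b = R44 (a + b) := by
  unfold R44
  rw [cos_add, sin_add]
  ext i j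
  fin_cases i <;> fin_cases j <;> simp [Matrix.mul_apply, Fin.sum_univ_two] <;> ring

theorem rotMat_eq44 (θ : Fin n → ℝ) : rotMat θ =
    (Matrix.blockDiagonal fun i : Fin n => R44 (θ i)).submatrix
      finProdFinEquiv.symm finProdFinEquiv.symm := rfl

theorem rotMat_mul44 (θ φ : Fin n → ℝ) : rotMat θ * rotMat φ = rotMat (fun i => θ i + φ i) := by
  rw [rotMat_eq44, rotMat_eq44, rotMat_eq44, Matrix.submatrix_mul_equiv,
    ← Matrix.blockDiagonal_mul]
  simp only [R44_mul]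

theorem rot_mul44 (θ φ : Fin n → ℝ) : rot θ * rot φ = rot (fun i => θ i + φ i) := by
  apply Subtype.ext
  exact rotMat_mul44 θ φ

theorem R44_one {t : ℝ} (hc : cos t = 1) : R44 t = 1 := by
  have hs : sin t = 0 := by
    have := sin_sq_add_cos_sq t
    rw [hc] at this
    have h2 : sin t ^ 2 = 0 := by linarith
    exact pow_eq_zero_iff (two_ne_zero) |>.1 h2
  unfold R44
  rw [hc, hs]
  ext i j
  fin_cases i <;> fin_cases j <;> simp

theorem rot_eq_one44 (θ : Fin n → ℝ) (h : ∀ i, cos (θ i) = 1) : rot θ = 1 := by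
  apply Subtype.ext
  show rotMat θ = 1
  rw [rotMat_eq44]
  have : (fun i : Fin n => R44 (θ i)) = fun _ => 1 := funext fun i => R44_one (h i)
  rw [this]
  have h3 : (Matrix.blockDiagonal fun _ : Fin n => (1 : Matrix (Fin 2) (Fin 2) ℝ)) = 1 :=
    Matrix.blockDiagonal_one
  rw [h3]
  exact Matrix.submatrix_one_equiv _

/-- L2 -/
theorem rot_pow44 (θ : Fin n → ℝ) (j : ℕ) : (rot θ) ^ j = rot (fun i => (j : ℝ) * θ i) := by
  induction j with
  | zero =>
    rw [pow_zero]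
    exact (rot_eq_one44 _ fun i => by simp).symm
  | succ j ih =>
    rw [pow_succ, ih, rot_mul44]
    congr 1
    funext i
    push_cast
    ring

/-- the determinant over a commutative ring -/
theorem det_aux44 {A : Type*} [CommRing A] (φ : ℝ →+* A) (θ : Fin n → ℝ) (z : A) :
    (1 - z • ((rotMat θ).map φ)).det =
      ∏ i, (1 - φ (2 * cos (θ i)) * z + z ^ 2) := by
  have h1 : (1 - z • ((rotMat θ).map φ)) =
      (Matrix.blockDiagonal fun i : Fin n => (1 - z • (R44 (θ i)).map φ)).submatrix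
        finProdFinEquiv.symm finProdFinEquiv.symm := by
    rw [rotMat_eq44]
    have e1 : (Matrix.blockDiagonal fun i : Fin n => (1 - z • (R44 (θ i)).map φ)) =
        1 - z • (Matrix.blockDiagonal fun i : Fin n => R44 (θ i)).map φ := by
      rw [Matrix.blockDiagonal_map _ _ (map_zero φ)]
      have e2 : (fun i : Fin n => (1 - z • (R44 (θ i)).map φ : Matrix (Fin 2) (Fin 2) A)) =
          (fun _ => (1 : Matrix (Fin 2) (Fin 2) A)) - z • fun i : Fin n => (R44 (θ i)).map φ := by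
        funext i
        rfl
      rw [e2, Matrix.blockDiagonal_sub, Matrix.blockDiagonal_smul]
      have h3 : (Matrix.blockDiagonal fun _ : Fin n => (1 : Matrix (Fin 2) (Fin 2) A)) = 1 :=
        Matrix.blockDiagonal_one
      rw [h3]
    rw [e1]
    have e4 : (1 : Matrix (Fin 2 × Fin n) (Fin 2 × Fin n) A).submatrix
        finProdFinEquiv.symm finProdFinEquiv.symm = 1 := Matrix.submatrix_one_equiv _
    rw [← e4]
    rfl
  rw [h1]
  rw [Matrix.det_submatrix_equiv_self, Matrix.det_blockDiagonal]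
  refine Finset.prod_congr rfl fun i _ => ?_
  have h4 := sin_sq_add_cos_sq (θ i)
  have h5 : φ (sin (θ i)) ^ 2 + φ (cos (θ i)) ^ 2 = 1 := by
    rw [← map_pow, ← map_pow, ← map_add, h4, map_one]
  rw [Matrix.det_fin_two]
  simp only [R44, Matrix.sub_apply, Matrix.smul_apply, Matrix.map_apply, Matrix.one_apply_eq,
    Matrix.of_apply, Matrix.cons_val', Matrix.cons_val_zero, Matrix.cons_val_one,
    Matrix.cons_val_fin_one, smul_eq_mul, map_neg, map_mul]
  rw [Matrix.one_apply_ne (by decide), Matrix.one_apply_ne (by decide)]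
  have h6 : φ 2 = 2 := map_ofNat φ 2
  rw [h6]
  linear_combination z ^ 2 * h5

/-- L4 -/
theorem det_rot44 (θ : Fin n → ℝ) (z : ℂ) :
    (1 - z • toC (rot θ)).det = ∏ i, (1 - 2 * ((cos (θ i) : ℝ) : ℂ) * z + z ^ 2) := by
  have h := det_aux44 Complex.ofRealHom θ z
  have e : toC (rot θ) = (rotMat θ).map Complex.ofRealHom := rfl
  rw [e, h]
  refine Finset.prod_congr rfl fun i _ => ?_
  simp

theorem charpolyRev_rot44 (θ : Fin n → ℝ) :
    (toC (rot θ)).charpolyRev =
      ∏ i, (1 - Polynomial.C (2 * ((cos (θ i) : ℝ) : ℂ)) * Polynomial.X +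
        Polynomial.X ^ 2) := by
  have h := det_aux44 (Polynomial.C.comp Complex.ofRealHom) θ Polynomial.X
  have e : (toC (rot θ)).charpolyRev =
      (1 - (Polynomial.X : Polynomial ℂ) •
        ((rotMat θ).map (Polynomial.C.comp Complex.ofRealHom))).det := rfl
  rw [e, h]
  refine Finset.prod_congr rfl fun i _ => ?_
  simp

/-- real determinant -/
theorem det_real44 (θ : Fin n → ℝ) (z : ℝ) :
    (1 - z • rotMat θ).det = ∏ i, (1 - 2 * cos (θ i) * z + z ^ 2) := by
  have h := det_aux44 (RingHom.id ℝ) θ z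
  have e : (rotMat θ).map (RingHom.id ℝ) = rotMat θ := by ext; rfl
  rw [e] at h
  rw [h]
  rfl

theorem rot_fix44 (θ : Fin n → ℝ) (h : ∀ i, cos (θ i) ≠ 1) (x : Fin (2 * n) → ℝ)
    (hx : (rotMat θ).mulVec x = x) : x = 0 := by
  have hd : (1 - rotMat θ).det ≠ 0 := by
    have := det_real44 θ 1
    rw [one_smul] at this
    rw [this, Finset.prod_ne_zero_iff]
    intro i _ h0
    apply h i
    linarith
  apply Matrix.eq_zero_of_mulVec_eq_zero hd
  rw [Matrix.sub_mulVec, Matrix.one_mulVec, hx, sub_self]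

theorem cos_of_rot_one44 (θ : Fin n → ℝ) (h : rot θ = 1) (i : Fin n) : cos (θ i) = 1 := by
  have h1 : rotMat θ = 1 := congrArg Subtype.val h
  have h2 := congrFun (congrFun h1 (finProdFinEquiv (0, i))) (finProdFinEquiv (0, i))
  rw [rotMat_eq44] at h2
  simp [R44] at h2
  exact h2

/-- cos (j (2 pi s / q)) = 1 iff q divides j s -/
theorem cos_eq_one44 (q : ℕ) (hq : 0 < q) (j s : ℕ) :
    cos ((j : ℝ) * (2 * π * (s : ℝ) / (q : ℝ))) = 1 ↔ q ∣ j * s := by
  have hq' : (q : ℝ) ≠ 0 := by exact_mod_cast hq.ne'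
  rw [cos_eq_one_iff]
  constructor
  · rintro ⟨k, hk⟩
    have h1 : ((k * q : ℤ) : ℝ) = ((j * s : ℕ) : ℝ) := by
      push_cast
      have h2 : (k : ℝ) * (2 * π) * q = (j : ℝ) * (2 * π * s) := by
        rw [hk]; field_simp
      have h3 : (2 * π) * ((k : ℝ) * q) = (2 * π) * ((j : ℝ) * s) := by linarith
      exact mul_left_cancel₀ (by positivity) h3
    have h4 : (k * q : ℤ) = ((j * s : ℕ) : ℤ) := by exact_mod_cast h1
    have h5 : (q : ℤ) ∣ ((j * s : ℕ) : ℤ) := ⟨k, by rw [← h4]; ring⟩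
    exact_mod_cast h5
  · rintro ⟨k, hk⟩
    refine ⟨k, ?_⟩
    have h1 : (j : ℝ) * s = q * k := by exact_mod_cast hk
    have h2 : (j : ℝ) * (2 * π * s / q) = (j * s) * (2 * π) / q := by ring
    rw [h2, h1]
    push_cast
    field_simp

theorem rot_q44 (q : ℕ) (hq : 0 < q) (s : Fin n → ℕ) :
    (rot (fun i => 2 * π * (s i : ℝ) / (q : ℝ))) ^ q = 1 := by
  rw [rot_pow44]
  apply rot_eq_one44
  intro i
  rw [cos_eq_one44 q hq]
  exact dvd_mul_right q _

theorem orderOf_rot44 (q : ℕ) (hn : 0 < n) (hq : 0 < q) (s : Fin n → ℕ)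
    (hs : ∀ i, Nat.Coprime (s i) q) :
    orderOf (rot (fun i => 2 * π * (s i : ℝ) / (q : ℝ))) = q := by
  rw [orderOf_eq_iff hq]
  refine ⟨rot_q44 q hq s, fun m hm hm0 h => ?_⟩
  rw [rot_pow44] at h
  have h1 := cos_of_rot_one44 _ h ⟨0, hn⟩
  rw [cos_eq_one44 q hq] at h1
  have h2 : q ∣ m := (Nat.Coprime.dvd_of_dvd_mul_right (hs ⟨0, hn⟩).symm h1)
  exact absurd (Nat.le_of_dvd hm0 h2) (by omega)

theorem mem_lens44 (q : ℕ) (hq : 0 < q) (s : Fin n → ℕ)
    (g : Matrix.orthogonalGroup (Fin (2 * n)) ℝ) (hg : g ∈ lens q s) :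
    ∃ j : ℕ, j < q ∧ g = (rot (fun i => 2 * π * (s i : ℝ) / (q : ℝ))) ^ j := by
  obtain ⟨k, rfl⟩ := Subgroup.mem_zpowers_iff.1 hg
  have hq0 : (q : ℤ) ≠ 0 := by exact_mod_cast hq.ne'
  have hk0 : 0 ≤ k % q := Int.emod_nonneg _ hq0
  have hk1 : k % q < q := Int.emod_lt_of_pos _ (by exact_mod_cast hq)
  refine ⟨(k % q).toNat, by omega, ?_⟩
  rw [← zpow_natCast, Int.toNat_of_nonneg hk0]
  conv_lhs => rw [← Int.emod_add_mul_ediv k q]
  rw [zpow_add, zpow_mul, zpow_natCast, rot_q44 q hq, one_zpow, mul_one]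

/-- L5 -/
theorem lens_free44 (q : ℕ) (hn : 0 < n) (hq : 0 < q) (s : Fin n → ℕ)
    (hs : ∀ i, Nat.Coprime (s i) q) :
    ActsFreely (lens q s) ∧ Nat.card (lens q s) = q := by
  constructor
  · intro g hg hg1 x hx
    obtain ⟨j, hj, rfl⟩ := mem_lens44 q hq s g hg
    rw [rot_pow44] at hg1 hx
    apply rot_fix44 _ _ x hx
    intro i hi
    rw [cos_eq_one44 q hq] at hi
    have h2 : q ∣ j := (Nat.Coprime.dvd_of_dvd_mul_right (hs i).symm hi)
    apply hg1
    apply rot_eq_one44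
    intro i'
    rw [cos_eq_one44 q hq]
    exact Dvd.dvd.mul_right h2 _
  · rw [lens, Nat.card_zpowers, orderOf_rot44 q hn hq s hs]

/-- L6 : a sum over the lens group is a sum over the powers of the generator -/
theorem lens_sum44 (q : ℕ) (hn : 0 < n) (hq : 0 < q) (s : Fin n → ℕ)
    (hs : ∀ i, Nat.Coprime (s i) q) [Fintype (lens q s)] {M : Type} [AddCommMonoid M]
    (f : Matrix.orthogonalGroup (Fin (2 * n)) ℝ → M) :
    ∑ g : lens q s, f g =
      ∑ j ∈ Finset.range q, f (rot (fun i => (j : ℝ) * (2 * π * (s i : ℝ) / (q : ℝ)))) := by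
  rw [Finset.sum_range]
  symm
  let F : Fin q → lens q s := fun j =>
    ⟨(rot (fun i => 2 * π * (s i : ℝ) / (q : ℝ))) ^ (j : ℕ),
      Subgroup.npow_mem_zpowers _ _⟩
  have hF : Function.Bijective F := by
    constructor
    · intro a b hab
      have h1 := congrArg Subtype.val hab
      have h2 : (a : ℕ) ≡ b [MOD orderOf (rot (fun i => 2 * π * (s i : ℝ) / (q : ℝ)))] :=
        pow_eq_pow_iff_modEq.1 h1
      rw [orderOf_rot44 q hn hq s hs] at h2
      exact Fin.ext (Nat.ModEq.eq_of_lt_of_lt h2 a.2 b.2)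
    · rintro ⟨g, hg⟩
      obtain ⟨j, hj, rfl⟩ := mem_lens44 q hq s g hg
      exact ⟨⟨j, hj⟩, rfl⟩
  refine Fintype.sum_bijective F hF _ _ fun j => ?_
  show f (rot fun i => ((j : ℕ) : ℝ) * (2 * π * (s i : ℝ) / (q : ℝ))) =
    f ((rot (fun i => 2 * π * (s i : ℝ) / (q : ℝ))) ^ (j : ℕ))
  rw [rot_pow44]

end lens44

end MPc53f59
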