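import Mathlib

/-!
# Normal form of a linear isometry without eigenvalues 1, -1

Row NORMAL FORM of the plan for MP_c53f59_gt: a linear isometry of a finite dimensional real
inner product space that has neither the eigenvalue 1 nor the eigenvalue -1 is an orthogonal sum
of plane rotations with angles strictly between 0 and π.
-/

namespace Pool.Agent.MPc53f59

open Real InnerProductSpace Module

section plane

variable {V : Type*} [NormedAddCommGroup V] [InnerProductSpace ℝ V] [FiniteDimensional ℝ V]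

/-- One rotation plane. -/
theorem exists_plane44 (g : V ≃ₗᵢ[ℝ] V) (h1 : ∀ v, g v = v → v = 0)
    (h2 : ∀ v, g v = -v → v = 0) (hV : 0 < finrank ℝ V) :
    ∃ (a b : V) (t : ℝ), ‖a‖ = 1 ∧ ‖b‖ = 1 ∧ ⟪a, b⟫_ℝ = 0 ∧ 0 < t ∧ t < π ∧
      g a = cos t • a + sin t • b ∧ g b = -(sin t) • a + cos t • b := by
  -- the symmetric operator g + g⁻¹
  let T : V →ₗ[ℝ] V := (g.toLinearEquiv : V →ₗ[ℝ] V) + (g.symm.toLinearEquiv : V →ₗ[ℝ] V)
  have hTapp : ∀ v, T v = g v + g.symm v := fun v => rfl
  have hadj : ∀ x y, ⟪g x, y⟫_ℝ = ⟪x, g.symm y⟫_ℝ := by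
    intro x y
    have := g.inner_map_map x (g.symm y)
    rw [g.apply_symm_apply] at this
    exact this
  have hadj' : ∀ x y, ⟪g.symm x, y⟫_ℝ = ⟪x, g y⟫_ℝ := by
    intro x y
    have := g.inner_map_map (g.symm x) y
    rw [g.apply_symm_apply] at this
    exact this.symm
  have hT : T.IsSymmetric := by
    intro x y
    rw [hTapp, hTapp, inner_add_left, inner_add_right, hadj, hadj']
    ring
  obtain ⟨k, hk⟩ : ∃ k, finrank ℝ V = k + 1 := ⟨finrank ℝ V - 1, by omega⟩
  let a : V := hT.eigenvectorBasis hk 0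
  let μ : ℝ := hT.eigenvalues hk 0
  have ha : ‖a‖ = 1 := (hT.eigenvectorBasis hk).orthonormal.1 0
  have hTa : T a = μ • a := hT.apply_eigenvectorBasis hk 0
  -- c = μ / 2
  obtain ⟨c, hc⟩ : ∃ c : ℝ, μ = 2 * c := ⟨μ / 2, by ring⟩
  have hsum : g a + g.symm a = (2 * c) • a := by
    rw [← hTapp, hTa, hc]
  have hinner : ⟪a, g a⟫_ℝ = c := by
    have e1 : ⟪a, g a⟫_ℝ + ⟪a, g.symm a⟫_ℝ = 2 * c := by
      rw [← inner_add_right, hsum, inner_smul_right, real_inner_self_eq_norm_sq, ha]
      ring
    have e2 : ⟪a, g.symm a⟫_ℝ = ⟪a, g a⟫_ℝ := by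
      rw [← hadj, real_inner_comm]
    linarith
  have hgg : g (g a) = (2 * c) • g a - a := by
    have h := congrArg g hsum
    rw [map_add, g.apply_symm_apply, map_smul] at h
    rw [← h]; abel
  have hna : ‖g a‖ = 1 := by rw [g.norm_map, ha]
  have ha0 : a ≠ 0 := by
    intro h
    rw [h, norm_zero] at ha
    exact zero_ne_one ha
  -- |c| < 1
  have hc1 : c < 1 := by
    have hle : c ≤ 1 := by
      have := real_inner_le_norm a (g a)
      rw [hinner, ha, hna] at this
      linarith
    rcases lt_or_eq_of_le hle with h | h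
    · exact h
    · exfalso
      have hh : ⟪a, g a⟫_ℝ = 1 := by rw [hinner, h]
      have := (inner_eq_one_iff_of_norm_eq_one (𝕜 := ℝ) ha hna).1 hh
      exact ha0 (h1 a this.symm)
  have hc2 : -1 < c := by
    have hle : -1 ≤ c := by
      have := real_inner_le_norm a (-(g a))
      rw [inner_neg_right, hinner, norm_neg, ha, hna] at this
      linarith
    rcases lt_or_eq_of_le hle with h | h
    · exact h
    · exfalso
      have hn' : ‖-(g a)‖ = 1 := by rw [norm_neg, hna]
      have hh : ⟪a, -(g a)⟫_ℝ = 1 := by rw [inner_neg_right, hinner, ← h]; ring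
      have := (inner_eq_one_iff_of_norm_eq_one (𝕜 := ℝ) ha hn').1 hh
      exact ha0 (h2 a (neg_eq_iff_eq_neg.1 this.symm))
  set t : ℝ := arccos c with ht
  have hcos : cos t = c := cos_arccos hc2.le hc1.le
  have ht0 : 0 < t := arccos_pos.2 hc1
  have htpi : t < π := by
    rcases lt_or_eq_of_le (arccos_le_pi c) with h | h
    · exact h
    · exfalso
      have : cos t = -1 := by rw [ht, h, cos_pi]
      linarith
  have hs : 0 < sin t := sin_pos_of_pos_of_lt_pi ht0 htpi
  have hs0 : sin t ≠ 0 := hs.ne'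
  have hsc : sin t ^ 2 + c ^ 2 = 1 := by
    have := sin_sq_add_cos_sq t
    rwa [hcos] at this
  obtain ⟨b, hbdef⟩ : ∃ b : V, b = (sin t)⁻¹ • (g a - c • a) := ⟨_, rfl⟩
  have hga : g a = c • a + sin t • b := by
    rw [hbdef, smul_inv_smul₀ hs0]; abel
  have hab : ⟪a, b⟫_ℝ = 0 := by
    rw [hbdef, inner_smul_right, inner_sub_right, inner_smul_right, hinner,
      real_inner_self_eq_norm_sq, ha]
    ring
  have hb : ‖b‖ = 1 := by
    have e : ‖g a‖ ^ 2 = c ^ 2 + sin t ^ 2 * ‖b‖ ^ 2 := by
      rw [← real_inner_self_eq_norm_sq, hga]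
      have hba : ⟪b, a⟫_ℝ = 0 := by rw [real_inner_comm]; exact hab
      simp only [inner_add_left, inner_add_right, inner_smul_left, inner_smul_right,
        conj_trivial, hab, hba, real_inner_self_eq_norm_sq, ha]
      ring
    rw [hna] at e
    have e2 : ‖b‖ ^ 2 = 1 := by
      have : sin t ^ 2 * (‖b‖ ^ 2 - 1) = 0 := by nlinarith
      rcases mul_eq_zero.1 this with h | h
      · exact absurd (pow_eq_zero_iff (two_ne_zero) |>.1 h) hs0
      · linarith
    have hb0 : 0 ≤ ‖b‖ := norm_nonneg b
    nlinarith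
  refine ⟨a, b, t, ha, hb, hab, ht0, htpi, ?_, ?_⟩
  · rw [hcos]; exact hga
  · rw [hcos]
    have hgb : sin t • g b = g (g a) - c • g a := by
      rw [hbdef, map_smul, smul_inv_smul₀ hs0, map_sub, map_smul]
    have key : sin t • g b = sin t • (-(sin t) • a + c • b) := by
      rw [hgb, hgg]
      have : (2 * c) • g a - a - c • g a = c • g a - a := by
        rw [two_mul, add_smul]; abel
      rw [this, hga, smul_add, smul_smul, smul_smul, smul_add, smul_smul, smul_smul]
      have e3 : (c * c) • a - a = (sin t * -sin t) • a := by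
        have : c * c - 1 = sin t * -sin t := by nlinarith
        rw [← this, sub_smul, one_smul]
      rw [mul_comm c (sin t)]
      rw [← e3]; abel
    exact smul_right_injective V hs0 key

end plane

/-- Normal form: an isometry without eigenvalues 1 and -1 is a sum of plane rotations. -/
theorem normalForm44 {V : Type*} [NormedAddCommGroup V] [InnerProductSpace ℝ V]
    [FiniteDimensional ℝ V] (g : V ≃ₗᵢ[ℝ] V) (h1 : ∀ v, g v = v → v = 0)
    (h2 : ∀ v, g v = -v → v = 0) :
    ∃ (n : ℕ) (b : OrthonormalBasis (Fin n × Fin 2) ℝ V) (t : Fin n → ℝ),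
      (∀ i, 0 < t i ∧ t i < π) ∧
      ∀ i, g (b (i, 0)) = cos (t i) • b (i, 0) + sin (t i) • b (i, 1) ∧
        g (b (i, 1)) = -(sin (t i)) • b (i, 0) + cos (t i) • b (i, 1) := by
  obtain ⟨N, hN⟩ : ∃ N, finrank ℝ V = N := ⟨_, rfl⟩
  induction N using Nat.strong_induction_on generalizing V with
  | _ N ih =>
  rcases Nat.eq_zero_or_pos N with h0 | hpos
  · -- dimension zero
    subst h0
    refine ⟨0, ?_, Fin.elim0, fun i => i.elim0, fun i => i.elim0⟩
    have hsub : Subsingleton V := finrank_zero_iff.1 hN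
    refine OrthonormalBasis.mk (v := fun i : Fin 0 × Fin 2 => (0 : V)) ?_ ?_
    · constructor
      · rintro ⟨i, _⟩; exact i.elim0
      · rintro ⟨i, _⟩; exact i.elim0
    · intro x _
      have : x = 0 := Subsingleton.elim _ _
      rw [this]; exact Submodule.zero_mem _
  obtain ⟨a, b, t, ha, hb, hab, ht0, htpi, hga, hgb⟩ :=
    exists_plane44 g h1 h2 (by omega)
  let v : Fin 2 → V := ![a, b]
  have hv : Orthonormal ℝ v := by
    rw [orthonormal_iff_ite]
    have hba : ⟪b, a⟫_ℝ = 0 := by rw [real_inner_comm]; exact hab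
    intro i j
    fin_cases i <;> fin_cases j <;>
      simp [v, hab, hba, ha, hb]
  let W : Submodule ℝ V := Submodule.span ℝ (Set.range v)
  have hWdim : finrank ℝ W = 2 := by
    have := finrank_span_eq_card hv.linearIndependent
    simpa using this
  have haW : a ∈ W := Submodule.subset_span ⟨0, rfl⟩
  have hbW : b ∈ W := Submodule.subset_span ⟨1, rfl⟩
  have hKmem : ∀ x, x ∈ Wᗮ ↔ ⟪a, x⟫_ℝ = 0 ∧ ⟪b, x⟫_ℝ = 0 := by
    intro x
    constructor
    · intro hx
      exact ⟨Submodule.inner_right_of_mem_orthogonal haW hx,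
        Submodule.inner_right_of_mem_orthogonal hbW hx⟩
    · rintro ⟨hx1, hx2⟩
      rw [Submodule.mem_orthogonal]
      intro u hu
      induction hu using Submodule.span_induction with
      | mem y hy =>
        obtain ⟨i, rfl⟩ := hy
        fin_cases i
        · exact hx1
        · exact hx2
      | zero => exact inner_zero_left _
      | add y z _ _ hy hz => rw [inner_add_left, hy, hz, add_zero]
      | smul r y _ hy => rw [inner_smul_left, hy, mul_zero]
  -- the orthogonal complement is invariant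
  have hsc : sin t ^ 2 + cos t ^ 2 = 1 := sin_sq_add_cos_sq t
  have hinv : ∀ x ∈ Wᗮ, g x ∈ Wᗮ := by
    intro x hx
    obtain ⟨hx1, hx2⟩ := (hKmem x).1 hx
    have e1 : ⟪g a, g x⟫_ℝ = 0 := by rw [g.inner_map_map]; exact hx1
    have e2 : ⟪g b, g x⟫_ℝ = 0 := by rw [g.inner_map_map]; exact hx2
    rw [hga, inner_add_left, inner_smul_left, inner_smul_left] at e1
    rw [hgb, inner_add_left, inner_smul_left, inner_smul_left] at e2
    simp only [conj_trivial] at e1 e2
    rw [hKmem]
    constructor
    · have : (sin t ^ 2 + cos t ^ 2) * ⟪a, g x⟫_ℝ = 0 := by linear_combination cos t * e1 - sin t * e2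
      rwa [hsc, one_mul] at this
    · have : (sin t ^ 2 + cos t ^ 2) * ⟪b, g x⟫_ℝ = 0 := by linear_combination sin t * e1 + cos t * e2
      rwa [hsc, one_mul] at this
  let g0 : Wᗮ →ₗ[ℝ] Wᗮ := (g.toLinearEquiv : V →ₗ[ℝ] V).restrict hinv
  have hg0 : ∀ x : Wᗮ, ((g0 x : Wᗮ) : V) = g x := fun x => rfl
  let g1 : Wᗮ →ₗᵢ[ℝ] Wᗮ := ⟨g0, fun x => by
    rw [← Submodule.norm_coe, hg0, g.norm_map, Submodule.norm_coe]⟩
  let g' : Wᗮ ≃ₗᵢ[ℝ] Wᗮ := g1.toLinearIsometryEquiv rfl
  have hg' : ∀ x : Wᗮ, ((g' x : Wᗮ) : V) = g x := fun x => rfl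
  have hdim : finrank ℝ W + finrank ℝ Wᗮ = finrank ℝ V := Submodule.finrank_add_finrank_orthogonal W
  obtain ⟨n, c, s, hs, hc⟩ := ih (finrank ℝ Wᗮ) (by omega) g'
    (fun x hx => by
      have : g (x : V) = x := by rw [← hg', hx]
      exact Subtype.ext (h1 _ this))
    (fun x hx => by
      have : g (x : V) = -(x : V) := by rw [← hg', hx]; rfl
      exact Subtype.ext (h2 _ this)) rfl
  have hcard : finrank ℝ Wᗮ = 2 * n := by
    have := finrank_eq_card_basis c.toBasis
    simp only [Fintype.card_prod, Fintype.card_fin] at this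
    omega
  -- the new family
  let w : Fin (n + 1) × Fin 2 → V := fun p =>
    Fin.cases (motive := fun _ => V) (v p.2) (fun i => ((c (i, p.2) : Wᗮ) : V)) p.1
  have hw0 : ∀ j, w (0, j) = v j := fun j => rfl
  have hws : ∀ (i : Fin n) j, w (i.succ, j) = ((c (i, j) : Wᗮ) : V) := fun i j => rfl
  have hvW : ∀ j, v j ∈ W := fun j => Submodule.subset_span ⟨j, rfl⟩
  have hw : Orthonormal ℝ w := by
    rw [orthonormal_iff_ite]
    rintro ⟨i, j⟩ ⟨i', j'⟩
    induction i using Fin.cases with
    | zero =>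
      induction i' using Fin.cases with
      | zero =>
        rw [hw0, hw0, orthonormal_iff_ite.1 hv j j']
        simp [Prod.ext_iff]
      | succ i' =>
        rw [hw0, hws, Submodule.inner_right_of_mem_orthogonal (hvW j) (c (i', j')).2]
        rw [if_neg]
        intro h
        exact absurd (congrArg Prod.fst h) (Fin.succ_ne_zero i').symm
    | succ i =>
      induction i' using Fin.cases with
      | zero =>
        rw [hw0, hws, real_inner_comm,
          Submodule.inner_right_of_mem_orthogonal (hvW j') (c (i, j)).2]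
        rw [if_neg]
        intro h
        exact absurd (congrArg Prod.fst h) (Fin.succ_ne_zero i)
      | succ i' =>
        rw [hws, hws, ← Submodule.coe_inner, orthonormal_iff_ite.1 c.orthonormal (i, j) (i', j')]
        simp [Prod.ext_iff]
  have hcardV : Fintype.card (Fin (n + 1) × Fin 2) = finrank ℝ V := by
    simp only [Fintype.card_prod, Fintype.card_fin]
    omega
  have hspan : ⊤ ≤ Submodule.span ℝ (Set.range w) :=
    (hw.linearIndependent.span_eq_top_of_card_eq_finrank' hcardV).ge
  refine ⟨n + 1, OrthonormalBasis.mk hw hspan, Fin.cons t s, ?_, ?_⟩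
  · intro i
    induction i using Fin.cases with
    | zero => exact ⟨ht0, htpi⟩
    | succ i => simpa using hs i
  · intro i
    simp only [OrthonormalBasis.coe_mk]
    induction i using Fin.cases with
    | zero =>
      rw [hw0, hw0]
      simp only [Fin.cons_zero]
      exact ⟨hga, hgb⟩
    | succ i =>
      rw [hws, hws]
      simp only [Fin.cons_succ]
      obtain ⟨e1, e2⟩ := hc i
      constructor
      · rw [← hg', e1]; rfl
      · rw [← hg', e2]; rfl

end Pool.Agent.MPc53f59
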