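import Mathlib
import Pool.Agent.Lib.MP_c53f59_gt.Defs
import Pool.Agent.Lib.MP_c53f59_gt.Defs2
import Pool.Agent.Lib.MP_c53f59_gt.NormalForm44
import Pool.Agent.Lib.MP_c53f59_gt.Lens44

/-!
Rows L3, L7, L8, L1 of MP_c53f59_gt: conjugacy of standard rotations, isometric lens groups,
normal form.
-/

namespace MPc53f59

open Real

section lens44b

variable {n : ℕ}

/-- reflection or identity of a plane -/
def S44 (e : ℝ) : Matrix (Fin 2) (Fin 2) ℝ := !![1, 0; 0, e]

theorem S44_sq {e : ℝ} (he : e * e = 1) : S44 e * (S44 e).transpose = 1 := by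
  unfold S44
  ext i j
  fin_cases i <;> fin_cases j <;> simp [Matrix.mul_apply, Fin.sum_univ_two, he]

theorem S44_R44 {e a b : ℝ} (he : e * e = 1) (hc : cos b = cos a) (hs : sin b = e * sin a) :
    S44 e * R44 a = R44 b * S44 e := by
  unfold S44 R44
  rw [hc, hs]
  ext i j
  fin_cases i <;> fin_cases j <;> simp [Matrix.mul_apply, Fin.sum_univ_two]
  · linear_combination (-(sin a)) * he
  · ring

/-- L3 -/
theorem rot_conj44 (θ θ' : Fin n → ℝ) (τ : Equiv.Perm (Fin n))
    (h : ∀ i, cos (θ' i) = cos (θ (τ i))) :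
    ∃ k : Matrix.orthogonalGroup (Fin (2 * n)) ℝ, k * rot θ * k⁻¹ = rot θ' := by
  have hsgn : ∀ i, ∃ e : ℝ, e * e = 1 ∧ sin (θ' i) = e * sin (θ (τ i)) := by
    intro i
    have h1 := sin_sq_add_cos_sq (θ' i)
    have h2 := sin_sq_add_cos_sq (θ (τ i))
    rw [h i] at h1
    have h3 : sin (θ' i) ^ 2 = sin (θ (τ i)) ^ 2 := by linarith
    rcases sq_eq_sq_iff_eq_or_eq_neg.1 h3 with h4 | h4
    · exact ⟨1, by ring, by rw [h4]; ring⟩
    · exact ⟨-1, by ring, by rw [h4]; ring⟩
  choose e he hs using hsgn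
  let σ : Fin 2 × Fin n ≃ Fin 2 × Fin n := Equiv.prodCongr (Equiv.refl _) τ.symm
  let BS : Matrix (Fin 2 × Fin n) (Fin 2 × Fin n) ℝ := Matrix.blockDiagonal fun i => S44 (e i)
  let K0 : Matrix (Fin 2 × Fin n) (Fin 2 × Fin n) ℝ := BS.submatrix (Equiv.refl _) σ
  let K : Matrix (Fin (2 * n)) (Fin (2 * n)) ℝ :=
    K0.submatrix finProdFinEquiv.symm finProdFinEquiv.symm
  have hBS : BS * BS.transpose = 1 := by
    show (Matrix.blockDiagonal fun i => S44 (e i)) *
      (Matrix.blockDiagonal fun i => S44 (e i)).transpose = 1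
    rw [Matrix.blockDiagonal_transpose, ← Matrix.blockDiagonal_mul]
    have : (fun k : Fin n => S44 (e k) * (S44 (e k)).transpose) = fun _ => 1 :=
      funext fun k => S44_sq (he k)
    rw [this]
    exact Matrix.blockDiagonal_one
  have hK0 : K0 * K0.transpose = 1 := by
    show (BS.submatrix (Equiv.refl _) σ) * (BS.submatrix (Equiv.refl _) σ).transpose = 1
    rw [Matrix.transpose_submatrix, Matrix.submatrix_mul_equiv, hBS]
    exact Matrix.submatrix_one_equiv _
  have hK : K ∈ Matrix.orthogonalGroup (Fin (2 * n)) ℝ := by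
    rw [Matrix.mem_orthogonalGroup_iff]
    show (K0.submatrix finProdFinEquiv.symm finProdFinEquiv.symm) *
      (K0.submatrix finProdFinEquiv.symm finProdFinEquiv.symm).transpose = 1
    rw [Matrix.transpose_submatrix, Matrix.submatrix_mul_equiv, hK0]
    exact Matrix.submatrix_one_equiv _
  have hcomm : K0 * (Matrix.blockDiagonal fun i : Fin n => R44 (θ i)) =
      (Matrix.blockDiagonal fun i : Fin n => R44 (θ' i)) * K0 := by
    have e1 : (Matrix.blockDiagonal fun i : Fin n => R44 (θ i)) =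
        (Matrix.blockDiagonal fun i : Fin n => R44 (θ (τ i))).submatrix σ σ := by
      ext ⟨a, i⟩ ⟨b, j⟩
      simp only [Matrix.submatrix_apply, Matrix.blockDiagonal_apply, σ, Equiv.prodCongr_apply,
        Prod.map, Equiv.refl_apply, Equiv.apply_symm_apply, EmbeddingLike.apply_eq_iff_eq]
    have e2 : (Matrix.blockDiagonal fun i : Fin n => R44 (θ' i)) =
        (Matrix.blockDiagonal fun i : Fin n => R44 (θ' i)).submatrix (Equiv.refl _)
          (Equiv.refl _) := rfl
    show (BS.submatrix (Equiv.refl _) σ) * _ = _ * (BS.submatrix (Equiv.refl _) σ)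
    rw [e1, Matrix.submatrix_mul_equiv, e2, Matrix.submatrix_mul_equiv]
    congr 1
    show (Matrix.blockDiagonal fun i => S44 (e i)) * _ =
      _ * (Matrix.blockDiagonal fun i => S44 (e i))
    rw [← Matrix.blockDiagonal_mul, ← Matrix.blockDiagonal_mul]
    congr 1
    funext i
    exact S44_R44 (he i) (h i) (hs i)
  refine ⟨⟨K, hK⟩, ?_⟩
  rw [mul_inv_eq_iff_eq_mul]
  apply Subtype.ext
  show K * rotMat θ = rotMat θ' * K
  rw [rotMat_eq44, rotMat_eq44]
  show (K0.submatrix finProdFinEquiv.symm finProdFinEquiv.symm) * _ =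
    _ * (K0.submatrix finProdFinEquiv.symm finProdFinEquiv.symm)
  rw [Matrix.submatrix_mul_equiv, Matrix.submatrix_mul_equiv, hcomm]

/-- L7 : change of the generator and permutation of the planes -/
theorem lens_isometric44 (q : ℕ) (hq : 0 < q) (s s' : Fin n → ℕ) (u : ℕ) (hu : Nat.Coprime u q)
    (τ : Equiv.Perm (Fin n))
    (h : ∀ i, cos (2 * π * (s' i : ℝ) / (q : ℝ)) =
      cos (2 * π * ((u * s (τ i) : ℕ) : ℝ) / (q : ℝ))) :
    Isometric (lens q s) (lens q s') := by
  set g := rot (fun i => 2 * π * (s i : ℝ) / (q : ℝ)) with hg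
  set g' := rot (fun i => 2 * π * (s' i : ℝ) / (q : ℝ)) with hg'
  have hgu : g ^ u = rot (fun i => 2 * π * ((u * s i : ℕ) : ℝ) / (q : ℝ)) := by
    rw [hg, rot_pow44]
    congr 1
    funext i
    push_cast
    ring
  obtain ⟨k, hk⟩ := rot_conj44 (fun i => 2 * π * ((u * s i : ℕ) : ℝ) / (q : ℝ))
    (fun i => 2 * π * (s' i : ℝ) / (q : ℝ)) τ h
  rw [← hgu, ← hg'] at hk
  have hgq : g ^ q = 1 := rot_q44 q hq s
  -- g is a power of g ^ u
  obtain ⟨v, hv⟩ : ∃ v : ℤ, g = (g ^ u) ^ v := by
    have hb := Nat.gcd_eq_gcd_ab u q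
    rw [Nat.Coprime] at hu
    rw [hu] at hb
    refine ⟨Nat.gcdA u q, ?_⟩
    rw [← zpow_natCast, ← zpow_mul]
    have e1 : g ^ ((q : ℤ) * Nat.gcdB u q) = 1 := by
      rw [zpow_mul, zpow_natCast, hgq, one_zpow]
    calc g = g ^ (1 : ℤ) := (zpow_one g).symm
      _ = g ^ ((u : ℤ) * Nat.gcdA u q + (q : ℤ) * Nat.gcdB u q) := by
          rw [← hb]; simp
      _ = g ^ ((u : ℤ) * Nat.gcdA u q) := by rw [zpow_add, e1, mul_one]
  refine ⟨k, fun x => ?_⟩
  show x ∈ Subgroup.zpowers g ↔ k * x * k⁻¹ ∈ Subgroup.zpowers g'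
  rw [Subgroup.mem_zpowers_iff, Subgroup.mem_zpowers_iff]
  constructor
  · rintro ⟨m, rfl⟩
    refine ⟨v * m, ?_⟩
    rw [← hk, zpow_mul]
    rw [conj_zpow, conj_zpow, ← hv]
  · rintro ⟨m, hm⟩
    refine ⟨(u : ℤ) * m, ?_⟩
    rw [← hk, conj_zpow] at hm
    have h1 : (g ^ u) ^ m = x := mul_left_cancel (mul_right_cancel hm)
    rw [zpow_mul, zpow_natCast, h1]

/-- equality of the determinants of two standard rotations gives equal multisets of cosines -/
theorem cos_multiset44 (θ θ' : Fin n → ℝ)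
    (h : ∀ z : ℝ, (1 - z • rotMat θ).det = (1 - z • rotMat θ').det) :
    (Finset.univ.val.map fun i => 2 * cos (θ i)) =
      (Finset.univ.val.map fun i => 2 * cos (θ' i)) := by
  have hpoly : ((Finset.univ.val.map fun i => 2 * cos (θ i)).map
      fun a => Polynomial.X - Polynomial.C a).prod =
      ((Finset.univ.val.map fun i => 2 * cos (θ' i)).map
      fun a => Polynomial.X - Polynomial.C a).prod := by
    apply Polynomial.eq_of_infinite_eval_eq
    apply Set.Infinite.mono _ (Set.Ici_infinite (2 : ℝ))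
    intro w hw
    have hw2 : (2 : ℝ) ≤ w := hw
    obtain ⟨z, hz0, hz⟩ : ∃ z : ℝ, z ≠ 0 ∧ 1 + z ^ 2 = w * z := by
      have hd : 0 ≤ w ^ 2 - 4 := by nlinarith
      have hsq := Real.sq_sqrt hd
      have hs0 := Real.sqrt_nonneg (w ^ 2 - 4)
      refine ⟨(w + Real.sqrt (w ^ 2 - 4)) / 2, by positivity, ?_⟩
      nlinarith
    have key : ∀ φ : Fin n → ℝ, (1 - z • rotMat φ).det =
        z ^ n * ∏ i, (w - 2 * cos (φ i)) := by
      intro φ
      rw [det_real44]
      have e1 : (z ^ n : ℝ) = ∏ _i : Fin n, z := by simp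
      rw [e1, ← Finset.prod_mul_distrib]
      refine Finset.prod_congr rfl fun i _ => ?_
      linear_combination hz
    have h1 := h z
    rw [key, key] at h1
    have h2 := mul_left_cancel₀ (pow_ne_zero n hz0) h1
    show Polynomial.eval w _ = Polynomial.eval w _
    simp only [Multiset.map_map, Function.comp_def]
    have e3 : ∀ φ : Fin n → ℝ, Polynomial.eval w
        (Multiset.map (fun x => Polynomial.X - Polynomial.C (2 * cos (φ x)))
          Finset.univ.val).prod = ∏ i, (w - 2 * cos (φ i)) := by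
      intro φ
      have : (Multiset.map (fun x => Polynomial.X - Polynomial.C (2 * cos (φ x)))
          Finset.univ.val).prod = ∏ i : Fin n, (Polynomial.X - Polynomial.C (2 * cos (φ i))) := rfl
      rw [this, Polynomial.eval_prod]
      simp
    rw [e3, e3]
    exact h2
  have hr := congrArg Polynomial.roots hpoly
  rwa [Polynomial.roots_multiset_prod_X_sub_C, Polynomial.roots_multiset_prod_X_sub_C] at hr

theorem card_filter44 (θ θ' : Fin n → ℝ)
    (h : (Finset.univ.val.map fun i => 2 * cos (θ i)) =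
      (Finset.univ.val.map fun i => 2 * cos (θ' i))) (x : ℝ) :
    (Finset.univ.filter fun i => cos (θ i) = x).card =
      (Finset.univ.filter fun i => cos (θ' i) = x).card := by
  have hc := congrArg (Multiset.count (2 * x)) h
  have key : ∀ φ : Fin n → ℝ, Multiset.count (2 * x)
      (Finset.univ.val.map fun i => 2 * cos (φ i)) =
      (Finset.univ.filter fun i => cos (φ i) = x).card := by
    intro φ
    rw [Multiset.count_map]
    show (Finset.univ.filter fun i => 2 * x = 2 * cos (φ i)).card = _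
    congr 1
    ext i
    simp only [Finset.mem_filter, Finset.mem_univ, true_and]
    constructor
    · intro h1; linarith
    · intro h1; linarith
  rw [key, key] at hc
  exact hc

/-- L8 : conjugate lens groups differ by such a change (for the non isometric pairs) -/
theorem lens_not_isometric44 (q : ℕ) (hn : 0 < n) (hq : 0 < q) (s s' : Fin n → ℕ)
    (hs : ∀ i, Nat.Coprime (s i) q) (hs' : ∀ i, Nat.Coprime (s' i) q)
    (h : Isometric (lens q s) (lens q s')) :
    ∃ u : ℕ, Nat.Coprime u q ∧ ∀ x : ℝ,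
      (Finset.univ.filter fun i => cos (2 * π * (s' i : ℝ) / (q : ℝ)) = x).card =
      (Finset.univ.filter fun i =>
        cos (2 * π * ((u * s i : ℕ) : ℝ) / (q : ℝ)) = x).card := by
  obtain ⟨k, hk⟩ := h
  set g := rot (fun i => 2 * π * (s i : ℝ) / (q : ℝ)) with hg
  set g' := rot (fun i => 2 * π * (s' i : ℝ) / (q : ℝ)) with hg'
  have h1 : k⁻¹ * g' * k ∈ lens q s := by
    rw [hk]
    have e : k * (k⁻¹ * g' * k) * k⁻¹ = g' := by group
    rw [e]
    exact Subgroup.mem_zpowers g'
  obtain ⟨u, _, hu⟩ := mem_lens44 q hq s _ h1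
  rw [← hg] at hu
  have hgu : g ^ u = rot (fun i => 2 * π * ((u * s i : ℕ) : ℝ) / (q : ℝ)) := by
    rw [hg, rot_pow44]
    congr 1
    funext i
    push_cast
    ring
  refine ⟨u, ?_, ?_⟩
  · -- the orders agree
    have o1 : orderOf g' = q := orderOf_rot44 q hn hq s' hs'
    have o2 : orderOf g = q := orderOf_rot44 q hn hq s hs
    have o3 : orderOf (g ^ u) = q := by
      rw [← hu]
      have : k⁻¹ * g' * k = (MulAut.conj k⁻¹) g' := by
        rw [MulAut.conj_apply, inv_inv]
      rw [this, MulEquiv.orderOf_eq, o1]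
    have ofin : IsOfFinOrder g := orderOf_pos_iff.1 (by rw [o2]; exact hq)
    have o4 : orderOf (g ^ u) = orderOf g / (orderOf g).gcd u := IsOfFinOrder.orderOf_pow g u ofin
    rw [o3, o2] at o4
    have hd : 0 < q.gcd u := Nat.gcd_pos_of_pos_left _ hq
    have h5 : q.gcd u = 1 := by
      have h6 : q = q / q.gcd u := o4
      by_contra hne
      have h7 : 1 < q.gcd u := by omega
      have h8 := Nat.div_lt_self hq h7
      omega
    rw [Nat.coprime_comm]
    exact h5
  · intro x
    apply card_filter44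
    apply cos_multiset44
    intro z
    have e1 : rotMat (fun i => 2 * π * ((u * s i : ℕ) : ℝ) / (q : ℝ)) =
        (k⁻¹ : Matrix.orthogonalGroup (Fin (2 * n)) ℝ).1 *
          rotMat (fun i => 2 * π * (s' i : ℝ) / (q : ℝ)) * k.1 := by
      have := congrArg Subtype.val (hu.trans hgu)
      exact this.symm
    have e2 : (k⁻¹ : Matrix.orthogonalGroup (Fin (2 * n)) ℝ).1 * k.1 = 1 :=
      congrArg Subtype.val (inv_mul_cancel k)
    have e3 : k.1 * (k⁻¹ : Matrix.orthogonalGroup (Fin (2 * n)) ℝ).1 = 1 :=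
      congrArg Subtype.val (mul_inv_cancel k)
    rw [e1]
    have e4 : (1 - z • ((k⁻¹ : Matrix.orthogonalGroup (Fin (2 * n)) ℝ).1 *
          rotMat (fun i => 2 * π * (s' i : ℝ) / (q : ℝ)) * k.1)) =
        (k⁻¹ : Matrix.orthogonalGroup (Fin (2 * n)) ℝ).1 *
          (1 - z • rotMat (fun i => 2 * π * (s' i : ℝ) / (q : ℝ))) * k.1 := by
      rw [mul_sub, sub_mul, mul_one, e2]
      congr 1
      rw [Matrix.mul_smul, Matrix.smul_mul]
    rw [e4, Matrix.det_mul, Matrix.det_mul]
    have e5 : (k⁻¹ : Matrix.orthogonalGroup (Fin (2 * n)) ℝ).1.det * k.1.det = 1 := by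
      rw [← Matrix.det_mul, e2, Matrix.det_one]
    linear_combination (-(1 - z • rotMat (fun i => 2 * π * (s' i : ℝ) / (q : ℝ))).det) * e5

/-- the isometry of Euclidean space given by an orthogonal matrix -/
theorem toIso44 {m : ℕ} (g : Matrix.orthogonalGroup (Fin m) ℝ) :
    ∃ f : EuclideanSpace ℝ (Fin m) ≃ₗᵢ[ℝ] EuclideanSpace ℝ (Fin m),
      ∀ x, (f x).ofLp = (g : Matrix (Fin m) (Fin m) ℝ).mulVec x.ofLp := by
  have hg : (g : Matrix (Fin m) (Fin m) ℝ).transpose * (g : Matrix (Fin m) (Fin m) ℝ) = 1 :=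
    (Matrix.mem_orthogonalGroup_iff' (Fin m) ℝ).1 g.2
  let f0 : EuclideanSpace ℝ (Fin m) →ₗ[ℝ] EuclideanSpace ℝ (Fin m) :=
    Matrix.toEuclideanLin (g : Matrix (Fin m) (Fin m) ℝ)
  have hf0 : ∀ x, (f0 x).ofLp = (g : Matrix (Fin m) (Fin m) ℝ).mulVec x.ofLp := fun x => rfl
  have hnorm : ∀ x, ‖f0 x‖ = ‖x‖ := by
    intro x
    have h1 : ‖f0 x‖ ^ 2 = ‖x‖ ^ 2 := by
      rw [← real_inner_self_eq_norm_sq, ← real_inner_self_eq_norm_sq]
      rw [EuclideanSpace.inner_eq_star_dotProduct, EuclideanSpace.inner_eq_star_dotProduct]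
      simp only [star_trivial, hf0]
      rw [Matrix.dotProduct_mulVec, Matrix.vecMul_mulVec, hg, Matrix.vecMul_one]
    exact (pow_left_inj₀ (norm_nonneg _) (norm_nonneg _) two_ne_zero).1 h1
  let f1 : EuclideanSpace ℝ (Fin m) →ₗᵢ[ℝ] EuclideanSpace ℝ (Fin m) := ⟨f0, hnorm⟩
  exact ⟨f1.toLinearIsometryEquiv rfl, fun x => rfl⟩

/-- L1 -/
theorem lens_normal44 (q : ℕ) (hq : 3 ≤ q) (g : Matrix.orthogonalGroup (Fin (2 * n)) ℝ)
    (hg : g ^ q = 1)
    (hf : ∀ j : ℕ, 0 < j → j < q → ∀ x : Fin (2 * n) → ℝ,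
      ((g ^ j : Matrix.orthogonalGroup (Fin (2 * n)) ℝ) : Matrix _ _ ℝ).mulVec x = x → x = 0) :
    ∃ s : Fin n → ℕ, (∀ i, 0 < s i ∧ 2 * s i < q ∧ Nat.Coprime (s i) q) ∧
      ∃ h : Matrix.orthogonalGroup (Fin (2 * n)) ℝ,
        h * g * h⁻¹ = rot (fun i => 2 * π * (s i : ℝ) / (q : ℝ)) := by
  obtain ⟨f, hfg⟩ := toIso44 g
  have h1 : ∀ v, f v = v → v = 0 := by
    intro v hv
    have e1 : g.1.mulVec v.ofLp = v.ofLp := by rw [← hfg, hv]
    have e2 := hf 1 one_pos (by omega) v.ofLp (by rw [pow_one]; exact e1)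
    exact (WithLp.ofLp_injective 2) e2
  have h2 : ∀ v, f v = -v → v = 0 := by
    intro v hv
    have e1 : g.1.mulVec v.ofLp = -v.ofLp := by rw [← hfg, hv]; rfl
    have e3 : ((g ^ 2 : Matrix.orthogonalGroup (Fin (2 * n)) ℝ) : Matrix _ _ ℝ).mulVec v.ofLp =
        v.ofLp := by
      show (g.1 ^ 2).mulVec v.ofLp = v.ofLp
      rw [pow_two, ← Matrix.mulVec_mulVec, e1, Matrix.mulVec_neg, e1, neg_neg]
    have e2 := hf 2 two_pos (by omega) v.ofLp e3
    exact (WithLp.ofLp_injective 2) e2
  obtain ⟨m, b, t, ht, hb⟩ := Pool.Agent.MPc53f59.normalForm44 f h1 h2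
  have hm : m = n := by
    have := Module.finrank_eq_card_basis b.toBasis
    simp only [Fintype.card_prod, Fintype.card_fin, finrank_euclideanSpace] at this
    omega
  subst hm
  have hb0 : ∀ i, g.1.mulVec (b (i, 0)).ofLp =
      cos (t i) • (b (i, 0)).ofLp + sin (t i) • (b (i, 1)).ofLp := by
    intro i
    rw [← hfg, (hb i).1]; rfl
  have hb1 : ∀ i, g.1.mulVec (b (i, 1)).ofLp =
      -(sin (t i)) • (b (i, 0)).ofLp + cos (t i) • (b (i, 1)).ofLp := by
    intro i
    rw [← hfg, (hb i).2]; rfl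
  have hpow : ∀ i (j : ℕ), (g ^ j).1.mulVec (b (i, 0)).ofLp =
      cos (j * t i) • (b (i, 0)).ofLp + sin (j * t i) • (b (i, 1)).ofLp := by
    intro i j
    induction j with
    | zero =>
      show (g.1 ^ 0).mulVec (b (i, 0)).ofLp = _
      rw [pow_zero, Matrix.one_mulVec]
      simp
    | succ j ih =>
      show (g.1 ^ (j + 1)).mulVec (b (i, 0)).ofLp = _
      rw [pow_succ', ← Matrix.mulVec_mulVec]
      have ih' : (g.1 ^ j).mulVec (b (i, 0)).ofLp =
        cos (j * t i) • (b (i, 0)).ofLp + sin (j * t i) • (b (i, 1)).ofLp := ih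
      rw [ih', Matrix.mulVec_add, Matrix.mulVec_smul, Matrix.mulVec_smul, hb0, hb1]
      have c1 : cos (((j + 1 : ℕ) : ℝ) * t i) = cos (j * t i) * cos (t i) -
          sin (j * t i) * sin (t i) := by
        rw [← cos_add]; congr 1; push_cast; ring
      have c2 : sin (((j + 1 : ℕ) : ℝ) * t i) = sin (j * t i) * cos (t i) +
          cos (j * t i) * sin (t i) := by
        rw [← sin_add]; congr 1; push_cast; ring
      rw [c1, c2]
      funext k
      simp only [Pi.add_apply, Pi.smul_apply, smul_eq_mul]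
      ring
  have hone : ∀ i (j : ℕ), cos (j * t i) = 1 →
      (g ^ j).1.mulVec (b (i, 0)).ofLp = (b (i, 0)).ofLp := by
    intro i j h
    have hs : sin (j * t i) = 0 := by
      have := sin_sq_add_cos_sq (j * t i)
      rw [h] at this
      have h2 : sin (j * t i) ^ 2 = 0 := by linarith
      exact pow_eq_zero_iff (two_ne_zero) |>.1 h2
    rw [hpow, h, hs]
    simp
  have hbne : ∀ i, (b (i, 0)).ofLp ≠ 0 := by
    intro i h
    have h3 : b (i, 0) = 0 := (WithLp.ofLp_injective 2) h
    have h4 := b.orthonormal.1 (i, 0)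
    rw [h3, norm_zero] at h4
    exact zero_ne_one h4
  -- cos (q t) = 1
  have hcosq : ∀ i, cos (q * t i) = 1 := by
    intro i
    have e1 := hpow i q
    rw [hg] at e1
    have e2 : (b (i, 0)).ofLp =
        cos (q * t i) • (b (i, 0)).ofLp + sin (q * t i) • (b (i, 1)).ofLp := by
      rw [← e1]
      exact (Matrix.one_mulVec _).symm
    have e3 : b (i, 0) = cos (q * t i) • b (i, 0) + sin (q * t i) • b (i, 1) :=
      (WithLp.ofLp_injective 2) e2
    have e4 := congrArg (fun v => inner ℝ (b (i, 0)) v) e3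
    simp only [inner_add_right, inner_smul_right] at e4
    rw [orthonormal_iff_ite.1 b.orthonormal (i, 0) (i, 0),
      orthonormal_iff_ite.1 b.orthonormal (i, 0) (i, 1)] at e4
    simp at e4
    exact e4.symm
  have hq0 : (0 : ℝ) < q := by exact_mod_cast (by omega : 0 < q)
  have hk : ∀ i, ∃ k : ℕ, 0 < k ∧ 2 * k < q ∧ t i = 2 * π * (k : ℝ) / (q : ℝ) := by
    intro i
    obtain ⟨k, hk⟩ := (cos_eq_one_iff _).1 (hcosq i)
    obtain ⟨ht0, htpi⟩ := ht i
    have hkpos : (0 : ℝ) < k := by
      have : 0 < (k : ℝ) * (2 * π) := by rw [hk]; positivity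
      by_contra hc
      push Not at hc
      have := mul_nonpos_of_nonpos_of_nonneg hc (by positivity : (0 : ℝ) ≤ 2 * π)
      linarith
    have hklt : (2 : ℝ) * k < q := by
      have h5 : (k : ℝ) * (2 * π) < q * π := by
        rw [hk]; exact mul_lt_mul_of_pos_left htpi hq0
      have h6 : (2 * (k : ℝ)) * π < q * π := by linarith
      exact lt_of_mul_lt_mul_right h6 pi_pos.le
    have hkz : 0 < k := by exact_mod_cast hkpos
    have hkl : 2 * k < (q : ℤ) := by exact_mod_cast hklt
    have hkc : ((k.toNat : ℕ) : ℝ) = (k : ℝ) := by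
      have : ((k.toNat : ℕ) : ℤ) = k := Int.toNat_of_nonneg hkz.le
      exact_mod_cast this
    refine ⟨k.toNat, by omega, by omega, ?_⟩
    rw [hkc]
    field_simp
    linarith
  choose s hs0 hs2 hst using hk
  have hcop : ∀ i, Nat.Coprime (s i) q := by
    intro i
    by_contra hne
    have hd0 : 0 < Nat.gcd (s i) q := Nat.gcd_pos_of_pos_left _ (hs0 i)
    have hd1 : 1 < Nat.gcd (s i) q := by
      rcases Nat.lt_or_ge 1 (Nat.gcd (s i) q) with h | h
      · exact h
      · exact absurd (by omega : Nat.gcd (s i) q = 1) hne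
    obtain ⟨j, hj⟩ := Nat.gcd_dvd_right (s i) q
    obtain ⟨l, hl⟩ := Nat.gcd_dvd_left (s i) q
    have hj0 : 0 < j := by
      rcases Nat.eq_zero_or_pos j with h | h
      · rw [h, mul_zero] at hj; omega
      · exact h
    have hjq : j < q := by
      calc j = 1 * j := (one_mul j).symm
        _ < Nat.gcd (s i) q * j := Nat.mul_lt_mul_of_pos_right hd1 hj0
        _ = q := hj.symm
    have hc : cos (j * t i) = 1 := by
      rw [hst, cos_eq_one44 q (by omega)]
      refine ⟨l, ?_⟩
      calc j * s i = j * (Nat.gcd (s i) q * l) := by rw [← hl]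
        _ = (Nat.gcd (s i) q * j) * l := by ring
        _ = q * l := by rw [← hj]
    exact hbne i (hf j hj0 hjq _ (hone i j hc))
  refine ⟨s, fun i => ⟨hs0 i, hs2 i, hcop i⟩, ?_⟩
  have hθ : (fun i => 2 * π * (s i : ℝ) / (q : ℝ)) = t := funext fun i => (hst i).symm
  rw [hθ]
  -- the matrix with columns b
  let H : Matrix (Fin (2 * m)) (Fin (2 * m)) ℝ := Matrix.of fun j k =>
    (b ((finProdFinEquiv.symm k).2, (finProdFinEquiv.symm k).1)).ofLp j
  have hH : H ∈ Matrix.orthogonalGroup (Fin (2 * m)) ℝ := by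
    rw [Matrix.mem_orthogonalGroup_iff']
    ext k l
    have e1 : (H.transpose * H) k l =
        inner ℝ (b ((finProdFinEquiv.symm k).2, (finProdFinEquiv.symm k).1))
          (b ((finProdFinEquiv.symm l).2, (finProdFinEquiv.symm l).1)) := by
      rw [Matrix.mul_apply, EuclideanSpace.inner_eq_star_dotProduct]
      simp only [star_trivial, dotProduct]
      refine Finset.sum_congr rfl fun j _ => ?_
      show (b _).ofLp j * (b _).ofLp j = (b _).ofLp j * (b _).ofLp j
      ring
    have e0 : (star H * H) k l = (H.transpose * H) k l := rfl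
    first
      | rw [e0, e1, orthonormal_iff_ite.1 b.orthonormal]
      | rw [e1, orthonormal_iff_ite.1 b.orthonormal]
    rw [Matrix.one_apply]
    congr 1
    apply propext
    constructor
    · intro h
      have h3 := congrArg Prod.fst h
      have h4 := congrArg Prod.snd h
      exact finProdFinEquiv.symm.injective (Prod.ext h4 h3)
    · intro h
      rw [h]
  have hcomm : g.1 * H = H * rotMat t := by
    ext j l
    obtain ⟨⟨c, i⟩, rfl⟩ := finProdFinEquiv.surjective l
    have e1 : (g.1 * H) j (finProdFinEquiv (c, i)) =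
        (g.1.mulVec (b (i, c)).ofLp) j := by
      rw [Matrix.mul_apply]
      show _ = ∑ p, g.1 j p * (b (i, c)).ofLp p
      refine Finset.sum_congr rfl fun p _ => ?_
      show _ * (b ((finProdFinEquiv.symm (finProdFinEquiv (c, i))).2,
        (finProdFinEquiv.symm (finProdFinEquiv (c, i))).1)).ofLp p = _
      rw [Equiv.symm_apply_apply]
    have e2 : (H * rotMat t) j (finProdFinEquiv (c, i)) =
        (b (i, 0)).ofLp j * R44 (t i) 0 c + (b (i, 1)).ofLp j * R44 (t i) 1 c := by
      rw [Matrix.mul_apply, ← Equiv.sum_comp finProdFinEquiv, Fintype.sum_prod_type,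
        Fin.sum_univ_two]
      have e3 : ∀ a : Fin 2, ∑ i' : Fin m, H j (finProdFinEquiv (a, i')) *
          rotMat t (finProdFinEquiv (a, i')) (finProdFinEquiv (c, i)) =
          (b (i, a)).ofLp j * R44 (t i) a c := by
        intro a
        rw [Finset.sum_eq_single i]
        · rw [rotMat_eq44]
          show (b ((finProdFinEquiv.symm (finProdFinEquiv (a, i))).2,
            (finProdFinEquiv.symm (finProdFinEquiv (a, i))).1)).ofLp j *
            (Matrix.blockDiagonal fun i => R44 (t i))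
              (finProdFinEquiv.symm (finProdFinEquiv (a, i)))
              (finProdFinEquiv.symm (finProdFinEquiv (c, i))) = _
          rw [Equiv.symm_apply_apply, Equiv.symm_apply_apply, Matrix.blockDiagonal_apply_eq]
        · intro i' _ hi'
          rw [rotMat_eq44]
          show _ * (Matrix.blockDiagonal fun i => R44 (t i))
              (finProdFinEquiv.symm (finProdFinEquiv (a, i')))
              (finProdFinEquiv.symm (finProdFinEquiv (c, i))) = _
          rw [Equiv.symm_apply_apply, Equiv.symm_apply_apply,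
            Matrix.blockDiagonal_apply_ne _ _ _ hi', mul_zero]
        · intro h; exact absurd (Finset.mem_univ i) h
      rw [e3, e3]
    rw [e1, e2]
    fin_cases c
    · show (g.1.mulVec (b (i, 0)).ofLp) j = _
      rw [hb0]
      simp [R44]
      ring
    · show (g.1.mulVec (b (i, 1)).ofLp) j = _
      rw [hb1]
      simp [R44]
      ring
  let h : Matrix.orthogonalGroup (Fin (2 * m)) ℝ := ⟨H, hH⟩
  have hc : g * h = h * rot t := Subtype.ext hcomm
  refine ⟨h⁻¹, ?_⟩
  rw [inv_inv, mul_assoc, hc, inv_mul_cancel_left]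

end lens44b

end MPc53f59
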