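import Mathlib
import Pool.Agent.Lib.MP_c53f59_gt.Defs2

/-!
Molien's formula for the homogeneous invariants of a finite subgroup of the orthogonal group.
-/

set_option linter.unusedSectionVars false

namespace MPc53f59

open MvPolynomial

section molien52

variable {ι : Type} [Fintype ι] [DecidableEq ι]

/-- complex substitution -/
noncomputable def sub52 (A : Matrix ι ι ℂ) : MvPolynomial ι ℂ →ₐ[ℂ] MvPolynomial ι ℂ :=
  bind₁ (fun i => ∑ j, C (A i j) * X j)

theorem sub52_toC (g : Matrix.orthogonalGroup ι ℝ) (p : MvPolynomial ι ℂ) :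
    subst (g : Matrix ι ι ℝ) p = sub52 (toC g) p := rfl

theorem sub52_X (A : Matrix ι ι ℂ) (i : ι) : sub52 A (X i) = ∑ j, C (A i j) * X j := by
  simp [sub52]

theorem sub52_comp (A B : Matrix ι ι ℂ) (p : MvPolynomial ι ℂ) :
    sub52 A (sub52 B p) = sub52 (B * A) p := by
  have : (sub52 A).comp (sub52 B) = sub52 (B * A) := by
    apply MvPolynomial.algHom_ext
    intro i
    rw [AlgHom.comp_apply, sub52_X, sub52_X, map_sum]
    simp_rw [map_mul, sub52_X, Matrix.mul_apply, map_sum, Finset.sum_mul]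
    rw [Finset.sum_comm]
    refine Finset.sum_congr rfl fun j _ => ?_
    rw [show (sub52 A) (C (B i j)) = C (B i j) from (sub52 A).commutes _, Finset.mul_sum]
    refine Finset.sum_congr rfl fun k _ => ?_
    rw [map_mul, mul_assoc]
  exact DFunLike.congr_fun this p

theorem sub52_one (p : MvPolynomial ι ℂ) : sub52 (1 : Matrix ι ι ℂ) p = p := by
  have : sub52 (1 : Matrix ι ι ℂ) = AlgHom.id ℂ _ := by
    apply MvPolynomial.algHom_ext
    intro i
    rw [sub52_X]
    simp [Matrix.one_apply]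
  rw [this]; rfl

theorem sub52_hom (A : Matrix ι ι ℂ) {k : ℕ} {p : MvPolynomial ι ℂ} (hp : p.IsHomogeneous k) :
    (sub52 A p).IsHomogeneous k := by
  have h := hp.aeval (fun i => ∑ j, C (A i j) * X j) (n := 1) (fun i => ?_)
  · rw [one_mul] at h
    exact h
  · apply IsHomogeneous.sum
    intro j _
    have := (isHomogeneous_C ι (A i j)).mul (isHomogeneous_X ℂ j)
    simpa using this

noncomputable def S52 (k : ℕ) (A : Matrix ι ι ℂ) :
    homogeneousSubmodule ι ℂ k →ₗ[ℂ] homogeneousSubmodule ι ℂ k :=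
  ((sub52 A).toLinearMap).restrict (fun _ hp => sub52_hom A hp)

theorem S52_coe (k : ℕ) (A : Matrix ι ι ℂ) (p : homogeneousSubmodule ι ℂ k) :
    ((S52 k A p : homogeneousSubmodule ι ℂ k) : MvPolynomial ι ℂ) = sub52 A p := rfl

theorem S52_mul (k : ℕ) (A B : Matrix ι ι ℂ) : S52 k A * S52 k B = S52 k (B * A) := by
  ext1 p
  apply Subtype.ext
  exact sub52_comp A B p

theorem S52_one (k : ℕ) : S52 k (1 : Matrix ι ι ℂ) = 1 := by
  ext1 p
  apply Subtype.ext
  exact sub52_one _

/-- coordinates of homogeneous polynomials -/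
noncomputable def coord52 (k : ℕ) : homogeneousSubmodule ι ℂ k ≃ₗ[ℂ]
    ((Finset.finsuppAntidiag (Finset.univ : Finset ι) k) → ℂ) where
  toFun p m := coeff m.1 p.1
  map_add' p q := by ext m; simp
  map_smul' c p := by ext m; simp
  invFun c := ⟨∑ m, monomial m.1 (c m), by
    apply Submodule.sum_mem
    intro m _
    have hm := (Finset.mem_finsuppAntidiag.1 m.2).1
    rw [mem_homogeneousSubmodule]
    apply isHomogeneous_monomial
    rw [Finsupp.degree_eq_sum]
    exact hm⟩
  left_inv p := by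
    apply Subtype.ext
    ext m
    simp only [coeff_sum, coeff_monomial]
    by_cases hm : m ∈ Finset.finsuppAntidiag (Finset.univ : Finset ι) k
    · rw [Finset.sum_eq_single ⟨m, hm⟩]
      · simp
      · intro b _ hb
        rw [if_neg]
        intro h
        exact hb (Subtype.ext h)
      · simp
    · rw [Finset.sum_eq_zero]
      · symm
        apply p.2.coeff_eq_zero
        intro h
        apply hm
        rw [Finset.mem_finsuppAntidiag]
        rw [Finsupp.degree_eq_sum] at h
        exact ⟨h, Finset.subset_univ _⟩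
      · intro b _
        rw [if_neg]
        rintro rfl
        exact hm b.2
  right_inv c := by
    ext m
    simp only [coeff_sum, coeff_monomial]
    rw [Finset.sum_eq_single m]
    · simp
    · intro b _ hb
      rw [if_neg]
      intro h
      exact hb (Subtype.ext h)
    · simp

noncomputable def basis52 (k : ℕ) : Module.Basis
    (Finset.finsuppAntidiag (Finset.univ : Finset ι) k) ℂ (homogeneousSubmodule ι ℂ k) :=
  Module.Basis.ofEquivFun (coord52 k)

theorem basis52_coe (k : ℕ) (m : Finset.finsuppAntidiag (Finset.univ : Finset ι) k) :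
    ((basis52 k m : homogeneousSubmodule ι ℂ k) : MvPolynomial ι ℂ) = monomial m.1 1 := by
  rw [basis52, Module.Basis.coe_ofEquivFun]
  change ∑ m', monomial m'.1 ((Pi.single m (1 : ℂ) : _ → ℂ) m') = _
  rw [Finset.sum_eq_single m]
  · simp
  · intro b _ hb
    simp [Pi.single_eq_of_ne hb]
  · simp

theorem sub52_diag_monomial (d : ι → ℂ) (m : ι →₀ ℕ) :
    sub52 (Matrix.diagonal d) (monomial m 1) = C (∏ i, d i ^ (m i)) * monomial m 1 := by
  have hX : ∀ i, sub52 (Matrix.diagonal d) (X i) = C (d i) * X i := by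
    intro i
    rw [sub52_X, Finset.sum_eq_single i]
    · simp
    · intro j _ hj
      rw [Matrix.diagonal_apply_ne _ hj.symm]
      simp
    · simp
  rw [monomial_eq, Finsupp.prod_fintype _ _ (by simp)]
  simp only [map_mul, map_prod, map_pow, hX, mul_pow, Finset.prod_mul_distrib]
  simp

theorem trace_diag52 (k : ℕ) (d : ι → ℂ) :
    LinearMap.trace ℂ (homogeneousSubmodule ι ℂ k) (S52 k (Matrix.diagonal d)) =
      ∑ m ∈ Finset.finsuppAntidiag (Finset.univ : Finset ι) k, ∏ i, d i ^ (m i) := by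
  rw [LinearMap.trace_eq_matrix_trace ℂ (basis52 k), Matrix.trace,
    ← Finset.sum_coe_sort (Finset.finsuppAntidiag (Finset.univ : Finset ι) k)]
  refine Finset.sum_congr rfl fun m _ => ?_
  rw [Matrix.diag_apply, LinearMap.toMatrix_apply]
  have h1 : S52 k (Matrix.diagonal d) (basis52 k m) = (∏ i, d i ^ (m.1 i)) • basis52 k m := by
    apply Subtype.ext
    rw [S52_coe, basis52_coe, sub52_diag_monomial]
    rw [Submodule.coe_smul, basis52_coe, smul_eq_C_mul]
  rw [h1, map_smul, Module.Basis.repr_self]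
  simp

theorem trace_conj52 (k : ℕ) (P Q D : Matrix ι ι ℂ) (h : Q * P = 1) :
    LinearMap.trace ℂ (homogeneousSubmodule ι ℂ k) (S52 k (P * D * Q)) =
      LinearMap.trace ℂ (homogeneousSubmodule ι ℂ k) (S52 k D) := by
  rw [← S52_mul, ← S52_mul, LinearMap.trace_mul_comm, mul_assoc, S52_mul, h, S52_one, mul_one]

theorem gen52 (d : ι → ℂ) :
    (PowerSeries.mk fun k => ∑ m ∈ Finset.finsuppAntidiag (Finset.univ : Finset ι) k,
      ∏ i, d i ^ (m i)) = ∏ i, (PowerSeries.mk fun k => d i ^ k) := by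
  ext k
  simp [PowerSeries.coeff_prod]

theorem geo52 (a : ℂ) : (PowerSeries.mk fun k => a ^ k) =
    ((1 - Polynomial.C a * Polynomial.X : Polynomial ℂ) : PowerSeries ℂ)⁻¹ := by
  rw [PowerSeries.eq_inv_iff_mul_eq_one (by simp)]
  ext k
  rw [Polynomial.coe_sub, Polynomial.coe_one, Polynomial.coe_mul, Polynomial.coe_C,
    Polynomial.coe_X, mul_sub, mul_one, map_sub, PowerSeries.coeff_mk]
  rcases k with _ | k
  · simp
  · rw [← mul_assoc, PowerSeries.coeff_succ_mul_X, PowerSeries.coeff_mul_C, PowerSeries.coeff_mk,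
      PowerSeries.coeff_one]
    simp [pow_succ]

theorem charpolyRev_conj52 (P Q : Matrix ι ι ℂ) (d : ι → ℂ) (h : Q * P = 1) :
    (P * Matrix.diagonal d * Q).charpolyRev =
      ∏ i, (1 - Polynomial.C (d i) * Polynomial.X) := by
  have h' : P * Q = 1 := mul_eq_one_comm.1 h
  have hC : (P.map Polynomial.C) * (Q.map Polynomial.C) = 1 := by
    rw [← Matrix.map_mul, h']; simp
  have h1 : (1 : Matrix ι ι (Polynomial ℂ)) -
      (Polynomial.X : Polynomial ℂ) • (P * Matrix.diagonal d * Q).map Polynomial.C =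
      (P.map Polynomial.C) * (Matrix.diagonal fun i => 1 - Polynomial.C (d i) * Polynomial.X) *
        (Q.map Polynomial.C) := by
    have h2 : (Matrix.diagonal fun i => 1 - Polynomial.C (d i) * Polynomial.X :
        Matrix ι ι (Polynomial ℂ)) = 1 - (Polynomial.X : Polynomial ℂ) •
          (Matrix.diagonal d).map Polynomial.C := by
      ext i j
      rw [Matrix.sub_apply, Matrix.smul_apply, Matrix.map_apply]
      by_cases hij : i = j
      · rw [hij, Matrix.diagonal_apply_eq, Matrix.diagonal_apply_eq, Matrix.one_apply_eq,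
          smul_eq_mul, mul_comm Polynomial.X]
      · rw [Matrix.diagonal_apply_ne _ hij, Matrix.diagonal_apply_ne _ hij,
          Matrix.one_apply_ne hij, Polynomial.C_0, smul_zero, sub_zero]
    rw [h2, mul_sub, sub_mul, mul_one, hC, Matrix.map_mul, Matrix.map_mul]
    simp
  rw [Matrix.charpolyRev, h1, Matrix.det_mul, Matrix.det_mul, Matrix.det_diagonal]
  have h3 : (P.map Polynomial.C).det * (Q.map Polynomial.C).det = 1 := by
    rw [← Matrix.det_mul, hC, Matrix.det_one]
  calc (P.map Polynomial.C).det * (∏ i, (1 - Polynomial.C (d i) * Polynomial.X)) *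
      (Q.map Polynomial.C).det = ((P.map Polynomial.C).det * (Q.map Polynomial.C).det) *
        (∏ i, (1 - Polynomial.C (d i) * Polynomial.X)) := by ring
    _ = _ := by rw [h3, one_mul]

theorem diag52 (A : Matrix ι ι ℂ) (m : ℕ) (hm : 0 < m) (h : A ^ m = 1) :
    ∃ P Q : Matrix ι ι ℂ, ∃ d : ι → ℂ, Q * P = 1 ∧ A = P * Matrix.diagonal d * Q := by
  classical
  let f : Module.End ℂ (ι → ℂ) := Matrix.toLin' A
  have hf : f ^ m = 1 := by
    change (Matrix.toLin' A) ^ m = 1
    rw [← Matrix.toLin'_pow, h]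
    exact Matrix.toLin'_one
  have hsq : Squarefree (Polynomial.X ^ m - Polynomial.C (1 : ℂ)) :=
    (Polynomial.separable_X_pow_sub_C (1 : ℂ) (by exact_mod_cast hm.ne') one_ne_zero).squarefree
  have hss : f.IsSemisimple := by
    apply Module.End.isSemisimple_of_squarefree_aeval_eq_zero hsq
    simp [hf]
  let eD := DirectSum.isInternal_submodule_of_iSupIndep_of_iSup_eq_top
    f.eigenspaces_iSupIndep hss.iSup_eigenspace_eq_top
  let v0 := eD.collectedBasis fun μ => Module.finBasis ℂ (f.eigenspace μ)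
  let e := v0.indexEquiv (Pi.basisFun ℂ ι)
  let v := v0.reindex e
  let d : ι → ℂ := fun i => (e.symm i).1
  have hv : ∀ i, A.mulVec (v i) = d i • v i := by
    intro i
    have h1 : v i = v0 (e.symm i) := Module.Basis.reindex_apply _ _ _
    rw [h1]
    exact Module.End.mem_eigenspace_iff.mp (eD.collectedBasis_mem _ (e.symm i))
  refine ⟨(Pi.basisFun ℂ ι).toMatrix v, v.toMatrix (Pi.basisFun ℂ ι), d,
    Module.Basis.toMatrix_mul_toMatrix_flip _ _, ?_⟩
  have hPQ : (Pi.basisFun ℂ ι).toMatrix v * v.toMatrix (Pi.basisFun ℂ ι) = 1 :=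
    Module.Basis.toMatrix_mul_toMatrix_flip _ _
  have hAP : A * (Pi.basisFun ℂ ι).toMatrix v =
      (Pi.basisFun ℂ ι).toMatrix v * Matrix.diagonal d := by
    ext i j
    rw [Matrix.mul_diagonal, Matrix.mul_apply]
    have := congrFun (hv j) i
    simp only [Matrix.mulVec, dotProduct, Pi.smul_apply, smul_eq_mul] at this
    simp only [Module.Basis.toMatrix_apply, Pi.basisFun_repr]
    rw [this, mul_comm]
  calc A = A * ((Pi.basisFun ℂ ι).toMatrix v * v.toMatrix (Pi.basisFun ℂ ι)) := by
        rw [hPQ, mul_one]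
    _ = _ := by rw [← mul_assoc, hAP]

/-- the trace series of a matrix of finite order -/
theorem trace_series52 (A : Matrix ι ι ℂ) (m : ℕ) (hm : 0 < m) (h : A ^ m = 1) :
    (PowerSeries.mk fun k => LinearMap.trace ℂ (homogeneousSubmodule ι ℂ k) (S52 k A)) =
      ((A.charpolyRev : Polynomial ℂ) : PowerSeries ℂ)⁻¹ := by
  obtain ⟨P, Q, d, hQP, rfl⟩ := diag52 A m hm h
  simp_rw [trace_conj52 _ P Q _ hQP, trace_diag52]
  rw [gen52, charpolyRev_conj52 P Q d hQP]
  simp_rw [geo52]
  have hcoe : ((∏ i, (1 - Polynomial.C (d i) * Polynomial.X) : Polynomial ℂ) : PowerSeries ℂ) =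
      ∏ i, ((1 - Polynomial.C (d i) * Polynomial.X : Polynomial ℂ) : PowerSeries ℂ) :=
    map_prod (Polynomial.coeToPowerSeries.ringHom (R := ℂ)) _ _
  rw [hcoe, PowerSeries.eq_inv_iff_mul_eq_one (by
    rw [map_prod, Finset.prod_ne_zero_iff]; intro i _; simp), ← Finset.prod_mul_distrib]
  apply Finset.prod_eq_one
  intro i _
  rw [mul_comm]
  exact PowerSeries.mul_inv_cancel _ (by simp)

theorem toC_mul52 (g h : Matrix.orthogonalGroup ι ℝ) : toC (g * h) = toC g * toC h := by
  unfold toC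
  rw [← Matrix.map_mul]
  rfl

theorem toC_one52 : toC (1 : Matrix.orthogonalGroup ι ℝ) = 1 := by
  unfold toC
  simp

theorem toC_pow52 (g : Matrix.orthogonalGroup ι ℝ) (m : ℕ) : toC (g ^ m) = toC g ^ m := by
  induction m with
  | zero => simp [toC_one52]
  | succ m ih => rw [pow_succ, pow_succ, toC_mul52, ih]

instance fin52 (k : ℕ) : Module.Finite ℂ (homogeneousSubmodule ι ℂ k) :=
  Module.Finite.of_basis (basis52 k)

theorem avg52 {V G : Type} [AddCommGroup V] [Module ℂ V] [FiniteDimensional ℂ V] [Group G]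
    [Fintype G] (ρ : G → V →ₗ[ℂ] V) (hρ : ∀ g h, ρ h * ρ g = ρ (g * h))
    (q : Submodule ℂ V) (hq : ∀ x, x ∈ q ↔ ∀ g, ρ g x = x) :
    (Fintype.card G : ℂ) * (Module.finrank ℂ q : ℂ) = ∑ g : G, LinearMap.trace ℂ V (ρ g) := by
  classical
  have hc : (Fintype.card G : ℂ) ≠ 0 := by
    exact_mod_cast Fintype.card_ne_zero
  let f : V →ₗ[ℂ] V := (Fintype.card G : ℂ)⁻¹ • ∑ g : G, ρ g
  have hinv : ∀ h : G, ∀ x, ρ h (f x) = f x := by
    intro h x
    have : ρ h * f = f := by
      change ρ h * ((Fintype.card G : ℂ)⁻¹ • ∑ g : G, ρ g) =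
        (Fintype.card G : ℂ)⁻¹ • ∑ g : G, ρ g
      rw [mul_smul_comm, Finset.mul_sum]
      congr 1
      rw [← Equiv.sum_comp (Equiv.mulRight h) ρ]
      exact Finset.sum_congr rfl fun g _ => hρ g h
    exact DFunLike.congr_fun this x
  have hproj : LinearMap.IsProj q f := by
    refine ⟨fun x => (hq _).2 fun g => hinv g x, fun x hx => ?_⟩
    change ((Fintype.card G : ℂ)⁻¹ • ∑ g : G, ρ g) x = x
    rw [LinearMap.smul_apply, LinearMap.sum_apply,
      Finset.sum_congr rfl fun g _ => (hq x).1 hx g]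
    rw [Finset.sum_const, Finset.card_univ, ← Nat.cast_smul_eq_nsmul ℂ, smul_smul,
      inv_mul_cancel₀ hc, one_smul]
  rw [← hproj.trace]
  change (Fintype.card G : ℂ) * LinearMap.trace ℂ V
    ((Fintype.card G : ℂ)⁻¹ • ∑ g : G, ρ g) = _
  rw [map_smul, map_sum, smul_eq_mul, ← mul_assoc, mul_inv_cancel₀ hc, one_mul]

theorem polyInv_finrank52 (G : Subgroup (Matrix.orthogonalGroup ι ℝ)) [Fintype G] (k : ℕ) :
    (Fintype.card G : ℂ) * (Module.finrank ℂ (polyInv G k) : ℂ) =
      ∑ g : G, LinearMap.trace ℂ (homogeneousSubmodule ι ℂ k)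
        (S52 k (toC (g : Matrix.orthogonalGroup ι ℝ))) := by
  have hle : polyInv G k ≤ homogeneousSubmodule ι ℂ k := fun p hp => hp.1
  have hq : Module.finrank ℂ ((polyInv G k).comap (homogeneousSubmodule ι ℂ k).subtype) =
      Module.finrank ℂ (polyInv G k) :=
    LinearEquiv.finrank_eq (Submodule.comapSubtypeEquivOfLe hle)
  rw [← hq]
  apply avg52 (fun g : G => S52 k (toC (g : Matrix.orthogonalGroup ι ℝ)))
  · intro g h
    rw [S52_mul, ← toC_mul52]
    rfl
  · intro x
    constructor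
    · intro hx g
      apply Subtype.ext
      exact hx.2 g g.2
    · intro hx
      exact ⟨x.2, fun g hg => congrArg Subtype.val (hx ⟨g, hg⟩)⟩

/-- MOLIEN -/
theorem molien52 (G : Subgroup (Matrix.orthogonalGroup ι ℝ)) [Fintype G] :
    (Fintype.card G : ℂ) •
      (PowerSeries.mk fun k => (Module.finrank ℂ (polyInv G k) : ℂ)) =
    ∑ g : G, ((((toC (g : Matrix.orthogonalGroup ι ℝ)).charpolyRev : Polynomial ℂ) :
      PowerSeries ℂ))⁻¹ := by
  have h1 : ∀ g : G, ((((toC (g : Matrix.orthogonalGroup ι ℝ)).charpolyRev : Polynomial ℂ) :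
      PowerSeries ℂ))⁻¹ =
      PowerSeries.mk fun k => LinearMap.trace ℂ (homogeneousSubmodule ι ℂ k)
        (S52 k (toC (g : Matrix.orthogonalGroup ι ℝ))) := by
    intro g
    rw [trace_series52 _ (Fintype.card G) Fintype.card_pos]
    rw [← toC_pow52]
    have : (g : Matrix.orthogonalGroup ι ℝ) ^ Fintype.card G = 1 := by
      have := pow_card_eq_one (x := g)
      exact_mod_cast congrArg Subtype.val this
    rw [this, toC_one52]
  rw [Finset.sum_congr rfl fun g _ => h1 g]
  ext k
  rw [map_sum]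
  simp only [PowerSeries.coeff_mk, map_smul, smul_eq_mul]
  exact polyInv_finrank52 G k

end molien52

end MPc53f59
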