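import Mathlib
import Pool.Agent.Lib.MP_c53f59_gt.Molien52

/-!
Rows SPEC1, SPEC2 and CARD: consequences of Molien's formula (over the row HARM).
-/

set_option linter.unusedSectionVars false

namespace MPc53f59

open MvPolynomial Filter Topology

section spec52

variable {ι : Type} [Fintype ι] [DecidableEq ι]

theorem eval_rev52 (M : Matrix ι ι ℂ) (z : ℂ) : (M.charpolyRev).eval z = (1 - z • M).det := by
  rw [Matrix.charpolyRev, ← Polynomial.coe_evalRingHom, RingHom.map_det]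
  congr 1
  ext i j
  rw [RingHom.mapMatrix_apply, Matrix.map_apply, Matrix.sub_apply, Matrix.sub_apply,
    Matrix.smul_apply, Matrix.smul_apply, Matrix.map_apply, map_sub]
  by_cases hij : i = j
  · rw [hij, Matrix.one_apply_eq, Matrix.one_apply_eq]
    simp
    ring
  · simp [Matrix.one_apply_ne hij]
    ring

theorem key52 {α R : Type} [Fintype α] [DecidableEq α] [CommRing R] (φ : Polynomial ℂ →+* R)
    (p : α → Polynomial ℂ) (Q : Polynomial ℂ) (u : α → R) (hu : ∀ i, u i * φ (p i) = 1) :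
    φ ((∏ i, p i) * Q) * ∑ i, u i =
      φ (∑ i, (∏ j ∈ Finset.univ.erase i, p j) * Q) := by
  rw [map_sum, Finset.mul_sum]
  refine Finset.sum_congr rfl fun i _ => ?_
  rw [← Finset.mul_prod_erase Finset.univ p (Finset.mem_univ i), map_mul, map_mul, map_mul]
  calc φ (p i) * φ (∏ x ∈ Finset.univ.erase i, p x) * φ Q * u i =
      (u i * φ (p i)) * (φ (∏ x ∈ Finset.univ.erase i, p x) * φ Q) := by ring
    _ = _ := by rw [hu, one_mul]

theorem rat52 {α β : Type} [Fintype α] [Fintype β] (a b : ℂ) (p : α → Polynomial ℂ)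
    (q : β → Polynomial ℂ) (hp : ∀ i, (p i).eval 0 ≠ 0) (hq : ∀ j, (q j).eval 0 ≠ 0)
    (h : a • ∑ i, ((p i : PowerSeries ℂ))⁻¹ = b • ∑ j, ((q j : PowerSeries ℂ))⁻¹)
    (z : ℂ) (hpz : ∀ i, (p i).eval z ≠ 0) (hqz : ∀ j, (q j).eval z ≠ 0) :
    a * ∑ i, ((p i).eval z)⁻¹ = b * ∑ j, ((q j).eval z)⁻¹ := by
  classical
  have hinv : ∀ r : Polynomial ℂ, r.eval 0 ≠ 0 →
      ((r : PowerSeries ℂ))⁻¹ * Polynomial.coeToPowerSeries.ringHom r = 1 := by
    intro r hr
    rw [Polynomial.coeToPowerSeries.ringHom_apply]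
    apply PowerSeries.inv_mul_cancel
    rw [← PowerSeries.coeff_zero_eq_constantCoeff_apply, Polynomial.coeff_coe,
      Polynomial.coeff_zero_eq_eval_zero]
    exact hr
  have h1 := key52 (Polynomial.coeToPowerSeries.ringHom (R := ℂ)) p (∏ j, q j)
    (fun i => ((p i : PowerSeries ℂ))⁻¹) (fun i => hinv _ (hp i))
  have h2 := key52 (Polynomial.coeToPowerSeries.ringHom (R := ℂ)) q (∏ i, p i)
    (fun j => ((q j : PowerSeries ℂ))⁻¹) (fun j => hinv _ (hq j))
  rw [mul_comm (∏ j, q j) (∏ i, p i)] at h2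
  set A := ∑ i, (∏ j ∈ Finset.univ.erase i, p j) * ∏ j, q j with hA
  set B := ∑ i, (∏ j ∈ Finset.univ.erase i, q j) * ∏ j, p j with hB
  have h3 : Polynomial.C a * A = Polynomial.C b * B := by
    apply Polynomial.coe_injective ℂ
    have h4 : Polynomial.coeToPowerSeries.ringHom (R := ℂ) (Polynomial.C a * A) =
        Polynomial.coeToPowerSeries.ringHom (R := ℂ) (Polynomial.C b * B) := by
      rw [map_mul, map_mul, ← h1, ← h2]
      rw [PowerSeries.smul_eq_C_mul, PowerSeries.smul_eq_C_mul] at h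
      have ea : Polynomial.coeToPowerSeries.ringHom (R := ℂ) (Polynomial.C a) =
          PowerSeries.C a := by
        rw [Polynomial.coeToPowerSeries.ringHom_apply, Polynomial.coe_C]
      have eb : Polynomial.coeToPowerSeries.ringHom (R := ℂ) (Polynomial.C b) =
          PowerSeries.C b := by
        rw [Polynomial.coeToPowerSeries.ringHom_apply, Polynomial.coe_C]
      rw [ea, eb]
      linear_combination
        (Polynomial.coeToPowerSeries.ringHom (R := ℂ) ((∏ i, p i) * ∏ j, q j)) * h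
    exact h4
  have e1 := key52 (Polynomial.evalRingHom z) p (∏ j, q j)
    (fun i => ((p i).eval z)⁻¹) (fun i => inv_mul_cancel₀ (hpz i))
  have e2 := key52 (Polynomial.evalRingHom z) q (∏ i, p i)
    (fun j => ((q j).eval z)⁻¹) (fun j => inv_mul_cancel₀ (hqz j))
  rw [mul_comm (∏ j, q j) (∏ i, p i)] at e2
  have h5 := congrArg (Polynomial.evalRingHom z) h3
  rw [map_mul, map_mul, hA, hB, ← e1, ← e2] at h5
  simp only [Polynomial.coe_evalRingHom, Polynomial.eval_C] at h5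
  have h6 : ((∏ i, p i) * ∏ j, q j).eval z ≠ 0 := by
    rw [Polynomial.eval_mul, Polynomial.eval_prod, Polynomial.eval_prod]
    exact mul_ne_zero (Finset.prod_ne_zero_iff.2 fun i _ => hpz i)
      (Finset.prod_ne_zero_iff.2 fun i _ => hqz i)
  apply mul_left_cancel₀ h6
  linear_combination h5

/-- the two Molien series of isospectral groups -/
theorem series52 (G₁ G₂ : Subgroup (Matrix.orthogonalGroup ι ℝ)) [Fintype G₁] [Fintype G₂]
    (h : ∀ k : ℕ, Module.finrank ℂ (polyInv G₁ k) = Module.finrank ℂ (polyInv G₂ k)) :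
    (Fintype.card G₂ : ℂ) • ∑ g : G₁,
      ((((toC (g : Matrix.orthogonalGroup ι ℝ)).charpolyRev : Polynomial ℂ) :
      PowerSeries ℂ))⁻¹ =
    (Fintype.card G₁ : ℂ) • ∑ g : G₂,
      ((((toC (g : Matrix.orthogonalGroup ι ℝ)).charpolyRev : Polynomial ℂ) :
      PowerSeries ℂ))⁻¹ := by
  rw [← molien52, ← molien52, smul_comm]
  simp_rw [h]

/-- SPEC1 over HARM -/
theorem spec1_52 (G₁ G₂ : Subgroup (Matrix.orthogonalGroup ι ℝ))
    [Fintype G₁] [Fintype G₂]
    (h : ∀ k : ℕ, Module.finrank ℂ (polyInv G₁ k) = Module.finrank ℂ (polyInv G₂ k)) (z : ℂ)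
    (hz1 : ∀ g ∈ G₁, (1 - z • toC g).det ≠ 0) (hz2 : ∀ g ∈ G₂, (1 - z • toC g).det ≠ 0) :
    (Fintype.card G₂ : ℂ) * ∑ g : G₁, ((1 - z • toC (g : Matrix.orthogonalGroup ι ℝ)).det)⁻¹ =
    (Fintype.card G₁ : ℂ) * ∑ g : G₂, ((1 - z • toC (g : Matrix.orthogonalGroup ι ℝ)).det)⁻¹ := by
  have h1 := rat52 (Fintype.card G₂ : ℂ) (Fintype.card G₁ : ℂ)
    (fun g : G₁ => (toC (g : Matrix.orthogonalGroup ι ℝ)).charpolyRev)
    (fun g : G₂ => (toC (g : Matrix.orthogonalGroup ι ℝ)).charpolyRev)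
    (fun g => by rw [Matrix.eval_charpolyRev]; exact one_ne_zero)
    (fun g => by rw [Matrix.eval_charpolyRev]; exact one_ne_zero)
    (series52 G₁ G₂ h) z
    (fun g => by rw [eval_rev52]; exact hz1 g g.2)
    (fun g => by rw [eval_rev52]; exact hz2 g g.2)
  simpa only [eval_rev52] using h1

/-- SPEC2 over HARM -/
theorem spec2_52 (G₁ G₂ : Subgroup (Matrix.orthogonalGroup ι ℝ))
    [Fintype G₁] [Fintype G₂] (hc : Fintype.card G₁ = Fintype.card G₂)
    (h : ∑ g : G₁, ((((toC (g : Matrix.orthogonalGroup ι ℝ)).charpolyRev : Polynomial ℂ) :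
      PowerSeries ℂ))⁻¹ =
      ∑ g : G₂, ((((toC (g : Matrix.orthogonalGroup ι ℝ)).charpolyRev : Polynomial ℂ) :
      PowerSeries ℂ))⁻¹) (k : ℕ) :
    Module.finrank ℂ (polyInv G₁ k) = Module.finrank ℂ (polyInv G₂ k) := by
  rw [← molien52, ← molien52, ← hc] at h
  have hk := congrArg (PowerSeries.coeff k) h
  simp only [map_smul, PowerSeries.coeff_mk, smul_eq_mul] at hk
  have hc0 : (Fintype.card G₁ : ℂ) ≠ 0 := by exact_mod_cast Fintype.card_ne_zero
  exact_mod_cast mul_left_cancel₀ hc0 hk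

theorem det_free52 (g : Matrix.orthogonalGroup ι ℝ)
    (hg : ∀ x : ι → ℝ, (g : Matrix ι ι ℝ).mulVec x = x → x = 0) :
    (1 - (1 : ℂ) • toC g).det ≠ 0 := by
  have h1 : (1 - (1 : ℂ) • toC g) = (1 - (g : Matrix ι ι ℝ)).map Complex.ofRealHom := by
    rw [one_smul, toC, Matrix.map_sub _ (fun a b => map_sub _ a b)]
    simp
  have h2 : (1 - (1 : ℂ) • toC g).det = Complex.ofRealHom ((1 - (g : Matrix ι ι ℝ)).det) := by
    rw [h1, RingHom.map_det]
    rfl
  rw [h2]
  intro h0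
  have h3 : (1 - (g : Matrix ι ι ℝ)).det = 0 := by
    simpa using h0
  obtain ⟨x, hx, hx0⟩ := Matrix.exists_mulVec_eq_zero_iff.2 h3
  apply hx
  apply hg
  rw [Matrix.sub_mulVec, Matrix.one_mulVec, sub_eq_zero] at hx0
  exact hx0.symm

theorem det_one52 (z : ℂ) :
    (1 - z • toC (1 : Matrix.orthogonalGroup ι ℝ)).det = (1 - z) ^ Fintype.card ι := by
  rw [toC_one52]
  have : (1 : Matrix ι ι ℂ) - z • 1 = (1 - z) • 1 := by
    rw [sub_smul, one_smul]
  rw [this, Matrix.det_smul, Matrix.det_one, mul_one]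

theorem cont52 (A : Matrix ι ι ℂ) : Continuous fun z : ℂ => (1 - z • A).det := by
  apply Continuous.matrix_det
  exact continuous_const.sub (continuous_id.smul continuous_const)

theorem tend52 [Nonempty ι] (G : Subgroup (Matrix.orthogonalGroup ι ℝ)) (hf : ActsFreely G)
    (g : G) [DecidableEq G] :
    Tendsto (fun z : ℂ => (1 - z) ^ Fintype.card ι *
      ((1 - z • toC (g : Matrix.orthogonalGroup ι ℝ)).det)⁻¹) (𝓝[≠] 1)
      (𝓝 (if g = 1 then 1 else 0)) := by
  by_cases hg : g = 1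
  · rw [if_pos hg, hg]
    apply Tendsto.congr' _ tendsto_const_nhds
    filter_upwards [self_mem_nhdsWithin] with z hz
    rw [Subgroup.coe_one, det_one52, mul_inv_cancel₀]
    exact pow_ne_zero _ (sub_ne_zero.2 fun h => hz h.symm)
  · rw [if_neg hg]
    have hd : (1 - (1 : ℂ) • toC (g : Matrix.orthogonalGroup ι ℝ)).det ≠ 0 := by
      apply det_free52
      exact hf g g.2 (fun h => hg (Subtype.ext h))
    have h1 : Tendsto (fun z : ℂ => (1 - z) ^ Fintype.card ι *
        ((1 - z • toC (g : Matrix.orthogonalGroup ι ℝ)).det)⁻¹) (𝓝 1)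
        (𝓝 ((1 - 1) ^ Fintype.card ι *
          ((1 - (1 : ℂ) • toC (g : Matrix.orthogonalGroup ι ℝ)).det)⁻¹)) := by
      apply Tendsto.mul
      · exact ((continuous_const.sub continuous_id).pow _).tendsto 1
      · exact ((cont52 _).tendsto 1).inv₀ hd
    rw [sub_self, zero_pow Fintype.card_ne_zero, zero_mul] at h1
    exact h1.mono_left nhdsWithin_le_nhds

theorem ev52 (G : Subgroup (Matrix.orthogonalGroup ι ℝ)) [Finite G] (hf : ActsFreely G) :
    ∀ᶠ z : ℂ in 𝓝[≠] 1, ∀ g ∈ G, (1 - z • toC g).det ≠ 0 := by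
  have h1 : ∀ᶠ z : ℂ in 𝓝[≠] 1, ∀ g : G,
      (1 - z • toC (g : Matrix.orthogonalGroup ι ℝ)).det ≠ 0 := by
    rw [Filter.eventually_all]
    intro g
    by_cases hg : g = 1
    · rw [hg]
      filter_upwards [self_mem_nhdsWithin] with z hz
      rw [Subgroup.coe_one, det_one52]
      exact pow_ne_zero _ (sub_ne_zero.2 fun h => hz h.symm)
    · have hd : (1 - (1 : ℂ) • toC (g : Matrix.orthogonalGroup ι ℝ)).det ≠ 0 := by
        apply det_free52
        exact hf g g.2 (fun h => hg (Subtype.ext h))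
      exact nhdsWithin_le_nhds (((cont52 _).tendsto 1).eventually_ne hd)
  filter_upwards [h1] with z hz g hg
  exact hz ⟨g, hg⟩

/-- CARD over HARM: isospectral free groups have the same order -/
theorem card_eq52 [Nonempty ι] (G₁ G₂ : Subgroup (Matrix.orthogonalGroup ι ℝ))
    (h1 : Finite G₁) (h2 : Finite G₂) (f1 : ActsFreely G₁) (f2 : ActsFreely G₂)
    (h : ∀ k : ℕ, Module.finrank ℂ (polyInv G₁ k) = Module.finrank ℂ (polyInv G₂ k)) :
    Nat.card G₁ = Nat.card G₂ := by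
  classical
  have _ := Fintype.ofFinite G₁
  have _ := Fintype.ofFinite G₂
  have t : ∀ (G : Subgroup (Matrix.orthogonalGroup ι ℝ)) [Fintype G] (_ : ActsFreely G),
      Tendsto (fun z : ℂ => (1 - z) ^ Fintype.card ι * ∑ g : G,
        ((1 - z • toC (g : Matrix.orthogonalGroup ι ℝ)).det)⁻¹) (𝓝[≠] 1) (𝓝 1) := by
    intro G _ hf
    have := tendsto_finsetSum (Finset.univ : Finset G) (fun g _ => tend52 G hf g)
    simp only [← Finset.mul_sum] at this
    simpa using this
  have t1 := (t G₁ f1).const_mul (Fintype.card G₂ : ℂ)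
  have t2 := (t G₂ f2).const_mul (Fintype.card G₁ : ℂ)
  have he : (fun z : ℂ => (Fintype.card G₂ : ℂ) * ((1 - z) ^ Fintype.card ι * ∑ g : G₁,
        ((1 - z • toC (g : Matrix.orthogonalGroup ι ℝ)).det)⁻¹)) =ᶠ[𝓝[≠] 1]
      (fun z : ℂ => (Fintype.card G₁ : ℂ) * ((1 - z) ^ Fintype.card ι * ∑ g : G₂,
        ((1 - z • toC (g : Matrix.orthogonalGroup ι ℝ)).det)⁻¹)) := by
    filter_upwards [ev52 G₁ f1, ev52 G₂ f2] with z hz1 hz2
    have := spec1_52 G₁ G₂ h z hz1 hz2
    linear_combination (1 - z) ^ Fintype.card ι * this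
  have hu := tendsto_nhds_unique (t1.congr' he) t2
  rw [mul_one, mul_one] at hu
  rw [Nat.card_eq_fintype_card, Nat.card_eq_fintype_card]
  exact_mod_cast hu.symm

end spec52

end MPc53f59
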