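import Mathlib
import Pool.Agent.Lib.MP_c53f59_gt.Spec52
import Pool.Agent.Lib.MP_c53f59_gt.Harm27

/-!
Rows SPEC1, SPEC2 and CARD with the row HARM inserted.
-/

set_option linter.unusedSectionVars false

namespace MPc53f59

open MvPolynomial

section specB52

variable {ι : Type} [Fintype ι] [DecidableEq ι]

/-- SPEC1 -/
theorem spec1_full52 [Nonempty ι] (G₁ G₂ : Subgroup (Matrix.orthogonalGroup ι ℝ))
    [Fintype G₁] [Fintype G₂] (h : Isospectral G₁ G₂) (z : ℂ)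
    (hz1 : ∀ g ∈ G₁, (1 - z • toC g).det ≠ 0) (hz2 : ∀ g ∈ G₂, (1 - z • toC g).det ≠ 0) :
    (Fintype.card G₂ : ℂ) * ∑ g : G₁, ((1 - z • toC (g : Matrix.orthogonalGroup ι ℝ)).det)⁻¹ =
    (Fintype.card G₁ : ℂ) * ∑ g : G₂, ((1 - z • toC (g : Matrix.orthogonalGroup ι ℝ)).det)⁻¹ :=
  spec1_52 G₁ G₂ ((isospectral_iff27 G₁ G₂ inferInstance inferInstance).1 h) z hz1 hz2

/-- SPEC2 -/
theorem spec2_full52 [Nonempty ι] (G₁ G₂ : Subgroup (Matrix.orthogonalGroup ι ℝ))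
    [Fintype G₁] [Fintype G₂] (hc : Fintype.card G₁ = Fintype.card G₂)
    (h : ∑ g : G₁, ((((toC (g : Matrix.orthogonalGroup ι ℝ)).charpolyRev : Polynomial ℂ) :
      PowerSeries ℂ))⁻¹ =
      ∑ g : G₂, ((((toC (g : Matrix.orthogonalGroup ι ℝ)).charpolyRev : Polynomial ℂ) :
      PowerSeries ℂ))⁻¹) : Isospectral G₁ G₂ :=
  (isospectral_iff27 G₁ G₂ inferInstance inferInstance).2 (spec2_52 G₁ G₂ hc h)

/-- CARD : isospectral free groups have the same order -/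
theorem card_full52 [Nonempty ι] (G₁ G₂ : Subgroup (Matrix.orthogonalGroup ι ℝ))
    (h1 : Finite G₁) (h2 : Finite G₂) (f1 : ActsFreely G₁) (f2 : ActsFreely G₂)
    (h : Isospectral G₁ G₂) : Nat.card G₁ = Nat.card G₂ :=
  card_eq52 G₁ G₂ h1 h2 f1 f2 ((isospectral_iff27 G₁ G₂ h1 h2).1 h)

end specB52

end MPc53f59
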