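import Mathlib
import Pool.Agent.Lib.MP_c53f59_gt.SpecB52
import Pool.Agent.Lib.MP_c53f59_gt.Lens44
import Pool.Agent.Lib.MP_c53f59_gt.Lens44b
import Pool.Agent.Lib.MP_c53f59_gt.Gr26
import Pool.Agent.Lib.MP_c53f59_gt.Ex66

/-!
Joins: the rows EX and GR4 without hypotheses.
-/

namespace MPc53f59

theorem stSpec2_52 : EX66.StSpec2 := fun _ _ _ _ G₁ G₂ _ _ hc h => spec2_full52 G₁ G₂ hc h

theorem stRev_52 : EX66.StRev := fun _ θ => charpolyRev_rot44 θ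

theorem stCard_52 : EX66.StCard := fun _ q hn hq s hs => (lens_free44 q hn hq s hs).2

theorem stSum_52 : EX66.StSum := fun _ q hn hq s hs _ f => lens_sum44 q hn hq s hs f

theorem stNot_52 : EX66.StNot := fun _ q hn hq s s' hs hs' h =>
  lens_not_isometric44 q hn hq s s' hs hs' h

/-- EX13 -/
theorem exist13_full52 (n : ℕ) (hn : 3 ≤ n)
    (h : n % 6 = 1 ∨ n % 6 = 2 ∨ n % 6 = 3 ∨ n % 6 = 4) :
    ∃ s s' : Fin n → ℕ, (∀ i, 0 < s i ∧ s i ≤ 6) ∧ (∀ i, 0 < s' i ∧ s' i ≤ 6) ∧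
      Isospectral (lens 13 s) (lens 13 s') ∧ ¬ Isometric (lens 13 s) (lens 13 s') :=
  EX66.exist13 stSpec2_52 stRev_52 stCard_52 stSum_52 stNot_52 n hn h

/-- EX11 -/
theorem exist11_full52 (n : ℕ) (hn : 3 ≤ n) (h : n % 5 = 1 ∨ n % 5 = 2 ∨ n % 5 = 3)
    (h6 : n ≠ 6) :
    ∃ s s' : Fin n → ℕ, (∀ i, 0 < s i ∧ s i ≤ 5) ∧ (∀ i, 0 < s' i ∧ s' i ≤ 5) ∧
      Isospectral (lens 11 s) (lens 11 s') ∧ ¬ Isometric (lens 11 s) (lens 11 s') :=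
  EX66.exist11 stSpec2_52 stRev_52 stCard_52 stSum_52 stNot_52 n hn h h6

/-- GR4 -/
theorem cyclic_lens_full52 {n : ℕ} (_hn : 0 < n)
    (G : Subgroup (Matrix.orthogonalGroup (Fin (2 * n)) ℝ))
    (hf : Finite G) (fr : ActsFreely G) (hc : IsCyclic G) (h3 : 3 ≤ Nat.card G) :
    ∃ s : Fin n → ℕ, (∀ i, 0 < s i ∧ 2 * s i < Nat.card G ∧ Nat.Coprime (s i) (Nat.card G)) ∧
      Isometric G (lens (Nat.card G) s) :=
  cyclic_lens_of26 (fun q hq g hg hfix => lens_normal44 q hq g hg hfix) G hf fr hc h3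

end MPc53f59
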