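import Mathlib
import Pool.Agent.Lib.MP_c53f59_gt.Defs2

/-!
MP_c53f59_gt, rows L3, L7, L8: conjugacy of standard rotations and of lens groups.
-/

set_option autoImplicit false

namespace MPc53f59.LB26

section blk

variable {n : ℕ}

/-- block diagonal matrices with 2 x 2 blocks -/
noncomputable def blk (E : Fin n → Matrix (Fin 2) (Fin 2) ℝ) :
    Matrix (Fin (2 * n)) (Fin (2 * n)) ℝ :=
  Matrix.reindex finProdFinEquiv finProdFinEquiv (Matrix.blockDiagonal E)

theorem blk_mul (E F : Fin n → Matrix (Fin 2) (Fin 2) ℝ) :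
    blk E * blk F = blk fun i => E i * F i := by
  unfold blk
  rw [Matrix.blockDiagonal_mul]
  simp [Matrix.reindex_apply]

theorem blk_one : blk (fun _ : Fin n => (1 : Matrix (Fin 2) (Fin 2) ℝ)) = 1 := by
  unfold blk
  have h3 : (Matrix.blockDiagonal fun _ : Fin n => (1 : Matrix (Fin 2) (Fin 2) ℝ)) = 1 :=
    Matrix.blockDiagonal_one
  rw [h3]
  simp

theorem blk_transpose (E : Fin n → Matrix (Fin 2) (Fin 2) ℝ) :
    (blk E).transpose = blk fun i => (E i).transpose := by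
  unfold blk
  rw [Matrix.transpose_reindex, Matrix.blockDiagonal_transpose]

/-- the 2 x 2 rotation -/
noncomputable def R2 (t : ℝ) : Matrix (Fin 2) (Fin 2) ℝ :=
  !![Real.cos t, -Real.sin t; Real.sin t, Real.cos t]

theorem rotMat_eq (θ : Fin n → ℝ) : rotMat θ = blk fun i => R2 (θ i) := rfl

theorem R2_mul (a b : ℝ) : R2 a * R2 b = R2 (a + b) := by
  unfold R2
  rw [Real.cos_add, Real.sin_add]
  ext i j
  fin_cases i <;> fin_cases j <;> simp [Matrix.mul_apply, Fin.sum_univ_two] <;> ring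

theorem R2_zero : R2 0 = 1 := by
  unfold R2
  ext i j
  fin_cases i <;> fin_cases j <;> simp

theorem rot_mul (a b : Fin n → ℝ) : rot a * rot b = rot (fun i => a i + b i) := by
  apply Subtype.ext
  show rotMat a * rotMat b = rotMat _
  rw [rotMat_eq, rotMat_eq, rotMat_eq, blk_mul]
  simp only [R2_mul]

theorem rot_zero : rot (fun _ : Fin n => (0 : ℝ)) = 1 := by
  apply Subtype.ext
  show rotMat _ = 1
  rw [rotMat_eq]
  simp only [R2_zero]
  exact blk_one

theorem rot_pow26 (θ : Fin n → ℝ) (j : ℕ) : (rot θ) ^ j = rot (fun i => (j : ℝ) * θ i) := by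
  induction j with
  | zero => simp [rot_zero]
  | succ j ih =>
    rw [pow_succ, ih, rot_mul]
    congr 1
    funext i
    push_cast
    ring

theorem R2_congr {a b : ℝ} (h1 : Real.cos a = Real.cos b) (h2 : Real.sin a = Real.sin b) :
    R2 a = R2 b := by
  unfold R2
  rw [h1, h2]

theorem rot_congr {a b : Fin n → ℝ} (h1 : ∀ i, Real.cos (a i) = Real.cos (b i))
    (h2 : ∀ i, Real.sin (a i) = Real.sin (b i)) : rot a = rot b := by
  apply Subtype.ext
  show rotMat a = rotMat b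
  rw [rotMat_eq, rotMat_eq]
  congr 1
  funext i
  exact R2_congr (h1 i) (h2 i)

theorem rot_order {q : ℕ} (hq : 0 < q) (s : Fin n → ℕ) :
    (rot (fun i => 2 * Real.pi * (s i : ℝ) / (q : ℝ))) ^ q = 1 := by
  rw [rot_pow26, ← rot_zero]
  have h0 : (q : ℝ) ≠ 0 := by exact_mod_cast hq.ne'
  have h1 : ∀ i, (q : ℝ) * (2 * Real.pi * (s i : ℝ) / (q : ℝ)) = (s i : ℝ) * (2 * Real.pi) := by
    intro i; field_simp
  refine rot_congr (fun i => ?_) (fun i => ?_)
  · rw [h1, Real.cos_nat_mul_two_pi, Real.cos_zero]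
  · rw [h1, Real.sin_zero]
    have := Real.sin_nat_mul_pi (s i * 2)
    push_cast at this
    rw [← this]
    congr 1; ring

/-- the sign matrix -/
noncomputable def sg (b : Prop) [Decidable b] : Matrix (Fin 2) (Fin 2) ℝ :=
  if b then 1 else !![1, 0; 0, -1]

theorem sg_orth (b : Prop) [Decidable b] : sg b * (sg b).transpose = 1 := by
  unfold sg
  split_ifs
  · simp
  · ext i j
    fin_cases i <;> fin_cases j <;> simp [Matrix.mul_apply, Fin.sum_univ_two]

theorem sg_conj {a b : ℝ} (h : Real.cos a = Real.cos b) :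
    sg (Real.sin a = Real.sin b) * R2 b = R2 a * sg (Real.sin a = Real.sin b) := by
  unfold sg
  split_ifs with h1
  · rw [one_mul, mul_one, R2_congr h h1]
  · have h2 : Real.sin a = - Real.sin b := by
      have h3 := Real.sin_sq_add_cos_sq a
      have h4 := Real.sin_sq_add_cos_sq b
      rw [h] at h3
      have h5 : (Real.sin a - Real.sin b) * (Real.sin a + Real.sin b) = 0 := by nlinarith
      rcases mul_eq_zero.1 h5 with h6 | h6
      · exact absurd (sub_eq_zero.1 h6) h1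
      · linarith
    unfold R2
    rw [h, h2]
    ext i j
    fin_cases i <;> fin_cases j <;> simp [Matrix.mul_apply, Fin.sum_univ_two]

/-- the reflections in the planes -/
theorem rot_sign (θ θ' : Fin n → ℝ) (h : ∀ i, Real.cos (θ' i) = Real.cos (θ i)) :
    ∃ k : Matrix.orthogonalGroup (Fin (2 * n)) ℝ, k * rot θ * k⁻¹ = rot θ' := by
  let K : Matrix (Fin (2 * n)) (Fin (2 * n)) ℝ :=
    blk fun i => sg (Real.sin (θ' i) = Real.sin (θ i))
  have hK : K ∈ Matrix.orthogonalGroup (Fin (2 * n)) ℝ := by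
    rw [Matrix.mem_orthogonalGroup_iff]
    show blk _ * (blk _).transpose = 1
    rw [blk_transpose, blk_mul]
    simp only [sg_orth]
    exact blk_one
  refine ⟨⟨K, hK⟩, ?_⟩
  rw [mul_inv_eq_iff_eq_mul]
  apply Subtype.ext
  show blk _ * rotMat θ = rotMat θ' * blk _
  rw [rotMat_eq, rotMat_eq, blk_mul, blk_mul]
  congr 1
  funext i
  exact sg_conj (h i)

/-- permutation of the planes -/
theorem rot_perm (θ : Fin n → ℝ) (τ : Equiv.Perm (Fin n)) :
    ∃ k : Matrix.orthogonalGroup (Fin (2 * n)) ℝ, k * rot θ * k⁻¹ = rot (fun i => θ (τ i)) := by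
  let σ : Equiv.Perm (Fin (2 * n)) :=
    (finProdFinEquiv.symm.trans ((Equiv.refl (Fin 2)).prodCongr τ)).trans finProdFinEquiv
  let K : Matrix (Fin (2 * n)) (Fin (2 * n)) ℝ := σ.toPEquiv.toMatrix
  have hK : K ∈ Matrix.orthogonalGroup (Fin (2 * n)) ℝ := by
    rw [Matrix.mem_orthogonalGroup_iff]
    show σ.toPEquiv.toMatrix * (σ.toPEquiv.toMatrix : Matrix _ _ ℝ).transpose = 1
    rw [← PEquiv.toMatrix_symm, ← PEquiv.toMatrix_trans, ← Equiv.toPEquiv_symm,
      ← Equiv.toPEquiv_trans, Equiv.self_trans_symm, Equiv.toPEquiv_refl, PEquiv.toMatrix_refl]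
  refine ⟨⟨K, hK⟩, ?_⟩
  rw [mul_inv_eq_iff_eq_mul]
  apply Subtype.ext
  show σ.toPEquiv.toMatrix * rotMat θ = rotMat _ * σ.toPEquiv.toMatrix
  rw [PEquiv.toMatrix_toPEquiv_mul, PEquiv.mul_toMatrix_toPEquiv]
  ext x y
  rw [Matrix.submatrix_apply, Matrix.submatrix_apply, rotMat_eq, rotMat_eq]
  unfold blk
  rw [Matrix.reindex_apply, Matrix.reindex_apply, Matrix.submatrix_apply, Matrix.submatrix_apply]
  obtain ⟨⟨a, i⟩, rfl⟩ := finProdFinEquiv.surjective x
  obtain ⟨⟨b, j⟩, rfl⟩ := finProdFinEquiv.surjective y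
  have h1 : σ (finProdFinEquiv (a, i)) = finProdFinEquiv (a, τ i) := by
    simp [σ]
  have h2 : σ.symm (finProdFinEquiv (b, j)) = finProdFinEquiv (b, τ.symm j) := by
    rw [Equiv.symm_apply_eq]
    simp [σ]
  rw [h1, h2]
  simp only [id, Equiv.symm_apply_apply, Matrix.blockDiagonal_apply]
  by_cases h3 : τ i = j
  · rw [if_pos h3, if_pos (by rw [← h3, Equiv.symm_apply_apply])]
  · rw [if_neg h3, if_neg (by intro h4; exact h3 (by rw [h4, Equiv.apply_symm_apply]))]

end blk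

end MPc53f59.LB26

namespace MPc53f59

open MPc53f59.LB26

variable {n : ℕ}

/-- L3 -/
theorem rot_conj26 (θ θ' : Fin n → ℝ) (τ : Equiv.Perm (Fin n))
    (h : ∀ i, Real.cos (θ' i) = Real.cos (θ (τ i))) :
    ∃ k : Matrix.orthogonalGroup (Fin (2 * n)) ℝ, k * rot θ * k⁻¹ = rot θ' := by
  obtain ⟨k, hk⟩ := rot_perm θ τ
  obtain ⟨l, hl⟩ := rot_sign (fun i => θ (τ i)) θ' h
  refine ⟨l * k, ?_⟩
  rw [← hl, ← hk]
  group

theorem conj_mem_zpowers {G : Type*} [Group G] (k r x : G) :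
    x ∈ Subgroup.zpowers r ↔ k * x * k⁻¹ ∈ Subgroup.zpowers (k * r * k⁻¹) := by
  rw [Subgroup.mem_zpowers_iff, Subgroup.mem_zpowers_iff]
  constructor
  · rintro ⟨j, rfl⟩
    exact ⟨j, by rw [conj_zpow]⟩
  · rintro ⟨j, hj⟩
    refine ⟨j, ?_⟩
    rw [conj_zpow] at hj
    exact mul_left_cancel (mul_right_cancel hj)

/-- L7 : change of the generator and permutation of the planes -/
theorem lens_isometric26 (q : ℕ) (hq : 0 < q) (s s' : Fin n → ℕ) (u : ℕ) (hu : Nat.Coprime u q)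
    (τ : Equiv.Perm (Fin n))
    (h : ∀ i, Real.cos (2 * Real.pi * (s' i : ℝ) / (q : ℝ)) =
      Real.cos (2 * Real.pi * ((u * s (τ i) : ℕ) : ℝ) / (q : ℝ))) :
    Isometric (lens q s) (lens q s') := by
  obtain ⟨k, hk⟩ := rot_conj26 (fun i => (u : ℝ) * (2 * Real.pi * (s i : ℝ) / (q : ℝ)))
    (fun i => 2 * Real.pi * (s' i : ℝ) / (q : ℝ)) τ (fun i => by
      rw [h i]; congr 1; push_cast; ring)
  rw [← rot_pow26] at hk
  refine ⟨k, fun g => ?_⟩
  unfold lens
  rw [← hk, ← conj_mem_zpowers]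
  set r : Matrix.orthogonalGroup (Fin (2 * n)) ℝ :=
    rot (fun i => 2 * Real.pi * (s i : ℝ) / (q : ℝ)) with hr
  have h1 : orderOf r ∣ q := orderOf_dvd_of_pow_eq_one (rot_order hq s)
  have h2 : r ∈ Subgroup.zpowers (r ^ u) :=
    mem_zpowers_pow_iff.2 (Nat.Coprime.coprime_dvd_right h1 hu)
  have h3 : Subgroup.zpowers r = Subgroup.zpowers (r ^ u) :=
    le_antisymm (Subgroup.zpowers_le.2 h2)
      (Subgroup.zpowers_le.2 (Subgroup.npow_mem_zpowers _ _))
  rw [h3]

end MPc53f59
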