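import Mathlib
import Pool.Agent.Lib.MP_c53f59_gt.Defs2
import Pool.Agent.Lib.MP_c53f59_gt.Lens44

/-!
MP_c53f59_gt, row L8: conjugate lens groups differ by a change of the generator and a permutation
of the planes.
-/

set_option autoImplicit false

namespace MPc53f59

variable {n : ℕ}

theorem det_conj26 (h g : Matrix.orthogonalGroup (Fin (2 * n)) ℝ) (z : ℝ) :
    (1 - z • ((h * g * h⁻¹ : Matrix.orthogonalGroup (Fin (2 * n)) ℝ) : Matrix (Fin (2 * n))
      (Fin (2 * n)) ℝ)).det = (1 - z • (g : Matrix (Fin (2 * n)) (Fin (2 * n)) ℝ)).det := by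
  have h6 : (h : Matrix (Fin (2 * n)) (Fin (2 * n)) ℝ) *
      ((h⁻¹ : Matrix.orthogonalGroup (Fin (2 * n)) ℝ) :
      Matrix (Fin (2 * n)) (Fin (2 * n)) ℝ) = 1 :=
    congrArg (fun x : Matrix.orthogonalGroup (Fin (2 * n)) ℝ =>
      (x : Matrix (Fin (2 * n)) (Fin (2 * n)) ℝ)) (mul_inv_cancel h)
  have h7 : (1 - z • ((h * g * h⁻¹ : Matrix.orthogonalGroup (Fin (2 * n)) ℝ) :
      Matrix (Fin (2 * n)) (Fin (2 * n)) ℝ)) =
      (h : Matrix (Fin (2 * n)) (Fin (2 * n)) ℝ) *
        (1 - z • (g : Matrix (Fin (2 * n)) (Fin (2 * n)) ℝ)) *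
        ((h⁻¹ : Matrix.orthogonalGroup (Fin (2 * n)) ℝ) :
          Matrix (Fin (2 * n)) (Fin (2 * n)) ℝ) := by
    rw [mul_sub, sub_mul, mul_one, h6, Matrix.mul_smul, Matrix.smul_mul]
    rfl
  rw [h7, Matrix.det_mul, Matrix.det_mul, mul_right_comm, ← Matrix.det_mul, h6, Matrix.det_one,
    one_mul]

/-- equal products give equal families of cosines -/
theorem cos_family26 (c c' : Fin n → ℝ)
    (h : ∀ z : ℝ, ∏ i, (1 - 2 * c' i * z + z ^ 2) = ∏ i, (1 - 2 * c i * z + z ^ 2)) (x : ℝ) :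
    (Finset.univ.filter fun i => c' i = x).card = (Finset.univ.filter fun i => c i = x).card := by
  classical
  have h1 : ∀ (d : Fin n → ℝ) (z : ℝ), z ≠ 0 →
      ∏ i, (1 - 2 * d i * z + z ^ 2) = z ^ n * ∏ i, ((z + z⁻¹) - 2 * d i) := by
    intro d z hz
    rw [show z ^ n = ∏ _i : Fin n, z by simp, ← Finset.prod_mul_distrib]
    refine Finset.prod_congr rfl fun i _ => ?_
    field_simp
    ring
  have h2 : (∏ i, (Polynomial.X - Polynomial.C (2 * c' i)) : Polynomial ℝ) =
      ∏ i, (Polynomial.X - Polynomial.C (2 * c i)) := by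
    refine Polynomial.eq_of_infinite_eval_eq _ _ ((Set.Ici_infinite (2 : ℝ)).mono ?_)
    intro w hw
    have hw2 : (2 : ℝ) ≤ w := hw
    have h3 : (Real.sqrt (w ^ 2 - 4)) ^ 2 = w ^ 2 - 4 := Real.sq_sqrt (by nlinarith)
    have h4 : 0 ≤ Real.sqrt (w ^ 2 - 4) := Real.sqrt_nonneg _
    set z : ℝ := (w + Real.sqrt (w ^ 2 - 4)) / 2 with hz
    have hz0 : 0 < z := by rw [hz]; linarith
    have h5 : z + z⁻¹ = w := by
      have h6 : z * ((w - Real.sqrt (w ^ 2 - 4)) / 2) = 1 := by
        rw [hz]; linear_combination (-1 / 4) * h3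
      have h7 : z⁻¹ = (w - Real.sqrt (w ^ 2 - 4)) / 2 :=
        inv_eq_of_mul_eq_one_right h6
      rw [h7, hz]; ring
    have h8 := h z
    rw [h1 c' z hz0.ne', h1 c z hz0.ne', h5] at h8
    have h9 := mul_left_cancel₀ (pow_ne_zero n hz0.ne') h8
    show Polynomial.eval w _ = Polynomial.eval w _
    rw [Polynomial.eval_prod, Polynomial.eval_prod]
    simpa using h9
  have h3 : ∀ d : Fin n → ℝ, (∏ i, (Polynomial.X - Polynomial.C (2 * d i)) :
      Polynomial ℝ).roots = Multiset.map (fun i => 2 * d i) Finset.univ.val := by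
    intro d
    have h4 := Polynomial.roots_multiset_prod_X_sub_C
      (Multiset.map (fun i => 2 * d i) (Finset.univ : Finset (Fin n)).val)
    rw [Multiset.map_map] at h4
    exact h4
  have h4 : Multiset.map (fun i => 2 * c' i) (Finset.univ : Finset (Fin n)).val =
      Multiset.map (fun i => 2 * c i) (Finset.univ : Finset (Fin n)).val := by
    rw [← h3, ← h3, h2]
  have h5 := congrArg (Multiset.count (2 * x)) h4
  rw [Multiset.count_map, Multiset.count_map] at h5
  have h6 : ∀ d : Fin n → ℝ, (Finset.univ.filter fun i => d i = x).card =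
      (Multiset.filter (fun i => 2 * x = 2 * d i) (Finset.univ : Finset (Fin n)).val).card := by
    intro d
    rw [← Finset.filter_val]
    show _ = Finset.card _
    congr 1
    ext i
    simp only [Finset.mem_filter, Finset.mem_univ, true_and]
    constructor
    · intro h; rw [h]
    · intro h; linarith
  rw [h6, h6]
  exact h5

/-- L8 : conjugate lens groups differ by such a change (for the non isometric pairs) -/
theorem lens_not_isometric26 (q : ℕ) (hn : 0 < n) (hq : 0 < q) (s s' : Fin n → ℕ)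
    (hs : ∀ i, Nat.Coprime (s i) q) (hs' : ∀ i, Nat.Coprime (s' i) q)
    (h : Isometric (lens q s) (lens q s')) :
    ∃ u : ℕ, Nat.Coprime u q ∧ ∀ x : ℝ,
      (Finset.univ.filter fun i => Real.cos (2 * Real.pi * (s' i : ℝ) / (q : ℝ)) = x).card =
      (Finset.univ.filter fun i =>
        Real.cos (2 * Real.pi * ((u * s i : ℕ) : ℝ) / (q : ℝ)) = x).card := by
  obtain ⟨h, hh⟩ := h
  set r : Matrix.orthogonalGroup (Fin (2 * n)) ℝ :=
    rot (fun i => 2 * Real.pi * (s i : ℝ) / (q : ℝ)) with hr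
  set r' : Matrix.orthogonalGroup (Fin (2 * n)) ℝ :=
    rot (fun i => 2 * Real.pi * (s' i : ℝ) / (q : ℝ)) with hr'
  have ho : orderOf r = q := orderOf_rot44 q hn hq s hs
  have ho' : orderOf r' = q := orderOf_rot44 q hn hq s' hs'
  have h1 : h⁻¹ * r' * h ∈ lens q s := by
    rw [hh]
    have h2 : h * (h⁻¹ * r' * h) * h⁻¹ = r' := by group
    rw [h2]
    exact Subgroup.mem_zpowers _
  obtain ⟨u, hu, hu2⟩ := mem_lens44 q hq s _ h1
  have h3 : r' = h * r ^ u * h⁻¹ := by
    rw [← hu2]; group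
  have h4 : orderOf (r ^ u) = q := by
    rw [← ho', h3]
    exact (MulEquiv.orderOf_eq (MulAut.conj h) (r ^ u)).symm
  have hcop : Nat.Coprime u q := by
    have h5 : r ∈ Subgroup.zpowers (r ^ u) := by
      have h6 : Subgroup.zpowers (r ^ u) ≤ Subgroup.zpowers r :=
        Subgroup.zpowers_le.2 (Subgroup.npow_mem_zpowers _ _)
      have h7 : Nat.card (Subgroup.zpowers r) ≤ Nat.card (Subgroup.zpowers (r ^ u)) := by
        rw [Nat.card_zpowers, Nat.card_zpowers, h4, ho]
      have hfin : Finite (Subgroup.zpowers r) := Nat.finite_of_card_ne_zero (by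
        rw [Nat.card_zpowers, ho]; omega)
      have h8 : Subgroup.zpowers (r ^ u) = Subgroup.zpowers r :=
        Subgroup.eq_of_le_of_card_ge h6 h7
      rw [h8]
      exact Subgroup.mem_zpowers r
    have h9 := mem_zpowers_pow_iff.1 h5
    rwa [ho] at h9
  refine ⟨u, hcop, ?_⟩
  refine cos_family26 _ _ fun z => ?_
  have h5 := det_real44 (fun i => 2 * Real.pi * (s' i : ℝ) / (q : ℝ)) z
  have h6 := det_real44 (fun i => (u : ℝ) * (2 * Real.pi * (s i : ℝ) / (q : ℝ))) z
  have h7 : (1 - z • rotMat (fun i => 2 * Real.pi * (s' i : ℝ) / (q : ℝ))).det =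
      (1 - z • rotMat (fun i => (u : ℝ) * (2 * Real.pi * (s i : ℝ) / (q : ℝ)))).det := by
    have h8 := det_conj26 h (r ^ u) z
    rw [← h3, hr, rot_pow44] at h8
    exact h8
  rw [h5, h6] at h7
  rw [h7]
  refine Finset.prod_congr rfl fun i _ => ?_
  have h9 : (u : ℝ) * (2 * Real.pi * (s i : ℝ) / (q : ℝ)) =
      2 * Real.pi * ((u * s i : ℕ) : ℝ) / (q : ℝ) := by push_cast; ring
  rw [h9]

end MPc53f59
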