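import Mathlib
import Pool.Agent.Lib.MP_c53f59_gt.Defs2

/-!
From the spectrum of a lens space to the function phi (over the rows SPEC and LENS).
-/

namespace MPc53f59

theorem lens_w_of {n : ℕ}
    (spec1 : ∀ (G₁ G₂ : Subgroup (Matrix.orthogonalGroup (Fin (2 * n)) ℝ))
      [Fintype G₁] [Fintype G₂] (_ : Isospectral G₁ G₂) (z : ℂ)
      (_ : ∀ g ∈ G₁, (1 - z • toC g).det ≠ 0) (_ : ∀ g ∈ G₂, (1 - z • toC g).det ≠ 0),
      (Fintype.card G₂ : ℂ) *
        ∑ g : G₁, ((1 - z • toC (g : Matrix.orthogonalGroup (Fin (2 * n)) ℝ)).det)⁻¹ =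
      (Fintype.card G₁ : ℂ) *
        ∑ g : G₂, ((1 - z • toC (g : Matrix.orthogonalGroup (Fin (2 * n)) ℝ)).det)⁻¹)
    (det_rot : ∀ (θ : Fin n → ℝ) (z : ℂ),
      (1 - z • toC (rot θ)).det = ∏ i, (1 - 2 * ((Real.cos (θ i) : ℝ) : ℂ) * z + z ^ 2))
    (q : ℕ) (hq : 3 ≤ q)
    (lens_free : ∀ (s : Fin n → ℕ) (_ : ∀ i, Nat.Coprime (s i) q),
      ActsFreely (lens q s) ∧ Nat.card (lens q s) = q)
    (lens_sum : ∀ (s : Fin n → ℕ) (_ : ∀ i, Nat.Coprime (s i) q) [Fintype (lens q s)]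
      {M : Type} [AddCommMonoid M] (f : Matrix.orthogonalGroup (Fin (2 * n)) ℝ → M),
      ∑ g : lens q s, f g = ∑ j ∈ Finset.range q,
        f (rot (fun i => (j : ℝ) * (2 * Real.pi * (s i : ℝ) / (q : ℝ)))))
    (s s' : Fin n → ℕ)
    (hs : ∀ i, Nat.Coprime (s i) q) (hs' : ∀ i, Nat.Coprime (s' i) q)
    (h : Isospectral (lens q s) (lens q s')) (w : ℝ) (hw : Good q w) :
    phi q s w = phi q s' w := by
  classical
  have hfin : ∀ (s : Fin n → ℕ) (_ : ∀ i, Nat.Coprime (s i) q), Finite (lens q s) := by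
    intro s hs
    apply Nat.finite_of_card_ne_zero
    rw [(lens_free s hs).2]; omega
  have := hfin s hs
  have := hfin s' hs'
  let _ := Fintype.ofFinite (lens q s)
  let _ := Fintype.ofFinite (lens q s')
  have c1 : Fintype.card (lens q s) = q := by
    rw [← Nat.card_eq_fintype_card]; exact (lens_free s hs).2
  have c2 : Fintype.card (lens q s') = q := by
    rw [← Nat.card_eq_fintype_card]; exact (lens_free s' hs').2
  have hq0 : (q : ℂ) ≠ 0 := by exact_mod_cast (by omega : q ≠ 0)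
  -- the point z
  obtain ⟨z, hz⟩ : ∃ z : ℂ, z ^ 2 + 1 = (w : ℂ) * z := by
    obtain ⟨t, ht⟩ := IsAlgClosed.exists_pow_nat_eq ((w : ℂ) ^ 2 - 4) (n := 2) (by norm_num)
    refine ⟨((w : ℂ) + t) / 2, ?_⟩
    field_simp
    linear_combination ht
  have hz0 : z ≠ 0 := by
    intro h0
    rw [h0] at hz
    simp at hz
  have hfac : ∀ c : ℝ, (1 - 2 * (c : ℂ) * z + z ^ 2) = z * ((w - 2 * c : ℝ) : ℂ) := by
    intro c
    push_cast
    linear_combination hz
  have hdet : ∀ θ : Fin n → ℝ, (1 - z • toC (rot θ)).det =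
      z ^ n * ((∏ i, (w - 2 * Real.cos (θ i)) : ℝ) : ℂ) := by
    intro θ
    rw [det_rot θ z, Finset.prod_congr rfl (fun i _ => hfac (Real.cos (θ i))),
      Finset.prod_mul_distrib]
    simp
  have hcos : ∀ (s : Fin n → ℕ) (j : ℕ) (i : Fin n),
      (j : ℝ) * (2 * Real.pi * (s i : ℝ) / (q : ℝ)) =
        2 * Real.pi * ((j * s i : ℕ) : ℝ) / (q : ℝ) := by
    intro s j i; push_cast; ring
  have hne : ∀ (s : Fin n → ℕ) (j : ℕ),
      (1 - z • toC (rot (fun i => (j : ℝ) * (2 * Real.pi * (s i : ℝ) / (q : ℝ))))).det ≠ 0 := by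
    intro s j
    rw [hdet]
    refine mul_ne_zero (pow_ne_zero _ hz0) ?_
    rw [Complex.ofReal_ne_zero, Finset.prod_ne_zero_iff]
    intro i _
    rw [hcos]
    exact sub_ne_zero.mpr (hw (j * s i))
  have hmem : ∀ (s : Fin n → ℕ) (_ : ∀ i, Nat.Coprime (s i) q) [Fintype (lens q s)],
      ∀ g ∈ lens q s, (1 - z • toC g).det ≠ 0 := by
    intro s hs _ g hg
    have h1 := lens_sum s hs (M := ℕ) (fun x => if x = g then 1 else 0)
    have h2 : ∑ x : lens q s, (if (x : Matrix.orthogonalGroup (Fin (2 * n)) ℝ) = g then 1 else 0)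
        = 1 := by
      rw [Finset.sum_eq_single (⟨g, hg⟩ : lens q s)]
      · simp
      · intro b _ hb
        rw [if_neg]
        intro h3
        exact hb (Subtype.ext h3)
      · intro h3; exact absurd (Finset.mem_univ _) h3
    rw [h2] at h1
    have h4 : ∃ j ∈ Finset.range q,
        (if rot (fun i => (j : ℝ) * (2 * Real.pi * (s i : ℝ) / (q : ℝ))) = g then 1 else 0) ≠ 0 := by
      apply Finset.exists_ne_zero_of_sum_ne_zero
      rw [← h1]; exact one_ne_zero
    obtain ⟨j, _, hj⟩ := h4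
    have h5 : rot (fun i => (j : ℝ) * (2 * Real.pi * (s i : ℝ) / (q : ℝ))) = g := by
      by_contra h6
      rw [if_neg h6] at hj
      exact hj rfl
    rw [← h5]
    exact hne s j
  have key := spec1 (lens q s) (lens q s') h z (hmem s hs) (hmem s' hs')
  rw [c1, c2] at key
  have key2 := mul_left_cancel₀ hq0 key
  rw [lens_sum s hs (fun g => ((1 - z • toC g).det)⁻¹),
    lens_sum s' hs' (fun g => ((1 - z • toC g).det)⁻¹)] at key2
  have hphi : ∀ s : Fin n → ℕ, ∑ j ∈ Finset.range q,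
      ((1 - z • toC (rot (fun i => (j : ℝ) * (2 * Real.pi * (s i : ℝ) / (q : ℝ))))).det)⁻¹ =
      (z ^ n)⁻¹ * ((phi q s w : ℝ) : ℂ) := by
    intro s
    unfold phi
    rw [Complex.ofReal_sum, Finset.mul_sum]
    refine Finset.sum_congr rfl fun j _ => ?_
    rw [hdet, mul_inv, ← Complex.ofReal_inv, ← Finset.prod_inv_distrib]
    congr 2
    refine Finset.prod_congr rfl fun i _ => ?_
    rw [hcos]
  rw [hphi s, hphi s'] at key2
  have key3 := mul_left_cancel₀ (inv_ne_zero (pow_ne_zero n hz0)) key2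
  exact_mod_cast key3

end MPc53f59
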