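import Pool.Agent.Lib.MP_c53f59_gt.NonCyc94
import Pool.Agent.Lib.MP_c53f59_gt.Harm27
import Pool.Agent.Lib.MP_c53f59_gt.Spec52
import Pool.Agent.Lib.MP_c53f59_gt.Lens44
import Pool.Agent.Lib.MP_c53f59_gt.Gr26

/-!
Row GR6, final form.
-/

namespace MPc53f59

/-- GR6 : Q8 / dicyclic against a lens space: at w = 2 cos (2 pi / q) there is no pole -/
theorem noncyclic_ne94 {n : ℕ} (hn : 0 < n)
    (G G' : Subgroup (Matrix.orthogonalGroup (Fin (2 * n)) ℝ))
    (_fr : ActsFreely G) (_fr' : ActsFreely G') (q : ℕ) (hq : q = 8 ∨ q = 12)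
    (hc : Nat.card G = q) (hG : IsQ8 G ∨ IsDic G) (s : Fin n → ℕ)
    (hs : ∀ i, 0 < s i ∧ 2 * s i < q ∧ Nat.Coprime (s i) q)
    (hG' : Isometric G' (lens q s)) : ¬ Isospectral G G' := by
  have : Nonempty (Fin (2 * n)) := ⟨⟨0, by omega⟩⟩
  have hq0 : 0 < q := by omega
  refine noncyclic_ne94_aux hn G G' q hq hc hG s hs (isometric_isospectral26 _ _ hG') ?_
    (lens_free44 q hn hq0 s fun i => (hs i).2.2).2 ?_ det_rot44
  · intro G₁ G₂ _ _ hiso z h1 h2
    exact spec1_52 G₁ G₂ ((isospectral_iff27 G₁ G₂ inferInstance inferInstance).1 hiso) z h1 h2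
  · intro _ f
    exact lens_sum44 q hn hq0 s (fun i => (hs i).2.2) f

end MPc53f59
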