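import Mathlib
import Pool.Agent.Lib.MP_c53f59_gt.Rigid1

/-!
Rigidity for the order 11 from the theorem on the polynomials T11.
-/

namespace MPc53f59

set_option linter.unusedSectionVars false

open Filter Topology

theorem th_Cx (i : ZMod 5) : th i = Cx 11 2 i := by
  unfold th Cx
  have h1 : ((2 : ℕ) : ZMod 11) ^ i.val = ((2 ^ i.val : ℕ) : ZMod 11) := by push_cast; rfl
  rw [h1, cz_natCast]
  push_cast
  ring_nf

theorem T11_eval (e : ZMod 5 → ℕ) (w : ℝ) : (T11 e).eval w = TT 11 2 e w := by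
  unfold T11 TT
  rw [Polynomial.eval_finsetSum]
  refine Finset.sum_congr rfl fun j _ => ?_
  rw [Polynomial.eval_prod]
  refine Finset.prod_congr rfl fun x _ => ?_
  simp [th_Cx]

theorem Rr_eleven {n : ℕ} (s s' : Fin n → ℕ) (w : ℝ) : Rr 11 s w = Rr 11 s' w := by
  classical
  unfold Rr
  refine Finset.sum_congr rfl fun j hj => ?_
  rw [Finset.mem_filter] at hj
  have hj0 : j = 0 := by
    by_contra h
    have : Fact (Nat.Prime 11) := ⟨by norm_num⟩
    exact hj.2 (isUnit_iff_ne_zero.mpr h)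
  subst hj0
  simp

theorem good_infinite (q : ℕ) [NeZero q] : {w : ℝ | Good q w}.Infinite := by
  have h1 : {w : ℝ | Good q w} = (Set.range (fun u : ZMod q => cz u))ᶜ := by
    ext w
    simp only [Set.mem_ofPred_eq, Set.mem_compl_iff, Set.mem_range, not_exists]
    constructor
    · intro h u hu
      exact good_ne w h u hu.symm
    · intro h j hj
      exact h (j : ZMod q) (by rw [hj]; exact cz_natCast j)
  rw [h1]
  exact (Set.finite_range _).infinite_compl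

theorem T11_eq {n : ℕ} (s s' : Fin n → ℕ) (κ κ' : Fin n → ZMod 5)
    (hκ : Cls 11 2 s κ) (hκ' : Cls 11 2 s' κ') (M : ℕ)
    (hM : ∀ x, cnt κ x ≤ M) (hM' : ∀ x, cnt κ' x ≤ M)
    (hphi : ∀ w : ℝ, Good 11 w → phi 11 s w = phi 11 s' w) :
    T11 (fun x => M - cnt κ x) = T11 (fun x => M - cnt κ' x) := by
  apply Polynomial.eq_of_infinite_eval_eq
  apply (good_infinite 11).mono
  intro w hw
  simp only [Set.mem_ofPred_eq] at hw ⊢
  rw [T11_eval, T11_eval]
  have h1 := DD_phi dat_11 s κ hκ M hM w hw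
  have h2 := DD_phi dat_11 s' κ' hκ' M hM' w hw
  rw [hphi w hw, h2, Rr_eleven s' s w] at h1
  linarith

/-- RIGID11 over the two statements on T11 -/
theorem rigid11_of
    (core : ∀ (a b : ZMod 5 → ℕ) (k : ℕ), ∑ x, a x = k → ∑ x, b x = k → k ≠ 2 → k ≠ 3 → k ≠ 4 →
      (∃ x, a x = 0) → (∃ x, b x = 0) → T11 a = T11 b → ∃ s : ZMod 5, ∀ x, b x = a (x + s))
    (four : ∀ (a b : ZMod 5 → ℕ), ∑ x, a x = 4 → ∑ x, b x = 4 → (∀ x, a x ≤ 2) →
      (∀ x, b x ≤ 2) → T11 a = T11 b → ∃ s : ZMod 5, ∀ x, b x = a (x + s))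
    (n : ℕ) (hn : 0 < n) (h : n % 5 = 0 ∨ n % 5 = 4 ∨ n = 6) : Rigid 11 n := by
  intro s s' hs hs' hphi
  obtain ⟨κ, hκ⟩ := exists_cls dat_11 s (fun i => (hs i).2.2)
  obtain ⟨κ', hκ'⟩ := exists_cls dat_11 s' (fun i => (hs' i).2.2)
  refine reduce dat_11 (by norm_num) hn s s' κ κ' hκ hκ' hphi ?_
  rintro M hM0 hM hM' ⟨x1, hx1⟩ ⟨x2, hx2⟩
  have hT := T11_eq s s' κ κ' hκ hκ' M hM hM' hphi
  have s5 : ∀ f : ZMod 5 → ℕ, ∑ j : ZMod 5, f j = f 0 + f 1 + f 2 + f 3 + f 4 := fun f =>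
    Fin.sum_univ_five f
  have hsum : ∀ (κ : Fin n → ZMod 5) (hM : ∀ x, cnt κ x ≤ M),
      ∑ x, (M - cnt κ x) = 5 * M - n ∧ n ≤ 5 * M ∧ ∀ x, cnt κ x ≤ n := by
    intro κ hM
    have h1 := sum_cnt κ
    have h2 : ∀ x, cnt κ x ≤ n := by
      intro x
      calc cnt κ x ≤ ∑ x, cnt κ x := Finset.single_le_sum (fun _ _ => Nat.zero_le _)
            (Finset.mem_univ x)
        _ = n := h1
    rw [s5] at h1 ⊢
    have := hM 0
    have := hM 1
    have := hM 2
    have := hM 3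
    have := hM 4
    exact ⟨by omega, by omega, h2⟩
  obtain ⟨k1, hle, hcn⟩ := hsum κ hM
  obtain ⟨k2, -, -⟩ := hsum κ' hM'
  have hMn : M ≤ n := by rw [← hx1]; exact hcn x1
  by_cases h4 : 5 * M - n = 4
  · have hM2 : M = 2 := by omega
    refine four _ _ (by rw [k1, h4]) (by rw [k2, h4]) (fun x => ?_) (fun x => ?_) hT
    · omega
    · omega
  · refine core _ _ (5 * M - n) k1 k2 (by omega) (by omega) h4 ⟨x1, by omega⟩ ⟨x2, by omega⟩ hT

end MPc53f59
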