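import Mathlib
import Pool.Agent.Lib.MP_c53f59_gt.Asm1
import Pool.Agent.Lib.MP_c53f59_gt.Rigid11
import Pool.Agent.Lib.MP_c53f59_gt.LensW1
import Pool.Agent.Lib.MP_c53f59_gt.Join52
import Pool.Agent.Lib.MP_c53f59_gt.NonCycF94

/-!
All rows together, apart from the four which are explicit hypotheses here.
-/

namespace MPc53f59

theorem main_of
    (core : ∀ (a b : ZMod 5 → ℕ) (k : ℕ), ∑ x, a x = k → ∑ x, b x = k → k ≠ 2 → k ≠ 3 → k ≠ 4 →
      (∃ x, a x = 0) → (∃ x, b x = 0) → T11 a = T11 b → ∃ s : ZMod 5, ∀ x, b x = a (x + s))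
    (four : ∀ (a b : ZMod 5 → ℕ), ∑ x, a x = 4 → ∑ x, b x = 4 → (∀ x, a x ≤ 2) →
      (∀ x, b x ≤ 2) → T11 a = T11 b → ∃ s : ZMod 5, ∀ x, b x = a (x + s))
    (q8 : ∀ {n : ℕ} (G G' : Subgroup (Matrix.orthogonalGroup (Fin (2 * n)) ℝ))
      (_ : IsQ8 G) (_ : IsQ8 G'), Isometric G G')
    (dic : ∀ {n : ℕ} (G G' : Subgroup (Matrix.orthogonalGroup (Fin (2 * n)) ℝ))
      (_ : ActsFreely G) (_ : ActsFreely G') (_ : IsDic G) (_ : IsDic G'), Isometric G G')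
    (n : ℕ) (hn : 3 ≤ n) :
    ((n % 5 = 1 ∨ n % 5 = 2 ∨ n % 5 = 3) → n ≠ 6 → IsLeast (pairOrders n) 11) ∧
    ((n % 5 = 0 ∨ n % 5 = 4 ∨ n = 6) → ∀ m ∈ pairOrders n, 13 ≤ m) ∧
    ((n % 5 = 0 ∨ n % 5 = 4) → (n % 6 = 1 ∨ n % 6 = 2 ∨ n % 6 = 3 ∨ n % 6 = 4) →
      IsLeast (pairOrders n) 13) := by
  have hn0 : 0 < n := by omega
  have : Nonempty (Fin (2 * n)) := ⟨⟨0, by omega⟩⟩
  refine result_of n hn ?_ (fun q hq s hs => lens_free44 q hn0 hq s hs)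
    (exist13_full52 n hn) (exist11_full52 n hn)
  intro G₁ G₂ f1 f2 a1 a2 hI h12 h11
  refine upper_of hn0 (fun G₁ G₂ => card_full52 G₁ G₂) (fun G => small_groups26 hn0 G)
    (fun G G' => q8 G G') (fun G G' => dic G G') (fun G => cyclic_lens_full52 hn0 G)
    (fun G G' => tiny_isometric26 hn0 G G') (fun G G' => noncyclic_ne94 hn0 G G')
    (fun G G' => isometric_symm26 G G') (fun G G' G'' => isometric_trans26 G G' G'')
    (fun G G' => isometric_isospectral26 G G') ?_ ?_ (rigid11_of core four n hn0)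
    G₁ G₂ f1 f2 a1 a2 hI h12 h11
  · rintro q hq s s' ⟨u, hu, τ, h⟩
    exact lens_isometric44 q hq s s' u hu τ h
  · intro q hq s s' hs hs' hL w hw
    exact lens_w_of (fun G₁ G₂ _ _ h z h1 h2 => spec1_full52 G₁ G₂ h z h1 h2)
      (fun θ z => det_rot44 θ z) q hq
      (fun s hs => lens_free44 q hn0 (by omega) s hs)
      (fun s hs _ _ _ f => lens_sum44 q hn0 (by omega) s hs f) s s' hs hs' hL w hw

end MPc53f59
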