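import Mathlib

/-!
# Normal form of a pair of anticommuting orthogonal complex structures
-/

namespace Pool.Agent.MPc53f59

open Module

variable {V : Type*} [NormedAddCommGroup V] [InnerProductSpace ℝ V]

section

variable (I J : V ≃ₗᵢ[ℝ] V)

theorem skew31 (hI : ∀ v, I (I v) = -v) (x y : V) : inner ℝ (I x) y = -inner ℝ x (I y) := by
  have h : inner ℝ (I (I x)) (I y) = inner ℝ (I x) y := I.inner_map_map (I x) y
  rw [hI, inner_neg_left] at h
  exact h.symm

theorem perp31 (hI : ∀ v, I (I v) = -v) (x : V) : inner ℝ x (I x) = 0 := by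
  have h := skew31 I hI x x
  have h2 : inner ℝ (I x) x = inner ℝ x (I x) := real_inner_comm _ _
  linarith

/-- The four vectors `v, I v, J v, I J v`. -/
def quad31 (v : V) : Fin 4 → V := ![v, I v, J v, I (J v)]

/-- A partial quaternionic frame. -/
def Fr31 (n : ℕ) (e : Fin n × Fin 4 → V) : Prop :=
  Orthonormal ℝ e ∧ ∀ i j, e (i, j) = quad31 I J (e (i, 0)) j

variable (hI : ∀ v, I (I v) = -v) (hJ : ∀ v, J (J v) = -v) (hIJ : ∀ v, I (J v) = -J (I v))

include hI hJ hIJ

set_option linter.unusedSectionVars false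

theorem quad_I (v : V) : I (quad31 I J v 0) = quad31 I J v 1 ∧ I (quad31 I J v 1) = -quad31 I J v 0 ∧
    I (quad31 I J v 2) = quad31 I J v 3 ∧ I (quad31 I J v 3) = -quad31 I J v 2 :=
  ⟨rfl, hI v, rfl, hI (J v)⟩

theorem quad_J (v : V) : J (quad31 I J v 0) = quad31 I J v 2 ∧
    J (quad31 I J v 1) = -quad31 I J v 3 ∧ J (quad31 I J v 2) = -quad31 I J v 0 ∧
    J (quad31 I J v 3) = quad31 I J v 1 := by
  refine ⟨rfl, ?_, hJ v, ?_⟩
  · show J (I v) = -I (J v)
    rw [hIJ v, neg_neg]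
  · show J (I (J v)) = I v
    have h := hIJ (J v)
    rw [hJ, map_neg] at h
    exact (neg_injective h).symm

theorem quad_orth (v : V) (hv : ‖v‖ = 1) : Orthonormal ℝ (quad31 I J v) := by
  have a1 : inner ℝ v (I v) = 0 := perp31 I hI v
  have a2 : inner ℝ v (J v) = 0 := perp31 J hJ v
  have a4 : inner ℝ (I v) (J v) = 0 := by
    have h1 : inner ℝ (I v) (J v) = -inner ℝ v (I (J v)) := skew31 I hI v (J v)
    have h2 : inner ℝ (J v) (I v) = -inner ℝ v (J (I v)) := skew31 J hJ v (I v)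
    rw [hIJ v, inner_neg_right, neg_neg] at h1
    have h3 : inner ℝ (J v) (I v) = inner ℝ (I v) (J v) := real_inner_comm _ _
    linarith
  have a3 : inner ℝ v (I (J v)) = 0 := by
    have h1 : inner ℝ (I v) (J v) = -inner ℝ v (I (J v)) := skew31 I hI v (J v)
    linarith
  have a5 : inner ℝ (I v) (I (J v)) = 0 := by rw [I.inner_map_map]; exact a2
  have a6 : inner ℝ (J v) (I (J v)) = 0 := perp31 I hI (J v)
  have c (x y : V) : inner ℝ x y = inner ℝ y x := real_inner_comm _ _
  constructor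
  · intro i
    fin_cases i
    · exact hv
    · show ‖I v‖ = 1
      rw [I.norm_map]; exact hv
    · show ‖J v‖ = 1
      rw [J.norm_map]; exact hv
    · show ‖I (J v)‖ = 1
      rw [I.norm_map, J.norm_map]; exact hv
  · intro i j hij
    fin_cases i <;> fin_cases j
    · exact absurd rfl hij
    · exact a1
    · exact a2
    · exact a3
    · exact (c _ _).trans a1
    · exact absurd rfl hij
    · exact a4
    · exact a5
    · exact (c _ _).trans a2
    · exact (c _ _).trans a4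
    · exact absurd rfl hij
    · exact a6
    · exact (c _ _).trans a3
    · exact (c _ _).trans a5
    · exact (c _ _).trans a6
    · exact absurd rfl hij

theorem span_I {n : ℕ} {e : Fin n × Fin 4 → V} (h : Fr31 I J n e) {x : V}
    (hx : x ∈ Submodule.span ℝ (Set.range e)) : I x ∈ Submodule.span ℝ (Set.range e) := by
  induction hx using Submodule.span_induction with
  | mem x hx =>
    obtain ⟨⟨i, j⟩, rfl⟩ := hx
    obtain ⟨q0, q1, q2, q3⟩ := quad_I I J hI hJ hIJ (e (i, 0))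
    have m (k : Fin 4) : quad31 I J (e (i, 0)) k ∈ Submodule.span ℝ (Set.range e) := by
      rw [← h.2 i k]
      exact Submodule.subset_span ⟨_, rfl⟩
    rw [h.2 i j]
    fin_cases j
    · exact q0 ▸ m 1
    · exact q1 ▸ Submodule.neg_mem _ (m 0)
    · exact q2 ▸ m 3
    · exact q3 ▸ Submodule.neg_mem _ (m 2)
  | zero => rw [map_zero]; exact Submodule.zero_mem _
  | add x y _ _ hx hy => rw [map_add]; exact Submodule.add_mem _ hx hy
  | smul a x _ hx => rw [map_smul]; exact Submodule.smul_mem _ a hx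

theorem span_J {n : ℕ} {e : Fin n × Fin 4 → V} (h : Fr31 I J n e) {x : V}
    (hx : x ∈ Submodule.span ℝ (Set.range e)) : J x ∈ Submodule.span ℝ (Set.range e) := by
  induction hx using Submodule.span_induction with
  | mem x hx =>
    obtain ⟨⟨i, j⟩, rfl⟩ := hx
    obtain ⟨q0, q1, q2, q3⟩ := quad_J I J hI hJ hIJ (e (i, 0))
    have m (k : Fin 4) : quad31 I J (e (i, 0)) k ∈ Submodule.span ℝ (Set.range e) := by
      rw [← h.2 i k]
      exact Submodule.subset_span ⟨_, rfl⟩
    rw [h.2 i j]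
    fin_cases j
    · exact q0 ▸ m 2
    · exact q1 ▸ Submodule.neg_mem _ (m 3)
    · exact q2 ▸ Submodule.neg_mem _ (m 0)
    · exact q3 ▸ m 1
  | zero => rw [map_zero]; exact Submodule.zero_mem _
  | add x y _ _ hx hy => rw [map_add]; exact Submodule.add_mem _ hx hy
  | smul a x _ hx => rw [map_smul]; exact Submodule.smul_mem _ a hx

/-- A frame that does not span can be extended. -/
theorem extend31 {n : ℕ} {e : Fin n × Fin 4 → V} (h : Fr31 I J n e) (v : V) (hv : ‖v‖ = 1)
    (hp : ∀ x ∈ Submodule.span ℝ (Set.range e), inner ℝ v x = 0) :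
    ∃ e' : Fin (n + 1) × Fin 4 → V, Fr31 I J (n + 1) e' := by
  have hperp : ∀ k, ∀ x ∈ Submodule.span ℝ (Set.range e), inner ℝ (quad31 I J v k) x = 0 := by
    intro k x hx
    fin_cases k
    · exact hp x hx
    · show inner ℝ (I v) x = 0
      rw [skew31 I hI, hp _ (span_I I J hI hJ hIJ h hx), neg_zero]
    · show inner ℝ (J v) x = 0
      rw [skew31 J hJ, hp _ (span_J I J hI hJ hIJ h hx), neg_zero]
    · show inner ℝ (I (J v)) x = 0
      rw [skew31 I hI, skew31 J hJ,
        hp _ (span_J I J hI hJ hIJ h (span_I I J hI hJ hIJ h hx)), neg_zero, neg_zero]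
  refine ⟨fun p => Fin.cases (quad31 I J v p.2) (fun i => e (i, p.2)) p.1, ⟨?_, ?_⟩, ?_⟩
  · rintro ⟨i, j⟩
    refine Fin.cases ?_ (fun i => ?_) i
    · exact (quad_orth I J hI hJ hIJ v hv).1 j
    · exact h.1.1 (i, j)
  · rintro ⟨i, j⟩ ⟨i', j'⟩ hne
    revert hne
    refine Fin.cases ?_ (fun i => ?_) i <;> refine Fin.cases ?_ (fun i' => ?_) i' <;> intro hne
    · exact (quad_orth I J hI hJ hIJ v hv).2 (fun hj => hne (by rw [hj]))
    · exact hperp j _ (Submodule.subset_span ⟨_, rfl⟩)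
    · exact (real_inner_comm _ _).trans (hperp j' _ (Submodule.subset_span ⟨_, rfl⟩))
    · have hj : ((i, j) : Fin n × Fin 4) ≠ (i', j') := fun hj => hne (by
        obtain ⟨h1, h2⟩ := Prod.mk.inj hj
        rw [h1, h2])
      exact h.1.2 hj
  · intro i j
    refine Fin.cases ?_ (fun i => ?_) i
    · rfl
    · exact h.2 i j

theorem frames31 [FiniteDimensional ℝ V] (m : ℕ) : ∃ (n : ℕ) (e : Fin n × Fin 4 → V),
    Fr31 I J n e ∧ (Submodule.span ℝ (Set.range e) = ⊤ ∨ m ≤ n) := by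
  induction m with
  | zero =>
    refine ⟨0, fun p => p.1.elim0, ⟨⟨fun p => p.1.elim0, fun p => p.1.elim0⟩,
      fun i => i.elim0⟩, Or.inr le_rfl⟩
  | succ m ih =>
    obtain ⟨n, e, he, h⟩ := ih
    by_cases hs : Submodule.span ℝ (Set.range e) = ⊤
    · exact ⟨n, e, he, Or.inl hs⟩
    · have hm : m ≤ n := h.resolve_left hs
      have h1 : (Submodule.span ℝ (Set.range e))ᗮ ≠ ⊥ := fun h0 =>
        hs ((Submodule.orthogonal_eq_bot_iff).1 h0)
      obtain ⟨u, hu, hu0⟩ := Submodule.exists_mem_ne_zero_of_ne_bot h1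
      have hn : ‖u‖ ≠ 0 := norm_ne_zero_iff.2 hu0
      obtain ⟨e', he'⟩ := extend31 I J hI hJ hIJ he ((‖u‖)⁻¹ • u)
        (by rw [norm_smul, norm_inv, norm_norm, inv_mul_cancel₀ hn])
        (fun x hx => by
          rw [inner_smul_left, Submodule.inner_left_of_mem_orthogonal hx hu, mul_zero])
      exact ⟨n + 1, e', he', Or.inr (by omega)⟩

/-- Normal form of two anticommuting orthogonal complex structures. -/
theorem quat31 [FiniteDimensional ℝ V] : ∃ (n : ℕ) (b : OrthonormalBasis (Fin n × Fin 4) ℝ V),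
    ∀ i, b (i, 1) = I (b (i, 0)) ∧ b (i, 2) = J (b (i, 0)) ∧ b (i, 3) = I (J (b (i, 0))) := by
  obtain ⟨n, e, he, h⟩ := frames31 I J hI hJ hIJ (finrank ℝ V + 1)
  have hs : Submodule.span ℝ (Set.range e) = ⊤ := by
    refine h.resolve_right fun hm => ?_
    have h1 := he.1.linearIndependent.fintype_card_le_finrank
    rw [Fintype.card_prod, Fintype.card_fin, Fintype.card_fin] at h1
    omega
  refine ⟨n, OrthonormalBasis.mk he.1 hs.ge, fun i => ?_⟩
  simp only [OrthonormalBasis.coe_mk]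
  exact ⟨he.2 i 1, he.2 i 2, he.2 i 3⟩

/-- The same with all values of `I` and `J` on the basis and the dimension. -/
theorem quat31' [FiniteDimensional ℝ V] : ∃ (n : ℕ) (b : OrthonormalBasis (Fin n × Fin 4) ℝ V),
    finrank ℝ V = 4 * n ∧
    ∀ i, (I (b (i, 0)) = b (i, 1) ∧ I (b (i, 1)) = -b (i, 0) ∧ I (b (i, 2)) = b (i, 3) ∧
      I (b (i, 3)) = -b (i, 2)) ∧ J (b (i, 0)) = b (i, 2) ∧ J (b (i, 1)) = -b (i, 3) ∧
      J (b (i, 2)) = -b (i, 0) ∧ J (b (i, 3)) = b (i, 1) := by
  obtain ⟨n, b, hb⟩ := quat31 I J hI hJ hIJ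
  refine ⟨n, b, ?_, fun i => ?_⟩
  · rw [finrank_eq_card_basis b.toBasis, Fintype.card_prod, Fintype.card_fin, Fintype.card_fin,
      mul_comm]
  · obtain ⟨h1, h2, h3⟩ := hb i
    have q1 := quad_I I J hI hJ hIJ (b (i, 0))
    have q2 := quad_J I J hI hJ hIJ (b (i, 0))
    rw [h1, h2, h3]
    exact ⟨q1, q2⟩

end

end Pool.Agent.MPc53f59
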