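import Mathlib
import Pool.Agent.Lib.MP_c53f59_gt.Defs
import Pool.Agent.Lib.MP_c53f59_gt.Defs2
import Pool.Agent.Lib.MP_c53f59_gt.Quat31
import Pool.Agent.Lib.MP_c53f59_gt.Lens44b

/-!
Rows GR2, GR3 of MP_c53f59_gt: free actions of the quaternion group of order 8 and of the
dicyclic group of order 12 are conjugate in the orthogonal group.
-/

namespace MPc53f59

open Real

section quat44

/-- the matrix of an isometry of Euclidean space -/
theorem ofIso44 {m : ℕ} (f : EuclideanSpace ℝ (Fin m) ≃ₗᵢ[ℝ] EuclideanSpace ℝ (Fin m)) :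
    ∃ g : Matrix.orthogonalGroup (Fin m) ℝ,
      ∀ x, (f x).ofLp = (g : Matrix (Fin m) (Fin m) ℝ).mulVec x.ofLp := by
  let M : Matrix (Fin m) (Fin m) ℝ := Matrix.toEuclideanLin.symm
    (f.toLinearEquiv : EuclideanSpace ℝ (Fin m) →ₗ[ℝ] EuclideanSpace ℝ (Fin m))
  have hM : ∀ x, (f x).ofLp = M.mulVec x.ofLp := by
    intro x
    have h1 : Matrix.toEuclideanLin M =
        (f.toLinearEquiv : EuclideanSpace ℝ (Fin m) →ₗ[ℝ] EuclideanSpace ℝ (Fin m)) :=
      LinearEquiv.apply_symm_apply _ _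
    have h2 : Matrix.toEuclideanLin M x = f x := by rw [h1]; rfl
    rw [← h2]
    rfl
  have hent : ∀ j k, M j k = (f (EuclideanSpace.single k (1 : ℝ))).ofLp j := by
    intro j k
    rw [hM]
    show M j k = ∑ p, M j p * (EuclideanSpace.single k (1 : ℝ)).ofLp p
    rw [Finset.sum_eq_single k]
    · simp
    · intro p _ hp
      simp [hp]
    · intro h; exact absurd (Finset.mem_univ k) h
  have hO : M ∈ Matrix.orthogonalGroup (Fin m) ℝ := by
    rw [Matrix.mem_orthogonalGroup_iff']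
    ext k l
    have e1 : (M.transpose * M) k l =
        inner ℝ (f (EuclideanSpace.single k (1 : ℝ))) (f (EuclideanSpace.single l (1 : ℝ))) := by
      rw [Matrix.mul_apply, EuclideanSpace.inner_eq_star_dotProduct]
      simp only [star_trivial, dotProduct]
      refine Finset.sum_congr rfl fun j _ => ?_
      rw [Matrix.transpose_apply, hent, hent]
      ring
    have e0 : (star M * M) k l = (M.transpose * M) k l := rfl
    have e2 : inner ℝ (EuclideanSpace.single k (1 : ℝ)) (EuclideanSpace.single l (1 : ℝ)) =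
        if k = l then (1 : ℝ) else 0 := by
      rw [EuclideanSpace.inner_single_left]
      simp [PiLp.single_apply]
    first
      | rw [e0, e1, f.inner_map_map, e2, Matrix.one_apply]
      | rw [e1, f.inner_map_map, e2, Matrix.one_apply]
  exact ⟨⟨M, hO⟩, hM⟩

/-- pairs of anticommuting orthogonal complex structures are conjugate -/
theorem frame44 {m : ℕ} (I J I' J' : Matrix.orthogonalGroup (Fin m) ℝ)
    (hI : I * I = -1) (hJ : J * J = -1) (hIJ : I * J = -(J * I))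
    (hI' : I' * I' = -1) (hJ' : J' * J' = -1) (hIJ' : I' * J' = -(J' * I')) :
    ∃ h : Matrix.orthogonalGroup (Fin m) ℝ, h * I * h⁻¹ = I' ∧ h * J * h⁻¹ = J' := by
  have sq : ∀ (A : Matrix.orthogonalGroup (Fin m) ℝ)
      (f : EuclideanSpace ℝ (Fin m) ≃ₗᵢ[ℝ] EuclideanSpace ℝ (Fin m)),
      (∀ x, (f x).ofLp = (A : Matrix (Fin m) (Fin m) ℝ).mulVec x.ofLp) →
      A * A = -1 → ∀ v, f (f v) = -v := by
    intro A f hf hA v
    apply WithLp.ofLp_injective 2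
    rw [hf, hf, Matrix.mulVec_mulVec]
    have h1 : A.1 * A.1 = -1 := congrArg Subtype.val hA
    rw [h1, Matrix.neg_mulVec, Matrix.one_mulVec]
    rfl
  have anti : ∀ (A B : Matrix.orthogonalGroup (Fin m) ℝ)
      (f g : EuclideanSpace ℝ (Fin m) ≃ₗᵢ[ℝ] EuclideanSpace ℝ (Fin m)),
      (∀ x, (f x).ofLp = (A : Matrix (Fin m) (Fin m) ℝ).mulVec x.ofLp) →
      (∀ x, (g x).ofLp = (B : Matrix (Fin m) (Fin m) ℝ).mulVec x.ofLp) →
      A * B = -(B * A) → ∀ v, f (g v) = -g (f v) := by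
    intro A B f g hf hg hA v
    apply WithLp.ofLp_injective 2
    have e : (-g (f v)).ofLp = -(g (f v)).ofLp := rfl
    rw [e, hf, hg, hg, hf, Matrix.mulVec_mulVec, Matrix.mulVec_mulVec]
    have h1 : A.1 * B.1 = -(B.1 * A.1) := congrArg Subtype.val hA
    rw [h1, Matrix.neg_mulVec]
  obtain ⟨fI, hfI⟩ := toIso44 I
  obtain ⟨fJ, hfJ⟩ := toIso44 J
  obtain ⟨fI', hfI'⟩ := toIso44 I'
  obtain ⟨fJ', hfJ'⟩ := toIso44 J'
  obtain ⟨n, b, hn, hb⟩ := Pool.Agent.MPc53f59.quat31' fI fJ (sq I fI hfI hI) (sq J fJ hfJ hJ)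
    (anti I J fI fJ hfI hfJ hIJ)
  obtain ⟨n', b', hn', hb'⟩ := Pool.Agent.MPc53f59.quat31' fI' fJ' (sq I' fI' hfI' hI')
    (sq J' fJ' hfJ' hJ') (anti I' J' fI' fJ' hfI' hfJ' hIJ')
  have hnn : n' = n := by omega
  subst hnn
  let U : EuclideanSpace ℝ (Fin m) ≃ₗᵢ[ℝ] EuclideanSpace ℝ (Fin m) :=
    b.equiv b' (Equiv.refl _)
  have hU : ∀ x, U (b x) = b' x := fun x => by
    show (b.equiv b' (Equiv.refl _)) (b x) = b' x
    rw [OrthonormalBasis.equiv_apply_basis]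
    rfl
  have conj : ∀ (A A' : Matrix.orthogonalGroup (Fin m) ℝ)
      (f f' : EuclideanSpace ℝ (Fin m) ≃ₗᵢ[ℝ] EuclideanSpace ℝ (Fin m))
      (h : Matrix.orthogonalGroup (Fin m) ℝ)
      (_ : ∀ x, (U x).ofLp = (h : Matrix (Fin m) (Fin m) ℝ).mulVec x.ofLp)
      (_ : ∀ x, (f x).ofLp = (A : Matrix (Fin m) (Fin m) ℝ).mulVec x.ofLp)
      (_ : ∀ x, (f' x).ofLp = (A' : Matrix (Fin m) (Fin m) ℝ).mulVec x.ofLp)
      (_ : ∀ x, U (f (b x)) = f' (b' x)), h * A * h⁻¹ = A' := by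
    intro A A' f f' h hh hf hf' hx
    rw [mul_inv_eq_iff_eq_mul]
    apply Subtype.ext
    have h1 : ∀ v, U (f v) = f' (U v) := by
      have h2 : (U.toLinearEquiv.toLinearMap ∘ₗ f.toLinearEquiv.toLinearMap) =
          (f'.toLinearEquiv.toLinearMap ∘ₗ U.toLinearEquiv.toLinearMap) := by
        apply b.toBasis.ext
        intro x
        rw [OrthonormalBasis.coe_toBasis]
        show U (f (b x)) = f' (U (b x))
        rw [hx, hU]
      intro v
      exact LinearMap.congr_fun h2 v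
    show h.1 * A.1 = A'.1 * h.1
    have h3 : ∀ v : Fin m → ℝ, (h.1 * A.1).mulVec v = (A'.1 * h.1).mulVec v := by
      intro v
      rw [← Matrix.mulVec_mulVec, ← Matrix.mulVec_mulVec]
      have h4 := congrArg WithLp.ofLp (h1 (WithLp.toLp 2 v))
      rw [hh, hf, hf', hh] at h4
      exact h4
    exact Matrix.ext_of_mulVec_single fun i => h3 _
  obtain ⟨h, hh⟩ := ofIso44 U
  refine ⟨h, conj I I' fI fI' h hh hfI hfI' ?_, conj J J' fJ fJ' h hh hfJ hfJ' ?_⟩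
  · rintro ⟨i, k⟩
    obtain ⟨⟨a0, a1, a2, a3⟩, _⟩ := hb i
    obtain ⟨⟨c0, c1, c2, c3⟩, _⟩ := hb' i
    fin_cases k
    · show U (fI (b (i, 0))) = fI' (b' (i, 0))
      rw [a0, c0, hU]
    · show U (fI (b (i, 1))) = fI' (b' (i, 1))
      rw [a1, c1, map_neg, hU]
    · show U (fI (b (i, 2))) = fI' (b' (i, 2))
      rw [a2, c2, hU]
    · show U (fI (b (i, 3))) = fI' (b' (i, 3))
      rw [a3, c3, map_neg, hU]
  · rintro ⟨i, k⟩
    obtain ⟨_, a0, a1, a2, a3⟩ := hb i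
    obtain ⟨_, c0, c1, c2, c3⟩ := hb' i
    fin_cases k
    · show U (fJ (b (i, 0))) = fJ' (b' (i, 0))
      rw [a0, c0, hU]
    · show U (fJ (b (i, 1))) = fJ' (b' (i, 1))
      rw [a1, c1, map_neg, hU]
    · show U (fJ (b (i, 2))) = fJ' (b' (i, 2))
      rw [a2, c2, map_neg, hU]
    · show U (fJ (b (i, 3))) = fJ' (b' (i, 3))
      rw [a3, c3, hU]

variable {n : ℕ}

/-- GR2 -/
theorem q8_isometric44 (G G' : Subgroup (Matrix.orthogonalGroup (Fin (2 * n)) ℝ))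
    (h : IsQ8 G) (h' : IsQ8 G') : Isometric G G' := by
  obtain ⟨I, J, hI, hJ, hIJ, hG⟩ := h
  obtain ⟨I', J', hI', hJ', hIJ', hG'⟩ := h'
  obtain ⟨k, k1, k2⟩ := frame44 I J I' J' hI hJ hIJ hI' hJ' hIJ'
  refine ⟨k, fun g => ?_⟩
  have key : ∀ x x', k * x * k⁻¹ = x' → (g = x ↔ k * g * k⁻¹ = x') := by
    intro x x' hx
    constructor
    · rintro rfl; exact hx
    · intro h1
      rw [← hx] at h1
      exact mul_left_cancel (mul_right_cancel h1)
  have kneg : ∀ x x', k * x * k⁻¹ = x' → k * (-x) * k⁻¹ = -x' := by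
    intro x x' hx
    rw [mul_neg, neg_mul, hx]
  have k3 : k * (I * J) * k⁻¹ = I' * J' := by
    rw [← k1, ← k2]; group
  have k0 : k * 1 * k⁻¹ = 1 := by group
  rw [hG, hG', key _ _ k0, key _ _ (kneg _ _ k0), key _ _ k1, key _ _ (kneg _ _ k1), key _ _ k2,
    key _ _ (kneg _ _ k2), key _ _ k3, key _ _ (kneg _ _ k3)]

/-- an element of order six acting freely satisfies `a² - a + 1 = 0` -/
theorem six44 {m : ℕ} (a : Matrix.orthogonalGroup (Fin m) ℝ) (h3 : a ^ 3 = -1)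
    (hf : ∀ x : Fin m → ℝ,
      ((a ^ 2 : Matrix.orthogonalGroup (Fin m) ℝ) : Matrix (Fin m) (Fin m) ℝ).mulVec x = x →
        x = 0) :
    a.1 * a.1 = a.1 - 1 := by
  have hc : a.1 ^ 3 = -1 := congrArg Subtype.val h3
  have h4 : a.1 ^ 4 = -a.1 := by rw [pow_succ, hc, neg_mul, one_mul]
  have h6 : a.1 ^ 6 = 1 := by
    rw [show 6 = 3 + 3 from rfl, pow_add, hc]; simp
  have h5 : a.1 ^ 4 + a.1 ^ 2 + 1 = 0 := by
    apply Matrix.ext_of_mulVec_single
    intro i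
    rw [Matrix.zero_mulVec]
    apply hf
    show (a.1 ^ 2).mulVec _ = _
    rw [Matrix.mulVec_mulVec]
    congr 1
    have e : a.1 ^ 2 * (a.1 ^ 4 + a.1 ^ 2 + 1) = a.1 ^ 6 + a.1 ^ 4 + a.1 ^ 2 := by noncomm_ring
    rw [e, h6]
    abel
  rw [h4] at h5
  have h7 : a.1 * a.1 = a.1 ^ 2 := (pow_two _).symm
  rw [h7]
  have h8 : a.1 ^ 2 = (-a.1 + a.1 ^ 2 + 1) + (a.1 - 1) := by abel
  rw [h8, h5, zero_add]

/-- the complex structure attached to an element of order six -/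
theorem cs44 {m : ℕ} (a b : Matrix.orthogonalGroup (Fin m) ℝ) (ha : a.1 * a.1 = a.1 - 1)
    (hab : b * a = a⁻¹ * b) :
    ∃ K : Matrix.orthogonalGroup (Fin m) ℝ, K * K = -1 ∧ K * b = -(b * K) ∧
      a.1 = (1 / 2 : ℝ) • (1 + √3 • K.1) := by
  have hs : √3 * √3 = (3 : ℝ) := Real.mul_self_sqrt (by norm_num)
  have hs0 : √3 ≠ (0 : ℝ) := by positivity
  have hinv : (a⁻¹ : Matrix.orthogonalGroup (Fin m) ℝ).1 = 1 - a.1 := by
    have h1 : (a⁻¹ : Matrix.orthogonalGroup (Fin m) ℝ).1 * a.1 = 1 :=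
      congrArg Subtype.val (inv_mul_cancel a)
    have h2 : a.1 * (1 - a.1) = 1 := by
      rw [mul_sub, mul_one, ha]; abel
    calc (a⁻¹ : Matrix.orthogonalGroup (Fin m) ℝ).1
        = (a⁻¹ : Matrix.orthogonalGroup (Fin m) ℝ).1 * (a.1 * (1 - a.1)) := by rw [h2, mul_one]
      _ = 1 - a.1 := by rw [← mul_assoc, h1, one_mul]
  have hstar : star a.1 = 1 - a.1 := hinv
  let M : Matrix (Fin m) (Fin m) ℝ := (√3)⁻¹ • ((2 : ℝ) • a.1 - 1)
  have hMs : star M = -M := by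
    show star ((√3)⁻¹ • ((2 : ℝ) • a.1 - 1)) = -((√3)⁻¹ • ((2 : ℝ) • a.1 - 1))
    rw [star_smul, star_sub, star_smul, hstar, star_one, star_trivial, star_trivial, ← smul_neg]
    congr 1
    rw [smul_sub, two_smul, two_smul]
    abel
  have hMM : M * M = -1 := by
    show ((√3)⁻¹ • ((2 : ℝ) • a.1 - 1)) * ((√3)⁻¹ • ((2 : ℝ) • a.1 - 1)) = -1
    rw [smul_mul_smul_comm]
    have e1 : ((2 : ℝ) • a.1 - 1) * ((2 : ℝ) • a.1 - 1) = (-3 : ℝ) • 1 := by
      rw [sub_mul, mul_sub, one_mul, mul_one, smul_mul_smul_comm, ha, smul_sub]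
      module
    rw [e1, smul_smul]
    have e2 : (√3)⁻¹ * (√3)⁻¹ * (-3) = (-1 : ℝ) := by
      field_simp
      nlinarith
    rw [e2, neg_one_smul]
  have hO : M ∈ Matrix.orthogonalGroup (Fin m) ℝ := by
    rw [Matrix.mem_orthogonalGroup_iff]
    first
      | rw [hMs, mul_neg, hMM, neg_neg]
      | (show M * star M = 1
         rw [hMs, mul_neg, hMM, neg_neg])
  refine ⟨⟨M, hO⟩, Subtype.ext hMM, Subtype.ext ?_, ?_⟩
  · show M * b.1 = -(b.1 * M)
    have h1 : b.1 * a.1 = (1 - a.1) * b.1 := by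
      have := congrArg Subtype.val hab
      rw [← hinv]
      exact this
    show ((√3)⁻¹ • ((2 : ℝ) • a.1 - 1)) * b.1 = -(b.1 * ((√3)⁻¹ • ((2 : ℝ) • a.1 - 1)))
    rw [smul_mul_assoc, mul_smul_comm, ← smul_neg]
    congr 1
    rw [sub_mul, mul_sub, mul_smul_comm, h1, smul_mul_assoc, sub_mul, one_mul, mul_one]
    module
  · show a.1 = (1 / 2 : ℝ) • (1 + √3 • ((√3)⁻¹ • ((2 : ℝ) • a.1 - 1)))
    rw [smul_smul, mul_inv_cancel₀ hs0, one_smul]
    module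

/-- GR3 -/
theorem dic_isometric44 (G G' : Subgroup (Matrix.orthogonalGroup (Fin (2 * n)) ℝ))
    (fr : ActsFreely G) (fr' : ActsFreely G')
    (h : IsDic G) (h' : IsDic G') : Isometric G G' := by
  obtain ⟨a, b, ha3, ha2, hb, hba, hG⟩ := h
  obtain ⟨a', b', ha3', ha2', hb', hba', hG'⟩ := h'
  have ha := six44 a ha3 (fr _ ((hG _).2 ⟨2, Or.inl rfl⟩) ha2)
  have ha' := six44 a' ha3' (fr' _ ((hG' _).2 ⟨2, Or.inl rfl⟩) ha2')
  obtain ⟨K, hK, hKb, haK⟩ := cs44 a b ha hba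
  obtain ⟨K', hK', hKb', haK'⟩ := cs44 a' b' ha' hba'
  obtain ⟨k, k1, k2⟩ := frame44 K b K' b' hK hb hKb hK' hb' hKb'
  have k3 : k * a * k⁻¹ = a' := by
    rw [mul_inv_eq_iff_eq_mul] at k1 ⊢
    apply Subtype.ext
    have k4 : k.1 * K.1 = K'.1 * k.1 := congrArg Subtype.val k1
    show k.1 * a.1 = a'.1 * k.1
    rw [haK, haK', mul_smul_comm, smul_mul_assoc, mul_add, add_mul, mul_one, one_mul,
      mul_smul_comm, smul_mul_assoc, k4]
  have k5 : ∀ i : ℕ, k * a ^ i * k⁻¹ = a' ^ i := by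
    intro i
    rw [← k3, conj_pow]
  have k6 : ∀ i : ℕ, k * (a ^ i * b) * k⁻¹ = a' ^ i * b' := by
    intro i
    rw [← k5, ← k2]; group
  refine ⟨k, fun g => ?_⟩
  have key : ∀ x x', k * x * k⁻¹ = x' → (g = x ↔ k * g * k⁻¹ = x') := by
    intro x x' hx
    constructor
    · rintro rfl; exact hx
    · intro h1
      rw [← hx] at h1
      exact mul_left_cancel (mul_right_cancel h1)
  rw [hG, hG']
  constructor
  · rintro ⟨i, h1 | h1⟩
    · exact ⟨i, Or.inl ((key _ _ (k5 i)).1 h1)⟩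
    · exact ⟨i, Or.inr ((key _ _ (k6 i)).1 h1)⟩
  · rintro ⟨i, h1 | h1⟩
    · exact ⟨i, Or.inl ((key _ _ (k5 i)).2 h1)⟩
    · exact ⟨i, Or.inr ((key _ _ (k6 i)).2 h1)⟩

end quat44

end MPc53f59
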