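import Mathlib
import Pool.Agent.Lib.MP_c53f59_gt.Four32

namespace Pool.Agent.Lib.MP_c53f59_gt

open Polynomial

namespace G32

open K32 F32

/-- an element of order 11 modulo 529 with `r + 1 / r = 60` -/
def r529 : ZMod 529 := 255

noncomputable def tt (i : ZMod 5) : ℤ[X] := X ^ (2 ^ i.val) + X ^ (10 * 2 ^ i.val)

noncomputable def GG (a : ZMod 5 → ℕ) (w : ℤ) : ℤ[X] :=
  ∑ j : ZMod 5, ∏ x : ZMod 5, (C w - tt (x + j)) ^ a x

theorem tt_ze (i : ZMod 5) : aeval S32.ze (tt i) = ((th i : ℝ) : ℂ) := by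
  unfold tt
  rw [th_cc, S32.cc_eq, map_add, map_pow, map_pow, aeval_X]

theorem GG_ze (a : ZMod 5 → ℕ) (w : ℤ) :
    aeval S32.ze (GG a w) = (((T11 a).eval (w : ℝ) : ℝ) : ℂ) := by
  unfold GG T11
  rw [eval_finsetSum, map_sum, Complex.ofReal_sum]
  apply Finset.sum_congr rfl
  intro j _
  rw [eval_prod, map_prod, Complex.ofReal_prod]
  apply Finset.prod_congr rfl
  intro x _
  rw [map_pow, map_sub, tt_ze, aeval_C, eval_pow, eval_sub, eval_X, eval_C]
  simp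

theorem tt_r : ∀ i : ZMod 5, r529 ^ (2 ^ i.val) + r529 ^ (10 * 2 ^ i.val) = c529 i := by
  decide +kernel

theorem GG_r (a : ZMod 5 → ℕ) (w : ℤ) :
    aeval r529 (GG a w) = T60 c529 a (w : ZMod 529) := by
  unfold GG T60
  rw [map_sum]
  apply Finset.sum_congr rfl
  intro j _
  rw [map_prod]
  apply Finset.prod_congr rfl
  intro x _
  rw [map_pow, map_sub, aeval_C]
  unfold tt
  rw [map_add, map_pow, map_pow, aeval_X, tt_r]
  simp

theorem cyc_r : aeval r529 (cyclotomic 11 ℤ) = 0 := by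
  have h11 : Nat.Prime 11 := by norm_num
  have : Fact (Nat.Prime 11) := ⟨h11⟩
  rw [cyclotomic_prime ℤ 11, map_sum]
  simp only [map_pow, aeval_X]
  decide +kernel

/-- TRANSFER -/
theorem transfer31 (a b : ZMod 5 → ℕ) (h : T11 a = T11 b) (w : ZMod 529) :
    T60 c529 a w = T60 c529 b w := by
  have h1 : aeval S32.ze (GG a (w.val : ℤ) - GG b (w.val : ℤ)) = 0 := by
    rw [map_sub, GG_ze, GG_ze, h, sub_self]
  have h2 : minpoly ℤ S32.ze ∣ GG a (w.val : ℤ) - GG b (w.val : ℤ) :=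
    minpoly.isIntegrallyClosed_dvd (S32.ze_prim.isIntegral (by norm_num)) h1
  rw [← cyclotomic_eq_minpoly S32.ze_prim (by norm_num)] at h2
  obtain ⟨q, hq⟩ := h2
  have h3 := congrArg (aeval r529) hq
  rw [map_mul, cyc_r, zero_mul, map_sub, GG_r, GG_r, sub_eq_zero] at h3
  have hw : (((w.val : ℤ)) : ZMod 529) = w := by
    push_cast
    exact ZMod.natCast_zmod_val w
  rw [hw] at h3
  exact h3

/-- core_four -/
theorem core_four (a b : ZMod 5 → ℕ) (ha : ∑ x, a x = 4) (hb : ∑ x, b x = 4)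
    (ha2 : ∀ x, a x ≤ 2) (hb2 : ∀ x, b x ≤ 2) (h : T11 a = T11 b) :
    ∃ s : ZMod 5, ∀ x, b x = a (x + s) :=
  core_four_of transfer31 a b ha hb ha2 hb2 h

end G32

end Pool.Agent.Lib.MP_c53f59_gt
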