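import Mathlib
import Pool.Agent.Lib.MP_c53f59_gt.Main0
import Pool.Agent.Lib.MP_c53f59_gt.Tr32
import Pool.Agent.Lib.MP_c53f59_gt.Quat44

/-!
All rows together, over the finite check.
-/

namespace MPc53f59

open Pool.Agent.Lib.MP_c53f59_gt

theorem main_of_check
    (hchk : ∀ e e' : ZMod 5 → ℕ, ∑ x, e x = ∑ x, e' x → ∑ x, e x ≤ 108 →
      (∃ x y, x ≠ y ∧ e x = 0 ∧ e y = 0) → (∃ x, e' x = 0) →
      (∀ w : ZMod 529, K32.T60 F32.c529 e w = K32.T60 F32.c529 e' w) →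
      (∃ s, ∀ x, e' x = e (x + s)) ∨ (∑ x, e x = 2 ∨ ∑ x, e x = 3 ∨ ∑ x, e x = 4))
    (n : ℕ) (hn : 3 ≤ n) :
    ((n % 5 = 1 ∨ n % 5 = 2 ∨ n % 5 = 3) → n ≠ 6 → IsLeast (pairOrders n) 11) ∧
    ((n % 5 = 0 ∨ n % 5 = 4 ∨ n = 6) → ∀ m ∈ pairOrders n, 13 ≤ m) ∧
    ((n % 5 = 0 ∨ n % 5 = 4) → (n % 6 = 1 ∨ n % 6 = 2 ∨ n % 6 = 3 ∨ n % 6 = 4) →
      IsLeast (pairOrders n) 13) :=
  main_of
    (fun a b k ha hb h2 h3 h4 za zb h =>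
      K32.core_of F32.c529 G32.transfer31 hchk a b k ha hb ⟨h2, h3, h4⟩ za zb h)
    (fun a b ha hb ha2 hb2 h => G32.core_four a b ha hb ha2 hb2 h)
    (fun G G' => q8_isometric44 G G') (fun G G' => dic_isometric44 G G') n hn

end MPc53f59
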