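import Mathlib
import Pool.Agent.Lib.MP_c53f59_gt.Main1
import Pool.Agent.Lib.MP_c53f59_gt.Chk60

/-!
The main theorem of this folder.
-/

namespace MPc53f59

open Pool.Agent.Lib.MP_c53f59_gt

theorem main (n : ℕ) (hn : 3 ≤ n) :
    ((n % 5 = 1 ∨ n % 5 = 2 ∨ n % 5 = 3) → n ≠ 6 → IsLeast (pairOrders n) 11) ∧
    ((n % 5 = 0 ∨ n % 5 = 4 ∨ n = 6) → ∀ m ∈ pairOrders n, 13 ≤ m) ∧
    ((n % 5 = 0 ∨ n % 5 = 4) → (n % 6 = 1 ∨ n % 6 = 2 ∨ n % 6 = 3 ∨ n % 6 = 4) →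
      IsLeast (pairOrders n) 13) :=
  main_of_check (fun e e' hs hk h2 h1 hT => K60.check60 e e' hs hk h2 h1 hT) n hn

end MPc53f59
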