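import Pool.Agent.Lib.MP_c53f59_gt.Defs2

/-!
Row GR6: a quaternion or dicyclic group is not isospectral to a lens space group of the same
order.
-/

namespace MPc53f59

open Filter Topology

namespace NC94

section
variable {ι : Type} [Fintype ι] [DecidableEq ι]

theorem toC_pow (g : Matrix.orthogonalGroup ι ℝ) (m : ℕ) : toC (g ^ m) = (toC g) ^ m := by
  unfold toC
  have h : ((g ^ m : Matrix.orthogonalGroup ι ℝ) : Matrix ι ι ℝ) = (g : Matrix ι ι ℝ) ^ m := rfl
  rw [h]
  exact map_pow (Complex.ofRealHom.mapMatrix (m := ι)) (g : Matrix ι ι ℝ) m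

theorem toC_one : toC (1 : Matrix.orthogonalGroup ι ℝ) = 1 :=
  map_one (Complex.ofRealHom.mapMatrix (m := ι))

theorem det_ne (g : Matrix.orthogonalGroup ι ℝ) (m : ℕ) (hg : g ^ m = 1) (z : ℂ)
    (hz : z ^ m ≠ 1) : (1 - z • toC g).det ≠ 0 := by
  intro h0
  have h1 : (∑ i ∈ Finset.range m, (z • toC g) ^ i) * (1 - z • toC g) =
      1 - (z • toC g) ^ m := by
    have := geom_sum_mul (z • toC g) m
    rw [← neg_sub (z • toC g) 1, mul_neg, this, neg_sub]
  have h2 : (z • toC g) ^ m = (z ^ m) • (1 : Matrix ι ι ℂ) := by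
    rw [smul_pow, ← toC_pow, hg, toC_one]
  have h3 : (1 : Matrix ι ι ℂ) - (z ^ m) • 1 = (1 - z ^ m) • 1 := by rw [sub_smul, one_smul]
  have h4 := congrArg Matrix.det h1
  rw [Matrix.det_mul, h0, mul_zero, h2, h3, Matrix.det_smul, Matrix.det_one, mul_one] at h4
  exact pow_ne_zero _ (sub_ne_zero.2 (Ne.symm hz)) h4.symm

theorem det_cont (g : Matrix.orthogonalGroup ι ℝ) :
    Continuous fun φ : ℝ => (1 - Complex.exp (φ * Complex.I) • toC g).det := by
  have h : Continuous fun φ : ℝ => Complex.exp (φ * Complex.I) := by fun_prop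
  have h2 : Continuous fun φ : ℝ =>
      (1 : Matrix ι ι ℂ) - Complex.exp (φ * Complex.I) • toC g :=
    continuous_const.sub (h.smul continuous_const)
  exact h2.matrix_det

end

/-! ### Cosines -/

theorem cos_mod (q : ℕ) (hq : 0 < q) (k : ℕ) :
    Real.cos (2 * Real.pi * (k : ℝ) / q) = Real.cos (2 * Real.pi * ((k % q : ℕ) : ℝ) / q) := by
  have hq0 : (q : ℝ) ≠ 0 := by positivity
  have h : (k : ℝ) = ((k % q : ℕ) : ℝ) + ((k / q : ℕ) : ℝ) * q := by
    have := Nat.mod_add_div k q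
    rw [mul_comm] at this
    exact_mod_cast this.symm
  conv_lhs => rw [h]
  rw [← Real.cos_add_nat_mul_two_pi (2 * Real.pi * ((k % q : ℕ) : ℝ) / q) (k / q)]
  congr 1
  field_simp

theorem cos_le (q : ℕ) (hq : 3 ≤ q) (k : ℕ) (hk : ¬ q ∣ k) :
    Real.cos (2 * Real.pi * (k : ℝ) / q) ≤ Real.cos (2 * Real.pi / q) := by
  have hq0 : (0 : ℝ) < q := by positivity
  have hpi := Real.pi_pos
  rw [cos_mod q (by omega) k]
  set r := k % q with hr
  have hr1 : 1 ≤ r := Nat.one_le_iff_ne_zero.2 fun h => hk (Nat.dvd_of_mod_eq_zero h)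
  have hr2 : r < q := Nat.mod_lt _ (by omega)
  have key : ∀ t : ℕ, 1 ≤ t → 2 * t ≤ q →
      Real.cos (2 * Real.pi * (t : ℝ) / q) ≤ Real.cos (2 * Real.pi / q) := by
    intro t ht1 ht2
    have h1 : (1 : ℝ) ≤ t := by exact_mod_cast ht1
    have h2 : 2 * (t : ℝ) ≤ q := by exact_mod_cast ht2
    refine Real.cos_le_cos_of_nonneg_of_le_pi (by positivity) ?_ ?_
    · rw [div_le_iff₀ hq0]
      nlinarith
    · rw [div_le_div_iff_of_pos_right hq0]
      nlinarith
  rcases le_or_gt (2 * r) q with h | h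
  · exact key r hr1 h
  · have h3 := key (q - r) (by omega) (by omega)
    have h4 : 2 * Real.pi * (((q - r : ℕ) : ℕ) : ℝ) / q = 2 * Real.pi - 2 * Real.pi * (r : ℝ) / q := by
      rw [Nat.cast_sub hr2.le]
      field_simp
    rw [h4, Real.cos_two_pi_sub] at h3
    exact h3

theorem cos_ne (q : ℕ) (hq : 3 ≤ q) (k : ℕ) (hk : ¬ Nat.Coprime k q) :
    Real.cos (2 * Real.pi * (k : ℝ) / q) ≠ Real.cos (2 * Real.pi / q) := by
  intro h
  have hq0 : (0 : ℝ) < q := by positivity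
  have hpi := Real.pi_pos
  obtain ⟨m, hm⟩ := Real.cos_eq_cos_iff.1 h
  apply hk
  rw [← Nat.isCoprime_iff_coprime]
  rcases hm with hm | hm
  · have h1 : (1 : ℝ) = m * q + k := by
      field_simp at hm
      nlinarith
    have h2 : (1 : ℤ) = m * q + k := by exact_mod_cast h1
    exact ⟨1, m, by linarith⟩
  · have h1 : (1 : ℝ) = m * q - k := by
      field_simp at hm
      nlinarith
    have h2 : (1 : ℤ) = m * q - k := by exact_mod_cast h1
    exact ⟨-1, m, by linarith⟩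

/-! ### The function phi near its largest pole -/

theorem not_tendsto {n : ℕ} (q : ℕ) (hn : 0 < n) (hq : 3 ≤ q) (s : Fin n → ℕ)
    (hs : ∀ i, Nat.Coprime (s i) q) {l : Filter ℝ} [l.NeBot] (u : ℝ → ℝ)
    (hu : Tendsto u l (𝓝 (2 * Real.cos (2 * Real.pi / q))))
    (h1 : ∀ᶠ x in l, 2 * Real.cos (2 * Real.pi / q) < u x) (h2 : ∀ᶠ x in l, u x ≤ 2) :
    ¬ Tendsto (fun x => (u x - 2 * Real.cos (2 * Real.pi / q)) * phi q s (u x)) l (𝓝 0) := by
  classical
  intro hT
  set w0 := 2 * Real.cos (2 * Real.pi / q) with hw0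
  set F : ℕ → ℝ → ℝ := fun j w =>
    ∏ i, (w - 2 * Real.cos (2 * Real.pi * ((j * s i : ℕ) : ℝ) / (q : ℝ)))⁻¹ with hF
  set P := (Finset.range q).filter fun j => Nat.Coprime j q with hP
  set N := (Finset.range q).filter fun j => ¬ Nat.Coprime j q with hN
  have hphi : ∀ w, phi q s w = ∑ j ∈ P, F j w + ∑ j ∈ N, F j w := by
    intro w
    unfold phi
    rw [hP, hN, Finset.sum_filter_add_sum_filter_not]
  have hB : ContinuousAt (fun w => ∑ j ∈ N, F j w) w0 := by
    refine tendsto_finsetSum _ fun j hj => ?_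
    refine tendsto_finsetProd _ fun i _ => ?_
    refine Tendsto.inv₀ (by
      have : ContinuousAt (fun w : ℝ => w -
        2 * Real.cos (2 * Real.pi * ((j * s i : ℕ) : ℝ) / (q : ℝ))) w0 := by fun_prop
      exact this) ?_
    have hj' := (Finset.mem_filter.1 hj).2
    have h3 : ¬ Nat.Coprime (j * s i) q := fun h => hj' (Nat.Coprime.coprime_mul_right h)
    have h4 := cos_ne q hq (j * s i) h3
    rw [hw0, sub_ne_zero]
    intro h5
    exact h4 (by linarith)
  have hB0 : Tendsto (fun x => (u x - w0) * ∑ j ∈ N, F j (u x)) l (𝓝 0) := by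
    have h3 : Tendsto (fun x => u x - w0) l (𝓝 0) := by
      have := hu.sub_const w0
      rwa [sub_self] at this
    have h4 := h3.mul (hB.tendsto.comp hu)
    rwa [zero_mul] at h4
  have hA0 : Tendsto (fun x => (u x - w0) * ∑ j ∈ P, F j (u x)) l (𝓝 0) := by
    have h3 := hT.sub hB0
    rw [sub_zero] at h3
    refine h3.congr fun x => ?_
    rw [hphi]
    ring
  -- the lower bound
  obtain ⟨j1, hj1⟩ : ∃ j1, s ⟨0, hn⟩ * j1 % q = 1 := by
    obtain ⟨m, -, hm⟩ := Nat.exists_mul_mod_eq_one_of_coprime (hs ⟨0, hn⟩) (by omega)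
    exact ⟨m, hm⟩
  set j0 := j1 % q with hj0
  have hj0s : (j0 * s ⟨0, hn⟩) % q = 1 := by
    rw [hj0, mul_comm, Nat.mul_mod, Nat.mod_mod, ← Nat.mul_mod, hj1]
  have hj0P : j0 ∈ P := by
    rw [hP, Finset.mem_filter, Finset.mem_range]
    refine ⟨Nat.mod_lt _ (by omega), ?_⟩
    have h3 : Nat.Coprime (j0 * s ⟨0, hn⟩) q := by
      unfold Nat.Coprime
      rw [Nat.gcd_comm, Nat.gcd_rec, hj0s, Nat.gcd_one_left]
    exact Nat.Coprime.coprime_mul_right h3
  have hcop : ∀ j ∈ P, ∀ i, ¬ q ∣ j * s i := by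
    intro j hj i hd
    have h3 : Nat.Coprime (j * s i) q := Nat.Coprime.mul_left (Finset.mem_filter.1 hj).2 (hs i)
    have h4 := Nat.Coprime.eq_one_of_dvd h3.symm hd
    omega
  have hfac : ∀ w, w0 < w → w ≤ 2 → ∀ j ∈ P, ∀ i,
      1 / 4 ≤ (w - 2 * Real.cos (2 * Real.pi * ((j * s i : ℕ) : ℝ) / (q : ℝ)))⁻¹ := by
    intro w hw1 hw2 j hj i
    have h3 := cos_le q hq (j * s i) (hcop j hj i)
    have h4 := Real.neg_one_le_cos (2 * Real.pi * ((j * s i : ℕ) : ℝ) / (q : ℝ))
    rw [one_div]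
    exact inv_anti₀ (by linarith) (by linarith)
  have hlow : ∀ᶠ x in l, (1 / 4 : ℝ) ^ (Finset.univ.erase (⟨0, hn⟩ : Fin n)).card ≤
      (u x - w0) * ∑ j ∈ P, F j (u x) := by
    filter_upwards [h1, h2] with x hx1 hx2
    have h3 : F j0 (u x) ≤ ∑ j ∈ P, F j (u x) :=
      Finset.single_le_sum (f := fun j => F j (u x)) (fun j hj =>
        Finset.prod_nonneg fun i _ => by
          have := hfac (u x) hx1 hx2 j hj i
          linarith) hj0P
    have h4 : F j0 (u x) = (u x - w0)⁻¹ * ∏ i ∈ Finset.univ.erase (⟨0, hn⟩ : Fin n),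
        (u x - 2 * Real.cos (2 * Real.pi * ((j0 * s i : ℕ) : ℝ) / (q : ℝ)))⁻¹ := by
      simp only [hF]
      rw [← Finset.mul_prod_erase Finset.univ _ (Finset.mem_univ (⟨0, hn⟩ : Fin n))]
      congr 2
      rw [cos_mod q (by omega), hj0s, hw0]
      congr 3
      push_cast
      ring
    have h5 : (1 / 4 : ℝ) ^ (Finset.univ.erase (⟨0, hn⟩ : Fin n)).card ≤
        ∏ i ∈ Finset.univ.erase (⟨0, hn⟩ : Fin n),
          (u x - 2 * Real.cos (2 * Real.pi * ((j0 * s i : ℕ) : ℝ) / (q : ℝ)))⁻¹ := by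
      rw [← Finset.prod_const]
      exact Finset.prod_le_prod (fun _ _ => by norm_num) fun i _ => hfac (u x) hx1 hx2 j0 hj0P i
    have hpos : 0 < u x - w0 := sub_pos.2 hx1
    calc (1 / 4 : ℝ) ^ (Finset.univ.erase (⟨0, hn⟩ : Fin n)).card
        ≤ ∏ i ∈ Finset.univ.erase (⟨0, hn⟩ : Fin n),
          (u x - 2 * Real.cos (2 * Real.pi * ((j0 * s i : ℕ) : ℝ) / (q : ℝ)))⁻¹ := h5
      _ = (u x - w0) * F j0 (u x) := by
          rw [h4, ← mul_assoc, mul_inv_cancel₀ hpos.ne', one_mul]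
      _ ≤ (u x - w0) * ∑ j ∈ P, F j (u x) := mul_le_mul_of_nonneg_left h3 hpos.le
  have h6 := ge_of_tendsto hA0 hlow
  have h7 : (0 : ℝ) < (1 / 4 : ℝ) ^ (Finset.univ.erase (⟨0, hn⟩ : Fin n)).card := by positivity
  linarith

/-! ### Orders of the elements -/

theorem q8_pow {n : ℕ} {G : Subgroup (Matrix.orthogonalGroup (Fin (2 * n)) ℝ)} (h : IsQ8 G)
    (g : Matrix.orthogonalGroup (Fin (2 * n)) ℝ) (hg : g ∈ G) : g ^ 4 = 1 := by
  obtain ⟨I, J, hI, hJ, hIJ, hG⟩ := h
  have hK : (I * J) * (I * J) = -1 := by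
    calc (I * J) * (I * J) = I * (J * I) * J := by simp only [mul_assoc]
      _ = I * (-(I * J)) * J := by rw [hIJ, neg_neg]
      _ = -((I * I) * (J * J)) := by
          rw [mul_neg, neg_mul]
          simp only [mul_assoc]
      _ = -1 := by rw [hI, hJ]; simp
  have h4 : ∀ x : Matrix.orthogonalGroup (Fin (2 * n)) ℝ, x * x = -1 → x ^ 4 = 1 := by
    intro x hx
    have : x ^ 4 = (x * x) * (x * x) := by
      rw [pow_succ, pow_succ, pow_succ, pow_one]
      simp only [mul_assoc]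
    rw [this, hx]
    simp
  have h4n : ∀ x : Matrix.orthogonalGroup (Fin (2 * n)) ℝ, x ^ 4 = 1 → (-x) ^ 4 = 1 := by
    intro x hx
    rw [Even.neg_pow (by decide), hx]
  rcases (hG g).1 hg with h | h | h | h | h | h | h | h
  · rw [h, one_pow]
  · rw [h]
    exact h4n 1 (one_pow _)
  · rw [h]
    exact h4 I hI
  · rw [h]
    exact h4n _ (h4 I hI)
  · rw [h]
    exact h4 J hJ
  · rw [h]
    exact h4n _ (h4 J hJ)
  · rw [h]
    exact h4 _ hK
  · rw [h]
    exact h4n _ (h4 _ hK)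

theorem dic_pow {n : ℕ} {G : Subgroup (Matrix.orthogonalGroup (Fin (2 * n)) ℝ)} (h : IsDic G)
    (g : Matrix.orthogonalGroup (Fin (2 * n)) ℝ) (hg : g ∈ G) : g ^ 4 = 1 ∨ g ^ 6 = 1 := by
  obtain ⟨a, b, ha, -, hb, hba, hG⟩ := h
  have ha6 : a ^ 6 = 1 := by
    rw [show (6 : ℕ) = 3 * 2 by norm_num, pow_mul, ha]
    simp
  obtain ⟨i, hi | hi⟩ := (hG g).1 hg
  · right
    rw [hi, ← pow_mul, mul_comm (i : ℕ) 6, pow_mul, ha6, one_pow]
  · left
    have hbp : ∀ k : ℕ, b * a ^ k = (a⁻¹) ^ k * b := by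
      intro k
      induction k with
      | zero => simp
      | succ k ih =>
        rw [pow_succ, ← mul_assoc, ih, mul_assoc, hba, ← mul_assoc, ← pow_succ]
    have hsq : g * g = -1 := by
      rw [hi]
      calc a ^ (i : ℕ) * b * (a ^ (i : ℕ) * b) = a ^ (i : ℕ) * (b * a ^ (i : ℕ)) * b := by
            simp only [mul_assoc]
        _ = a ^ (i : ℕ) * (a⁻¹) ^ (i : ℕ) * (b * b) := by
            rw [hbp]
            simp only [mul_assoc]
        _ = -1 := by
            rw [inv_pow, mul_inv_cancel, one_mul, hb]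
    have : g ^ 4 = (g * g) * (g * g) := by
      rw [pow_succ, pow_succ, pow_succ, pow_one]
      simp only [mul_assoc]
    rw [this, hsq]
    simp

end NC94

open NC94 in
/-- GR6 with the rows it needs as hypotheses. -/
theorem noncyclic_ne94_aux {n : ℕ} (hn : 0 < n)
    (G G' : Subgroup (Matrix.orthogonalGroup (Fin (2 * n)) ℝ)) (q : ℕ) (hq : q = 8 ∨ q = 12)
    (hc : Nat.card G = q) (hG : IsQ8 G ∨ IsDic G) (s : Fin n → ℕ)
    (hs : ∀ i, 0 < s i ∧ 2 * s i < q ∧ Nat.Coprime (s i) q)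
    (hG' : Isospectral G' (lens q s))
    (hspec : ∀ (G₁ G₂ : Subgroup (Matrix.orthogonalGroup (Fin (2 * n)) ℝ))
      [Fintype G₁] [Fintype G₂], Isospectral G₁ G₂ → ∀ z : ℂ,
      (∀ g ∈ G₁, (1 - z • toC g).det ≠ 0) → (∀ g ∈ G₂, (1 - z • toC g).det ≠ 0) →
      (Fintype.card G₂ : ℂ) *
        ∑ g : G₁, ((1 - z • toC (g : Matrix.orthogonalGroup (Fin (2 * n)) ℝ)).det)⁻¹ =
      (Fintype.card G₁ : ℂ) *
        ∑ g : G₂, ((1 - z • toC (g : Matrix.orthogonalGroup (Fin (2 * n)) ℝ)).det)⁻¹)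
    (hfree : Nat.card (lens q s) = q)
    (hsum : ∀ [Fintype (lens q s)] (f : Matrix.orthogonalGroup (Fin (2 * n)) ℝ → ℂ),
      ∑ g : lens q s, f g =
        ∑ j ∈ Finset.range q,
          f (rot (fun i => (j : ℝ) * (2 * Real.pi * (s i : ℝ) / (q : ℝ)))))
    (hdet : ∀ (θ : Fin n → ℝ) (z : ℂ), (1 - z • toC (rot θ)).det =
      ∏ i, (1 - 2 * ((Real.cos (θ i) : ℝ) : ℂ) * z + z ^ 2)) : ¬ Isospectral G G' := by
  classical
  intro hiso
  have hiso' : Isospectral G (lens q s) := fun k => (hiso k).trans (hG' k)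
  have hq3 : 3 ≤ q := by omega
  have hq0 : (0 : ℝ) < q := by
    have : 0 < q := by omega
    exact_mod_cast this
  have hpi := Real.pi_pos
  have : Finite G := Nat.finite_of_card_ne_zero (by rw [hc]; omega)
  have : Finite (lens q s) := Nat.finite_of_card_ne_zero (by rw [hfree]; omega)
  have : Fintype G := Fintype.ofFinite _
  have : Fintype (lens q s) := Fintype.ofFinite _
  have hc1 : Fintype.card G = q := by rw [← Nat.card_eq_fintype_card, hc]
  have hc2 : Fintype.card (lens q s) = q := by rw [← Nat.card_eq_fintype_card, hfree]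
  set φ0 : ℝ := 2 * Real.pi / q with hφ0
  have hφ0pos : 0 < φ0 := by positivity
  have hφ0pi : φ0 ≤ Real.pi := by
    rw [hφ0, div_le_iff₀ hq0]
    have : (3 : ℝ) ≤ q := by exact_mod_cast hq3
    nlinarith
  -- exponentials
  have hexp : ∀ (φ : ℝ) (m : ℕ), Complex.exp (φ * Complex.I) ^ m = 1 →
      ∃ k : ℤ, (m : ℝ) * φ = k * (2 * Real.pi) := by
    intro φ m h
    rw [← Complex.exp_nat_mul, Complex.exp_eq_one_iff] at h
    obtain ⟨k, hk⟩ := h
    refine ⟨k, ?_⟩
    have h2 : ((m : ℂ) * φ) = k * (2 * Real.pi) := by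
      have hI := Complex.I_ne_zero
      have : ((m : ℂ) * φ) * Complex.I = (k * (2 * Real.pi)) * Complex.I := by
        rw [mul_assoc, hk]
        ring
      exact mul_right_cancel₀ hI this
    exact_mod_cast h2
  have hnz : ∀ g ∈ G, (1 - Complex.exp (φ0 * Complex.I) • toC g).det ≠ 0 := by
    intro g hg
    have h1 : g ^ 4 = 1 ∨ g ^ 6 = 1 := by
      rcases hG with h | h
      · exact Or.inl (q8_pow h g hg)
      · exact dic_pow h g hg
    have key : ∀ m : ℕ, 0 < m → m < q → g ^ m = 1 →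
        (1 - Complex.exp (φ0 * Complex.I) • toC g).det ≠ 0 := by
      intro m hm0 hmq hgm
      refine det_ne g m hgm _ fun h => ?_
      obtain ⟨k, hk⟩ := hexp φ0 m h
      have h2 : (m : ℝ) = k * q := by
        rw [hφ0] at hk
        field_simp at hk
        nlinarith
      have h3 : (m : ℤ) = k * q := by exact_mod_cast h2
      have h4 : (q : ℤ) ∣ m := ⟨k, by rw [h3]; ring⟩
      have h5 : q ∣ m := by exact_mod_cast h4
      exact absurd (Nat.le_of_dvd hm0 h5) (by omega)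
    rcases h1 with h | h
    · exact key 4 (by norm_num) (by omega) h
    · exact key 6 (by norm_num) (by omega) h
  set Fl : ℝ → ℂ := fun φ => ∑ g : G,
    ((1 - Complex.exp (φ * Complex.I) •
      toC (g : Matrix.orthogonalGroup (Fin (2 * n)) ℝ)).det)⁻¹ with hFl
  have hFlc : ContinuousAt Fl φ0 := by
    refine tendsto_finsetSum _ fun g _ => ?_
    exact (det_cont (g : Matrix.orthogonalGroup (Fin (2 * n)) ℝ)).continuousAt.inv₀
      (hnz g g.2)
  have hev : ∀ᶠ φ : ℝ in 𝓝 φ0, ∀ g ∈ G, (1 - Complex.exp (φ * Complex.I) • toC g).det ≠ 0 := by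
    have h1 : ∀ᶠ φ : ℝ in 𝓝 φ0, ∀ g : G, (1 - Complex.exp (φ * Complex.I) •
        toC (g : Matrix.orthogonalGroup (Fin (2 * n)) ℝ)).det ≠ 0 := by
      rw [eventually_all]
      intro g
      exact (det_cont (g : Matrix.orthogonalGroup (Fin (2 * n)) ℝ)).continuousAt.eventually_ne
        (hnz g g.2)
    filter_upwards [h1] with φ h g hg
    exact h ⟨g, hg⟩
  have hev2 : ∀ᶠ φ : ℝ in 𝓝[<] φ0, 0 < φ ∧ φ < φ0 := by
    filter_upwards [Ioo_mem_nhdsLT hφ0pos] with φ h
    exact h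
  -- the identity
  have hid : ∀ᶠ φ : ℝ in 𝓝[<] φ0,
      ((phi q s (2 * Real.cos φ) : ℝ) : ℂ) = Complex.exp (φ * Complex.I) ^ n * Fl φ := by
    filter_upwards [hev2, nhdsWithin_le_nhds hev] with φ h1 h2
    set z := Complex.exp (φ * Complex.I) with hz
    have hz0 : z ≠ 0 := Complex.exp_ne_zero _
    have hzq : z ^ q ≠ 1 := by
      intro h
      obtain ⟨k, hk⟩ := hexp φ q h
      have h3 : (q : ℝ) * φ < 2 * Real.pi := by
        have := h1.2
        rw [hφ0, lt_div_iff₀ hq0] at this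
        linarith
      have h4 : 0 < (q : ℝ) * φ := mul_pos hq0 h1.1
      rw [hk] at h3 h4
      have h5 : (0 : ℝ) < k := by
        by_contra hcon
        push Not at hcon
        nlinarith
      have h6 : (k : ℝ) < 1 := by
        by_contra hcon
        push Not at hcon
        nlinarith
      have h7 : (0 : ℤ) < k := by exact_mod_cast h5
      have h8 : k < (1 : ℤ) := by exact_mod_cast h6
      omega
    have hl : ∀ g ∈ lens q s, (1 - z • toC g).det ≠ 0 := by
      intro g hg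
      refine det_ne g q ?_ z hzq
      have h3 : (⟨g, hg⟩ : lens q s) ^ Fintype.card (lens q s) = 1 := pow_card_eq_one
      rw [hc2] at h3
      exact congrArg Subtype.val h3
    have h3 := hspec G (lens q s) hiso' z h2 hl
    rw [hc1, hc2] at h3
    have hqC : (q : ℂ) ≠ 0 := by
      have : q ≠ 0 := by omega
      exact_mod_cast this
    have h4 := mul_left_cancel₀ hqC h3
    have h5 : Fl φ = ∑ g : lens q s,
        ((1 - z • toC (g : Matrix.orthogonalGroup (Fin (2 * n)) ℝ)).det)⁻¹ := h4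
    rw [h5, hsum fun g => ((1 - z • toC g).det)⁻¹]
    unfold phi
    rw [Complex.ofReal_sum, Finset.mul_sum]
    refine Finset.sum_congr rfl fun j _ => ?_
    rw [hdet, Complex.ofReal_prod, ← Finset.prod_inv_distrib]
    have h6 : z ^ n = ∏ _i : Fin n, z := by
      rw [Finset.prod_const, Finset.card_univ, Fintype.card_fin]
    rw [h6, ← Finset.prod_mul_distrib]
    refine Finset.prod_congr rfl fun i _ => ?_
    have h7 : (2 * Real.pi * ((j * s i : ℕ) : ℝ) / (q : ℝ)) =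
        (j : ℝ) * (2 * Real.pi * (s i : ℝ) / (q : ℝ)) := by
      push_cast
      ring
    rw [h7]
    have h8 : ((2 * Real.cos φ : ℝ) : ℂ) = z + z⁻¹ := by
      rw [hz, ← Complex.exp_neg]
      push_cast
      rw [Complex.cos]
      ring_nf
    push_cast at h8 ⊢
    rw [h8]
    have h9 : 1 - 2 * Complex.cos ((j : ℂ) * (2 * Real.pi * (s i : ℂ) / (q : ℂ))) * z + z ^ 2 =
        z * (z + z⁻¹ - 2 * Complex.cos ((j : ℂ) * (2 * Real.pi * (s i : ℂ) / (q : ℂ)))) := by
      field_simp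
      ring
    rw [h9, mul_inv, ← mul_assoc, mul_inv_cancel₀ hz0, one_mul]
  -- the limit
  have hlim : Tendsto (fun φ : ℝ => (2 * Real.cos φ - 2 * Real.cos φ0) *
      phi q s (2 * Real.cos φ)) (𝓝[<] φ0) (𝓝 0) := by
    have h1 : Tendsto (fun φ : ℝ => ((2 * Real.cos φ - 2 * Real.cos φ0 : ℝ) : ℂ) *
        (Complex.exp (φ * Complex.I) ^ n * Fl φ)) (𝓝 φ0) (𝓝 0) := by
      have h2 : ContinuousAt (fun φ : ℝ => ((2 * Real.cos φ - 2 * Real.cos φ0 : ℝ) : ℂ) *
          (Complex.exp (φ * Complex.I) ^ n * Fl φ)) φ0 := by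
        refine ContinuousAt.mul ?_ (ContinuousAt.mul ?_ hFlc)
        · exact Complex.continuous_ofReal.continuousAt.comp (by fun_prop)
        · fun_prop
      have h3 := h2.tendsto
      simpa using h3
    have h4 := (Complex.continuous_re.tendsto 0).comp 
      (h1.mono_left (nhdsWithin_le_nhds (s := Set.Iio φ0)))
    rw [Complex.zero_re] at h4
    refine h4.congr' ?_
    filter_upwards [hid] with φ h5
    simp only [Function.comp]
    rw [← h5, ← Complex.ofReal_mul, Complex.ofReal_re]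
  refine not_tendsto q hn hq3 s (fun i => (hs i).2.2) (l := 𝓝[<] φ0)
    (fun φ => 2 * Real.cos φ) ?_ ?_ ?_ hlim
  · have h1 : ContinuousAt (fun φ : ℝ => 2 * Real.cos φ) φ0 := by fun_prop
    exact h1.tendsto.mono_left nhdsWithin_le_nhds
  · filter_upwards [hev2] with φ h
    have := Real.cos_lt_cos_of_nonneg_of_le_pi h.1.le hφ0pi h.2
    linarith
  · filter_upwards with φ
    have := Real.cos_le_one φ
    linarith

end MPc53f59
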